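import Pool.Agent.H827.HS.Fn

/-!
# Functions on standard manifolds
-/

set_option autoImplicit false
set_option linter.unusedSectionVars false

open Set Filter Topology Metric Function MeasureTheory
open scoped Manifold ContDiff NNReal

noncomputable section

namespace Pool.Agent.H827.HS

open Pool.Agent.Y522 Pool.Agent.X175.SH Pool.Agent.N550.KH Pool.Agent.H829.AZ Pool.Agent.H827.LV

section top

variable {n : ℕ} {ρ : E n ≃ₗᵢ[ℝ] E n} {M : Type} [TopologicalSpace M] [T2Space M] {π : E n → M}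

theorem dk_cont (ρ : E n ≃ₗᵢ[ℝ] E n) (k : ℤ) : Continuous (dk ρ k) :=
  continuous_iff_continuousAt.2 fun x => (dk_LD ρ k x).continuousAt

/-- the projection is open -/
theorem TStd.isOpen_image (h : TStd ρ π) {U : Set (E n)} (hU : IsOpen U) (hU0 : ∀ z ∈ U, z ≠ 0) :
    IsOpen (π '' U) := by
  let A : Set (E n) := {z | 1 ≤ ‖z‖ ∧ ‖z‖ ≤ 2}
  have hAc : IsCompact A := by
    have : A = closedBall 0 2 ∩ {z | 1 ≤ ‖z‖} := by
      ext z
      simp [A, and_comm]
    rw [this]
    exact (isCompact_closedBall _ _).inter_right (isClosed_le continuous_const continuous_norm)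
  have hA0 : ∀ z ∈ A, z ≠ 0 := by
    rintro z ⟨hz, -⟩ rfl
    rw [norm_zero] at hz
    linarith
  have : CompactSpace A := isCompact_iff_compactSpace.1 hAc
  have hπA : Continuous fun z : A => π z.1 := by
    rw [continuous_iff_continuousAt]
    intro z
    exact ContinuousAt.comp (g := π) (f := (Subtype.val : A → E n)) (h.cont z.1 (hA0 z.1 z.2))
      continuous_subtype_val.continuousAt
  have hsurjA : Surjective fun z : A => π z.1 := by
    intro x
    obtain ⟨z, h1, h2, h3⟩ := h.norm_level one_pos x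
    exact ⟨⟨z, h1, by linarith⟩, h3⟩
  have hq : IsQuotientMap fun z : A => π z.1 := hπA.isClosedMap.isQuotientMap hπA hsurjA
  rw [← hq.isOpen_preimage]
  have h1 : (fun z : A => π z.1) ⁻¹' (π '' U) = ⋃ k : ℤ, {z : A | dk ρ k z.1 ∈ U} := by
    ext z
    simp only [mem_preimage, mem_iUnion, mem_ofPred_eq]
    constructor
    · rintro ⟨w, hw, hwz⟩
      obtain ⟨k, hk⟩ := (h.fib z.1 w (hA0 z.1 z.2) (hU0 w hw)).1 hwz.symm
      exact ⟨k, by rw [← hk]; exact hw⟩
    · rintro ⟨k, hk⟩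
      exact ⟨_, hk, h.inv (hA0 z.1 z.2) k⟩
  rw [h1]
  exact isOpen_iUnion fun k => hU.preimage ((dk_cont ρ k).comp continuous_subtype_val)

/-- compact sets in a thin shell -/
theorem TStd.shell_ne (h : TStd ρ π) (hn : 1 ≤ n) {s : ℝ} (hs : 0 < s) :
    ∃ x : M, ∀ z, 3 / 4 * s < ‖z‖ → ‖z‖ < 5 / 4 * s → π z ≠ x := by
  let j : Fin n := ⟨0, by omega⟩
  have hns : ‖(7 / 5 * s) • qq j‖ = 7 / 5 * s := by
    rw [norm_smul, norm_qq, mul_one, Real.norm_of_nonneg (by positivity)]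
  refine ⟨π ((7 / 5 * s) • qq j), fun z h1 h2 hz => ?_⟩
  have hz0 : z ≠ 0 := by
    rw [← norm_pos_iff]
    nlinarith
  have h0 : (7 / 5 * s) • qq j ≠ 0 := by
    rw [← norm_pos_iff, hns]
    positivity
  have h3 := h.level h0 hz0 hz.symm (by rw [hns]; linarith) (by rw [hns]; linarith)
  rw [h3, hns] at h2
  linarith

end top

section back

variable {ρ : E (3 + 1) ≃ₗᵢ[ℝ] E (3 + 1)} {M : Type} [TopologicalSpace M] [T2Space M]
  [ChartedSpace (E (3 + 1)) M] [IsManifold (𝓡 (3 + 1)) ∞ M] {π : E (3 + 1) → M} {p : M}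

/-- the inverse of the projection on small sets -/
theorem Std.emb_off (h : Std ρ π p) {H : M ≃ₜ M} (hH : ∀ x, x ≠ p → LD (3 + 1) H x)
    (hHp : H p = p) {s : ℝ} (hs : 0 < s) :
    Emb (3 + 1) (H ⁻¹' (π '' {z | 3 / 4 * s < ‖z‖ ∧ ‖z‖ < 5 / 4 * s}) \ {p}) := by
  classical
  have hT := h.top
  let T : Set (E (3 + 1)) := {z | 3 / 4 * s < ‖z‖ ∧ ‖z‖ < 5 / 4 * s}
  have hT0 : ∀ z ∈ T, z ≠ 0 := by
    intro z hz
    rw [← norm_pos_iff]
    nlinarith [hz.1]
  have hTo : IsOpen T := (isOpen_lt continuous_const continuous_norm).inter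
      (isOpen_lt continuous_norm continuous_const)
  have hTi : InjOn π T := by
    intro z hz w hw hzw
    exact (hT.level (hT0 z hz) (hT0 w hw) hzw (by nlinarith [hz.1, hw.2])
      (by nlinarith [hz.2, hw.1])).symm
  let j : M → E (3 + 1) := fun x => if hx : ∃ z ∈ T, π z = x then hx.choose else 0
  have hj : ∀ z ∈ T, j (π z) = z := by
    intro z hz
    have hx : ∃ w ∈ T, π w = π z := ⟨z, hz, rfl⟩
    have h1 : j (π z) = hx.choose := dif_pos hx
    rw [h1]
    exact hTi hx.choose_spec.1 hz hx.choose_spec.2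
  -- the part off `p`
  have hT'o : IsOpen (T ∩ {z | π z ≠ p}) := by
    rw [isOpen_iff_mem_nhds]
    rintro z ⟨hz, hzp⟩
    exact inter_mem (hTo.mem_nhds hz) ((h.cont z (hT0 z hz)).eventually_ne hzp)
  have hjL : ∀ z ∈ T, π z ≠ p → LD (3 + 1) j (π z) := by
    intro z hz hzp
    exact LD.inverse (k := π) (U := T ∩ {z | π z ≠ p}) hT'o
      (fun w hw => h.ld w (hT0 w hw.1) hw.2) (fun w hw => hj w hw.1) ⟨hz, hzp⟩
  refine ⟨_, fun x => j (H x), ?_, subset_rfl, ?_, ?_⟩
  · exact ((hT.isOpen_image hTo hT0).preimage H.continuous).sdiff isClosed_singleton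
  · rintro x ⟨⟨z, hz, hzx⟩, -⟩ y ⟨⟨w, hw, hwy⟩, -⟩ hxy
    simp only at hxy
    rw [← hzx, ← hwy, hj z hz, hj w hw] at hxy
    apply H.injective
    rw [← hzx, ← hwy, hxy]
  · rintro x ⟨⟨z, hz, hzx⟩, hxp⟩
    refine LD.comp_fun (g := j) (f := H) ?_ (hH x hxp)
    rw [← hzx]
    refine hjL z hz fun hc => hxp ?_
    apply H.injective
    rw [hHp, ← hc, hzx]

/-- compact sets in thin shells embed -/
theorem Std.emb_shell (h : Std ρ π p) {H : M ≃ₜ M} (hH : ∀ x, x ≠ p → LD (3 + 1) H x)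
    (hHp : H p = p) {s : ℝ} (hs : 0 < s) {K : Set M} (hK : IsCompact K)
    (hKs : K ⊆ H ⁻¹' (π '' {z | 3 / 4 * s < ‖z‖ ∧ ‖z‖ < 5 / 4 * s})) : Emb (3 + 1) K := by
  have hT := h.top
  have hemb := h.emb_off hH hHp hs
  obtain ⟨V, hV⟩ : ∃ V : Set M, V = H ⁻¹' (π '' {z | 3 / 4 * s < ‖z‖ ∧ ‖z‖ < 5 / 4 * s}) :=
    ⟨_, rfl⟩
  rw [← hV] at hemb hKs
  have hT0 : ∀ z ∈ {z : E (3 + 1) | 3 / 4 * s < ‖z‖ ∧ ‖z‖ < 5 / 4 * s}, z ≠ 0 := by
    intro z hz
    rw [← norm_pos_iff]
    nlinarith [hz.1]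
  have hVo : IsOpen V := by
    rw [hV]
    exact (hT.isOpen_image ((isOpen_lt continuous_const continuous_norm).inter
      (isOpen_lt continuous_norm continuous_const)) hT0).preimage H.continuous
  have hVp : IsPreconnected V := by
    have h1 : V = (fun z => H.symm (π (s • rq (3 / 4) z))) '' {0}ᶜ := by
      ext x
      rw [hV]
      constructor
      · rintro ⟨z, hz, hzx⟩
        have h2 : ‖s⁻¹ • z‖ = s⁻¹ * ‖z‖ := by
          rw [norm_smul, Real.norm_of_nonneg (inv_nonneg.2 hs.le)]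
        have h3 : 3 / 4 < ‖s⁻¹ • z‖ := by
          rw [h2, ← div_eq_inv_mul, lt_div_iff₀ hs]
          exact hz.1
        have h4 : ‖s⁻¹ • z‖ < 2 - 3 / 4 := by
          rw [h2, ← div_eq_inv_mul, div_lt_iff₀ hs]
          linarith [hz.2]
        refine ⟨rqi (3 / 4) (s⁻¹ • z), rqi_ne (by norm_num) h3 h4, ?_⟩
        simp only
        rw [rq_sqi (by norm_num) (by norm_num) h3 h4, smul_smul, mul_inv_cancel₀ hs.ne', one_smul,
          hzx, H.symm_apply_apply]
      · rintro ⟨z, hz, rfl⟩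
        refine ⟨s • rq (3 / 4) z, ?_, by rw [H.apply_symm_apply]⟩
        have h3 := rq_lo (a := 3 / 4) (by norm_num) (by norm_num) hz
        have h4 := rq_hi (a := 3 / 4) (by norm_num) (by norm_num) hz
        have h5 : ‖s • rq (3 / 4) z‖ = s * ‖rq (3 / 4) z‖ := by
          rw [norm_smul, Real.norm_of_nonneg hs.le]
        constructor
        · rw [h5]
          nlinarith
        · rw [h5]
          nlinarith
    rw [h1]
    refine (punct_preconnected (n := 3 + 1) (by norm_num)).image _ fun z hz => ?_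
    refine ContinuousAt.continuousWithinAt ?_
    refine H.symm.continuous.continuousAt.comp ?_
    refine ContinuousAt.comp (g := π) (f := fun z => s • rq (3 / 4) z) (hT.cont _ ?_) ?_
    · have h3 := rq_lo (a := 3 / 4) (by norm_num) (by norm_num) hz
      refine smul_ne_zero hs.ne' ?_
      rw [← norm_pos_iff]
      linarith
    · exact (rq_LD (a := 3 / 4) (by norm_num) (by norm_num) hz).continuousAt.const_smul s
  by_cases hp : p ∈ K
  · have hpV := hKs hp
    obtain ⟨q, hqV, hqK⟩ : ∃ q, q ∈ V ∧ q ∉ K := by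
      by_contra hcon
      push Not at hcon
      have h1 : V = K := Subset.antisymm hcon hKs
      have h2 : IsClosed V := by
        rw [h1]
        exact hK.isClosed
      have : PreconnectedSpace M := ⟨hT.preconnected (by norm_num)⟩
      have h4 := IsClopen.eq_univ ⟨h2, hVo⟩ ⟨p, hpV⟩
      obtain ⟨x, hx⟩ := hT.shell_ne (by norm_num) hs
      have h5 : H.symm x ∈ V := h4 ▸ mem_univ _
      rw [hV] at h5
      obtain ⟨z, hz, hzx⟩ := h5
      rw [H.apply_symm_apply] at hzx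
      exact hx z hz.1 hz.2 hzx
    obtain ⟨κ, hκ, hκq, hκV⟩ := LV.move_in (n := 3 + 1) hVo hqV
      (hVp.subset_connectedComponentIn hqV subset_rfl hpV)
    refine LV.emb_of_image hκ (Emb.mono hemb ?_)
    rintro _ ⟨x, hx, rfl⟩
    refine ⟨?_, ?_⟩
    · by_contra hc
      have h1 := hκV _ hc
      have h2 := hκ.1.1 h1
      rw [h2] at hc
      exact hc (hKs hx)
    · intro hc
      have h1 : κ x = κ q := by
        rw [hκq]
        exact hc
      exact hqK (hκ.1.1 h1 ▸ hx)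
  · exact Emb.mono hemb fun x hx => ⟨hKs hx, fun hc => hp (hc ▸ hx)⟩

end back

end Pool.Agent.H827.HS
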