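import Pool.Agent.H827.HS.Pi
import Pool.Agent.H827.LV.Lift

/-!
# Maps to the circle
-/

set_option autoImplicit false
set_option linter.unusedSectionVars false

open Set Filter Topology Metric Function MeasureTheory
open scoped Manifold ContDiff NNReal

noncomputable section

namespace Pool.Agent.H827.HS

open Pool.Agent.Y522 Pool.Agent.X175.SH Pool.Agent.N550.KH Pool.Agent.H829.AZ

/-- integer valued continuous functions on preconnected sets are constant -/
theorem int_const {X : Type} [TopologicalSpace X] {A : Set X} (hA : IsPreconnected A) {d : X → ℝ}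
    (hd : ContinuousOn d A) (hz : ∀ x ∈ A, ((d x : ℝ) : AddCircle (1 : ℝ)) = 0) :
    ∀ x ∈ A, ∀ y ∈ A, d x = d y := by
  have hint : ∀ x ∈ A, ∃ k : ℤ, d x = k := by
    intro x hx
    obtain ⟨k, hk⟩ := AddCircle.coe_eq_zero_iff (1 : ℝ) |>.1 (hz x hx)
    exact ⟨k, by rw [← hk]; simp⟩
  have key : ∀ x ∈ A, ∀ y ∈ A, ¬ d x < d y := by
    intro x hx y hy hlt
    obtain ⟨a, ha⟩ := hint x hx
    obtain ⟨b, hb⟩ := hint y hy
    have hab : a < b := by
      rw [ha, hb] at hlt
      exact_mod_cast hlt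
    have hab' : (a : ℝ) + 1 ≤ b := by exact_mod_cast hab
    obtain ⟨w, hw, hwd⟩ := hA.intermediate_value hx hy hd
      (show (a : ℝ) + 1 / 2 ∈ Icc (d x) (d y) by
        rw [ha, hb]
        constructor <;> linarith)
    obtain ⟨c, hc⟩ := hint w hw
    rw [hc] at hwd
    have h1 : (a : ℝ) < c := by linarith
    have h2 : (c : ℝ) < a + 1 := by linarith
    have h1' : a < c := by exact_mod_cast h1
    have h2' : c < a + 1 := by exact_mod_cast h2
    omega
  intro x hx y hy
  exact le_antisymm (not_lt.1 (key y hy x hx)) (not_lt.1 (key x hx y hy))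

variable {n : ℕ}

/-- the complement of a ray -/
def Ur (j : Fin n) (s : ℝ) : Set (E n) := {z | 0 < s * z j ∨ ∃ i, i ≠ j ∧ z i ≠ 0}

theorem Ur_open (j : Fin n) (s : ℝ) : IsOpen (Ur j s) := by
  have h1 : Ur j s = {z : E n | 0 < s * z j} ∪ ⋃ i ∈ {i : Fin n | i ≠ j}, {z : E n | z i ≠ 0} := by
    ext z
    simp [Ur]
  rw [h1]
  refine (isOpen_lt continuous_const (by fun_prop)).union (isOpen_biUnion fun i _ => ?_)
  exact isOpen_ne_fun (by fun_prop) continuous_const

theorem Ur_star (j : Fin n) {s : ℝ} (hs : s * s = 1) : StarConvex ℝ (s • qq j) (Ur j s) := by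
  intro z hz a b ha hb hab
  have hj : (a • s • qq j + b • z) j = a * s + b * z j := by
    simp [qq]
  have hi : ∀ i, i ≠ j → (a • s • qq j + b • z) i = b * z i := by
    intro i hi
    simp [qq, hi]
  rcases hb.lt_or_eq with hb | hb
  · rcases hz with hz | ⟨i, hi1, hi2⟩
    · left
      rw [hj]
      have : s * (a * s + b * z j) = a + b * (s * z j) := by
        linear_combination a * hs
      rw [this]
      positivity
    · exact Or.inr ⟨i, hi1, by rw [hi i hi1]; exact mul_ne_zero hb.ne' hi2⟩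
  · left
    rw [hj, ← hb]
    have ha1 : a = 1 := by linarith
    rw [ha1]
    nlinarith

/-- lifts on the complement of a ray -/
theorem ray_lift (j : Fin n) {s : ℝ} (hs : s * s = 1) {θ : E n → AddCircle (1 : ℝ)}
    (hθ : ContinuousOn θ (Ur j s)) :
    ∃ g : E n → ℝ, ContinuousOn g (Ur j s) ∧
      ∀ z ∈ Ur j s, ((g z : ℝ) : AddCircle (1 : ℝ)) = θ z := by
  classical
  let U : TopologicalSpace.Opens (E n) := ⟨Ur j s, Ur_open j s⟩
  have hne : (Ur j s).Nonempty := ⟨s • qq j, by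
    left
    have : (s • qq j) j = s := by simp [qq]
    rw [this, hs]
    exact one_pos⟩
  have hcon : ContractibleSpace U := (Ur_star j hs).contractibleSpace hne
  obtain ⟨g, hg, hgθ⟩ := LV.lift_of_simplyConnected (n := n) (X := U) (fun z => θ z.1)
    (continuousOn_iff_continuous_restrict.1 hθ)
  refine ⟨fun z => if h : z ∈ Ur j s then g ⟨z, h⟩ else 0, ?_, ?_⟩
  · rw [continuousOn_iff_continuous_restrict]
    refine hg.congr fun z => ?_
    have hz : (z : E n) ∈ Ur j s := z.2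
    show g z = (if h : (z : E n) ∈ Ur j s then g ⟨z, h⟩ else 0)
    rw [dif_pos hz]
  · intro z hz
    simp only
    rw [dif_pos hz]
    exact hgθ ⟨z, hz⟩

theorem Ur_union (j : Fin n) {z : E n} (hz : z ≠ 0) : z ∈ Ur j 1 ∨ z ∈ Ur j (-1) := by
  by_contra hcon
  push Not at hcon
  obtain ⟨h1, h2⟩ := hcon
  refine hz ?_
  ext i
  by_cases hi : i = j
  · subst hi
    have a1 : ¬ (0 < 1 * z i) := fun h => h1 (Or.inl h)
    have a2 : ¬ (0 < -1 * z i) := fun h => h2 (Or.inl h)
    show z i = 0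
    linarith
  · by_contra hc
    exact h1 (Or.inr ⟨i, hi, hc⟩)

theorem Ur_ne {j : Fin n} {s : ℝ} {z : E n} (hz : z ∈ Ur j s) : z ≠ 0 := by
  rintro rfl
  rcases hz with hz | ⟨i, -, hi⟩
  · simp at hz
  · simp at hi

theorem Ur_inter (hn : 3 ≤ n) (j : Fin n) : IsPreconnected (Ur j 1 ∩ Ur j (-1)) := by
  have h1 : Ur j 1 ∩ Ur j (-1) = ((Submodule.span ℝ {qq j} : Submodule ℝ (E n)) : Set (E n))ᶜ := by
    ext z
    constructor
    · rintro ⟨h1, h2⟩ hc
      obtain ⟨a, ha⟩ := Submodule.mem_span_singleton.1 hc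
      have h3 : ∀ i, i ≠ j → z i = 0 := by
        intro i hi
        rw [← ha]
        simp [qq, hi]
      rcases h1 with h1 | ⟨i, hi, hi'⟩
      · rcases h2 with h2 | ⟨i, hi, hi'⟩
        · linarith
        · exact hi' (h3 i hi)
      · exact hi' (h3 i hi)
    · intro hc
      have h3 : ∃ i, i ≠ j ∧ z i ≠ 0 := by
        by_contra hcon
        push Not at hcon
        refine hc (Submodule.mem_span_singleton.2 ⟨z j, ?_⟩)
        ext i
        by_cases hi : i = j
        · subst hi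
          simp [qq]
        · rw [hcon i hi]
          simp [qq, hi]
      exact ⟨Or.inr h3, Or.inr h3⟩
  rw [h1]
  refine (isConnected_compl_of_one_lt_codim ?_).isPreconnected
  have h2 := (Submodule.span ℝ {qq j} : Submodule ℝ (E n)).finrank_quotient_add_finrank
  rw [finrank_span_singleton (by
    intro h
    have := norm_qq j
    rw [h, norm_zero] at this
    exact zero_ne_one this), finrank_euclideanSpace_fin] at h2
  rw [← Module.finrank_eq_rank]
  have h3 : 1 < Module.finrank ℝ (E n ⧸ (Submodule.span ℝ {qq j} : Submodule ℝ (E n))) := by omega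
  exact_mod_cast h3

/-- circle maps on the punctured space lift -/
theorem punct_lift (hn : 3 ≤ n) {θ : E n → AddCircle (1 : ℝ)} (hθ : ContinuousOn θ {0}ᶜ) :
    ∃ g : E n → ℝ, ContinuousOn g {0}ᶜ ∧ ∀ z, z ≠ 0 → ((g z : ℝ) : AddCircle (1 : ℝ)) = θ z := by
  classical
  let j : Fin n := ⟨0, by omega⟩
  have hsub : ∀ s : ℝ, Ur j s ⊆ {0}ᶜ := fun s z hz => Ur_ne hz
  obtain ⟨g₁, hg₁, hg₁'⟩ := ray_lift j (s := 1) (by norm_num) (hθ.mono (hsub 1))
  obtain ⟨g₂, hg₂, hg₂'⟩ := ray_lift j (s := -1) (by norm_num) (hθ.mono (hsub (-1)))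
  have hconst := int_const (Ur_inter hn j) (d := fun z => g₁ z - g₂ z)
    ((hg₁.mono inter_subset_left).sub (hg₂.mono inter_subset_right)) (fun z hz => by
      rw [AddCircle.coe_sub, hg₁' z hz.1, hg₂' z hz.2, sub_self])
  obtain ⟨z₁, hz₁⟩ : ∃ z₁ : E n, z₁ ∈ Ur j 1 ∩ Ur j (-1) := by
    let i : Fin n := ⟨1, by omega⟩
    have hij : i ≠ j := by
      intro h
      have := congrArg Fin.val h
      simp [i, j] at this
    have h1 : (qq i : E n) i ≠ 0 := by simp [qq]
    exact ⟨qq i, Or.inr ⟨i, hij, h1⟩, Or.inr ⟨i, hij, h1⟩⟩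
  obtain ⟨c, hc⟩ : ∃ c : ℝ, c = g₁ z₁ - g₂ z₁ := ⟨_, rfl⟩
  have hc0 : ((c : ℝ) : AddCircle (1 : ℝ)) = 0 := by
    rw [hc, AddCircle.coe_sub, hg₁' z₁ hz₁.1, hg₂' z₁ hz₁.2, sub_self]
  let g : E n → ℝ := fun z => if z ∈ Ur j 1 then g₁ z else g₂ z + c
  have e1 : ∀ z ∈ Ur j 1, g z = g₁ z := fun z hz => if_pos hz
  have e2 : ∀ z ∈ Ur j (-1), g z = g₂ z + c := by
    intro z hz
    by_cases h : z ∈ Ur j 1
    · rw [e1 z h, hc]
      have := hconst z ⟨h, hz⟩ z₁ hz₁
      linarith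
    · exact if_neg h
  refine ⟨g, ?_, ?_⟩
  · intro z hz
    refine ContinuousAt.continuousWithinAt ?_
    rcases Ur_union j hz with h | h
    · refine ((hg₁ z h).continuousAt ((Ur_open j 1).mem_nhds h)).congr ?_
      filter_upwards [(Ur_open j 1).mem_nhds h] with w hw
      exact (e1 w hw).symm
    · have h3 : ContinuousAt (fun z => g₂ z + c) z :=
        ((hg₂ z h).continuousAt ((Ur_open j (-1)).mem_nhds h)).add continuousAt_const
      refine h3.congr ?_
      filter_upwards [(Ur_open j (-1)).mem_nhds h] with w hw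
      exact (e2 w hw).symm
  · intro z hz
    rcases Ur_union j hz with h | h
    · rw [e1 z h, hg₁' z h]
    · rw [e2 z h, AddCircle.coe_add, hc0, add_zero, hg₂' z h]

/-! ### The topology of the quotient -/

/-- `M` is the quotient of the punctured space by `z ↦ 2 ρ z` -/
structure TStd (ρ : E n ≃ₗᵢ[ℝ] E n) {M : Type} [TopologicalSpace M] (π : E n → M) : Prop where
  surj : ∀ x, ∃ z, z ≠ 0 ∧ π z = x
  fib : ∀ z w, z ≠ 0 → w ≠ 0 → (π z = π w ↔ ∃ k : ℤ, w = dk ρ k z)
  cont : ∀ z, z ≠ 0 → ContinuousAt π z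

theorem Std.top {ρ : E n ≃ₗᵢ[ℝ] E n} {M : Type} [TopologicalSpace M] [ChartedSpace (E n) M]
    {π : E n → M} {p : M} (h : Std ρ π p) : TStd ρ π := ⟨h.surj, h.fib, h.cont⟩

section top

variable {ρ : E n ≃ₗᵢ[ℝ] E n} {M : Type} [TopologicalSpace M] [T2Space M] {π : E n → M}
  (h : TStd ρ π)

include h

theorem TStd.norm_level {r : ℝ} (hr : 0 < r) (x : M) : ∃ z, r ≤ ‖z‖ ∧ ‖z‖ < 2 * r ∧ π z = x := by
  obtain ⟨z, hz, rfl⟩ := h.surj x
  have hz' := norm_pos_iff.2 hz
  obtain ⟨k, hk1, hk2⟩ := exists_mem_Ico_zpow (x := ‖z‖ / r) (y := (2 : ℝ)) (by positivity)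
    (by norm_num)
  rw [le_div_iff₀ hr] at hk1
  rw [zpow_add_one₀ (by norm_num), div_lt_iff₀ hr] at hk2
  have h2k : (0 : ℝ) < 2 ^ k := by positivity
  refine ⟨dk ρ (-k) z, ?_, ?_, ?_⟩
  · rw [dk_norm, zpow_neg, ← div_eq_inv_mul, le_div_iff₀ h2k]
    linarith
  · rw [dk_norm, zpow_neg, ← div_eq_inv_mul, div_lt_iff₀ h2k]
    linarith
  · exact ((h.fib z _ hz (dk_ne ρ _ hz)).2 ⟨-k, rfl⟩).symm

theorem TStd.inv {z : E n} (hz : z ≠ 0) (k : ℤ) : π (dk ρ k z) = π z :=
  ((h.fib z _ hz (dk_ne ρ _ hz)).2 ⟨k, rfl⟩).symm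

/-- invariant maps descend -/
theorem TStd.desc {Y : Type} [TopologicalSpace Y] {f : E n → Y} (hf : ContinuousOn f {0}ᶜ)
    (hinv : ∀ z, z ≠ 0 → f (dk ρ 1 z) = f z) :
    ∃ F : M → Y, Continuous F ∧ ∀ z, z ≠ 0 → F (π z) = f z := by
  have hinvk : ∀ (k : ℤ) (z : E n), z ≠ 0 → f (dk ρ k z) = f z := by
    intro k
    induction k using Int.induction_on with
    | zero =>
      intro z _
      rw [dk_zero]
    | succ k ih =>
      intro z hz
      rw [add_comm, ← dk_add, hinv _ (dk_ne ρ _ hz), ih z hz]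
    | pred k ih =>
      intro z hz
      have h1 := hinv (dk ρ (-(k : ℤ) - 1) z) (dk_ne ρ _ hz)
      rw [dk_add, show (1 : ℤ) + (-(k : ℤ) - 1) = -(k : ℤ) by ring] at h1
      rw [← h1, ih z hz]
  choose s hs0 hs using h.surj
  refine ⟨fun x => f (s x), ?_, ?_⟩
  · let A : Set (E n) := {z | 1 ≤ ‖z‖ ∧ ‖z‖ ≤ 2}
    have hAc : IsCompact A := by
      have : A = closedBall 0 2 ∩ {z | 1 ≤ ‖z‖} := by
        ext z
        simp [A, and_comm]
      rw [this]
      exact (isCompact_closedBall _ _).inter_right (isClosed_le continuous_const continuous_norm)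
    have hA0 : ∀ z ∈ A, z ≠ 0 := by
      rintro z ⟨hz, -⟩ rfl
      rw [norm_zero] at hz
      linarith
    have : CompactSpace A := isCompact_iff_compactSpace.1 hAc
    have hπA : Continuous fun z : A => π z.1 := by
      rw [continuous_iff_continuousAt]
      intro z
      exact ContinuousAt.comp (g := π) (f := (Subtype.val : A → E n)) (h.cont z.1 (hA0 z.1 z.2))
        continuous_subtype_val.continuousAt
    have hsurjA : Surjective fun z : A => π z.1 := by
      intro x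
      obtain ⟨z, h1, h2, h3⟩ := h.norm_level one_pos x
      exact ⟨⟨z, h1, by linarith⟩, h3⟩
    have hq : IsQuotientMap fun z : A => π z.1 := hπA.isClosedMap.isQuotientMap hπA hsurjA
    rw [hq.continuous_iff]
    have h1 : ((fun x => f (s x)) ∘ fun z : A => π z.1) = fun z : A => f z.1 := by
      funext z
      show f (s (π z.1)) = f z.1
      obtain ⟨k, hk⟩ := (h.fib z.1 _ (hA0 z.1 z.2) (hs0 (π z.1))).1 (hs (π z.1)).symm
      rw [hk, hinvk k _ (hA0 z.1 z.2)]
    rw [h1]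
    rw [continuous_iff_continuousAt]
    intro z
    exact ContinuousAt.comp (g := f) (f := (Subtype.val : A → E n))
      ((hf z.1 (hA0 z.1 z.2)).continuousAt (isOpen_compl_singleton.mem_nhds (hA0 z.1 z.2)))
      continuous_subtype_val.continuousAt
  · intro z hz
    show f (s (π z)) = f z
    obtain ⟨k, hk⟩ := (h.fib z _ hz (hs0 (π z))).1 (hs (π z)).symm
    rw [hk, hinvk k _ hz]

/-- the degree of a circle map -/
theorem TStd.deg (hn : 3 ≤ n) {θ : M → AddCircle (1 : ℝ)} (hθ : Continuous θ) :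
    ∃ (g : E n → ℝ) (a : ℤ), ContinuousOn g {0}ᶜ ∧
      (∀ z, z ≠ 0 → ((g z : ℝ) : AddCircle (1 : ℝ)) = θ (π z)) ∧
      ∀ z, z ≠ 0 → g (dk ρ 1 z) = g z + a := by
  have hc : ContinuousOn (fun z => θ (π z)) {0}ᶜ := fun z hz =>
    (hθ.continuousAt.comp (h.cont z hz)).continuousWithinAt
  obtain ⟨g, hg, hgθ⟩ := punct_lift hn hc
  have hpre : IsPreconnected ({0}ᶜ : Set (E n)) := by
    refine (isConnected_compl_singleton_of_one_lt_rank ?_ 0).isPreconnected
    rw [← Module.finrank_eq_rank, finrank_euclideanSpace_fin]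
    have : 1 < n := by omega
    exact_mod_cast this
  have hdk : Continuous (dk ρ 1) := continuous_iff_continuousAt.2 fun x =>
    (dk_LD ρ 1 x).continuousAt
  have hconst := int_const hpre (d := fun z => g (dk ρ 1 z) - g z)
    ((hg.comp hdk.continuousOn fun z hz => dk_ne ρ 1 hz).sub hg) (fun z hz => by
      rw [AddCircle.coe_sub, hgθ z hz, hgθ _ (dk_ne ρ 1 hz), h.inv hz, sub_self])
  let j : Fin n := ⟨0, by omega⟩
  have hj : qq j ≠ 0 := by
    intro hq
    have := norm_qq j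
    rw [hq, norm_zero] at this
    exact zero_ne_one this
  have h1 : ((g (dk ρ 1 (qq j)) - g (qq j) : ℝ) : AddCircle (1 : ℝ)) = 0 := by
    rw [AddCircle.coe_sub, hgθ _ hj, hgθ _ (dk_ne ρ 1 hj), h.inv hj, sub_self]
  obtain ⟨a, ha⟩ := (AddCircle.coe_eq_zero_iff (1 : ℝ)).1 h1
  refine ⟨g, a, hg, hgθ, fun z hz => ?_⟩
  have h2 := hconst z hz (qq j) hj
  have h3 : (a : ℝ) = g (dk ρ 1 (qq j)) - g (qq j) := by rw [← ha]; simp
  linarith

end top

end Pool.Agent.H827.HS
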