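import Pool.Agent.H827.HS.Ends

/-!
# The collapse, and the homeomorphism with the annulus
-/

set_option autoImplicit false
set_option linter.unusedSectionVars false

open Set Filter Topology Metric Function MeasureTheory
open scoped Manifold ContDiff NNReal

noncomputable section

namespace Pool.Agent.H827.HS

open Pool.Agent.Y522 Pool.Agent.X175.SH Pool.Agent.N550.KH Pool.Agent.H829.AZ

variable {n : ℕ}

theorem th_zero (j : Fin n) : T n (RS {j}) (th j 0) = th j (qq j) := by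
  have h1 : th j (0 : E n) = -((1 / 2 : ℝ) • qq j) := by
    unfold th iv0
    rw [zero_sub, norm_neg, norm_qq]
    module
  have h2 : T n (RS {j}) (qq j) = -(qq j) := by
    rw [RS_single]
    have : (qq j) j = 1 := by simp [qq]
    rw [this]
    module
  have h3 : th j (qq j) = (1 / 2 : ℝ) • qq j := by
    unfold th iv0
    rw [sub_self, smul_zero, zero_add]
  rw [h1, h3, map_neg, map_smul, h2]
  module

theorem iv0_smul {t : ℝ} (ht : t ≠ 0) (u : E n) : iv0 (t • u) = t⁻¹ • iv0 u := by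
  unfold iv0
  by_cases hu : u = 0
  · subst hu
    simp
  · have h1 := norm_pos_iff.2 hu
    rw [norm_smul, smul_smul, smul_smul]
    congr 1
    rw [mul_pow, Real.norm_eq_abs, sq_abs]
    field_simp

/-- the region with two holes in the other coordinates -/
theorem holes_iff (j : Fin n) {lam : ℝ} (hlam : 1 < lam) (w : E n) :
    (th j w ∉ (fun u => th j (lam⁻¹ • u)) '' closedBall 0 1 ∧
        th j w ∉ (fun u => T n (RS {j}) (th j (lam⁻¹ • u))) '' closedBall 0 1) ↔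
      lam⁻¹ < ‖w‖ ∧ ‖w‖ < lam ∧ w ≠ qq j := by
  have hl0 : 0 < lam := one_pos.trans hlam
  have hli : 0 < lam⁻¹ := inv_pos.2 hl0
  have hli1 : lam⁻¹ < 1 := inv_lt_one_of_one_lt₀ hlam
  have hthi : Injective (th j : E n → E n) := by
    intro u v h
    have h1 := congrArg (thi j) h
    rwa [thi_th, thi_th] at h1
  constructor
  · rintro ⟨h1, h2⟩
    refine ⟨?_, ?_, ?_⟩
    · by_contra hcon
      refine h1 ⟨lam • w, ?_, ?_⟩
      · rw [mem_closedBall_zero_iff, norm_smul, Real.norm_of_nonneg hl0.le,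
          ← le_div_iff₀' hl0, one_div]
        exact not_lt.1 hcon
      · simp only
        rw [smul_smul, inv_mul_cancel₀ hl0.ne', one_smul]
    · by_contra hcon
      push Not at hcon
      have hw1 : 1 < ‖w‖ := hlam.trans_le hcon
      have hw0 : w ≠ 0 := by
        rintro rfl
        rw [norm_zero] at hw1
        linarith
      have hwq : w ≠ qq j := by
        rintro rfl
        rw [norm_qq] at hw1
        linarith
      refine h2 ⟨lam • iv0 w, ?_, ?_⟩
      · rw [mem_closedBall_zero_iff, norm_smul, Real.norm_of_nonneg hl0.le, norm_iv0,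
          ← div_eq_mul_inv, div_le_one (by linarith)]
        exact hcon
      · simp only
        rw [smul_smul, inv_mul_cancel₀ hl0.ne', one_smul, th_inv j hw0 hwq, RS_RS]
    · rintro rfl
      refine h2 ⟨0, mem_closedBall_self zero_le_one, ?_⟩
      simp only
      rw [smul_zero, th_zero]
  · rintro ⟨h1, h2, h3⟩
    constructor
    · rintro ⟨u, hu, huw⟩
      rw [mem_closedBall_zero_iff] at hu
      have h4 : lam⁻¹ • u = w := hthi huw
      rw [← h4, norm_smul, Real.norm_of_nonneg hli.le] at h1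
      nlinarith
    · rintro ⟨u, hu, huw⟩
      rw [mem_closedBall_zero_iff] at hu
      simp only at huw
      have h5 : ‖lam⁻¹ • u‖ ≤ lam⁻¹ := by
        rw [norm_smul, Real.norm_of_nonneg hli.le]
        nlinarith
      by_cases h6 : lam⁻¹ • u = 0
      · rw [h6, th_zero] at huw
        exact h3 (hthi huw).symm
      · have h7 : lam⁻¹ • u ≠ qq j := by
          intro h
          rw [h, norm_qq] at h5
          linarith
        rw [← th_inv j h6 h7] at huw
        have h8 := hthi huw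
        rw [← h8, norm_iv0] at h2
        have h9 : 0 < ‖lam⁻¹ • u‖ := norm_pos_iff.2 h6
        rw [inv_lt_comm₀ h9 hl0] at h2
        linarith

section collapse

variable {M : Type} [TopologicalSpace M] [T2Space M] [ChartedSpace (E n) M]
  [IsManifold (𝓡 n) ∞ M]

/-- the complement of open collars is compact -/
theorem core_compact [CompactSpace M] {V : TopologicalSpace.Opens M} {ε : E n → M}
    (hε : Nk ε) (hV : (V : Set M) = (ε '' sphere 0 1)ᶜ) (x₀ : V) (S : Finset (Fin n)) {δ : ℝ}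
    (hδ : 0 < δ) :
    IsCompact {x : V | x ∉ (fun u => iv V x₀ (ε u)) '' {u | 1 < ‖u‖ ∧ ‖u‖ < 1 + δ} ∧
      x ∉ (fun u => iv V x₀ (ε (iv0 (T n (RS S) u)))) '' {u | 1 < ‖u‖ ∧ ‖u‖ < 1 + δ}} := by
  have hne0 : ∀ {u : E n}, 1 < ‖u‖ → u ≠ 0 := by
    rintro u hu rfl
    rw [norm_zero] at hu
    linarith
  have hflip := hε.flip S
  have hVS : (V : Set M) = ((fun u => ε (iv0 (T n (RS S) u))) '' sphere 0 1)ᶜ := by
    rw [flip_sphere, hV]
  have hδ' : 0 < (1 + δ)⁻¹ := by positivity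
  have hδ1 : (1 + δ)⁻¹ < 1 := inv_lt_one_of_one_lt₀ (by linarith)
  rw [Topology.IsInducing.subtypeVal.isCompact_iff]
  have h1 : IsOpen (ε '' {u | (1 + δ)⁻¹ < ‖u‖ ∧ ‖u‖ < 1 + δ}) := by
    refine isOpen_image_of_LD ((isOpen_lt continuous_const continuous_norm).inter
      (isOpen_lt continuous_norm continuous_const)) fun u hu => hε.ld u ?_
    rintro rfl
    have := hu.1
    rw [norm_zero] at this
    linarith
  convert h1.isClosed_compl.isCompact using 1
  ext x
  constructor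
  · rintro ⟨x, ⟨hx1, hx2⟩, rfl⟩ ⟨u, ⟨hu1, hu2⟩, hux⟩
    have hu0 : u ≠ 0 := by
      rintro rfl
      rw [norm_zero] at hu1
      linarith
    have hun : ‖u‖ ≠ 1 := by
      intro h
      have h2 : (x : M) ∈ (V : Set M) := x.2
      rw [← hux, hV] at h2
      exact h2 ⟨u, mem_sphere_zero_iff_norm.2 h, rfl⟩
    rcases lt_or_gt_of_ne hun with h | h
    · have hp : 0 < ‖u‖ := norm_pos_iff.2 hu0
      have h2 : ‖T n (RS S) (iv0 u)‖ = ‖u‖⁻¹ := by rw [RS_norm, norm_iv0]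
      have h3 : 1 < ‖T n (RS S) (iv0 u)‖ := by
        rw [h2]
        exact (one_lt_inv₀ hp).2 h
      refine hx2 ⟨T n (RS S) (iv0 u), ⟨h3, ?_⟩, ?_⟩
      · rw [h2, inv_lt_comm₀ hp (by linarith)]
        exact hu1
      · refine Subtype.ext ?_
        have h4 := end_val hflip hVS x₀ (hne0 h3) h3.ne'
        simp only at h4 ⊢
        rw [h4, RS_RS, iv0_iv0, hux]
    · exact hx1 ⟨u, ⟨h, hu2⟩, Subtype.ext ((end_val hε hV x₀ hu0 hun).trans hux)⟩
  · intro hx
    have hxV : x ∈ V := by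
      have : x ∈ (V : Set M) := by
        rw [hV]
        rintro ⟨u, hu, hux⟩
        rw [mem_sphere_zero_iff_norm] at hu
        exact hx ⟨u, ⟨by rw [hu]; exact hδ1, by rw [hu]; linarith⟩, hux⟩
      exact this
    refine ⟨⟨x, hxV⟩, ⟨?_, ?_⟩, rfl⟩
    · rintro ⟨u, ⟨hu1, hu2⟩, hux⟩
      have h2 := congrArg Subtype.val hux
      have h4 := end_val hε hV x₀ (hne0 hu1) hu1.ne'
      simp only at h2
      rw [h4] at h2
      exact hx ⟨u, ⟨hδ1.trans hu1, hu2⟩, h2⟩
    · rintro ⟨u, ⟨hu1, hu2⟩, hux⟩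
      have h2 := congrArg Subtype.val hux
      have h4 := end_val hflip hVS x₀ (hne0 hu1) hu1.ne'
      simp only at h2 h4
      rw [h4] at h2
      have hp : 0 < ‖u‖ := by linarith
      refine hx ⟨iv0 (T n (RS S) u), ⟨?_, ?_⟩, h2⟩
      · rw [norm_iv0, RS_norm]
        exact inv_strictAnti₀ hp hu2
      · rw [norm_iv0, RS_norm]
        have := inv_lt_one_of_one_lt₀ hu1
        linarith

/-- **The collapse.** -/
theorem collapse [CompactSpace M] {V : TopologicalSpace.Opens M} [ConnectedSpace V] {ε : E n → M}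
    (hε : Nk ε) (hV : (V : Set M) = (ε '' sphere 0 1)ᶜ) (x₀ : V) {i j : Fin n} (hij : i ≠ j)
    {lam : ℝ} (hlam : 1 < lam) :
    ∃ (S : Finset (Fin n)) (g : V → E n) (η : ℝ), (S = ∅ ∨ S = {i}) ∧ 0 < η ∧
      (∀ x, lam⁻¹ < ‖g x‖ ∧ ‖g x‖ < lam) ∧ Continuous g ∧
      (∀ y, lam⁻¹ < ‖y‖ → ‖y‖ < lam → ∃ x, g x = y) ∧
      (∀ x y, g x ≠ qq j → g x = g y → x = y) ∧ (∀ x, g x ≠ qq j → LD n g x) ∧
      (∀ u, 1 < ‖u‖ → ‖u‖ < 1 + η → g (iv V x₀ (ε u)) = lam⁻¹ • u) ∧
      ∀ u, 1 < ‖u‖ → ‖u‖ < 1 + η → g (iv V x₀ (ε (iv0 (T n (RS S) u)))) = lam • iv0 u := by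
  classical
  have hl0 : 0 < lam := one_pos.trans hlam
  have hli : 0 < lam⁻¹ := inv_pos.2 hl0
  obtain ⟨S, c, P, η, hS, hP, hci, hcl, hη, he1, he2⟩ := two_holes hε hV x₀ hij hlam
  have hflip := hε.flip S
  have hVS : (V : Set M) = ((fun u => ε (iv0 (T n (RS S) u))) '' sphere 0 1)ᶜ := by
    rw [flip_sphere, hV]
  have hPw : ∀ w, th j w ∈ P ↔ lam⁻¹ < ‖w‖ ∧ ‖w‖ < lam ∧ w ≠ qq j := by
    intro w
    rw [hP]
    exact holes_iff j hlam w
  have hPx : ∀ x, x ∈ P → lam⁻¹ < ‖thi j x‖ ∧ ‖thi j x‖ < lam ∧ thi j x ≠ qq j := by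
    intro x hx
    rw [← th_thi j x] at hx
    exact (hPw _).1 hx
  -- the two maps
  obtain ⟨m₁, hm₁⟩ : ∃ m₁ : E n → E n, m₁ = fun u => th j (lam⁻¹ • u) := ⟨_, rfl⟩
  obtain ⟨m₂, hm₂⟩ : ∃ m₂ : E n → E n, m₂ = fun u => T n (RS {j}) (th j (lam⁻¹ • u)) := ⟨_, rfl⟩
  rw [← hm₁, ← hm₂] at hP
  have hm₁a : ∀ u, m₁ u = th j (lam⁻¹ • u) := fun u => by rw [hm₁]
  have hm₂a : ∀ u, m₂ u = T n (RS {j}) (m₁ u) := fun u => by rw [hm₂, hm₁]
  have he1' : ∀ u, 1 < ‖u‖ → ‖u‖ < 1 + η → c (m₁ u) = iv V x₀ (ε u) := fun u h1 h2 => by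
    rw [hm₁a]
    exact he1 u h1 h2
  have he2' : ∀ u, 1 < ‖u‖ → ‖u‖ < 1 + η → c (m₂ u) = iv V x₀ (ε (iv0 (T n (RS S) u))) :=
    fun u h1 h2 => by
    rw [hm₂a, hm₁a]
    exact he2 u h1 h2
  let L : E n ≃L[ℝ] E n := ContinuousLinearEquiv.smulLeft (Units.mk0 lam⁻¹ hli.ne')
  have hL : ∀ u, L u = lam⁻¹ • u := fun u => rfl
  have hnq : ∀ u : E n, ‖u‖ < lam → lam⁻¹ • u ≠ qq j := by
    intro u hu h
    have h1 := congrArg norm h
    rw [norm_smul, norm_qq, Real.norm_of_nonneg hli.le, inv_mul_eq_iff_eq_mul₀ hl0.ne', mul_one]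
      at h1
    linarith
  have hm₁l : ∀ u ∈ ball (0 : E n) lam, LD n m₁ u := by
    intro u hu
    rw [hm₁]
    exact LD.comp_fun (g := th j) (f := fun u => L u) (th_LD j (hnq u (mem_ball_zero_iff.1 hu)))
      (LD_linear L u)
  have hm₂l : ∀ u ∈ ball (0 : E n) lam, LD n m₂ u := by
    intro u hu
    have : m₂ = fun u => T n (RS {j}) (m₁ u) := funext hm₂a
    rw [this]
    exact LD.comp_fun (g := fun y => T n (RS {j}) y) (f := m₁) ((re_df {j}).2 _) (hm₁l u hu)
  -- a small collar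
  obtain ⟨δ, hδ0, hδη, hδl⟩ : ∃ δ : ℝ, 0 < δ ∧ δ < η ∧ 1 + δ < lam :=
    ⟨min (η / 2) ((lam - 1) / 2), lt_min (by linarith) (by linarith),
      (min_le_left _ _).trans_lt (by linarith), by
        have := min_le_right (η / 2) ((lam - 1) / 2)
        linarith⟩
  have hδb : ball (0 : E n) (1 + δ) ⊆ ball 0 lam := ball_subset_ball hδl.le
  have hδc : closedBall (0 : E n) (1 + δ) ⊆ ball 0 lam := closedBall_subset_ball hδl
  have hcm₁ : ∀ {A : Set (E n)}, A ⊆ ball 0 lam → ContinuousOn m₁ A := fun hA u hu =>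
    (hm₁l u (hA hu)).continuousAt.continuousWithinAt
  have hcm₂ : ∀ {A : Set (E n)}, A ⊆ ball 0 lam → ContinuousOn m₂ A := fun hA u hu =>
    (hm₂l u (hA hu)).continuousAt.continuousWithinAt
  obtain ⟨Q, hQ⟩ : ∃ Q : Set (E n), Q = {x | x ∉ m₁ '' ball 0 (1 + δ) ∧ x ∉ m₂ '' ball 0 (1 + δ)} :=
    ⟨_, rfl⟩
  have hQc : IsClosed Q := by
    rw [hQ]
    exact (isOpen_image_of_LD isOpen_ball fun u hu => hm₁l u (hδb hu)).isClosed_compl.inter
      (isOpen_image_of_LD isOpen_ball fun u hu => hm₂l u (hδb hu)).isClosed_compl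
  have hQP : Q ⊆ P := by
    intro x hx
    rw [hQ] at hx
    rw [hP]
    have : closedBall (0 : E n) 1 ⊆ ball 0 (1 + δ) := closedBall_subset_ball (by linarith)
    exact ⟨fun h => hx.1 (image_mono this h), fun h => hx.2 (image_mono this h)⟩
  have hPQ : ∀ x ∈ P, x ∉ Q → c x ∈ (fun u => iv V x₀ (ε u)) '' {u | 1 < ‖u‖ ∧ ‖u‖ < 1 + δ} ∨
      c x ∈ (fun u => iv V x₀ (ε (iv0 (T n (RS S) u)))) '' {u | 1 < ‖u‖ ∧ ‖u‖ < 1 + δ} := by
    intro x hx hxQ
    rw [hP] at hx
    have h1 : x ∈ m₁ '' ball 0 (1 + δ) ∨ x ∈ m₂ '' ball 0 (1 + δ) := by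
      by_contra hcon
      push Not at hcon
      rw [hQ] at hxQ
      exact hxQ hcon
    rcases h1 with ⟨u, hu, rfl⟩ | ⟨u, hu, rfl⟩
    · have hu1 : 1 < ‖u‖ := by
        by_contra hcon
        exact hx.1 ⟨u, mem_closedBall_zero_iff.2 (not_lt.1 hcon), rfl⟩
      have hu2 := mem_ball_zero_iff.1 hu
      exact Or.inl ⟨u, ⟨hu1, hu2⟩, (he1' u hu1 (by linarith)).symm⟩
    · have hu1 : 1 < ‖u‖ := by
        by_contra hcon
        exact hx.2 ⟨u, mem_closedBall_zero_iff.2 (not_lt.1 hcon), rfl⟩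
      have hu2 := mem_ball_zero_iff.1 hu
      exact Or.inr ⟨u, ⟨hu1, hu2⟩, (he2' u hu1 (by linarith)).symm⟩
  have hPo : IsOpen P := by
    rw [hP]
    have : closedBall (0 : E n) 1 ⊆ ball 0 lam := closedBall_subset_ball hlam
    exact ((isCompact_closedBall (0 : E n) 1).image_of_continuousOn
      (hcm₁ this)).isClosed.isOpen_compl.inter
      ((isCompact_closedBall (0 : E n) 1).image_of_continuousOn
      (hcm₂ this)).isClosed.isOpen_compl
  have hne : Nonempty (E n) := ⟨0⟩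
  obtain ⟨ic, hic⟩ : ∃ ic : V → E n, ∀ x ∈ P, ic (c x) = x :=
    ⟨invFunOn c P, fun x hx => hci.leftInvOn_invFunOn hx⟩
  have hicL : ∀ x ∈ P, LD n ic (c x) := fun x hx => LD.inverse (k := c) hPo hcl hic hx
  have hcPo : IsOpen (c '' P) := isOpen_image_of_LD hPo hcl
  -- the images of the ends
  have hm₁P : ∀ u, 1 < ‖u‖ → ‖u‖ < 1 + η → ‖u‖ < lam → m₁ u ∈ P := by
    intro u hu1 hu2 hu3
    rw [hm₁a, hPw, norm_smul, Real.norm_of_nonneg hli.le]
    have h5 : lam⁻¹ * lam = 1 := inv_mul_cancel₀ hl0.ne'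
    refine ⟨by nlinarith, by nlinarith, hnq u hu3⟩
  have hm₂P : ∀ u, 1 < ‖u‖ → ‖u‖ < 1 + η → ‖u‖ < lam → m₂ u ∈ P := by
    intro u hu1 hu2 hu3
    have hu0 : lam⁻¹ • u ≠ 0 := by
      refine smul_ne_zero hli.ne' ?_
      rintro rfl
      rw [norm_zero] at hu1
      linarith
    have h5 : lam⁻¹ * lam = 1 := inv_mul_cancel₀ hl0.ne'
    have h6 : ‖lam⁻¹ • u‖ = lam⁻¹ * ‖u‖ := by rw [norm_smul, Real.norm_of_nonneg hli.le]
    have h7 : 0 < lam⁻¹ * ‖u‖ := by positivity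
    rw [hm₂a, hm₁a, ← th_inv j hu0 (hnq u hu3), hPw, norm_iv0, h6]
    refine ⟨?_, ?_, ?_⟩
    · refine inv_strictAnti₀ h7 ?_
      nlinarith
    · rw [inv_lt_comm₀ h7 hl0]
      nlinarith
    · intro h
      have h8 := congrArg iv0 h
      rw [iv0_iv0] at h8
      have h9 : iv0 (qq j) = qq j := by
        unfold iv0
        rw [norm_qq]
        simp
      rw [h9] at h8
      exact hnq u hu3 h8
  -- the map
  let g : V → E n := fun x => if x ∈ c '' P then thi j (ic x) else qq j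
  have hg1 : ∀ x ∈ P, g (c x) = thi j x := fun x hx => by
    show (if c x ∈ c '' P then thi j (ic (c x)) else qq j) = _
    rw [if_pos ⟨x, hx, rfl⟩, hic x hx]
  have hg2 : ∀ x, x ∉ c '' P → g x = qq j := fun x hx => if_neg hx
  have hg3 : ∀ x, g x ≠ qq j → x ∈ c '' P := fun x hx => by
    by_contra hcon
    exact hx (hg2 x hcon)
  have hgL : ∀ x ∈ P, LD n g (c x) := by
    intro x hx
    have h0 : x ≠ (1 / 2 : ℝ) • qq j := by
      intro h
      have h1 := hPx x hx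
      apply h1.2.2
      rw [h]
      unfold thi iv0
      rw [sub_self, smul_zero, zero_add]
    have h1 : LD n (fun y => thi j (ic y)) (c x) := by
      refine LD.comp_fun (g := thi j) (f := ic) ?_ (hicL x hx)
      rw [hic x hx]
      exact thi_LD j h0
    refine h1.congr ?_
    filter_upwards [hcPo.mem_nhds ⟨x, hx, rfl⟩] with y hy
    exact if_pos hy
  refine ⟨S, g, δ, hS, hδ0, ?_, ?_, ?_, ?_, ?_, ?_, ?_⟩
  · intro x
    by_cases hx : x ∈ c '' P
    · obtain ⟨y, hy, rfl⟩ := hx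
      rw [hg1 y hy]
      exact ⟨(hPx y hy).1, (hPx y hy).2.1⟩
    · rw [hg2 x hx, norm_qq]
      exact ⟨inv_lt_one_of_one_lt₀ hlam, hlam⟩
  · rw [continuous_iff_continuousAt]
    intro y
    by_cases hy : y ∈ c '' P
    · obtain ⟨x, hx, rfl⟩ := hy
      exact (hgL x hx).continuousAt
    · rw [ContinuousAt, hg2 y hy]
      intro O hO
      have h1 := thi_tendsto j hO
      obtain ⟨C, hC, hCO⟩ := mem_cocompact.1 h1
      have h2 : IsClosed (c '' (C ∩ Q)) := by
        refine ((hC.inter_right hQc).image_of_continuousOn fun x hx => ?_).isClosed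
        exact (hcl x (hQP hx.2)).continuousAt.continuousWithinAt
      have h3 := end_closed hε hV x₀ (1 + δ)
      have h4 := end_closed hflip hVS x₀ (1 + δ)
      have h5 : y ∉ c '' (C ∩ Q) := fun h => hy (image_mono (fun x hx => hQP hx.2) h)
      have h6 : y ∉ (fun u => iv V x₀ (ε u)) '' {u | 1 < ‖u‖ ∧ ‖u‖ ≤ 1 + δ} := by
        rintro ⟨u, ⟨hu1, hu2⟩, rfl⟩
        refine hy ⟨m₁ u, hm₁P u hu1 (by linarith) (by linarith), ?_⟩
        exact he1' u hu1 (by linarith)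
      have h7 : y ∉ (fun u => iv V x₀ (ε (iv0 (T n (RS S) u)))) '' {u | 1 < ‖u‖ ∧ ‖u‖ ≤ 1 + δ} := by
        rintro ⟨u, ⟨hu1, hu2⟩, rfl⟩
        refine hy ⟨m₂ u, hm₂P u hu1 (by linarith) (by linarith), ?_⟩
        exact he2' u hu1 (by linarith)
      show g ⁻¹' O ∈ 𝓝 y
      filter_upwards [h2.isOpen_compl.mem_nhds h5, h3.isOpen_compl.mem_nhds h6,
        h4.isOpen_compl.mem_nhds h7] with x a5 a6 a7
      show g x ∈ O
      by_cases hx : x ∈ c '' P
      · obtain ⟨p, hp, rfl⟩ := hx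
        rw [hg1 p hp]
        refine hCO ?_
        intro hpC
        by_cases hpQ : p ∈ Q
        · exact a5 ⟨p, ⟨hpC, hpQ⟩, rfl⟩
        · rcases hPQ p hp hpQ with ⟨u, hu, hux⟩ | ⟨u, hu, hux⟩
          · exact a6 ⟨u, ⟨hu.1, hu.2.le⟩, hux⟩
          · exact a7 ⟨u, ⟨hu.1, hu.2.le⟩, hux⟩
      · rw [hg2 x hx]
        exact mem_of_mem_nhds hO
  · intro y hy1 hy2
    by_cases hyq : y = qq j
    · -- the complement of the image of the cell is not empty
      rw [hyq]
      by_contra hcon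
      push Not at hcon
      have hall : ∀ x : V, x ∈ c '' P := fun x => hg3 x (hcon x)
      have hcore := core_compact hε hV x₀ S hδ0
      have h1 : IsCompact (ic '' {x : V | x ∉ (fun u => iv V x₀ (ε u)) ''
          {u | 1 < ‖u‖ ∧ ‖u‖ < 1 + δ} ∧ x ∉ (fun u => iv V x₀ (ε (iv0 (T n (RS S) u)))) ''
          {u | 1 < ‖u‖ ∧ ‖u‖ < 1 + δ}}) := by
        refine hcore.image_of_continuousOn fun x _ => ?_
        obtain ⟨p, hp, rfl⟩ := hall x
        exact (hicL p hp).continuousAt.continuousWithinAt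
      have h2 : Q ⊆ ic '' {x : V | x ∉ (fun u => iv V x₀ (ε u)) ''
          {u | 1 < ‖u‖ ∧ ‖u‖ < 1 + δ} ∧ x ∉ (fun u => iv V x₀ (ε (iv0 (T n (RS S) u)))) ''
          {u | 1 < ‖u‖ ∧ ‖u‖ < 1 + δ}} := by
        intro x hx
        refine ⟨c x, ⟨?_, ?_⟩, hic x (hQP hx)⟩
        · rintro ⟨u, ⟨hu1, hu2⟩, hux⟩
          simp only at hux
          rw [← he1' u hu1 (by linarith)] at hux
          have h3 := hci (hm₁P u hu1 (by linarith) (by linarith)) (hQP hx) hux
          rw [hQ] at hx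
          exact hx.1 ⟨u, mem_ball_zero_iff.2 hu2, h3⟩
        · rintro ⟨u, ⟨hu1, hu2⟩, hux⟩
          simp only at hux
          rw [← he2' u hu1 (by linarith)] at hux
          have h3 := hci (hm₂P u hu1 (by linarith) (by linarith)) (hQP hx) hux
          rw [hQ] at hx
          exact hx.2 ⟨u, mem_ball_zero_iff.2 hu2, h3⟩
      have h3 : (univ : Set (E n)) ⊆ ic '' {x : V | x ∉ (fun u => iv V x₀ (ε u)) ''
          {u | 1 < ‖u‖ ∧ ‖u‖ < 1 + δ} ∧ x ∉ (fun u => iv V x₀ (ε (iv0 (T n (RS S) u)))) ''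
          {u | 1 < ‖u‖ ∧ ‖u‖ < 1 + δ}} ∪ (m₁ '' closedBall 0 (1 + δ) ∪
            m₂ '' closedBall 0 (1 + δ)) := by
        intro x _
        by_cases hx : x ∈ Q
        · exact Or.inl (h2 hx)
        · right
          by_contra hcon2
          rw [hQ] at hx
          refine hx ⟨fun h => hcon2 (Or.inl (image_mono ball_subset_closedBall h)),
            fun h => hcon2 (Or.inr (image_mono ball_subset_closedBall h))⟩
      have h4 : IsCompact (univ : Set (E n)) := by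
        refine IsCompact.of_isClosed_subset (h1.union
          (((isCompact_closedBall _ _).image_of_continuousOn (hcm₁ hδc)).union
          ((isCompact_closedBall _ _).image_of_continuousOn (hcm₂ hδc)))) isClosed_univ h3
      have : Nontrivial (E n) := ⟨qq j, 0, fun h => by
        have h5 := norm_qq j
        rw [h, norm_zero] at h5
        exact zero_ne_one h5⟩
      have : NoncompactSpace (E n) := NormedSpace.noncompactSpace ℝ (E n)
      exact noncompact_univ (E n) h4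
    · have h1 : th j y ∈ P := (hPw y).2 ⟨hy1, hy2, hyq⟩
      exact ⟨c (th j y), by rw [hg1 _ h1, thi_th]⟩
  · intro x y hx hxy
    obtain ⟨p, hp, rfl⟩ := hg3 x hx
    obtain ⟨p', hp', rfl⟩ := hg3 y (by rw [← hxy]; exact hx)
    rw [hg1 p hp, hg1 p' hp'] at hxy
    have h1 := congrArg (th j) hxy
    rw [th_thi, th_thi] at h1
    rw [h1]
  · intro x hx
    obtain ⟨p, hp, rfl⟩ := hg3 x hx
    exact hgL p hp
  · intro u hu1 hu2
    rw [← he1' u hu1 (by linarith), hg1 _ (hm₁P u hu1 (by linarith) (by linarith)), hm₁a, thi_th]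
  · intro u hu1 hu2
    have hu0 : lam⁻¹ • u ≠ 0 := by
      refine smul_ne_zero hli.ne' ?_
      rintro rfl
      rw [norm_zero] at hu1
      linarith
    rw [← he2' u hu1 (by linarith), hg1 _ (hm₂P u hu1 (by linarith) (by linarith)), hm₂a, hm₁a,
      ← th_inv j hu0 (hnq u (by linarith)), thi_th, iv0_smul hli.ne', inv_inv]

end collapse

end Pool.Agent.H827.HS
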