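import Pool.Agent.H827.HS.Conv
import Pool.Agent.H827.LV.Fin
import Mathlib.Geometry.Manifold.PartitionOfUnity

/-!
# Collars of regular spherical levels
-/

set_option autoImplicit false
set_option linter.unusedSectionVars false

open Set Filter Topology Metric Function MeasureTheory
open scoped Manifold ContDiff NNReal

noncomputable section

namespace Pool.Agent.H827.HS

open Pool.Agent.Y522 Pool.Agent.X175.SH Pool.Agent.N550.KH Pool.Agent.H829.AZ Pool.Agent.H827.LV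

/-- the inverse function theorem for maps to Euclidean space -/
theorem LD_inj_at {n : ℕ} {X : Type} [TopologicalSpace X] [ChartedSpace (E n) X]
    [IsManifold (𝓡 n) ∞ X] {f : X → E n} {x : X}
    (hf : ∀ᶠ y in 𝓝 x, ContMDiffAt (𝓡 n) (𝓡 n) ∞ f y)
    (h : Injective (mfderiv (𝓡 n) (𝓡 n) f x)) : LD n f x := by
  have hφ : LD n (chartAt (E n) x : X → E n) x := Pool.Agent.Y641.SH.LD_chart x
  obtain ⟨p, hp1, hp2, hp3, hp4⟩ := hφ.exists_inverse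
  obtain ⟨a, ha⟩ : ∃ a, a = chartAt (E n) x x := ⟨_, rfl⟩
  rw [← ha] at hp1 hp2 hp4
  have hpc : Tendsto p (𝓝 a) (𝓝 x) := by
    have := hp1.continuousAt
    rwa [ContinuousAt, hp2] at this
  have hg : LD n (fun z => f (p z)) a := by
    have hs : ∀ᶠ z in 𝓝 a, ContDiffAt ℝ ∞ (fun z => f (p z)) z := by
      filter_upwards [hpc.eventually hf, hp1.eventually] with z h1 h2
      exact contMDiffAt_iff_contDiffAt.1 (ContMDiffAt.comp (g := f) (f := p) z h1 h2.contMDiffAt)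
    have hinj : Injective (fderiv ℝ (fun z => f (p z)) a) := by
      rw [← mfderiv_eq_fderiv]
      have h1 : mfderiv (𝓡 n) (𝓡 n) (fun z => f (p z)) a =
          (mfderiv (𝓡 n) (𝓡 n) f (p a)).comp (mfderiv (𝓡 n) (𝓡 n) p a) :=
        mfderiv_comp a (by
          rw [hp2]
          exact hf.self_of_nhds.mdifferentiableAt (by simp)) hp1.mdifferentiableAt
      have h2 : Injective ((mfderiv (𝓡 n) (𝓡 n) f (p a)).comp (mfderiv (𝓡 n) (𝓡 n) p a)) := by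
        rw [hp2]
        exact h.comp hp1.mfderiv_injective
      exact h1 ▸ h2
    have hinj' : Injective (fderiv ℝ (fun z => f (p z)) a : E n →ₗ[ℝ] E n) := hinj
    let A : E n ≃ₗ[ℝ] E n := LinearEquiv.ofInjectiveEndo _ hinj'
    refine LD_of_contDiffAt hs A.toContinuousLinearEquiv ?_
    have h4 : ((A.toContinuousLinearEquiv : E n ≃L[ℝ] E n) : E n →L[ℝ] E n) =
        fderiv ℝ (fun z => f (p z)) a := by
      ext v : 1
      rfl
    rw [h4]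
    exact (hs.self_of_nhds.differentiableAt (by simp)).hasFDerivAt
  rw [ha] at hg
  refine LD.congr (LD.comp_fun (g := fun z => f (p z)) (f := chartAt (E n) x) hg hφ) ?_
  filter_upwards [hp3] with y hy
  rw [hy]

section sphere

variable {m : ℕ} {X : Type} [TopologicalSpace X] [T2Space X] [ChartedSpace (E (m + 1)) X]
  [IsManifold (𝓡 (m + 1)) ∞ X]

/-- local extensions of the inverse of the parametrization -/
theorem local_inv {F : X → ℝ} {t : ℝ} {σ : Sp m → X} (hσ : ContMDiff (𝓡 m) (𝓡 (m + 1)) ∞ σ)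
    (hi : Injective σ) (hd : ∀ p, Injective (mfderiv (𝓡 m) (𝓡 (m + 1)) σ p))
    (hF : ∀ p, F (σ p) = t) (p₀ : Sp m)
    (hs : ∀ᶠ z in 𝓝 (σ p₀), ContMDiffAt (𝓡 (m + 1)) 𝓘(ℝ, ℝ) ∞ F z)
    (hdF : mfderiv (𝓡 (m + 1)) 𝓘(ℝ, ℝ) F (σ p₀) ≠ 0) :
    ∃ U ∈ 𝓝 (σ p₀), ∃ g : X → E (m + 1), ContMDiffOn (𝓡 (m + 1)) 𝓘(ℝ, E (m + 1)) ∞ g U ∧
      ∀ y ∈ U, ∀ p, σ p = y → g y = p := by
  obtain ⟨e, heL, he0, hee⟩ := Pool.Agent.Y641.SH.stAdapt m X F (σ p₀) hs hdF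
  have hσc : ContinuousAt σ p₀ := hσ.continuous.continuousAt
  have hes : ∀ᶠ p in 𝓝 p₀, ContMDiffAt (𝓡 m) (𝓡 (m + 1)) ∞ (fun p => e (σ p)) p := by
    filter_upwards [hσc.eventually heL.eventually] with p hp
    exact ContMDiffAt.comp (g := e) (f := σ) p hp.contMDiffAt hσ.contMDiffAt
  let q : Sp m → E m := fun p => tl (e (σ p))
  have htl : ContMDiff (𝓡 (m + 1)) (𝓡 m) ∞ (tl : E (m + 1) → E m) :=
    (tl : E (m + 1) →L[ℝ] E m).contDiff.contMDiff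
  have hqs : ∀ᶠ p in 𝓝 p₀, ContMDiffAt (𝓡 m) (𝓡 m) ∞ q p := by
    filter_upwards [hes] with p hp
    exact ContMDiffAt.comp (g := tl) (f := fun p => e (σ p)) p htl.contMDiffAt hp
  -- the derivative
  have hD1 : mfderiv (𝓡 m) (𝓡 (m + 1)) (fun p => e (σ p)) p₀ =
      (mfderiv (𝓡 (m + 1)) (𝓡 (m + 1)) e (σ p₀)).comp (mfderiv (𝓡 m) (𝓡 (m + 1)) σ p₀) :=
    mfderiv_comp p₀ heL.mdifferentiableAt (hσ.mdifferentiableAt (by simp))
  have hD1i : Injective (mfderiv (𝓡 m) (𝓡 (m + 1)) (fun p => e (σ p)) p₀) := by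
    rw [hD1]
    exact heL.mfderiv_injective.comp (hd p₀)
  have hmd : MDifferentiableAt (𝓡 m) (𝓡 (m + 1)) (fun p => e (σ p)) p₀ :=
    hes.self_of_nhds.mdifferentiableAt (by simp)
  let pr : E (m + 1) →L[ℝ] ℝ := EuclideanSpace.proj 0
  have hD2 : mfderiv (𝓡 m) 𝓘(ℝ, ℝ) (fun p => pr (e (σ p))) p₀ =
      pr.comp (mfderiv (𝓡 m) (𝓡 (m + 1)) (fun p => e (σ p)) p₀) := by
    have h1 := HasMFDerivAt.comp p₀ (pr.hasFDerivAt (x := e (σ p₀))).hasMFDerivAt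
      hmd.hasMFDerivAt
    exact h1.mfderiv
  have hD3 : mfderiv (𝓡 m) 𝓘(ℝ, ℝ) (fun p => pr (e (σ p))) p₀ = 0 := by
    have h1 : (fun p => pr (e (σ p))) =ᶠ[𝓝 p₀] fun _ => (0 : ℝ) := by
      filter_upwards [hσc.eventually hee] with p hp
      show (e (σ p)) 0 = 0
      rw [hp, hF, hF, sub_self]
    rw [h1.mfderiv_eq]
    exact mfderiv_const
  have hD4 : mfderiv (𝓡 m) (𝓡 m) q p₀ =
      (tl : E (m + 1) →L[ℝ] E m).comp (mfderiv (𝓡 m) (𝓡 (m + 1)) (fun p => e (σ p)) p₀) := by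
    have h1 := HasMFDerivAt.comp p₀
      ((tl : E (m + 1) →L[ℝ] E m).hasFDerivAt (x := e (σ p₀))).hasMFDerivAt hmd.hasMFDerivAt
    exact h1.mfderiv
  have hqi : Injective (mfderiv (𝓡 m) (𝓡 m) q p₀) := by
    rw [hD4]
    intro v w hvw
    have hvw' : tl (mfderiv (𝓡 m) (𝓡 (m + 1)) (fun p => e (σ p)) p₀ v : E (m + 1)) =
      tl (mfderiv (𝓡 m) (𝓡 (m + 1)) (fun p => e (σ p)) p₀ w : E (m + 1)) := hvw
    refine hD1i ?_
    have h0 : ∀ v, pr (mfderiv (𝓡 m) (𝓡 (m + 1)) (fun p => e (σ p)) p₀ v : E (m + 1)) = 0 := by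
      intro v
      have h1 : (pr.comp (mfderiv (𝓡 m) (𝓡 (m + 1)) (fun p => e (σ p)) p₀)) v = 0 := by
        rw [← hD2, hD3]
        rfl
      exact h1
    have key : ∀ a b : E (m + 1), pr a = 0 → pr b = 0 → tl a = tl b → a = b := by
      intro a b ha hb hab
      have ha' : a 0 = 0 := ha
      have hb' : b 0 = 0 := hb
      rw [← cn_tl a, ← cn_tl b, ha', hb', hab]
    exact key _ _ (h0 v) (h0 w) hvw'
  have hqL : LD m q p₀ := LD_inj_at hqs hqi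
  obtain ⟨j, hj, hj0, hj1, -⟩ := hqL.exists_inverse
  -- the extension
  have hfact := factS m
  let g : X → E (m + 1) := fun z => (j (tl (e z)) : E (m + 1))
  have htlc : ContinuousAt (fun z => tl (e z)) (σ p₀) :=
    (tl : E (m + 1) →L[ℝ] E m).continuous.continuousAt.comp heL.continuousAt
  have hgs : ∀ᶠ z in 𝓝 (σ p₀), ContMDiffAt (𝓡 (m + 1)) 𝓘(ℝ, E (m + 1)) ∞ g z := by
    filter_upwards [heL.eventually, htlc.eventually hj.eventually] with z h1 h2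
    have h3 : ContMDiff (𝓡 m) 𝓘(ℝ, E (m + 1)) ∞ (fun y : Sp m => (y : E (m + 1))) :=
      contMDiff_coe_sphere
    have h4 : ContMDiffAt (𝓡 (m + 1)) (𝓡 m) ∞ (fun z => tl (e z)) z :=
      ContMDiffAt.comp (g := tl) (f := e) z htl.contMDiffAt h1.contMDiffAt
    have h5 : ContMDiffAt (𝓡 (m + 1)) (𝓡 m) ∞ (fun z => j (tl (e z))) z :=
      ContMDiffAt.comp (g := j) (f := fun z => tl (e z)) z h2.contMDiffAt h4
    exact ContMDiffAt.comp (g := fun y : Sp m => (y : E (m + 1)))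
      (f := fun z => j (tl (e z))) z h3.contMDiffAt h5
  have hemb : IsClosedEmbedding σ := hσ.continuous.isClosedEmbedding hi
  obtain ⟨U', hU', hU'N⟩ : ∃ U' ∈ 𝓝 (σ p₀), σ ⁻¹' U' ⊆ {p | j (q p) = p} := by
    have h1 : {p | j (q p) = p} ∈ 𝓝 p₀ := hj1
    rw [hemb.isEmbedding.isInducing.nhds_eq_comap, mem_comap] at h1
    exact h1
  refine ⟨U' ∩ {z | ContMDiffAt (𝓡 (m + 1)) 𝓘(ℝ, E (m + 1)) ∞ g z}, inter_mem hU' hgs, g,
    fun z hz => hz.2.contMDiffWithinAt, ?_⟩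
  rintro y ⟨hy, -⟩ p rfl
  have h1 : j (q p) = p := hU'N hy
  show (j (q p) : E (m + 1)) = p
  rw [h1]

/-- the inverse of the parametrization extends -/
theorem exists_ext [SigmaCompactSpace X] {F : X → ℝ} {t : ℝ} {σ : Sp m → X}
    (hσ : ContMDiff (𝓡 m) (𝓡 (m + 1)) ∞ σ)
    (hi : Injective σ) (hd : ∀ p, Injective (mfderiv (𝓡 m) (𝓡 (m + 1)) σ p))
    (hF : ∀ p, F (σ p) = t)
    (hs : ∀ p, ∀ᶠ z in 𝓝 (σ p), ContMDiffAt (𝓡 (m + 1)) 𝓘(ℝ, ℝ) ∞ F z)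
    (hdF : ∀ p, mfderiv (𝓡 (m + 1)) 𝓘(ℝ, ℝ) F (σ p) ≠ 0) :
    ∃ Ψ : X → E (m + 1), ContMDiff (𝓡 (m + 1)) 𝓘(ℝ, E (m + 1)) ∞ Ψ ∧ ∀ p, Ψ (σ p) = p := by
  classical
  have hcl : IsClosed (range σ) := (isCompact_range hσ.continuous).isClosed
  obtain ⟨g, hg⟩ := exists_contMDiffMap_forall_mem_convex_of_local (n := (⊤ : ℕ∞))
    (𝓡 (m + 1)) (F := E (m + 1))
    (t := fun y : X => {v : E (m + 1) | ∀ p, σ p = y → v = p}) (by
      intro y a ha b hb u v hu hv huv p hp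
      rw [ha p hp, hb p hp, ← add_smul, huv, one_smul]) (by
      intro x
      by_cases hx : x ∈ range σ
      · obtain ⟨p₀, rfl⟩ := hx
        obtain ⟨U, hU, g, h1, h2⟩ := local_inv hσ hi hd hF p₀ (hs p₀) (hdF p₀)
        exact ⟨U, hU, g, h1, fun y hy p hp => h2 y hy p hp⟩
      · refine ⟨(range σ)ᶜ, hcl.isOpen_compl.mem_nhds hx, fun _ => 0, contMDiffOn_const, ?_⟩
        intro y hy p hp
        exact absurd ⟨p, hp⟩ hy)
  exact ⟨g, g.contMDiff, fun p => hg (σ p) p rfl⟩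

/-- the radial parametrization of a shell -/
def rq (a : ℝ) (z : E (m + 1)) : E (m + 1) := ((a + (2 - a) * ‖z‖) / (‖z‖ * (1 + ‖z‖))) • z

def rqi (a : ℝ) (w : E (m + 1)) : E (m + 1) := ((‖w‖ - a) / ((2 - a - ‖w‖) * ‖w‖)) • w

theorem rq_norm {a : ℝ} (ha : 0 < a) (ha1 : a < 1) {z : E (m + 1)} (hz : z ≠ 0) :
    ‖rq a z‖ = (a + (2 - a) * ‖z‖) / (1 + ‖z‖) := by
  have := norm_pos_iff.2 hz
  have h2 : 0 < 2 - a := by linarith
  rw [rq, norm_smul, Real.norm_of_nonneg (by positivity)]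
  field_simp

theorem rq_lo {a : ℝ} (ha : 0 < a) (ha1 : a < 1) {z : E (m + 1)} (hz : z ≠ 0) :
    a < ‖rq a z‖ := by
  have := norm_pos_iff.2 hz
  rw [rq_norm ha ha1 hz, lt_div_iff₀ (by positivity)]
  nlinarith

theorem rq_hi {a : ℝ} (ha : 0 < a) (ha1 : a < 1) {z : E (m + 1)} (hz : z ≠ 0) :
    ‖rq a z‖ < 2 - a := by
  have := norm_pos_iff.2 hz
  rw [rq_norm ha ha1 hz, div_lt_iff₀ (by positivity)]
  nlinarith

theorem rqi_sq {a : ℝ} (ha : 0 < a) (ha1 : a < 1) {z : E (m + 1)} (hz : z ≠ 0) :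
    rqi a (rq a z) = z := by
  have h0 := norm_pos_iff.2 hz
  have h20 : 0 < 2 - a := by linarith
  have h21 : 0 < 1 - a := by linarith
  have h1 : rqi a (rq a z) =
    ((‖rq a z‖ - a) / ((2 - a - ‖rq a z‖) * ‖rq a z‖)) • rq a z := rfl
  rw [h1, rq_norm ha ha1 hz, rq, smul_smul]
  have h2 : ((a + (2 - a) * ‖z‖) / (1 + ‖z‖) - a) /
      ((2 - a - (a + (2 - a) * ‖z‖) / (1 + ‖z‖)) *
      ((a + (2 - a) * ‖z‖) / (1 + ‖z‖))) * ((a + (2 - a) * ‖z‖) / (‖z‖ * (1 + ‖z‖))) = 1 := by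
    have h3 : (a + (2 - a) * ‖z‖) / (1 + ‖z‖) - a = 2 * (1 - a) * ‖z‖ / (1 + ‖z‖) := by
      field_simp
      ring
    have h4 : 2 - a - (a + (2 - a) * ‖z‖) / (1 + ‖z‖) = 2 * (1 - a) / (1 + ‖z‖) := by
      field_simp
      ring
    have h5 : 0 < a + (2 - a) * ‖z‖ := by positivity
    rw [h3, h4]
    field_simp
  rw [h2, one_smul]

theorem rqi_norm {a : ℝ} (ha : 0 < a) {w : E (m + 1)} (h1 : a < ‖w‖) (h2 : ‖w‖ < 2 - a) :
    ‖rqi a w‖ = (‖w‖ - a) / (2 - a - ‖w‖) := by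
  have h3 : 0 < ‖w‖ - a := by linarith
  have h4 : 0 < 2 - a - ‖w‖ := by linarith
  have h5 : 0 < ‖w‖ := by linarith
  rw [rqi, norm_smul, Real.norm_of_nonneg (by positivity)]
  field_simp

theorem rqi_ne {a : ℝ} (ha : 0 < a) {w : E (m + 1)} (h1 : a < ‖w‖) (h2 : ‖w‖ < 2 - a) :
    rqi a w ≠ 0 := by
  rw [← norm_pos_iff, rqi_norm ha h1 h2]
  have h3 : 0 < ‖w‖ - a := by linarith
  have h4 : 0 < 2 - a - ‖w‖ := by linarith
  positivity

theorem rq_sqi {a : ℝ} (ha : 0 < a) (ha1 : a < 1) {w : E (m + 1)} (h1 : a < ‖w‖)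
    (h2 : ‖w‖ < 2 - a) : rq a (rqi a w) = w := by
  have h3 : 0 < ‖w‖ - a := by linarith
  have h4 : 0 < 2 - a - ‖w‖ := by linarith
  have h5 : 0 < ‖w‖ := by linarith
  have h21 : 0 < 1 - a := by linarith
  have h6 : rq a (rqi a w) = ((a + (2 - a) * ‖rqi a w‖) / (‖rqi a w‖ * (1 + ‖rqi a w‖))) •
    rqi a w := rfl
  rw [h6, rqi_norm ha h1 h2, rqi, smul_smul]
  have h7 : (a + (2 - a) * ((‖w‖ - a) / (2 - a - ‖w‖))) / ((‖w‖ - a) / (2 - a - ‖w‖) *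
      (1 + (‖w‖ - a) / (2 - a - ‖w‖))) * ((‖w‖ - a) / ((2 - a - ‖w‖) * ‖w‖)) = 1 := by
    have h8 : a + (2 - a) * ((‖w‖ - a) / (2 - a - ‖w‖)) = 2 * (1 - a) * ‖w‖ / (2 - a - ‖w‖) := by
      field_simp
      ring
    have h9 : 1 + (‖w‖ - a) / (2 - a - ‖w‖) = 2 * (1 - a) / (2 - a - ‖w‖) := by
      field_simp
      ring
    rw [h8, h9]
    field_simp
  rw [h7, one_smul]

theorem rq_LD {a : ℝ} (ha : 0 < a) (ha1 : a < 1) {z : E (m + 1)} (hz : z ≠ 0) :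
    LD (m + 1) (rq a : E (m + 1) → E (m + 1)) z := by
  have hs : ContMDiffOn (𝓡 (m + 1)) (𝓡 (m + 1)) ∞ (rq a : E (m + 1) → E (m + 1)) {0}ᶜ := by
    intro z hz
    have hz' : z ≠ 0 := hz
    have h0 := norm_pos_iff.2 hz'
    have h1 : ContDiffAt ℝ ∞ (fun z : E (m + 1) => ‖z‖) z := contDiffAt_norm ℝ hz'
    have h2 : ContDiffAt ℝ ∞ (fun z : E (m + 1) =>
        (a + (2 - a) * ‖z‖) / (‖z‖ * (1 + ‖z‖))) z := by
      refine ContDiffAt.div ?_ ?_ ?_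
      · exact contDiffAt_const.add (contDiffAt_const.mul h1)
      · exact h1.mul (contDiffAt_const.add h1)
      · positivity
    have h3 : ContDiffAt ℝ ∞ (rq a : E (m + 1) → E (m + 1)) z := h2.smul contDiffAt_id
    exact h3.contMDiffAt.contMDiffWithinAt
  have hs' : ContMDiffOn (𝓡 (m + 1)) (𝓡 (m + 1)) ∞ (rqi a : E (m + 1) → E (m + 1))
      {w | a < ‖w‖ ∧ ‖w‖ < 2 - a} := by
    rintro w ⟨hw1, hw2⟩
    have h3 : 0 < ‖w‖ - a := by linarith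
    have h4 : 0 < 2 - a - ‖w‖ := by linarith
    have h5 : 0 < ‖w‖ := by linarith
    have h1 : ContDiffAt ℝ ∞ (fun z : E (m + 1) => ‖z‖) w := contDiffAt_norm ℝ (norm_pos_iff.1 h5)
    have h2 : ContDiffAt ℝ ∞ (fun w : E (m + 1) => (‖w‖ - a) / ((2 - a - ‖w‖) * ‖w‖)) w := by
      refine ContDiffAt.div ?_ ?_ ?_
      · exact h1.sub contDiffAt_const
      · exact (contDiffAt_const.sub h1).mul h1
      · positivity
    have h6 : ContDiffAt ℝ ∞ (rqi a : E (m + 1) → E (m + 1)) w := h2.smul contDiffAt_id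
    exact h6.contMDiffAt.contMDiffWithinAt
  exact ⟨{ toFun := rq a
           invFun := rqi a
           source := {0}ᶜ
           target := {w | a < ‖w‖ ∧ ‖w‖ < 2 - a}
           map_source' := fun z hz => ⟨rq_lo ha ha1 hz, rq_hi ha ha1 hz⟩
           map_target' := fun w hw => rqi_ne ha hw.1 hw.2
           left_inv' := fun z hz => rqi_sq ha ha1 hz
           right_inv' := fun w hw => rq_sqi ha ha1 hw.1 hw.2
           open_source := isOpen_compl_singleton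
           open_target := (isOpen_lt continuous_const continuous_norm).inter
             (isOpen_lt continuous_norm continuous_const)
           contMDiffOn_toFun := hs
           contMDiffOn_invFun := hs' }, hz, fun _ _ => rfl⟩

theorem rq_one {a : ℝ} {z : E (m + 1)} (hz : ‖z‖ = 1) : rq a z = z := by
  rw [rq, hz]
  have : (a + (2 - a) * 1) / (1 * (1 + 1)) = 1 := by
    field_simp
    ring
  rw [this, one_smul]

/-- **The collar.** -/
theorem exists_collar [SigmaCompactSpace X] {F : X → ℝ} {t : ℝ} {σ : Sp m → X}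
    (hσ : ContMDiff (𝓡 m) (𝓡 (m + 1)) ∞ σ)
    (hi : Injective σ) (hd : ∀ p, Injective (mfderiv (𝓡 m) (𝓡 (m + 1)) σ p))
    (hF : ∀ p, F (σ p) = t)
    (hs : ∀ p, ∀ᶠ z in 𝓝 (σ p), ContMDiffAt (𝓡 (m + 1)) 𝓘(ℝ, ℝ) ∞ F z)
    (hdF : ∀ p, mfderiv (𝓡 (m + 1)) 𝓘(ℝ, ℝ) F (σ p) ≠ 0) {O : Set X} (hO : IsOpen O)
    (hσO : ∀ p, σ p ∈ O) :
    ∃ ε : E (m + 1) → X, Nk ε ∧ ε '' sphere 0 1 = range σ ∧ (∀ u, u ≠ 0 → ε u ∈ O) ∧
      (∀ u, u ≠ 0 → ContMDiffAt (𝓡 (m + 1)) 𝓘(ℝ, ℝ) ∞ F (ε u)) ∧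
      (∀ u, u ≠ 0 → ‖u‖ < 1 → F (ε u) < t) ∧ ∀ u, 1 < ‖u‖ → t < F (ε u) := by
  classical
  obtain ⟨Ψ, hΨs, hΨ⟩ := exists_ext hσ hi hd hF hs hdF
  have hΨ1 : ∀ p, ‖Ψ (σ p)‖ = 1 := fun p => by
    rw [hΨ]
    simp
  have hΨ0 : ∀ p, Ψ (σ p) ≠ 0 := fun p => by
    rw [← norm_pos_iff, hΨ1]
    exact one_pos
  let Θ : X → E (m + 1) := fun y => Real.exp (F y - t) • (‖Ψ y‖⁻¹ • Ψ y)
  have hΘn : ∀ y, Ψ y ≠ 0 → ‖Θ y‖ = Real.exp (F y - t) := by
    intro y hy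
    have h1 := norm_pos_iff.2 hy
    show ‖Real.exp (F y - t) • (‖Ψ y‖⁻¹ • Ψ y)‖ = _
    rw [norm_smul, norm_smul, norm_inv, norm_norm, inv_mul_cancel₀ h1.ne', mul_one,
      Real.norm_of_nonneg (Real.exp_pos _).le]
  have hΘσ : ∀ p, Θ (σ p) = p := by
    intro p
    show Real.exp (F (σ p) - t) • (‖Ψ (σ p)‖⁻¹ • Ψ (σ p)) = p
    rw [hF, sub_self, Real.exp_zero, one_smul, hΨ1, inv_one, one_smul, hΨ]
  -- smoothness
  have hΘs : ∀ y, ContMDiffAt (𝓡 (m + 1)) 𝓘(ℝ, ℝ) ∞ F y → Ψ y ≠ 0 →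
      ContMDiffAt (𝓡 (m + 1)) (𝓡 (m + 1)) ∞ Θ y := by
    intro y h1 h2
    have h3 : ContMDiffAt (𝓡 (m + 1)) 𝓘(ℝ, ℝ) ∞ (fun y => Real.exp (F y - t)) y := by
      have : ContDiff ℝ ∞ fun r : ℝ => Real.exp (r - t) :=
        Real.contDiff_exp.comp (contDiff_id.sub contDiff_const)
      exact this.contMDiff.contMDiffAt.comp y h1
    have h4 : ContMDiffAt (𝓡 (m + 1)) 𝓘(ℝ, E (m + 1)) ∞ (fun y => ‖Ψ y‖⁻¹ • Ψ y) y := by
      have h5 : ContDiffAt ℝ ∞ (fun v : E (m + 1) => ‖v‖⁻¹ • v) (Ψ y) :=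
        ((contDiffAt_norm ℝ h2).inv (norm_pos_iff.2 h2).ne').smul contDiffAt_id
      exact h5.contMDiffAt.comp y hΨs.contMDiffAt
    exact h3.smul h4
  have hfact := factS m
  have hΘev : ∀ p, ∀ᶠ y in 𝓝 (σ p), ContMDiffAt (𝓡 (m + 1)) (𝓡 (m + 1)) ∞ Θ y := by
    intro p
    filter_upwards [hs p, hΨs.continuous.continuousAt.eventually_ne (hΨ0 p)] with y h1 h2
    exact hΘs y h1 h2
  have hΘmd : ∀ p, MDifferentiableAt (𝓡 (m + 1)) (𝓡 (m + 1)) Θ (σ p) := fun p =>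
    (hΘev p).self_of_nhds.mdifferentiableAt (by simp)
  have hΘL : ∀ p, LD (m + 1) Θ (σ p) := by
    intro p
    refine LD_inj_at (hΘev p) ?_
    -- the derivative of `F`
    have hFmd : MDifferentiableAt (𝓡 (m + 1)) 𝓘(ℝ, ℝ) F (σ p) :=
      (hs p).self_of_nhds.mdifferentiableAt (by simp)
    have hΘp0 : Θ (σ p) ≠ 0 := by
      rw [← norm_pos_iff, hΘn _ (hΨ0 p)]
      exact Real.exp_pos _
    have hlog : HasFDerivAt (fun v : E (m + 1) => Real.log ‖v‖ + t)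
        (fderiv ℝ (fun v : E (m + 1) => Real.log ‖v‖ + t) (Θ (σ p))) (Θ (σ p)) := by
      refine DifferentiableAt.hasFDerivAt ?_
      have h1 : DifferentiableAt ℝ (fun v : E (m + 1) => ‖v‖) (Θ (σ p)) :=
        (contDiffAt_norm ℝ hΘp0 (n := 1)).differentiableAt (by simp)
      exact (h1.log (norm_pos_iff.2 hΘp0).ne').add_const t
    have hchain : mfderiv (𝓡 (m + 1)) 𝓘(ℝ, ℝ) F (σ p) =
        (fderiv ℝ (fun v : E (m + 1) => Real.log ‖v‖ + t) (Θ (σ p))).comp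
          (mfderiv (𝓡 (m + 1)) (𝓡 (m + 1)) Θ (σ p)) := by
      have h1 := HasMFDerivAt.comp (σ p) hlog.hasMFDerivAt (hΘmd p).hasMFDerivAt
      have h2 : F =ᶠ[𝓝 (σ p)] (fun v : E (m + 1) => Real.log ‖v‖ + t) ∘ Θ := by
        filter_upwards [hΨs.continuous.continuousAt.eventually_ne (hΨ0 p)] with y hy
        show F y = Real.log ‖Θ y‖ + t
        rw [hΘn y hy, Real.log_exp]
        ring
      rw [h2.mfderiv_eq]
      exact h1.mfderiv
    -- the kernel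
    obtain ⟨l, hl⟩ : ∃ l : E (m + 1) →L[ℝ] ℝ, l = mfderiv (𝓡 (m + 1)) 𝓘(ℝ, ℝ) F (σ p) := ⟨_, rfl⟩
    obtain ⟨D, hD⟩ : ∃ D : E m →L[ℝ] E (m + 1), D = mfderiv (𝓡 m) (𝓡 (m + 1)) σ p := ⟨_, rfl⟩
    obtain ⟨T, hT⟩ : ∃ T : E (m + 1) →L[ℝ] E (m + 1),
      T = mfderiv (𝓡 (m + 1)) (𝓡 (m + 1)) Θ (σ p) := ⟨_, rfl⟩
    have hl0 : l ≠ 0 := by
      rw [hl]
      exact hdF p
    have hDi : Injective D := by
      rw [hD]
      exact hd p
    have hlT : ∀ v, T v = 0 → l v = 0 := by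
      intro v hv
      rw [hl, hchain]
      show (fderiv ℝ (fun v : E (m + 1) => Real.log ‖v‖ + t) (Θ (σ p)))
        ((mfderiv (𝓡 (m + 1)) (𝓡 (m + 1)) Θ (σ p)) v) = 0
      have : ((mfderiv (𝓡 (m + 1)) (𝓡 (m + 1)) Θ (σ p)) v : E (m + 1)) = 0 := by
        rw [← hT]
        exact hv
      exact (congrArg _ this).trans (map_zero _)
    have hlD : ∀ w, l (D w) = 0 := by
      intro w
      have h1 := HasMFDerivAt.comp p hFmd.hasMFDerivAt
        ((hσ.mdifferentiableAt (x := p) (by simp)).hasMFDerivAt)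
      have h2 : F ∘ σ = fun _ => t := funext hF
      have h3 := h1.mfderiv
      rw [h2, mfderiv_const] at h3
      have h4 := congrArg (fun L : E m →L[ℝ] ℝ => L w) h3
      rw [hl, hD]
      exact h4.symm
    have hTD : ∀ w, T (D w) = 0 → w = 0 := by
      intro w hw
      have h1 := HasMFDerivAt.comp p (hΘmd p).hasMFDerivAt
        ((hσ.mdifferentiableAt (x := p) (by simp)).hasMFDerivAt)
      have h2 : Θ ∘ σ = fun y : Sp m => (y : E (m + 1)) := funext hΘσ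
      have h3 := h1.mfderiv
      rw [h2] at h3
      have h4 := mfderiv_coe_sphere_injective (n := m) p
      rw [h3] at h4
      have h5 : T (D w) = T (D 0) := by rw [hw, map_zero, map_zero]
      rw [hT, hD] at h5
      exact h4 h5
    have hker : ∀ v, l v = 0 → ∃ w, D w = v := by
      have h1 : Module.finrank ℝ (LinearMap.ker (l : E (m + 1) →ₗ[ℝ] ℝ)) = m := by
        have h2 := LinearMap.finrank_range_add_finrank_ker (l : E (m + 1) →ₗ[ℝ] ℝ)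
        have h3 : LinearMap.range (l : E (m + 1) →ₗ[ℝ] ℝ) = ⊤ := by
          rw [LinearMap.range_eq_top]
          refine LinearMap.surjective ?_
          intro h
          exact hl0 (ContinuousLinearMap.coe_injective h)
        rw [h3, finrank_top, Module.finrank_self, finrank_euclideanSpace_fin] at h2
        omega
      have h4 : Module.finrank ℝ (LinearMap.range (D : E m →ₗ[ℝ] E (m + 1))) = m := by
        rw [LinearMap.finrank_range_of_inj hDi, finrank_euclideanSpace_fin]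
      have h5 : LinearMap.range (D : E m →ₗ[ℝ] E (m + 1)) ≤
          LinearMap.ker (l : E (m + 1) →ₗ[ℝ] ℝ) := by
        rintro _ ⟨w, rfl⟩
        exact hlD w
      have h6 := Submodule.eq_of_le_of_finrank_eq h5 (h4.trans h1.symm)
      intro v hv
      have h7 : v ∈ LinearMap.ker (l : E (m + 1) →ₗ[ℝ] ℝ) := hv
      rw [← h6] at h7
      exact h7
    rw [← hT]
    have hTi : ∀ v, T v = 0 → v = 0 := by
      intro v hv
      obtain ⟨w, rfl⟩ := hker v (hlT v hv)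
      rw [hTD w hv, map_zero]
    exact (injective_iff_map_eq_zero T).2 hTi
  -- injectivity
  have hSc : IsCompact (range σ) := isCompact_range hσ.continuous
  obtain ⟨W₀, hW₀, hW₀i⟩ := InjOn.exists_mem_nhdsSet (f := Θ) (s := range σ) (by
    rintro _ ⟨p, rfl⟩ _ ⟨q, rfl⟩ h
    rw [hΘσ, hΘσ] at h
    rw [Subtype.ext h]) hSc (by
    rintro _ ⟨p, rfl⟩
    exact (hΘL p).continuousAt) (by
    rintro _ ⟨p, rfl⟩
    exact (hΘL p).eventually_injOn)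
  obtain ⟨W, hW⟩ : ∃ W : Set X, W = interior (W₀ ∩ O ∩ {y | LD (m + 1) Θ y ∧
    ContMDiffAt (𝓡 (m + 1)) 𝓘(ℝ, ℝ) ∞ F y ∧ Ψ y ≠ 0}) := ⟨_, rfl⟩
  have hWo : IsOpen W := by
    rw [hW]
    exact isOpen_interior
  have hWp : ∀ y ∈ W, y ∈ W₀ ∧ y ∈ O ∧ LD (m + 1) Θ y ∧
      ContMDiffAt (𝓡 (m + 1)) 𝓘(ℝ, ℝ) ∞ F y ∧ Ψ y ≠ 0 := by
    intro y hy
    rw [hW] at hy
    have := interior_subset hy
    exact ⟨this.1.1, this.1.2, this.2⟩
  have hσW : ∀ p, σ p ∈ W := by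
    intro p
    rw [hW, mem_interior_iff_mem_nhds]
    have h1 : W₀ ∈ 𝓝 (σ p) := mem_nhdsSet_iff_forall.1 hW₀ _ (mem_range_self p)
    filter_upwards [h1, hO.mem_nhds (hσO p), (hΘL p).eventually, hs p,
      hΨs.continuous.continuousAt.eventually_ne (hΨ0 p)] with y a1 a2 a3 a4 a5
    exact ⟨⟨a1, a2⟩, a3, a4, a5⟩
  have hWi : InjOn Θ W := hW₀i.mono fun y hy => (hWp y hy).1
  have hΘW : IsOpen (Θ '' W) := isOpen_image_of_LD hWo fun y hy => (hWp y hy).2.2.1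
  obtain ⟨δ, hδ, hδW⟩ := (isCompact_sphere (0 : E (m + 1)) 1).exists_thickening_subset_open hΘW (by
    intro v hv
    refine ⟨σ ⟨v, hv⟩, hσW _, ?_⟩
    rw [hΘσ])
  obtain ⟨a, ha, ha1, haδ⟩ : ∃ a : ℝ, 0 < a ∧ a < 1 ∧ 1 - a < δ := by
    refine ⟨1 - min (δ / 2) (1 / 2), ?_, ?_, ?_⟩
    · have := min_le_right (δ / 2) (1 / 2 : ℝ)
      linarith
    · have : 0 < min (δ / 2) (1 / 2 : ℝ) := lt_min (by positivity) (by norm_num)
      linarith
    · have := min_le_left (δ / 2) (1 / 2 : ℝ)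
      linarith
  have hshell : ∀ w : E (m + 1), a < ‖w‖ → ‖w‖ < 2 - a → w ∈ Θ '' W := by
    intro w h1 h2
    refine hδW ?_
    rw [mem_thickening_iff]
    have hw : 0 < ‖w‖ := by linarith
    refine ⟨‖w‖⁻¹ • w, ?_, ?_⟩
    · rw [mem_sphere_zero_iff_norm, norm_smul, norm_inv, norm_norm, inv_mul_cancel₀ hw.ne']
    · have h3 : w - ‖w‖⁻¹ • w = (1 - ‖w‖⁻¹) • w := by rw [sub_smul, one_smul]
      rw [dist_eq_norm, h3, norm_smul, Real.norm_eq_abs]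
      have h4 : |1 - ‖w‖⁻¹| * ‖w‖ = |‖w‖ - 1| := by
        rw [← abs_of_pos hw, ← abs_mul, abs_of_pos hw]
        congr 1
        field_simp
      rw [h4, abs_lt]
      constructor <;> linarith
  -- the inverse
  let κ : E (m + 1) → X := fun w => if h : ∃ y ∈ W, Θ y = w then h.choose else σ ⟨qq 0, by
    rw [mem_sphere_zero_iff_norm, norm_qq]⟩
  have hκ : ∀ y ∈ W, κ (Θ y) = y := by
    intro y hy
    have h : ∃ y' ∈ W, Θ y' = Θ y := ⟨y, hy, rfl⟩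
    have h1 : κ (Θ y) = h.choose := dif_pos h
    rw [h1]
    exact hWi h.choose_spec.1 hy h.choose_spec.2
  have hκΘ : ∀ w ∈ Θ '' W, κ w ∈ W ∧ Θ (κ w) = w := by
    rintro _ ⟨y, hy, rfl⟩
    rw [hκ y hy]
    exact ⟨hy, rfl⟩
  have hmem : ∀ u, u ≠ 0 → rq a u ∈ Θ '' W := fun u hu =>
    hshell _ (rq_lo ha ha1 hu) (rq_hi ha ha1 hu)
  have hexp : ∀ u, u ≠ 0 → Real.exp (F (κ (rq a u)) - t) = ‖rq a u‖ := by
    intro u hu
    obtain ⟨h1, h2⟩ := hκΘ _ (hmem u hu)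
    rw [← hΘn _ (hWp _ h1).2.2.2.2, h2]
  refine ⟨fun u => κ (rq a u), ⟨?_, ?_⟩, ?_, ?_, ?_, ?_, ?_⟩
  · intro u v hu hv huv
    have h1 := congrArg Θ huv
    simp only [(hκΘ _ (hmem u hu)).2, (hκΘ _ (hmem v hv)).2] at h1
    rw [← rqi_sq ha ha1 hu, ← rqi_sq ha ha1 hv, h1]
  · intro u hu
    refine LD.comp_fun (g := κ) (f := rq a) ?_ (rq_LD ha ha1 hu)
    obtain ⟨y, hy, hyu⟩ := hmem u hu
    rw [← hyu]
    exact LD.inverse (k := Θ) (U := W) hWo (fun y hy => (hWp y hy).2.2.1) hκ hy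
  · ext x
    constructor
    · rintro ⟨u, hu, rfl⟩
      refine ⟨⟨u, hu⟩, ?_⟩
      show _ = κ (rq a u)
      rw [mem_sphere_zero_iff_norm] at hu
      rw [rq_one hu]
      have h1 := hκ (σ ⟨u, mem_sphere_zero_iff_norm.2 hu⟩) (hσW _)
      rw [hΘσ] at h1
      exact h1.symm
    · rintro ⟨p, rfl⟩
      refine ⟨p, p.2, ?_⟩
      show κ (rq a p) = σ p
      rw [rq_one (mem_sphere_zero_iff_norm.1 p.2)]
      have h1 := hκ (σ p) (hσW p)
      rwa [hΘσ] at h1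
  · exact fun u hu => (hWp _ (hκΘ _ (hmem u hu)).1).2.1
  · exact fun u hu => (hWp _ (hκΘ _ (hmem u hu)).1).2.2.2.1
  · intro u hu h1
    have h2 := hexp u hu
    have h3 : ‖rq a u‖ < 1 := by
      have := norm_pos_iff.2 hu
      rw [rq_norm ha ha1 hu, div_lt_one (by positivity)]
      nlinarith
    rw [← h2, Real.exp_lt_one_iff] at h3
    show F (κ (rq a u)) < t
    linarith
  · intro u h1
    have hu : u ≠ 0 := by
      rintro rfl
      rw [norm_zero] at h1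
      linarith
    have h2 := hexp u hu
    have h3 : 1 < ‖rq a u‖ := by
      have := norm_pos_iff.2 hu
      rw [rq_norm ha ha1 hu, one_lt_div (by positivity)]
      nlinarith
    rw [← h2, Real.one_lt_exp_iff] at h3
    show t < F (κ (rq a u))
    linarith

end sphere

end Pool.Agent.H827.HS
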