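import Pool.Agent.H827.HS.Sect

/-!
# The spheres of a standard manifold
-/

set_option autoImplicit false
set_option linter.unusedSectionVars false

open Set Filter Topology Metric Function MeasureTheory
open scoped Manifold ContDiff NNReal

noncomputable section

namespace Pool.Agent.H827.HS

open Pool.Agent.Y522 Pool.Agent.X175.SH Pool.Agent.N550.KH Pool.Agent.H829.AZ

variable {n : ℕ} {ρ : E n ≃ₗᵢ[ℝ] E n}

theorem punct_preconnected (hn : 2 ≤ n) : IsPreconnected ({0}ᶜ : Set (E n)) := by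
  refine (isConnected_compl_singleton_of_one_lt_rank ?_ 0).isPreconnected
  rw [← Module.finrank_eq_rank, finrank_euclideanSpace_fin]
  have : 1 < n := by omega
  exact_mod_cast this

theorem sphere_ne {u : E n} (hu : u ∈ sphere (0 : E n) 1) : u ≠ 0 := by
  rintro rfl
  rw [mem_sphere_zero_iff_norm, norm_zero] at hu
  exact zero_ne_one hu

section conn

variable {M : Type} [TopologicalSpace M] {π : E n → M}

theorem TStd.preconnected (h : TStd ρ π) (hn : 2 ≤ n) : IsPreconnected (univ : Set M) := by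
  have h1 : (univ : Set M) = π '' {0}ᶜ := by
    ext x
    obtain ⟨z, hz, rfl⟩ := h.surj x
    simp only [mem_univ, true_iff]
    exact ⟨z, hz, rfl⟩
  rw [h1]
  exact (punct_preconnected hn).image π fun z hz => (h.cont z hz).continuousWithinAt

theorem TStd.level (h : TStd ρ π) {z w : E n} (hz : z ≠ 0) (hw : w ≠ 0) (hzw : π z = π w)
    (h1 : ‖w‖ < 2 * ‖z‖) (h2 : ‖z‖ < 2 * ‖w‖) : w = z := by
  obtain ⟨k, rfl⟩ := (h.fib z w hz hw).1 hzw
  have hz' := norm_pos_iff.2 hz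
  rw [dk_norm] at h1 h2
  have h3 : (2 : ℝ) ^ k < 2 ^ (1 : ℤ) := by
    rw [zpow_one]
    exact lt_of_mul_lt_mul_right h1 hz'.le
  have h4 : (2 : ℝ) ^ (-1 : ℤ) < 2 ^ k := by
    rw [zpow_neg_one]
    have : (1 : ℝ) < 2 * 2 ^ k := by
      by_contra hcon
      have := mul_le_mul_of_nonneg_right (not_lt.1 hcon) hz'.le
      nlinarith
    linarith
  have h5 : k < 1 := (zpow_lt_zpow_iff_right₀ (by norm_num)).1 h3
  have h6 : -1 < k := (zpow_lt_zpow_iff_right₀ (by norm_num)).1 h4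
  have h7 : k = 0 := by omega
  rw [h7, dk_zero]

end conn

section man

variable {M : Type} [TopologicalSpace M] [T2Space M] [ChartedSpace (E n) M]
  [IsManifold (𝓡 n) ∞ M] {π : E n → M}

theorem sphere_closed {ε : E n → M} (hε : Nk ε) : IsClosed (ε '' sphere (0 : E n) 1) :=
  ((isCompact_sphere _ _).image_of_continuousOn (hε.cont fun _ hu => sphere_ne hu)).isClosed

/-- **Compact sets off a nonseparating sphere embed.** -/
theorem Std.emb_all {p : M} (h : Std ρ π p) (hn : 3 ≤ n) {ε : E n → M} (hε : Nk ε)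
    (hV : IsPreconnected (ε '' sphere 0 1)ᶜ) {K : Set M} (hK : IsCompact K)
    (hKV : K ⊆ (ε '' sphere 0 1)ᶜ) : Emb n K := by
  have hemb := h.emb hn hε hV
  by_cases hp : p ∈ K
  · have hpV := hKV hp
    obtain ⟨q, hqV, hqK⟩ : ∃ q, q ∈ (ε '' sphere (0 : E n) 1)ᶜ ∧ q ∉ K := by
      by_contra hcon
      push Not at hcon
      have h1 : (ε '' sphere (0 : E n) 1)ᶜ = K := Subset.antisymm hcon hKV
      have h2 : IsClosed (ε '' sphere (0 : E n) 1)ᶜ := by
        rw [h1]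
        exact hK.isClosed
      have h3 : IsClopen (ε '' sphere (0 : E n) 1)ᶜ := ⟨h2, (sphere_closed hε).isOpen_compl⟩
      have : PreconnectedSpace M := ⟨h.top.preconnected (by omega)⟩
      have h4 := h3.eq_univ ⟨p, hpV⟩
      let j : Fin n := ⟨0, by omega⟩
      have h5 : ε (qq j) ∈ (ε '' sphere (0 : E n) 1)ᶜ := by
        rw [h4]
        trivial
      exact h5 ⟨qq j, mem_sphere_zero_iff_norm.2 (norm_qq j), rfl⟩
    obtain ⟨κ, hκ, hκq, hκV⟩ := LV.move_in (n := n) (sphere_closed hε).isOpen_compl hqV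
      (hV.subset_connectedComponentIn hqV subset_rfl hpV)
    obtain ⟨m, rfl⟩ : ∃ m, n = m + 1 := ⟨n - 1, by omega⟩
    refine LV.emb_of_image hκ (Emb.mono hemb ?_)
    rintro _ ⟨x, hx, rfl⟩
    refine ⟨?_, ?_⟩
    · intro hc
      have h1 := hκV _ (fun hc' => hc' hc)
      have h2 := hκ.1.1 h1
      rw [h2] at hc
      exact hKV hx hc
    · intro hc
      have h1 : κ x = κ q := by
        rw [hκq]
        exact hc
      exact hqK (hκ.1.1 h1 ▸ hx)
  · exact Emb.mono hemb fun x hx => ⟨hKV hx, fun hc => hp (hc ▸ hx)⟩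

/-- squeezing the punctured space into a shell -/
def sq (z : E n) : E n := ((1 + 2 * ‖z‖) / (‖z‖ * (1 + ‖z‖))) • z

def sqi (w : E n) : E n := ((‖w‖ - 1) / ((2 - ‖w‖) * ‖w‖)) • w

theorem sq_norm {z : E n} (hz : z ≠ 0) : ‖sq z‖ = (1 + 2 * ‖z‖) / (1 + ‖z‖) := by
  have := norm_pos_iff.2 hz
  rw [sq, norm_smul, Real.norm_of_nonneg (by positivity)]
  field_simp

theorem sq_lo {z : E n} (hz : z ≠ 0) : 1 < ‖sq z‖ := by
  have := norm_pos_iff.2 hz
  rw [sq_norm hz, lt_div_iff₀ (by positivity)]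
  linarith

theorem sq_hi {z : E n} (hz : z ≠ 0) : ‖sq z‖ < 2 := by
  have := norm_pos_iff.2 hz
  rw [sq_norm hz, div_lt_iff₀ (by positivity)]
  linarith

theorem sqi_norm {w : E n} (h1 : 1 < ‖w‖) (h2 : ‖w‖ < 2) : ‖sqi w‖ = (‖w‖ - 1) / (2 - ‖w‖) := by
  have h3 : 0 < ‖w‖ - 1 := by linarith
  have h4 : 0 < 2 - ‖w‖ := by linarith
  have h5 : 0 < ‖w‖ := by linarith
  rw [sqi, norm_smul, Real.norm_of_nonneg (by positivity)]
  field_simp

theorem sqi_ne {w : E n} (h1 : 1 < ‖w‖) (h2 : ‖w‖ < 2) : sqi w ≠ 0 := by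
  rw [← norm_pos_iff, sqi_norm h1 h2]
  have h3 : 0 < ‖w‖ - 1 := by linarith
  have h4 : 0 < 2 - ‖w‖ := by linarith
  positivity

theorem sqi_sq {z : E n} (hz : z ≠ 0) : sqi (sq z) = z := by
  have h0 := norm_pos_iff.2 hz
  have h1 : sqi (sq z) = ((‖sq z‖ - 1) / ((2 - ‖sq z‖) * ‖sq z‖)) • sq z := rfl
  rw [h1, sq_norm hz, sq, smul_smul]
  have h2 : ((1 + 2 * ‖z‖) / (1 + ‖z‖) - 1) / ((2 - (1 + 2 * ‖z‖) / (1 + ‖z‖)) *
      ((1 + 2 * ‖z‖) / (1 + ‖z‖))) * ((1 + 2 * ‖z‖) / (‖z‖ * (1 + ‖z‖))) = 1 := by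
    have h3 : (1 + 2 * ‖z‖) / (1 + ‖z‖) - 1 = ‖z‖ / (1 + ‖z‖) := by
      field_simp
      ring
    have h4 : 2 - (1 + 2 * ‖z‖) / (1 + ‖z‖) = 1 / (1 + ‖z‖) := by
      field_simp
      ring
    rw [h3, h4]
    field_simp
  rw [h2, one_smul]

theorem sq_sqi {w : E n} (h1 : 1 < ‖w‖) (h2 : ‖w‖ < 2) : sq (sqi w) = w := by
  have h3 : 0 < ‖w‖ - 1 := by linarith
  have h4 : 0 < 2 - ‖w‖ := by linarith
  have h5 : 0 < ‖w‖ := by linarith
  have h6 : sq (sqi w) = ((1 + 2 * ‖sqi w‖) / (‖sqi w‖ * (1 + ‖sqi w‖))) • sqi w := rfl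
  rw [h6, sqi_norm h1 h2, sqi, smul_smul]
  have h7 : (1 + 2 * ((‖w‖ - 1) / (2 - ‖w‖))) / ((‖w‖ - 1) / (2 - ‖w‖) *
      (1 + (‖w‖ - 1) / (2 - ‖w‖))) * ((‖w‖ - 1) / ((2 - ‖w‖) * ‖w‖)) = 1 := by
    have h8 : 1 + 2 * ((‖w‖ - 1) / (2 - ‖w‖)) = ‖w‖ / (2 - ‖w‖) := by
      field_simp
      ring
    have h9 : 1 + (‖w‖ - 1) / (2 - ‖w‖) = 1 / (2 - ‖w‖) := by
      field_simp
      ring
    rw [h8, h9]
    field_simp
  rw [h7, one_smul]

theorem sq_LD {z : E n} (hz : z ≠ 0) : LD n (sq : E n → E n) z := by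
  have hs : ContMDiffOn (𝓡 n) (𝓡 n) ∞ (sq : E n → E n) {0}ᶜ := by
    intro z hz
    have hz' : z ≠ 0 := hz
    have h0 := norm_pos_iff.2 hz'
    have h1 : ContDiffAt ℝ ∞ (fun z : E n => ‖z‖) z := contDiffAt_norm ℝ hz'
    have h2 : ContDiffAt ℝ ∞ (fun z : E n => (1 + 2 * ‖z‖) / (‖z‖ * (1 + ‖z‖))) z := by
      refine ContDiffAt.div ?_ ?_ ?_
      · exact contDiffAt_const.add (contDiffAt_const.mul h1)
      · exact h1.mul (contDiffAt_const.add h1)
      · positivity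
    have h3 : ContDiffAt ℝ ∞ (sq : E n → E n) z := h2.smul contDiffAt_id
    exact h3.contMDiffAt.contMDiffWithinAt
  have hs' : ContMDiffOn (𝓡 n) (𝓡 n) ∞ (sqi : E n → E n) {w | 1 < ‖w‖ ∧ ‖w‖ < 2} := by
    rintro w ⟨hw1, hw2⟩
    have h3 : 0 < ‖w‖ - 1 := by linarith
    have h4 : 0 < 2 - ‖w‖ := by linarith
    have h5 : 0 < ‖w‖ := by linarith
    have h1 : ContDiffAt ℝ ∞ (fun z : E n => ‖z‖) w := contDiffAt_norm ℝ (norm_pos_iff.1 h5)
    have h2 : ContDiffAt ℝ ∞ (fun w : E n => (‖w‖ - 1) / ((2 - ‖w‖) * ‖w‖)) w := by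
      refine ContDiffAt.div ?_ ?_ ?_
      · exact h1.sub contDiffAt_const
      · exact (contDiffAt_const.sub h1).mul h1
      · positivity
    have h6 : ContDiffAt ℝ ∞ (sqi : E n → E n) w := h2.smul contDiffAt_id
    exact h6.contMDiffAt.contMDiffWithinAt
  exact ⟨{ toFun := sq
           invFun := sqi
           source := {0}ᶜ
           target := {w | 1 < ‖w‖ ∧ ‖w‖ < 2}
           map_source' := fun z hz => ⟨sq_lo hz, sq_hi hz⟩
           map_target' := fun w hw => sqi_ne hw.1 hw.2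
           left_inv' := fun z hz => sqi_sq hz
           right_inv' := fun w hw => sq_sqi hw.1 hw.2
           open_source := isOpen_compl_singleton
           open_target := (isOpen_lt continuous_const continuous_norm).inter
             (isOpen_lt continuous_norm continuous_const)
           contMDiffOn_toFun := hs
           contMDiffOn_invFun := hs' }, hz, fun _ _ => rfl⟩

/-- **The standard sphere.** -/
theorem Std.exists_sphere {p : M} (h : Std ρ π p) (hn : 2 ≤ n) :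
    ∃ ε : E n → M, Nk ε ∧ IsConnected (ε '' sphere 0 1)ᶜ := by
  have hT := h.top
  obtain ⟨wp, hwp, hwpp⟩ := h.surj p
  obtain ⟨r, hr⟩ : ∃ r : ℝ, r = ‖wp‖ := ⟨_, rfl⟩
  have hr0 : 0 < r := by
    rw [hr]
    exact norm_pos_iff.2 hwp
  let ε : E n → M := fun z => π (r • sq z)
  have hsc : ∀ (c : ℝ), 0 < c → ∀ z : E n, ‖c • z‖ = c * ‖z‖ := fun c hc z => by
    rw [norm_smul, Real.norm_of_nonneg hc.le]
  have hne : ∀ z : E n, z ≠ 0 → ∀ c : ℝ, 0 < c → c • sq z ≠ 0 := by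
    intro z hz c hc
    rw [← norm_pos_iff, hsc c hc]
    have := sq_lo hz
    positivity
  have hε : Nk ε := by
    refine ⟨fun u v hu hv huv => ?_, fun u hu => ?_⟩
    · have h1 := sq_lo hu
      have h2 := sq_hi hu
      have h3 := sq_lo hv
      have h4 := sq_hi hv
      have h5 := hT.level (hne u hu r hr0) (hne v hv r hr0) huv
        (by rw [hsc r hr0, hsc r hr0]; nlinarith) (by rw [hsc r hr0, hsc r hr0]; nlinarith)
      have h6 := congrArg sqi (smul_right_injective _ hr0.ne' h5)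
      rw [sqi_sq hu, sqi_sq hv] at h6
      exact h6.symm
    · let L : E n ≃L[ℝ] E n := ContinuousLinearEquiv.smulLeft (Units.mk0 r hr0.ne')
      refine LD.comp_fun (g := π) (f := fun z => r • sq z) (h.ld _ (hne u hu r hr0) ?_)
        (LD.comp_fun (g := fun y => L y) (f := sq) (LD_linear L _) (sq_LD hu))
      intro hc
      have h1 := sq_lo hu
      have h2 := sq_hi hu
      have h3 := hT.level hwp (hne u hu r hr0) (by rw [hc, hwpp])
        (by rw [hsc r hr0, ← hr]; nlinarith) (by rw [hsc r hr0, ← hr]; nlinarith)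
      have h4 := congrArg norm h3
      rw [hsc r hr0, ← hr] at h4
      nlinarith
  have h32 : (0 : ℝ) < 3 / 2 * r := by positivity
  have hcompl : (ε '' sphere 0 1)ᶜ = (fun z => π ((3 / 2 * r) • sq z)) '' {0}ᶜ := by
    have hS : ∀ u : E n, ‖u‖ = 1 → r • sq u = (3 / 2 * r) • u := by
      intro u hu
      rw [sq, hu, smul_smul]
      congr 1
      norm_num
      ring
    ext x
    constructor
    · intro hx
      obtain ⟨w, hw1, hw2, rfl⟩ := hT.norm_level h32 x
      rcases hw1.lt_or_eq with hw3 | hw3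
      · obtain ⟨w', hw'⟩ : ∃ w' : E n, w' = (3 / 2 * r)⁻¹ • w := ⟨_, rfl⟩
        have hww : w = (3 / 2 * r) • w' := by
          rw [hw', smul_smul, mul_inv_cancel₀ h32.ne', one_smul]
        have h1 : 1 < ‖w'‖ := by
          rw [hww, hsc _ h32] at hw3
          nlinarith
        have h2 : ‖w'‖ < 2 := by
          rw [hww, hsc _ h32] at hw2
          nlinarith
        refine ⟨sqi w', sqi_ne h1 h2, ?_⟩
        show π ((3 / 2 * r) • sq (sqi w')) = π w
        rw [sq_sqi h1 h2, ← hww]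
      · exfalso
        refine hx ⟨(3 / 2 * r)⁻¹ • w, ?_, ?_⟩
        · rw [mem_sphere_zero_iff_norm, hsc _ (inv_pos.2 h32), ← hw3, inv_mul_cancel₀ h32.ne']
        · show π (r • sq ((3 / 2 * r)⁻¹ • w)) = π w
          rw [hS _ (by rw [hsc _ (inv_pos.2 h32), ← hw3, inv_mul_cancel₀ h32.ne']), smul_smul,
            mul_inv_cancel₀ h32.ne', one_smul]
    · rintro ⟨z, hz, rfl⟩ ⟨u, hu, huz⟩
      rw [mem_sphere_zero_iff_norm] at hu
      have h1 := sq_lo hz
      have h2 := sq_hi hz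
      have h3 : π ((3 / 2 * r) • u) = π ((3 / 2 * r) • sq z) := by
        rw [← hS u hu]
        exact huz
      have hu0 : (3 / 2 * r) • u ≠ 0 := by
        rw [← norm_pos_iff, hsc _ h32, hu]
        positivity
      have h4 := hT.level hu0 (hne z hz _ h32) h3 (by rw [hsc _ h32, hsc _ h32, hu]; nlinarith)
        (by rw [hsc _ h32, hsc _ h32, hu]; nlinarith)
      have h5 := congrArg norm h4
      rw [hsc _ h32, hsc _ h32, hu] at h5
      nlinarith
  refine ⟨ε, hε, ?_⟩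
  rw [hcompl]
  let j : Fin n := ⟨0, by omega⟩
  refine ⟨⟨_, ⟨qq j, sphere_ne (mem_sphere_zero_iff_norm.2 (norm_qq j)), rfl⟩⟩, ?_⟩
  refine (punct_preconnected hn).image _ fun z hz => ContinuousAt.continuousWithinAt ?_
  refine ContinuousAt.comp (g := π) (f := fun z => (3 / 2 * r) • sq z) (hT.cont _ (hne z hz _ h32))
    ?_
  exact (sq_LD hz).continuousAt.const_smul (3 / 2 * r : ℝ)

end man

end Pool.Agent.H827.HS
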