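import Pool.Agent.H827.HS.Two
import Pool.Agent.H827.LV.Glue
import Pool.Graph.R_pool_sql_team_seeded_64922ed1.X175.SH.MB6

/-!
# Squeezing the unit ball, and drilling
-/

set_option autoImplicit false
set_option linter.unusedSectionVars false

open Set Filter Topology Metric Function
open scoped Manifold ContDiff NNReal

noncomputable section

namespace Pool.Agent.H827.HS

open Pool.Agent.Y522 Pool.Agent.X175.SH Pool.Agent.N550.KH Pool.Agent.H829.AZ

variable {n : ℕ}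

/-- the unit ball can be made small, with support in a larger ball -/
theorem exists_small {s δ : ℝ} (hs : 1 < s) (hδ : 0 < δ) : ∃ Φ : E n → E n, IsDf n Φ ∧
    (∀ y, s ≤ ‖y‖ → Φ y = y) ∧ ∀ y, ‖y‖ ≤ 1 → ‖Φ y‖ < δ := by
  have hs0 : 0 < s := one_pos.trans hs
  obtain ⟨k, hk0, hk1, hkδ⟩ : ∃ k : ℝ, 0 < k ∧ k < 1 ∧ k < δ :=
    ⟨min (1 / 2) (δ / 2), by positivity, (min_le_left _ _).trans_lt (by norm_num),
      (min_le_right _ _).trans_lt (by linarith)⟩
  obtain ⟨a, ha⟩ : ∃ a : ℝ, a = (s ^ 2)⁻¹ := ⟨_, rfl⟩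
  have ha1 : a < 1 := by
    rw [ha]
    exact inv_lt_one_of_one_lt₀ (by nlinarith)
  let ρ : ℝ → ℝ := fun t => k + (1 - k) * Real.smoothTransition ((t - a) / (1 - a))
  have hρs : ContDiff ℝ ∞ ρ := by
    have h1 : ContDiff ℝ ∞ (fun t : ℝ => (t - a) / (1 - a)) := by fun_prop
    exact contDiff_const.add (contDiff_const.mul (Real.smoothTransition.contDiff.comp h1))
  have hρa : ∀ t, t ≤ a → ρ t = k := fun t ht => by
    show k + (1 - k) * Real.smoothTransition ((t - a) / (1 - a)) = k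
    rw [Real.smoothTransition.zero_of_nonpos
      (div_nonpos_of_nonpos_of_nonneg (by linarith) (by linarith)), mul_zero, add_zero]
  obtain ⟨Φ, hΦ, hΦL⟩ := exists_radial n ρ
    (by
      intro x y hxy
      show k + (1 - k) * Real.smoothTransition ((x - a) / (1 - a)) ≤
        k + (1 - k) * Real.smoothTransition ((y - a) / (1 - a))
      have h1 : Real.smoothTransition ((x - a) / (1 - a)) ≤
          Real.smoothTransition ((y - a) / (1 - a)) :=
        Real.smoothTransition.monotone (div_le_div_of_nonneg_right (by linarith) (by linarith))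
      nlinarith)
    (fun t _ => by
      show 0 < k + (1 - k) * Real.smoothTransition ((t - a) / (1 - a))
      have := Real.smoothTransition.nonneg ((t - a) / (1 - a))
      nlinarith)
    (fun t ht => by
      show k + (1 - k) * Real.smoothTransition ((t - a) / (1 - a)) = 1
      rw [Real.smoothTransition.one_of_one_le ((one_le_div (by linarith)).2 (by linarith))]
      ring)
    (fun t => by
      show 0 ≤ k + (1 - k) * Real.smoothTransition ((t - a) / (1 - a))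
      have := Real.smoothTransition.nonneg ((t - a) / (1 - a))
      nlinarith)
    (fun t _ => hρs.contDiffAt)
  have hΦ0 : ∀ y : E n, ‖y‖ ≤ s⁻¹ → Φ y = k • y := by
    intro y hy
    rw [hΦ, hρa]
    rw [ha, ← inv_pow]
    exact pow_le_pow_left₀ (norm_nonneg _) hy 2
  have hΦD : IsDf n Φ := by
    refine ⟨Φ.bijective, fun y => ?_⟩
    by_cases hy : y = 0
    · subst hy
      have h1 : LD n (fun y : E n => k • y) 0 :=
        LD_linear (ContinuousLinearEquiv.smulLeft (Units.mk0 k hk0.ne')) 0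
      refine h1.congr ?_
      filter_upwards [closedBall_mem_nhds (0 : E n) (inv_pos.2 hs0)] with z hz
      exact hΦ0 z (mem_closedBall_zero_iff.1 hz)
    · exact hΦL y hy
  have hΦ1 : ∀ y : E n, 1 ≤ ‖y‖ → Φ y = y := by
    intro y hy
    rw [hΦ]
    show (k + (1 - k) * Real.smoothTransition ((‖y‖ ^ 2 - a) / (1 - a))) • y = y
    rw [Real.smoothTransition.one_of_one_le ((one_le_div (by linarith)).2 (by nlinarith))]
    rw [mul_one, add_sub_cancel, one_smul]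
  let e : E n ≃L[ℝ] E n := ContinuousLinearEquiv.smulLeft (Units.mk0 s hs0.ne')
  have he : ∀ x, e x = s • x := fun x => rfl
  have hes : ∀ x, e.symm x = s⁻¹ • x := fun x => by
    rw [e.symm_apply_eq, he, smul_smul, mul_inv_cancel₀ hs0.ne', one_smul]
  have heD : IsDf n (fun y => e y) := ⟨e.bijective, fun x => LD_linear e x⟩
  have hesD : IsDf n (fun y => e.symm y) := ⟨e.symm.bijective, fun x => LD_linear e.symm x⟩
  refine ⟨fun y => e (Φ (e.symm y)), IsDf.comp heD (IsDf.comp hΦD hesD), fun y hy => ?_,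
    fun y hy => ?_⟩
  · show e (Φ (e.symm y)) = y
    rw [hΦ1, e.apply_symm_apply]
    rw [hes, norm_smul, Real.norm_of_nonneg (inv_pos.2 hs0).le, ← div_eq_inv_mul, one_le_div hs0]
    exact hy
  · show ‖e (Φ (e.symm y))‖ < δ
    rw [hΦ0, he, hes, smul_smul, smul_smul, norm_smul]
    · have h1 : s * k * s⁻¹ = k := by field_simp
      rw [h1, Real.norm_of_nonneg hk0.le]
      nlinarith [norm_nonneg y]
    · rw [hes, norm_smul, Real.norm_of_nonneg (inv_pos.2 hs0).le]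
      have := inv_pos.2 hs0
      nlinarith

/-- the unit ball can be squeezed into a neighbourhood of a given point -/
theorem exists_squeeze {u₀ : E n} {s : ℝ} (h1 : 1 < s) (hu : ‖u₀‖ < s) {β : Set (E n)}
    (hβ : β ∈ 𝓝 u₀) : ∃ Ψ : E n → E n, IsDf n Ψ ∧ (∀ y, s ≤ ‖y‖ → Ψ y = y) ∧
      ∀ y, ‖y‖ ≤ 1 → Ψ y ∈ β := by
  have hpre : IsPreconnected (ball (0 : E n) s) := (convex_ball 0 s).isPreconnected
  have h0 : (0 : E n) ∈ ball (0 : E n) s := mem_ball_self (one_pos.trans h1)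
  obtain ⟨κ, hκ, hκ0, hκs⟩ := LV.move_in (n := n) (N := E n) isOpen_ball h0
    (hpre.subset_connectedComponentIn h0 Subset.rfl (mem_ball_zero_iff.2 hu))
  have h2 : κ ⁻¹' β ∈ 𝓝 (0 : E n) := (hκ.2 0).continuousAt (by rwa [hκ0])
  obtain ⟨δ, hδ, hball⟩ := Metric.mem_nhds_iff.1 h2
  obtain ⟨Φ, hΦ, hΦs, hΦ1⟩ := exists_small (n := n) h1 hδ
  refine ⟨fun y => κ (Φ y), IsDf.comp hκ hΦ, fun y hy => ?_, fun y hy => ?_⟩
  · show κ (Φ y) = y
    rw [hΦs y hy, hκs y]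
    rw [mem_ball_zero_iff, not_lt]
    exact hy
  · exact hball (mem_ball_zero_iff.2 (hΦ1 y hy))

/-- **Drilling.** -/
theorem drill {V : Type} [TopologicalSpace V] [T2Space V] [ChartedSpace (E n) V]
    {P : Set (E n)} {c : E n → V} (hci : InjOn c P)
    (hcl : ∀ x ∈ P, LD n c x) {lam : ℝ} {μ : E n → E n} (hμi : InjOn μ (ball 0 lam))
    (hμl : ∀ u ∈ ball (0 : E n) lam, LD n μ u) (hμP : ∀ u ∈ ball (0 : E n) lam, μ u ∈ P)
    {e : E n → V} (hei : InjOn e {u | 1 < ‖u‖ ∧ ‖u‖ < lam})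
    (hel : ∀ u, 1 < ‖u‖ → ‖u‖ < lam → LD n e u)
    {s : ℝ} (hsl : s < lam) (hec : IsClosed (e '' {u | 1 < ‖u‖ ∧ ‖u‖ ≤ s}))
    {u₀ : E n} (hu1 : 1 < ‖u₀‖) (hus : ‖u₀‖ < s) (h0 : ∀ᶠ u in 𝓝 u₀, c (μ u) = e u) :
    ∃ c' : E n → V, InjOn c' (P \ μ '' closedBall 0 1) ∧
      (∀ x ∈ P \ μ '' closedBall 0 1, LD n c' x) ∧
      (∃ η : ℝ, 0 < η ∧ ∀ u, 1 < ‖u‖ → ‖u‖ < 1 + η → c' (μ u) = e u) ∧
      ∀ x ∈ P, x ∉ μ '' ball 0 s → c x ∉ e '' {u | 1 < ‖u‖ ∧ ‖u‖ < s} → c' x = c x := by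
  classical
  have h1s : 1 < s := hu1.trans hus
  have hs0 : 0 < s := one_pos.trans h1s
  -- the squeeze
  obtain ⟨β, hβ⟩ : ∃ β : Set (E n), β = {u | c (μ u) = e u ∧ 1 < ‖u‖ ∧ ‖u‖ < s} := ⟨_, rfl⟩
  have hβn : β ∈ 𝓝 u₀ := by
    rw [hβ]
    filter_upwards [h0, continuous_norm.continuousAt.eventually (lt_mem_nhds hu1),
      continuous_norm.continuousAt.eventually (gt_mem_nhds hus)] with u h1 h2 h3
    exact ⟨h1, h2, h3⟩
  have hβm : ∀ u ∈ β, c (μ u) = e u ∧ 1 < ‖u‖ ∧ ‖u‖ < s := fun u hu => by rwa [hβ] at hu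
  obtain ⟨Ψ, hΨ, hΨs, hΨ1⟩ := exists_squeeze h1s hus (interior_mem_nhds.2 hβn)
  obtain ⟨Ψ', hΨ', hΨ'Ψ, hΨΨ'⟩ := dfInv hΨ
  have hΨ's : ∀ y, s ≤ ‖y‖ → Ψ' y = y := fun y hy => by
    conv_lhs => rw [← hΨs y hy]
    exact hΨ'Ψ y
  have hΨ'l : ∀ y, ‖y‖ < s → ‖Ψ' y‖ < s := by
    intro y hy
    by_contra hcon
    push Not at hcon
    have h2 := hΨs _ hcon
    rw [hΨΨ'] at h2
    rw [← h2] at hcon
    linarith
  -- the source
  obtain ⟨σ, hσi, hσL, hσt, hσ⟩ := exists_shr n hs0 hsl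
  have hσb : ∀ x, σ x ∈ ball (0 : E n) lam := fun x => mem_ball_zero_iff.2 (hσt x)
  have hmi : Injective fun x => μ (σ x) := fun x y hxy => hσi (hμi (hσb x) (hσb y) hxy)
  have hmL : ∀ x, LD n (fun x => μ (σ x)) x := fun x =>
    LD.comp_fun (g := μ) (f := σ) (hμl _ (hσb x)) (hσL x)
  obtain ⟨K, hK, hKc, hKo⟩ := Supp.main n (E n) (fun x => μ (σ x)) hmi hmL Ψ hΨ ⟨s, hΨs⟩
  have hKμ : ∀ u, ‖u‖ < s → ‖Ψ u‖ < s → K (μ u) = μ (Ψ u) := by
    intro u hu hu'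
    have h2 := hKc u
    rw [hσ u hu.le, hσ _ hu'.le] at h2
    exact h2
  have hΨl : ∀ y, ‖y‖ < s → ‖Ψ y‖ < s := by
    intro y hy
    by_contra hcon
    push Not at hcon
    have h2 := hΨ's _ hcon
    rw [hΨ'Ψ] at h2
    rw [← h2] at hcon
    linarith
  have hKs : ∀ x, x ∉ μ '' ball 0 s → K x = x := by
    intro x hx
    by_cases h2 : x ∈ range fun x => μ (σ x)
    · obtain ⟨z, rfl⟩ := h2
      rw [hKc]
      have h3 : s ≤ ‖z‖ := by
        by_contra hcon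
        push Not at hcon
        refine hx ⟨z, mem_ball_zero_iff.2 hcon, ?_⟩
        show μ z = μ (σ z)
        rw [hσ z hcon.le]
      rw [hΨs z h3]
    · exact hKo x h2
  have hKP : ∀ x ∈ P, K x ∈ P := by
    intro x hx
    by_cases h2 : x ∈ range fun x => μ (σ x)
    · obtain ⟨z, rfl⟩ := h2
      rw [hKc]
      exact hμP _ (hσb _)
    · rw [hKo x h2]
      exact hx
  -- the target
  obtain ⟨A, hA⟩ : ∃ A : Set (E n), A = {u | 1 < ‖u‖ ∧ ‖u‖ < lam} := ⟨_, rfl⟩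
  rw [← hA] at hei
  have hAo : IsOpen A := by
    rw [hA]
    exact (isOpen_lt continuous_const continuous_norm).inter
      (isOpen_lt continuous_norm continuous_const)
  have hAm : ∀ u, u ∈ A ↔ 1 < ‖u‖ ∧ ‖u‖ < lam := fun u => by rw [hA]; rfl
  have hne : Nonempty (E n) := ⟨0⟩
  obtain ⟨ie, hie⟩ : ∃ ie : V → E n, ∀ u ∈ A, ie (e u) = u :=
    ⟨invFunOn e A, fun u hu => hei.leftInvOn_invFunOn hu⟩
  have hieL : ∀ u ∈ A, LD n ie (e u) := fun u hu =>
    LD.inverse (k := e) hAo (fun u hu => hel u ((hAm u).1 hu).1 ((hAm u).1 hu).2) hie hu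
  have heO : IsOpen (e '' A) := isOpen_image_of_LD hAo fun u hu =>
    hel u ((hAm u).1 hu).1 ((hAm u).1 hu).2
  let Θ : V → V := fun x => if x ∈ e '' A then e (Ψ' (ie x)) else x
  have hΘe : ∀ u ∈ A, Θ (e u) = e (Ψ' u) := fun u hu => by
    show (if e u ∈ e '' A then e (Ψ' (ie (e u))) else e u) = _
    rw [if_pos ⟨u, hu, rfl⟩, hie u hu]
  have hΘo : ∀ x, x ∉ e '' {u | 1 < ‖u‖ ∧ ‖u‖ < s} → Θ x = x := by
    intro x hx
    by_cases h2 : x ∈ e '' A
    · obtain ⟨u, hu, rfl⟩ := h2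
      rw [hΘe u hu, hΨ's]
      by_contra hcon
      exact hx ⟨u, ⟨((hAm u).1 hu).1, not_le.1 hcon⟩, rfl⟩
    · exact if_neg h2
  -- points of the annulus which are not in the image of the ball
  have hΨ'A : ∀ u ∈ A, u ∉ Ψ '' closedBall 0 1 → Ψ' u ∈ A := by
    intro u hu hu'
    rw [hAm] at hu ⊢
    refine ⟨?_, ?_⟩
    · by_contra hcon
      refine hu' ⟨Ψ' u, mem_closedBall_zero_iff.2 (not_lt.1 hcon), hΨΨ' u⟩
    · by_cases h2 : ‖u‖ < s
      · exact (hΨ'l u h2).trans hsl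
      · rw [hΨ's u (not_lt.1 h2)]
        exact hu.2
  have hΘL : ∀ x, x ∉ e '' (Ψ '' closedBall 0 1) → LD n Θ x := by
    intro x hx
    by_cases h2 : x ∈ e '' A
    · obtain ⟨u, hu, rfl⟩ := h2
      have h3 : Ψ' u ∈ A := hΨ'A u hu fun h => hx ⟨u, h, rfl⟩
      have h4 : LD n (fun y => e (Ψ' (ie y))) (e u) := by
        refine LD.comp_fun (g := e) (f := fun y => Ψ' (ie y)) ?_ ?_
        · rw [hie u hu]
          exact hel _ ((hAm _).1 h3).1 ((hAm _).1 h3).2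
        · exact LD.comp_fun (g := Ψ') (f := ie) (hΨ'.2 _) (hieL u hu)
      refine h4.congr ?_
      filter_upwards [heO.mem_nhds ⟨u, hu, rfl⟩] with y hy
      exact if_pos hy
    · have h3 : x ∉ e '' {u | 1 < ‖u‖ ∧ ‖u‖ ≤ s} := by
        rintro ⟨u, hu, rfl⟩
        exact h2 ⟨u, (hAm u).2 ⟨hu.1, hu.2.trans_lt hsl⟩, rfl⟩
      refine (LD.id x).congr ?_
      filter_upwards [hec.isOpen_compl.mem_nhds h3] with y hy
      refine hΘo y ?_
      rintro ⟨u, hu, rfl⟩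
      exact hy ⟨u, ⟨hu.1, hu.2.le⟩, rfl⟩
  have hΘi : InjOn Θ (e '' (Ψ '' closedBall 0 1))ᶜ := by
    intro x hx y hy hxy
    by_cases h2 : x ∈ e '' A
    · obtain ⟨u, hu, rfl⟩ := h2
      have h3 : Ψ' u ∈ A := hΨ'A u hu fun h => hx ⟨u, h, rfl⟩
      rw [hΘe u hu] at hxy
      by_cases h4 : y ∈ e '' A
      · obtain ⟨v, hv, rfl⟩ := h4
        have h5 : Ψ' v ∈ A := hΨ'A v hv fun h => hy ⟨v, h, rfl⟩
        rw [hΘe v hv] at hxy
        rw [hΨ'.1.1 (hei h3 h5 hxy)]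
      · exfalso
        have h5 : Θ y = y := if_neg h4
        rw [h5] at hxy
        exact h4 ⟨_, h3, hxy⟩
    · have h2' : Θ x = x := if_neg h2
      rw [h2'] at hxy
      by_cases h4 : y ∈ e '' A
      · exfalso
        obtain ⟨v, hv, rfl⟩ := h4
        have h5 : Ψ' v ∈ A := hΨ'A v hv fun h => hy ⟨v, h, rfl⟩
        rw [hΘe v hv] at hxy
        exact h2 ⟨_, h5, hxy.symm⟩
      · have h5 : Θ y = y := if_neg h4
        rw [h5] at hxy
        exact hxy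
  -- the values of the new map
  have hmem : ∀ x ∈ P \ μ '' closedBall 0 1, c (K x) ∈ (e '' (Ψ '' closedBall 0 1))ᶜ := by
    rintro x ⟨hx, hx'⟩ ⟨_, ⟨b, hb, rfl⟩, hu⟩
    have hb1 : ‖b‖ ≤ 1 := mem_closedBall_zero_iff.1 hb
    obtain ⟨h2, h3, h4⟩ := hβm _ (interior_subset (hΨ1 b hb1))
    rw [← h2] at hu
    have h5 : μ (Ψ b) ∈ P := hμP _ (mem_ball_zero_iff.2 (h4.trans hsl))
    have h6 := hci h5 (hKP x hx) hu
    rw [← hKμ b (hb1.trans_lt h1s) h4] at h6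
    exact hx' ⟨b, hb, hK.1.1 h6⟩
  refine ⟨fun x => Θ (c (K x)), ?_, ?_, ?_, ?_⟩
  · intro x hx y hy hxy
    exact hK.1.1 (hci (hKP x hx.1) (hKP y hy.1) (hΘi (hmem x hx) (hmem y hy) hxy))
  · intro x hx
    refine LD.comp_fun (g := Θ) (f := fun x => c (K x)) (hΘL _ (hmem x hx)) ?_
    exact LD.comp_fun (g := c) (f := K) (hcl _ (hKP x hx.1)) (hK.2 x)
  · have hΨc : Continuous Ψ := continuous_iff_continuousAt.2 fun x => (hΨ.2 x).continuousAt
    have h2 : IsOpen (Ψ ⁻¹' interior β ∩ ball 0 s) :=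
      (isOpen_interior.preimage hΨc).inter isOpen_ball
    have h3 : closedBall (0 : E n) 1 ⊆ Ψ ⁻¹' interior β ∩ ball 0 s := by
      intro y hy
      have hy1 := mem_closedBall_zero_iff.1 hy
      exact ⟨hΨ1 y hy1, mem_ball_zero_iff.2 (hy1.trans_lt h1s)⟩
    obtain ⟨η, hη, hη'⟩ := (isCompact_closedBall (0 : E n) 1).exists_thickening_subset_open h2 h3
    refine ⟨η, hη, fun u hu1 hu2 => ?_⟩
    have h4 : u ∈ thickening η (closedBall (0 : E n) 1) := by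
      rw [Metric.mem_thickening_iff]
      refine ⟨‖u‖⁻¹ • u, ?_, ?_⟩
      · rw [mem_closedBall_zero_iff, norm_smul, norm_inv, norm_norm, inv_mul_cancel₀]
        linarith
      · have hu0 : (0 : ℝ) < ‖u‖ := by linarith
        rw [dist_eq_norm]
        have h5 : u - ‖u‖⁻¹ • u = (1 - ‖u‖⁻¹) • u := by rw [sub_smul, one_smul]
        have h6 : ‖u‖⁻¹ ≤ 1 := inv_le_one_of_one_le₀ hu1.le
        rw [h5, norm_smul, Real.norm_of_nonneg (by linarith), sub_mul,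
          inv_mul_cancel₀ hu0.ne']
        linarith
    obtain ⟨h5, h6⟩ := hη' h4
    have hus' := mem_ball_zero_iff.1 h6
    obtain ⟨a1, a2, a3⟩ := hβm _ (interior_subset h5)
    show Θ (c (K (μ u))) = e u
    rw [hKμ u hus' a3, a1, hΘe _ ((hAm _).2 ⟨a2, a3.trans hsl⟩), hΨ'Ψ]
  · intro x hx hx1 hx2
    show Θ (c (K x)) = c x
    rw [hKs x hx1, hΘo _ hx2]

end Pool.Agent.H827.HS
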