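import Pool.Agent.H827.HS.Circ

/-!
# The circle map dual to a sphere
-/

set_option autoImplicit false
set_option linter.unusedSectionVars false

open Set Filter Topology Metric Function MeasureTheory
open scoped Manifold ContDiff NNReal

noncomputable section

namespace Pool.Agent.H827.HS

open Pool.Agent.Y522 Pool.Agent.X175.SH Pool.Agent.N550.KH Pool.Agent.H829.AZ

variable {n : ℕ}

/-- the logarithm of the norm -/
def lg (z : E n) : ℝ := Real.logb 2 ‖z‖

theorem lg_dk (ρ : E n ≃ₗᵢ[ℝ] E n) (k : ℤ) {z : E n} (hz : z ≠ 0) : lg (dk ρ k z) = lg z + k := by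
  have := norm_pos_iff.2 hz
  unfold lg
  have h2 : (2 : ℝ) ^ k = (2 : ℝ) ^ (k : ℝ) := (Real.rpow_intCast 2 k).symm
  rw [dk_norm, Real.logb_mul (by positivity) this.ne', h2,
    Real.logb_rpow (by norm_num) (by norm_num)]
  ring

theorem lg_cont : ContinuousOn (lg : E n → ℝ) {0}ᶜ := by
  unfold lg Real.logb
  refine ContinuousOn.div_const ?_ _
  exact continuous_norm.continuousOn.log fun z hz => (norm_pos_iff.2 hz).ne'

/-- a continuity criterion -/
theorem cont_of_comp {M Y : Type} [TopologicalSpace M] [ChartedSpace (E n) M] [TopologicalSpace Y]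
    {ε : E n → M} {u : E n} (hε : LD n ε u) {F : M → Y} {G : E n → Y} (hG : ContinuousAt G u)
    (h : ∀ᶠ u' in 𝓝 u, F (ε u') = G u') : ContinuousAt F (ε u) := by
  obtain ⟨j, hj, hju, hj1, hj2⟩ := hε.exists_inverse
  have hjc := hj.continuousAt
  have h1 : ContinuousAt (fun x => G (j x)) (ε u) :=
    ContinuousAt.comp (g := G) (f := j) (by rw [hju]; exact hG) hjc
  refine h1.congr ?_
  have h2 : ∀ᶠ x in 𝓝 (ε u), F (ε (j x)) = G (j x) := by
    unfold ContinuousAt at hjc
    rw [hju] at hjc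
    exact hjc.eventually h
  filter_upwards [h2, hj2] with x h3 h4
  rw [← h3, h4]

/-- the step function -/
def stp (s : ℝ) : ℝ := max 0 (min 1 ((s - 1 / 2) * (2 / 3)))

theorem stp_cont : Continuous stp := by
  unfold stp
  fun_prop

theorem stp_lo {s : ℝ} (hs : s ≤ 1 / 2) : stp s = 0 := by
  unfold stp
  refine max_eq_left (le_trans (min_le_right _ _) ?_)
  nlinarith

theorem stp_hi {s : ℝ} (hs : 2 ≤ s) : stp s = 1 := by
  unfold stp
  rw [min_eq_left (by linarith)]
  norm_num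

section dual

variable {M : Type} [TopologicalSpace M] [ChartedSpace (E n) M]

/-- the function of a sphere: it jumps by one along the sphere -/
structure Dual (ε : E n → M) (t : M → ℝ) : Prop where
  circ : Continuous fun x => ((t x : ℝ) : AddCircle (1 : ℝ))
  cont : ContinuousOn t (ε '' sphere 0 1)ᶜ
  lo : ∀ u, u ≠ 0 → ‖u‖ < 1 → t (ε u) = stp ‖u‖
  hi : ∀ u, 1 < ‖u‖ → t (ε u) = stp ‖u‖ - 1

theorem exists_dual [T2Space M] [IsManifold (𝓡 n) ∞ M] {ε : E n → M} (hε : Nk ε) : ∃ t : M → ℝ, Dual ε t := by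
  classical
  let τ : E n → ℝ := fun u => if ‖u‖ < 1 then stp ‖u‖ else stp ‖u‖ - 1
  let t : M → ℝ := fun x => if h : ∃ u, u ≠ 0 ∧ ε u = x then τ h.choose else 0
  have ht : ∀ u, u ≠ 0 → t (ε u) = τ u := by
    intro u hu
    have h : ∃ u', u' ≠ 0 ∧ ε u' = ε u := ⟨u, hu, rfl⟩
    have h1 : t (ε u) = τ h.choose := dif_pos h
    rw [h1, hε.inj _ _ h.choose_spec.1 hu h.choose_spec.2]
  have ht0 : ∀ x, (¬ ∃ u, u ≠ 0 ∧ ε u = x) → t x = 0 := fun x h => dif_neg h
  have h10 : ∀ u : E n, 1 < ‖u‖ → u ≠ 0 := by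
    rintro u hu rfl
    rw [norm_zero] at hu
    linarith
  let A : Set (E n) := {u | 1 / 2 ≤ ‖u‖ ∧ ‖u‖ ≤ 2}
  have hA : IsCompact A := by
    have : A = closedBall 0 2 ∩ {z | 1 / 2 ≤ ‖z‖} := by
      ext z
      simp [A, and_comm]
    rw [this]
    exact (isCompact_closedBall _ _).inter_right (isClosed_le continuous_const continuous_norm)
  have hA0 : ∀ u ∈ A, u ≠ 0 := by
    rintro u ⟨hu, -⟩ rfl
    rw [norm_zero] at hu
    norm_num at hu
  have hC : IsClosed (ε '' A) := (hA.image_of_continuousOn (hε.cont hA0)).isClosed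
  have htC : ∀ x, x ∉ ε '' A → t x = 0 := by
    intro x hx
    by_cases h : ∃ u, u ≠ 0 ∧ ε u = x
    · obtain ⟨u, hu, rfl⟩ := h
      rw [ht u hu]
      have hu' : u ∉ A := fun h => hx ⟨u, h, rfl⟩
      by_cases h1 : ‖u‖ < 1
      · have h2 : τ u = stp ‖u‖ := if_pos h1
        rw [h2]
        refine stp_lo ?_
        by_contra hcon
        exact hu' ⟨by linarith, by linarith⟩
      · have h2 : τ u = stp ‖u‖ - 1 := if_neg h1
        rw [h2, stp_hi, sub_self]
        by_contra hcon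
        exact hu' ⟨by linarith, by linarith⟩
    · exact ht0 x h
  have hoff : ∀ x, x ∉ ε '' A → t =ᶠ[𝓝 x] fun _ => 0 := fun x hx => by
    filter_upwards [hC.isOpen_compl.mem_nhds hx] with y hy
    exact htC y hy
  have hstp : Continuous fun u : E n => stp ‖u‖ := stp_cont.comp continuous_norm
  refine ⟨t, ?_, ?_, ?_, ?_⟩
  · rw [continuous_iff_continuousAt]
    intro x
    by_cases hx : x ∈ ε '' A
    · obtain ⟨u, hu, rfl⟩ := hx
      refine cont_of_comp (hε.ld u (hA0 u hu)) (G := fun u => ((stp ‖u‖ : ℝ) : AddCircle (1 : ℝ)))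
        ?_ ?_
      · exact ((AddCircle.continuous_mk' (1 : ℝ)).comp hstp).continuousAt
      · filter_upwards [isOpen_compl_singleton.mem_nhds (hA0 u hu)] with u' hu'
        rw [ht u' hu']
        by_cases h1 : ‖u'‖ < 1
        · have h2 : τ u' = stp ‖u'‖ := if_pos h1
          rw [h2]
        · have h2 : τ u' = stp ‖u'‖ - 1 := if_neg h1
          have h3 : ((1 : ℝ) : AddCircle (1 : ℝ)) = 0 := AddCircle.coe_period 1
          rw [h2, AddCircle.coe_sub, h3, sub_zero]
    · refine ContinuousAt.congr continuousAt_const (f := fun _ => ((0 : ℝ) : AddCircle (1 : ℝ))) ?_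
      filter_upwards [hoff x hx] with y hy
      rw [hy]
  · intro x hxS
    refine ContinuousAt.continuousWithinAt ?_
    by_cases hx : x ∈ ε '' A
    · obtain ⟨u, hu, rfl⟩ := hx
      have hu1 : ‖u‖ ≠ 1 := fun h => hxS ⟨u, mem_sphere_zero_iff_norm.2 h, rfl⟩
      rcases lt_or_gt_of_ne hu1 with h1 | h1
      · refine cont_of_comp (hε.ld u (hA0 u hu)) (G := fun u => stp ‖u‖) hstp.continuousAt ?_
        filter_upwards [isOpen_compl_singleton.mem_nhds (hA0 u hu),
          continuous_norm.continuousAt.eventually (gt_mem_nhds h1)] with u' hu' h2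
        rw [ht u' hu']
        exact if_pos h2
      · refine cont_of_comp (hε.ld u (hA0 u hu)) (G := fun u => stp ‖u‖ - 1)
          (hstp.sub continuous_const).continuousAt ?_
        filter_upwards [isOpen_compl_singleton.mem_nhds (hA0 u hu),
          continuous_norm.continuousAt.eventually (lt_mem_nhds h1)] with u' hu' h2
        rw [ht u' hu']
        exact if_neg (not_lt.2 h2.le)
    · exact continuousAt_const.congr (hoff x hx).symm
  · intro u hu h1
    rw [ht u hu]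
    exact if_pos h1
  · intro u h1
    rw [ht u (h10 u h1)]
    exact if_neg (not_lt.2 h1.le)

/-- **The jump.** -/
theorem Dual.jump {ε : E n → M} {t : M → ℝ} (hd : Dual ε t) (hε : Nk ε) {u₀ : E n}
    (hu₀ : ‖u₀‖ = 1) {r : M → ℝ} (hr : ContinuousAt r (ε u₀)) {a e : ℝ}
    (he : ∀ᶠ x in 𝓝 (ε u₀), x ∉ ε '' sphere 0 1 → a * t x = r x + e) : a = 0 := by
  have hu0 : u₀ ≠ 0 := by
    rintro rfl
    rw [norm_zero] at hu₀
    exact zero_ne_one hu₀
  have hns : ∀ s : ℝ, 0 < s → ‖s • u₀‖ = s := fun s hs => by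
    rw [norm_smul, hu₀, mul_one, Real.norm_of_nonneg hs.le]
  have hγ : ContinuousAt (fun s : ℝ => ε (s • u₀)) 1 := by
    refine ContinuousAt.comp (g := ε) (f := fun s : ℝ => s • u₀) ?_
      (continuous_id.smul continuous_const).continuousAt
    show ContinuousAt ε ((1 : ℝ) • u₀)
    rw [one_smul]
    exact (hε.ld u₀ hu0).continuousAt
  have hγ1 : ε ((1 : ℝ) • u₀) = ε u₀ := by rw [one_smul]
  have hrγ : ContinuousAt (fun s : ℝ => r (ε (s • u₀))) 1 :=
    ContinuousAt.comp (g := r) (f := fun s : ℝ => ε (s • u₀)) (by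
      show ContinuousAt r (ε ((1 : ℝ) • u₀))
      rw [hγ1]
      exact hr) hγ
  have hev : ∀ᶠ s in 𝓝 (1 : ℝ), 0 < s ∧ (s ≠ 1 → a * t (ε (s • u₀)) = r (ε (s • u₀)) + e) := by
    have h1 : ∀ᶠ s in 𝓝 (1 : ℝ), ε (s • u₀) ∉ ε '' sphere 0 1 →
        a * t (ε (s • u₀)) = r (ε (s • u₀)) + e := by
      have hγ2 : Tendsto (fun s : ℝ => ε (s • u₀)) (𝓝 1) (𝓝 (ε ((1 : ℝ) • u₀))) := hγ
      rw [hγ1] at hγ2
      exact hγ2.eventually he
    filter_upwards [h1, lt_mem_nhds (show (0 : ℝ) < 1 by norm_num)] with s h2 h3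
    refine ⟨h3, fun h4 => h2 ?_⟩
    rintro ⟨v, hv, hv'⟩
    rw [mem_sphere_zero_iff_norm] at hv
    have hv0 : v ≠ 0 := by
      rintro rfl
      rw [norm_zero] at hv
      exact zero_ne_one hv
    have h5 := hε.inj _ _ hv0 (smul_ne_zero h3.ne' hu0) hv'
    rw [h5, hns s h3] at hv
    exact h4 hv
  have hst : ContinuousAt stp 1 := stp_cont.continuousAt
  have e1 : a * stp 1 = r (ε ((1 : ℝ) • u₀)) + e := by
    have h1 : Tendsto (fun s : ℝ => a * stp s) (𝓝[<] 1) (𝓝 (a * stp 1)) :=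
      ((hst.const_mul a : ContinuousAt (fun s => a * stp s) 1).tendsto).mono_left
        nhdsWithin_le_nhds
    have h2 : Tendsto (fun s : ℝ => r (ε (s • u₀)) + e) (𝓝[<] 1) (𝓝 (r (ε ((1 : ℝ) • u₀)) + e)) :=
      ((hrγ.add continuousAt_const).tendsto).mono_left nhdsWithin_le_nhds
    refine tendsto_nhds_unique (h1.congr' ?_) h2
    filter_upwards [nhdsWithin_le_nhds hev, self_mem_nhdsWithin] with s ⟨h3, h4⟩ h5
    have h5' : s < 1 := h5
    rw [← h4 h5'.ne, hd.lo _ (smul_ne_zero h3.ne' hu0) (by rw [hns s h3]; exact h5'), hns s h3]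
  have e2 : a * (stp 1 - 1) = r (ε ((1 : ℝ) • u₀)) + e := by
    have h1 : Tendsto (fun s : ℝ => a * (stp s - 1)) (𝓝[>] 1) (𝓝 (a * (stp 1 - 1))) :=
      (((hst.sub continuousAt_const).const_mul a : ContinuousAt (fun s => a * (stp s - 1)) 1).tendsto).mono_left
        nhdsWithin_le_nhds
    have h2 : Tendsto (fun s : ℝ => r (ε (s • u₀)) + e) (𝓝[>] 1) (𝓝 (r (ε ((1 : ℝ) • u₀)) + e)) :=
      ((hrγ.add continuousAt_const).tendsto).mono_left nhdsWithin_le_nhds
    refine tendsto_nhds_unique (h1.congr' ?_) h2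
    filter_upwards [nhdsWithin_le_nhds hev, self_mem_nhdsWithin] with s ⟨h3, h4⟩ h5
    have h5' : 1 < s := h5
    rw [← h4 h5'.ne', hd.hi _ (by rw [hns s h3]; exact h5'), hns s h3]
  linarith

end dual

end Pool.Agent.H827.HS
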