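import Pool.Agent.H827.HS.Model

/-!
# The complement of a sphere with a product neighbourhood
-/

set_option autoImplicit false
set_option linter.unusedSectionVars false

open Set Filter Topology Metric Function
open scoped Manifold ContDiff NNReal

noncomputable section

namespace Pool.Agent.H827.HS

open Pool.Agent.Y522 Pool.Agent.X175.SH Pool.Agent.N550.KH Pool.Agent.H829.AZ

variable {n : ℕ} {M : Type} [TopologicalSpace M] [T2Space M] [ChartedSpace (E n) M]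
  [IsManifold (𝓡 n) ∞ M]

/-- an embedding of the punctured Euclidean space -/
structure Nk (ε : E n → M) : Prop where
  inj : ∀ u v, u ≠ 0 → v ≠ 0 → ε u = ε v → u = v
  ld : ∀ u, u ≠ 0 → LD n ε u

theorem Nk.cont {ε : E n → M} (h : Nk ε) {A : Set (E n)} (hA : ∀ u ∈ A, u ≠ 0) :
    ContinuousOn ε A := fun u hu => (h.ld u (hA u hu)).continuousAt.continuousWithinAt

/-- the embedding with the two sides exchanged, and reflected -/
theorem Nk.flip {ε : E n → M} (h : Nk ε) (S : Finset (Fin n)) :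
    Nk fun u => ε (iv0 (T n (RS S) u)) := by
  have hR : ∀ u : E n, u ≠ 0 → T n (RS S) u ≠ 0 := by
    intro u hu hu'
    have := RS_norm S u
    rw [hu', norm_zero] at this
    exact hu (norm_eq_zero.1 this.symm)
  refine ⟨fun u v hu hv huv => ?_, fun u hu => ?_⟩
  · have h1 := h.inj _ _ (iv0_ne (hR u hu)) (iv0_ne (hR v hv)) huv
    have h2 := congrArg (fun z : E n => T n (RS S) (iv0 z)) h1
    simp only [iv0_iv0, RS_RS] at h2
    exact h2
  · refine LD.comp_fun (g := ε) (f := fun u => iv0 (T n (RS S) u)) (h.ld _ (iv0_ne (hR u hu))) ?_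
    exact LD.comp_fun (g := iv0) (f := fun u => T n (RS S) u) (iv0_LD (hR u hu)) ((re_df S).2 u)

theorem flip_sphere (ε : E n → M) (S : Finset (Fin n)) :
    (fun u => ε (iv0 (T n (RS S) u))) '' sphere 0 1 = ε '' sphere 0 1 := by
  have hiv : ∀ u : E n, ‖u‖ = 1 → iv0 u = u := by
    intro u hu
    unfold iv0
    rw [hu]
    simp
  ext x
  constructor
  · rintro ⟨u, hu, rfl⟩
    rw [mem_sphere_zero_iff_norm] at hu
    refine ⟨T n (RS S) u, by rw [mem_sphere_zero_iff_norm, RS_norm, hu], ?_⟩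
    simp only
    rw [hiv _ (by rw [RS_norm, hu])]
  · rintro ⟨u, hu, rfl⟩
    rw [mem_sphere_zero_iff_norm] at hu
    refine ⟨T n (RS S) u, by rw [mem_sphere_zero_iff_norm, RS_norm, hu], ?_⟩
    simp only
    rw [RS_RS, hiv _ hu]

section ends

variable {V : TopologicalSpace.Opens M} {ε : E n → M} (hε : Nk ε)
  (hV : (V : Set M) = (ε '' sphere 0 1)ᶜ) (x₀ : V)

include hε hV

theorem mem_V {u : E n} (hu : u ≠ 0) (hu1 : ‖u‖ ≠ 1) : ε u ∈ V := by
  have : ε u ∈ (V : Set M) := by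
    rw [hV]
    rintro ⟨v, hv, huv⟩
    rw [mem_sphere_zero_iff_norm] at hv
    have hv0 : v ≠ 0 := by
      rintro rfl
      rw [norm_zero] at hv
      exact zero_ne_one hv
    rw [hε.inj v u hv0 hu huv] at hv
    exact hu1 hv
  exact this

theorem end_val {u : E n} (hu : u ≠ 0) (hu1 : ‖u‖ ≠ 1) : (iv V x₀ (ε u) : M) = ε u :=
  congrArg Subtype.val (iv_val V x₀ ⟨ε u, mem_V hε hV hu hu1⟩)

theorem end_ld {u : E n} (hu : u ≠ 0) (hu1 : ‖u‖ ≠ 1) : LD n (fun u => iv V x₀ (ε u)) u := by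
  refine LD.comp_fun (g := iv V x₀) (f := ε) ?_ (hε.ld u hu)
  exact LD.inverse (k := (Subtype.val : V → M)) (x := (⟨ε u, mem_V hε hV hu hu1⟩ : V)) isOpen_univ
    (fun z _ => LD_val V z) (fun z _ => iv_val V x₀ z) (mem_univ _)

theorem end_inj {u v : E n} (hu : u ≠ 0) (hu1 : ‖u‖ ≠ 1) (hv : v ≠ 0) (hv1 : ‖v‖ ≠ 1)
    (h : iv V x₀ (ε u) = iv V x₀ (ε v)) : u = v := by
  have h1 := congrArg Subtype.val h
  rw [end_val hε hV x₀ hu hu1, end_val hε hV x₀ hv hv1] at h1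
  exact hε.inj u v hu hv h1

theorem end_closed (s : ℝ) : IsClosed ((fun u => iv V x₀ (ε u)) '' {u | 1 < ‖u‖ ∧ ‖u‖ ≤ s}) := by
  have h1 : (fun u => iv V x₀ (ε u)) '' {u | 1 < ‖u‖ ∧ ‖u‖ ≤ s} =
      (Subtype.val : V → M) ⁻¹' (ε '' {u | 1 ≤ ‖u‖ ∧ ‖u‖ ≤ s}) := by
    ext x
    constructor
    · rintro ⟨u, ⟨hu1, hu2⟩, rfl⟩
      have hu0 : u ≠ 0 := by
        rintro rfl
        rw [norm_zero] at hu1
        linarith
      exact ⟨u, ⟨hu1.le, hu2⟩, (end_val hε hV x₀ hu0 hu1.ne').symm⟩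
    · rintro ⟨u, ⟨hu1, hu2⟩, hux⟩
      have hu0 : u ≠ 0 := by
        rintro rfl
        rw [norm_zero] at hu1
        linarith
      have hu1' : 1 < ‖u‖ := by
        refine lt_of_le_of_ne hu1 fun h => ?_
        have h2 : (x : M) ∈ (V : Set M) := x.2
        rw [hV, ← hux] at h2
        exact h2 ⟨u, mem_sphere_zero_iff_norm.2 h.symm, rfl⟩
      exact ⟨u, ⟨hu1', hu2⟩, Subtype.ext ((end_val hε hV x₀ hu0 hu1'.ne').trans hux)⟩
  rw [h1]
  have h2 : IsCompact {u : E n | 1 ≤ ‖u‖ ∧ ‖u‖ ≤ s} := by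
    have h3 : {u : E n | 1 ≤ ‖u‖ ∧ ‖u‖ ≤ s} = closedBall 0 s ∩ {u | 1 ≤ ‖u‖} := by
      ext u
      simp [and_comm]
    rw [h3]
    exact (isCompact_closedBall _ _).inter_right (isClosed_le continuous_const continuous_norm)
  refine (h2.image_of_continuousOn (hε.cont ?_)).isClosed.preimage continuous_subtype_val
  rintro u ⟨hu, -⟩ rfl
  rw [norm_zero] at hu
  linarith

end ends

/-- **The cell with two holes.** -/
theorem two_holes [CompactSpace M] {V : TopologicalSpace.Opens M} [ConnectedSpace V] {ε : E n → M}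
    (hε : Nk ε) (hV : (V : Set M) = (ε '' sphere 0 1)ᶜ) (x₀ : V) {i j : Fin n} (hij : i ≠ j)
    {lam : ℝ} (hlam : 1 < lam) :
    ∃ (S : Finset (Fin n)) (c : E n → V) (P : Set (E n)) (η : ℝ), (S = ∅ ∨ S = {i}) ∧
      P = {x | x ∉ (fun u => th j (lam⁻¹ • u)) '' closedBall 0 1 ∧
        x ∉ (fun u => T n (RS {j}) (th j (lam⁻¹ • u))) '' closedBall 0 1} ∧
      InjOn c P ∧ (∀ x ∈ P, LD n c x) ∧ 0 < η ∧
      (∀ u, 1 < ‖u‖ → ‖u‖ < 1 + η → c (th j (lam⁻¹ • u)) = iv V x₀ (ε u)) ∧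
      ∀ u, 1 < ‖u‖ → ‖u‖ < 1 + η → c (T n (RS {j}) (th j (lam⁻¹ • u))) =
        iv V x₀ (ε (iv0 (T n (RS S) u))) := by
  have hl0 : 0 < lam := one_pos.trans hlam
  have hli : 0 < lam⁻¹ := inv_pos.2 hl0
  obtain ⟨m₁, hm₁⟩ : ∃ m₁ : E n → E n, m₁ = fun u => th j (lam⁻¹ • u) := ⟨_, rfl⟩
  obtain ⟨m₂, hm₂⟩ : ∃ m₂ : E n → E n, m₂ = fun u => T n (RS {j}) (th j (lam⁻¹ • u)) := ⟨_, rfl⟩
  have hm₁a : ∀ u, m₁ u = th j (lam⁻¹ • u) := fun u => by rw [hm₁]
  have hm₂a : ∀ u, m₂ u = T n (RS {j}) (m₁ u) := fun u => by rw [hm₂, hm₁]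
  let L : E n ≃L[ℝ] E n := ContinuousLinearEquiv.smulLeft (Units.mk0 lam⁻¹ hli.ne')
  have hL : ∀ u, L u = lam⁻¹ • u := fun u => rfl
  have hnq : ∀ u : E n, ‖u‖ < lam → lam⁻¹ • u ≠ qq j := by
    intro u hu h
    have h1 := congrArg norm h
    rw [norm_smul, norm_qq, Real.norm_of_nonneg hli.le, inv_mul_eq_iff_eq_mul₀ hl0.ne', mul_one]
      at h1
    linarith
  have hm₁i : Injective m₁ := by
    intro u v h
    rw [hm₁a, hm₁a] at h
    have h1 := congrArg (thi j) h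
    rw [thi_th, thi_th] at h1
    exact L.injective h1
  have hm₂i : Injective m₂ := by
    intro u v h
    rw [hm₂a, hm₂a] at h
    exact hm₁i ((re_df {j}).1.1 h)
  have hm₁l : ∀ u ∈ ball (0 : E n) lam, LD n m₁ u := by
    intro u hu
    rw [hm₁]
    exact LD.comp_fun (g := th j) (f := fun u => L u) (th_LD j (hnq u (mem_ball_zero_iff.1 hu)))
      (LD_linear L u)
  have hm₂l : ∀ u ∈ ball (0 : E n) lam, LD n m₂ u := by
    intro u hu
    have : m₂ = fun u => T n (RS {j}) (m₁ u) := funext hm₂a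
    rw [this]
    exact LD.comp_fun (g := fun y => T n (RS {j}) y) (f := m₁) ((re_df {j}).2 _) (hm₁l u hu)
  have hneg : ∀ u : E n, ‖u‖ < lam → (m₁ u) j < 0 := by
    intro u hu
    rw [hm₁a, th_coord j _ (hnq u hu)]
    have h1 : 0 < ‖lam⁻¹ • u - qq j‖ := norm_pos_iff.2 (sub_ne_zero.2 (hnq u hu))
    refine div_neg_of_neg_of_pos ?_ (by positivity)
    have h2 : ‖lam⁻¹ • u‖ < 1 := by
      rw [norm_smul, Real.norm_of_nonneg hli.le, inv_mul_lt_iff₀ hl0, mul_one]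
      exact hu
    have := norm_nonneg (lam⁻¹ • u)
    nlinarith
  have hpos : ∀ u : E n, ‖u‖ < lam → 0 < (m₂ u) j := by
    intro u hu
    rw [hm₂a, RS_apply]
    simp only [Finset.mem_singleton, if_true]
    linarith [hneg u hu]
  -- the base point
  obtain ⟨t, ht⟩ : ∃ t : ℝ, t = (1 + lam) / 2 := ⟨_, rfl⟩
  have ht1 : 1 < t := by rw [ht]; linarith
  have htl : t < lam := by rw [ht]; linarith
  obtain ⟨s, hs⟩ : ∃ s : ℝ, s = (t + lam) / 2 := ⟨_, rfl⟩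
  have hts : t < s := by rw [hs]; linarith
  have hsl : s < lam := by rw [hs]; linarith
  obtain ⟨u₀, hu₀⟩ : ∃ u₀ : E n, u₀ = t • qq j := ⟨_, rfl⟩
  have hu₀n : ‖u₀‖ = t := by
    rw [hu₀, norm_smul, norm_qq, mul_one, Real.norm_of_nonneg (by linarith)]
  have hu₀0 : u₀ ≠ 0 := by
    rintro h
    rw [h, norm_zero] at hu₀n
    linarith
  have hRq := RS_qq (j := j) hij
  have hRu₀ : T n (RS {i}) u₀ = u₀ := by rw [hu₀, map_smul, hRq]
  have hRm : T n (RS {i}) (m₁ u₀) = m₁ u₀ := by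
    rw [hm₁a, RS_th j hRq, map_smul, hRu₀]
  have hRm₂ : T n (RS {i}) (m₂ u₀) = m₂ u₀ := by
    rw [hm₂a, RS_comm, hRm]
  have hx : m₁ u₀ ≠ m₂ u₀ := by
    intro h
    have h1 := hneg u₀ (by rw [hu₀n]; exact htl)
    have h2 := hpos u₀ (by rw [hu₀n]; exact htl)
    rw [h] at h1
    linarith
  -- the germs
  have hthne : ∀ u : E n, ‖u‖ < lam → m₁ u ≠ (1 / 2 : ℝ) • qq j := by
    intro u hu h
    have h1 := hneg u hu
    rw [h] at h1
    simp [qq] at h1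
    linarith
  have hflip0 := hε.flip ∅
  have hV0 : (V : Set M) = ((fun u => ε (iv0 (T n (RS ∅) u))) '' sphere 0 1)ᶜ := by
    rw [flip_sphere, hV]
  let Li : E n ≃L[ℝ] E n := ContinuousLinearEquiv.smulLeft (Units.mk0 lam hl0.ne')
  have hLi : ∀ u, Li u = lam • u := fun u => rfl
  have hback : ∀ u, Li (thi j (m₁ u)) = u := by
    intro u
    rw [hm₁a, thi_th, hLi, smul_smul, mul_inv_cancel₀ hl0.ne', one_smul]
  have hE₁ : LD n (fun x => iv V x₀ (ε (Li (thi j x)))) (m₁ u₀) := by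
    refine LD.comp_fun (g := fun u => iv V x₀ (ε u)) (f := fun x => Li (thi j x)) ?_ ?_
    · rw [hback]
      exact end_ld hε hV x₀ hu₀0 (by rw [hu₀n]; exact ht1.ne')
    · exact LD.comp_fun (g := fun u => Li u) (f := thi j) (LD_linear Li _)
        (thi_LD j (hthne u₀ (by rw [hu₀n]; exact htl)))
  have hE₂ : LD n (fun x => iv V x₀ (ε (iv0 (T n (RS ∅) (Li (thi j (T n (RS {j}) x)))))))
      (m₂ u₀) := by
    refine LD.comp_fun (g := fun u => iv V x₀ (ε (iv0 (T n (RS ∅) u))))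
      (f := fun x => Li (thi j (T n (RS {j}) x))) ?_ ?_
    · rw [hm₂a, RS_RS, hback]
      exact end_ld hflip0 hV0 x₀ hu₀0 (by rw [hu₀n]; exact ht1.ne')
    · refine LD.comp_fun (g := fun u => Li (thi j u)) (f := fun x => T n (RS {j}) x) ?_
        ((re_df {j}).2 _)
      rw [hm₂a, RS_RS]
      exact LD.comp_fun (g := fun u => Li u) (f := thi j) (LD_linear Li _)
        (thi_LD j (hthne u₀ (by rw [hu₀n]; exact htl)))
  have hne : iv V x₀ (ε (Li (thi j (m₁ u₀)))) ≠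
      iv V x₀ (ε (iv0 (T n (RS ∅) (Li (thi j (T n (RS {j}) (m₂ u₀))))))) := by
    rw [hm₂a, RS_RS, hback, RS_empty]
    intro h
    have hnn : ‖iv0 u₀‖ = t⁻¹ := by rw [norm_iv0, hu₀n]
    have ht1' : t⁻¹ < 1 := inv_lt_one_of_one_lt₀ ht1
    have h1 := end_inj hε hV x₀ hu₀0 (by rw [hu₀n]; exact ht1.ne') (iv0_ne hu₀0)
      (by rw [hnn]; exact ht1'.ne) h
    have h2 := congrArg norm h1
    rw [hu₀n, hnn] at h2
    linarith
  obtain ⟨c₀, S, hc₀, hS, h1, h2⟩ := two_points i hx hRm hRm₂ hE₁ hE₂ hne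
  have hSq : T n (RS S) (qq j) = qq j := by
    rcases hS with rfl | rfl
    · exact RS_empty _
    · exact hRq
  have hflip := hε.flip S
  have hVS : (V : Set M) = ((fun u => ε (iv0 (T n (RS S) u))) '' sphere 0 1)ᶜ := by
    rw [flip_sphere, hV]
  have hb1 : ∀ᶠ u in 𝓝 u₀, c₀ (m₁ u) = iv V x₀ (ε u) := by
    have h3 : Tendsto m₁ (𝓝 u₀) (𝓝 (m₁ u₀)) :=
      (hm₁l u₀ (mem_ball_zero_iff.2 (by rw [hu₀n]; exact htl))).continuousAt
    filter_upwards [h3.eventually h1] with u hu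
    rw [hu, hback]
  have hb2 : ∀ᶠ u in 𝓝 u₀, c₀ (m₂ u) = iv V x₀ (ε (iv0 (T n (RS S) u))) := by
    have h3 : Tendsto m₂ (𝓝 u₀) (𝓝 (m₂ u₀)) :=
      (hm₂l u₀ (mem_ball_zero_iff.2 (by rw [hu₀n]; exact htl))).continuousAt
    filter_upwards [h3.eventually h2] with u hu
    rw [hu]
    rw [RS_comm {j} S, hm₂a, RS_RS, RS_empty]
    have h4 : Li (thi j (T n (RS S) (m₁ u))) = T n (RS S) u := by
      rw [← RS_thi j hSq, hLi, ← map_smul, ← hLi, hback]
    rw [h4]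
  have hne0 : ∀ {u : E n}, 1 < ‖u‖ → u ≠ 0 := by
    rintro u hu rfl
    rw [norm_zero] at hu
    linarith
  -- drilling
  obtain ⟨c₁, d1, d2, ⟨η₁, hη₁, d3⟩, d4⟩ := drill (P := univ) (c := c₀) hc₀.inj.injOn
    (fun x _ => hc₀.ld x) (lam := lam) (μ := m₁) hm₁i.injOn hm₁l (fun _ _ => mem_univ _)
    (e := fun u => iv V x₀ (ε u))
    (fun u hu v hv huv => end_inj hε hV x₀ (hne0 hu.1) hu.1.ne' (hne0 hv.1) hv.1.ne' huv)
    (fun u hu _ => end_ld hε hV x₀ (hne0 hu) hu.ne') hsl (end_closed hε hV x₀ s)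
    (by rw [hu₀n]; exact ht1) (by rw [hu₀n]; exact hts) hb1
  have hdisj : ∀ u v : E n, ‖u‖ < lam → ‖v‖ < lam → m₁ u ≠ m₂ v := by
    intro u v hu hv h
    have h1 := hneg u hu
    have h2 := hpos v hv
    rw [h] at h1
    linarith
  have hends : ∀ u v : E n, 1 < ‖u‖ → 1 < ‖v‖ →
      iv V x₀ (ε u) ≠ iv V x₀ (ε (iv0 (T n (RS S) v))) := by
    intro u v hu hv h
    have hn : ‖iv0 (T n (RS S) v)‖ = ‖v‖⁻¹ := by rw [norm_iv0, RS_norm]
    have hv1 : ‖v‖⁻¹ < 1 := inv_lt_one_of_one_lt₀ hv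
    have hv0 : (0 : ℝ) < ‖v‖⁻¹ := inv_pos.2 (by linarith)
    have hne' : iv0 (T n (RS S) v) ≠ 0 := by
      intro h
      rw [h, norm_zero] at hn
      linarith
    have h3 := end_inj hε hV x₀ (hne0 hu) hu.ne' hne' (by rw [hn]; exact hv1.ne) h
    have h4 := congrArg norm h3
    rw [hn] at h4
    linarith
  have hb2' : ∀ᶠ u in 𝓝 u₀, c₁ (m₂ u) = iv V x₀ (ε (iv0 (T n (RS S) u))) := by
    have h3 : ∀ᶠ u in 𝓝 u₀, 1 < ‖u‖ ∧ ‖u‖ < lam := by
      filter_upwards [continuous_norm.continuousAt.eventually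
        (lt_mem_nhds (show 1 < ‖u₀‖ by rw [hu₀n]; exact ht1)),
        continuous_norm.continuousAt.eventually
        (gt_mem_nhds (show ‖u₀‖ < lam by rw [hu₀n]; exact htl))] with u a b
      exact ⟨a, b⟩
    filter_upwards [hb2, h3] with u hu ⟨hu1, hu2⟩
    rw [d4 (m₂ u) (mem_univ _) ?_ ?_, hu]
    · rintro ⟨v, hv, hvu⟩
      exact hdisj v u ((mem_ball_zero_iff.1 hv).trans hsl) hu2 hvu
    · rintro ⟨v, hv, hvu⟩
      rw [hu] at hvu
      exact hends v u hv.1 hu1 hvu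
  obtain ⟨c₂, f1, f2, ⟨η₂, hη₂, f3⟩, f4⟩ := drill (P := univ \ m₁ '' closedBall 0 1) (c := c₁) d1 d2
    (lam := lam) (μ := m₂) hm₂i.injOn hm₂l (fun u hu => ⟨mem_univ _, by
      rintro ⟨v, hv, hvu⟩
      exact hdisj v u ((mem_closedBall_zero_iff.1 hv).trans_lt hlam) (mem_ball_zero_iff.1 hu) hvu⟩)
    (e := fun u => iv V x₀ (ε (iv0 (T n (RS S) u))))
    (fun u hu v hv huv => end_inj hflip hVS x₀ (hne0 hu.1) hu.1.ne' (hne0 hv.1) hv.1.ne' huv)
    (fun u hu _ => end_ld hflip hVS x₀ (hne0 hu) hu.ne') hsl (end_closed hflip hVS x₀ s)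
    (by rw [hu₀n]; exact ht1) (by rw [hu₀n]; exact hts) hb2'
  have hP : (univ \ m₁ '' closedBall 0 1) \ m₂ '' closedBall 0 1 =
      {x | x ∉ (fun u => th j (lam⁻¹ • u)) '' closedBall 0 1 ∧
        x ∉ (fun u => T n (RS {j}) (th j (lam⁻¹ • u))) '' closedBall 0 1} := by
    rw [hm₁, hm₂]
    ext x
    constructor
    · rintro ⟨⟨_, a⟩, b⟩
      exact ⟨a, b⟩
    · rintro ⟨a, b⟩
      exact ⟨⟨mem_univ _, a⟩, b⟩
  refine ⟨S, c₂, (univ \ m₁ '' closedBall 0 1) \ m₂ '' closedBall 0 1,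
    min (min η₁ η₂) (lam - 1), hS, hP, f1, f2,
    lt_min (lt_min hη₁ hη₂) (by linarith), ?_, ?_⟩
  · intro u hu1 hu2
    have a1 : ‖u‖ < 1 + η₁ := hu2.trans_le
      (add_le_add_right ((min_le_left _ _).trans (min_le_left _ _)) _)
    have a3 : ‖u‖ < lam := hu2.trans_le (by
      have := min_le_right (min η₁ η₂) (lam - 1)
      linarith)
    have a4 := d3 u hu1 a1
    have a5 : m₁ u ∈ univ \ m₁ '' closedBall 0 1 := by
      refine ⟨mem_univ _, ?_⟩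
      rintro ⟨v, hv, hvu⟩
      rw [hm₁i hvu] at hv
      have := mem_closedBall_zero_iff.1 hv
      linarith
    have a6 := f4 (m₁ u) a5 ?_ ?_
    · rw [← hm₁a, a6, a4]
    · rintro ⟨v, hv, hvu⟩
      exact hdisj u v a3 ((mem_ball_zero_iff.1 hv).trans hsl) hvu.symm
    · rintro ⟨v, hv, hvu⟩
      rw [a4] at hvu
      exact hends u v hu1 hv.1 hvu.symm
  · intro u hu1 hu2
    have a2 : ‖u‖ < 1 + η₂ := hu2.trans_le
      (add_le_add_right ((min_le_left _ _).trans (min_le_right _ _)) _)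
    rw [← hm₁a, ← hm₂a]
    exact f3 u hu1 a2

end Pool.Agent.H827.HS
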