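import Pool.Agent.H827.HS.Nc

/-!
# The complement of a nonseparating sphere in a family
-/

set_option autoImplicit false
set_option linter.unusedSectionVars false

open Set Filter Topology Metric Function MeasureTheory
open scoped Manifold ContDiff NNReal

noncomputable section

namespace Pool.Agent.H827.HS

open Pool.Agent.Y522 Pool.Agent.X175.SH Pool.Agent.N550.KH Pool.Agent.H829.AZ Pool.Agent.H827.LV

/-- the component of the level set -/
def cmp {X : Type} [TopologicalSpace X] (F : X → ℝ) (x : X) : Set X :=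
  connectedComponentIn (F ⁻¹' {F x}) x

theorem mem_cmp {X : Type} [TopologicalSpace X] (F : X → ℝ) (x : X) : x ∈ cmp F x :=
  mem_connectedComponentIn rfl

theorem cmp_F {X : Type} [TopologicalSpace X] {F : X → ℝ} {x y : X} (h : y ∈ cmp F x) :
    F y = F x := connectedComponentIn_subset (F ⁻¹' {F x}) x h

theorem cmp_eq {X : Type} [TopologicalSpace X] {F : X → ℝ} {x y : X} (h : y ∈ cmp F x) :
    cmp F y = cmp F x := by
  have h1 := cmp_F h
  unfold cmp
  rw [h1]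
  exact (connectedComponentIn_eq h).symm

theorem cmp_disj {X : Type} [TopologicalSpace X] {F : X → ℝ} {x y : X} (h : y ∉ cmp F x) :
    Disjoint (cmp F x) (cmp F y) := by
  rw [Set.disjoint_left]
  intro z hz hz'
  refine h ?_
  rw [← cmp_eq hz, cmp_eq hz']
  exact mem_cmp F y

section open_

variable {m : ℕ} {X : Type} [TopologicalSpace X] [T2Space X] [ChartedSpace (E (m + 1)) X]
  [IsManifold (𝓡 (m + 1)) ∞ X]

theorem iv_LD (V : TopologicalSpace.Opens X) (x₀ : V) {x : X} (hx : x ∈ V) :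
    LD (m + 1) (iv V x₀) x :=
  LD.inverse (k := (Subtype.val : V → X)) (x := (⟨x, hx⟩ : V)) isOpen_univ
    (fun z _ => LD_val V z) (fun z _ => iv_val V x₀ z) (mem_univ _)

theorem iv_coe (V : TopologicalSpace.Opens X) (x₀ : V) {x : X} (hx : x ∈ V) :
    (iv V x₀ x : X) = x := congrArg Subtype.val (iv_val V x₀ ⟨x, hx⟩)

/-- collars in open subsets -/
theorem levcol_sub {F : X → ℝ} {t : ℝ} {ε : E (m + 1) → X} (h : LevCol m F t ε)
    (V : TopologicalSpace.Opens X) (x₀ : V) (hV : ∀ u, u ≠ 0 → ε u ∈ V) :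
    LevCol m (fun y : V => F y) t (fun u => iv V x₀ (ε u)) := by
  have hval : ∀ u, u ≠ 0 → (iv V x₀ (ε u) : X) = ε u := fun u hu => iv_coe V x₀ (hV u hu)
  have h1ne : ∀ u : E (m + 1), ‖u‖ = 1 → u ≠ 0 := fun u hu => sphere_ne
    (mem_sphere_zero_iff_norm.2 hu)
  have hgne : ∀ u : E (m + 1), 1 < ‖u‖ → u ≠ 0 := by
    rintro u hu rfl
    rw [norm_zero] at hu
    linarith
  refine ⟨⟨fun u v hu hv huv => ?_, fun u hu => ?_⟩, fun u hu => ?_, fun u hu hu1 => ?_,
    fun u hu => ?_, fun u hu => ?_, fun u hu => ?_, fun s₀ hs₀ => ?_⟩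
  · refine h.nk.inj u v hu hv ?_
    rw [← hval u hu, ← hval v hv, huv]
  · exact LD.comp_fun (g := iv V x₀) (f := ε) (iv_LD V x₀ (hV u hu)) (h.nk.ld u hu)
  · refine ContMDiffAt.comp (g := F) (f := (Subtype.val : V → X)) _ ?_ (LD_val V _).contMDiffAt
    rw [hval u hu]
    exact h.smooth u hu
  · show F (iv V x₀ (ε u)) < t
    rw [hval u hu]
    exact h.lo u hu hu1
  · show t < F (iv V x₀ (ε u))
    rw [hval u (hgne u hu)]
    exact h.hi u hu
  · show F (iv V x₀ (ε u)) = t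
    rw [hval u (h1ne u hu)]
    exact h.eq u hu
  · intro hc
    refine h.reg u hu ?_
    have hv := hval u (h1ne u hu)
    have h1 : LD (m + 1) (iv V x₀) (ε u) := iv_LD V x₀ (hV u (h1ne u hu))
    have h2 : F =ᶠ[𝓝 (ε u)] fun x => F (iv V x₀ x : X) := by
      filter_upwards [V.isOpen.mem_nhds (hV u (h1ne u hu))] with x hx
      rw [iv_coe V x₀ hx]
    have hFs : MDifferentiableAt (𝓡 (m + 1)) 𝓘(ℝ, ℝ) (fun y : V => F y) (iv V x₀ (ε u)) := by
      have h3 : ContMDiffAt (𝓡 (m + 1)) 𝓘(ℝ, ℝ) ∞ (fun y : V => F y) (iv V x₀ (ε u)) := by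
        refine ContMDiffAt.comp (g := F) (f := (Subtype.val : V → X)) _ ?_
          (LD_val V _).contMDiffAt
        rw [hv]
        exact h.smooth u (h1ne u hu)
      exact h3.mdifferentiableAt (by simp)
    have h3 := HasMFDerivAt.comp (ε u) hFs.hasMFDerivAt h1.mdifferentiableAt.hasMFDerivAt
    rw [h2.mfderiv_eq]
    have h4 := h3.mfderiv
    rw [hc, ContinuousLinearMap.zero_comp] at h4
    exact h4
  · obtain ⟨u₀, hu₀, rfl⟩ := hs₀
    obtain ⟨f, f1, f2, f3, f4⟩ := h.par (ε u₀) ⟨u₀, hu₀, rfl⟩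
    have hfV : ∀ z, f z ∈ V := by
      intro z
      have : f z ∈ range f := mem_range_self z
      rw [f4] at this
      obtain ⟨⟨u, hu, hu'⟩, -⟩ := this
      rw [← hu']
      exact hV u (sphere_ne hu)
    have hfc : ∀ z, (iv V x₀ (f z) : X) = f z := fun z => iv_coe V x₀ (hfV z)
    refine ⟨fun z => iv V x₀ (f z), fun z w hzw => f1 ?_, fun z => ?_, fun z => ?_, ?_⟩
    · rw [← hfc z, ← hfc w]
      exact congrArg Subtype.val hzw
    · exact ContMDiffAt.comp (g := iv V x₀) (f := f) z (iv_LD V x₀ (hfV z)).contMDiffAt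
        f2.contMDiffAt
    · have h1 : mfderiv (𝓡 m) (𝓡 (m + 1)) (fun z => iv V x₀ (f z)) z =
          (mfderiv (𝓡 (m + 1)) (𝓡 (m + 1)) (iv V x₀) (f z)).comp
            (mfderiv (𝓡 m) (𝓡 (m + 1)) f z) :=
        mfderiv_comp z (iv_LD V x₀ (hfV z)).mdifferentiableAt
          (f2.mdifferentiableAt (by simp))
      rw [h1]
      exact (iv_LD V x₀ (hfV z)).mfderiv_injective.comp (f3 z)
    · ext y
      constructor
      · rintro ⟨z, rfl⟩
        have h5 : f z ∈ ε '' sphere 0 1 \ {ε u₀} := by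
          rw [← f4]
          exact mem_range_self z
        obtain ⟨⟨u, hu, hu'⟩, h6⟩ := h5
        refine ⟨⟨u, hu, ?_⟩, fun h7 => h6 ?_⟩
        · simp only
          rw [hu']
        · have h8 := congrArg (Subtype.val : V → X) h7
          rw [hfc, hval u₀ (sphere_ne hu₀)] at h8
          exact h8
      · rintro ⟨⟨u, hu, rfl⟩, hne⟩
        have h5 : ε u ∈ range f := by
          rw [f4]
          refine ⟨⟨u, hu, rfl⟩, fun h6 => hne ?_⟩
          show iv V x₀ (ε u) = iv V x₀ (ε u₀)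
          rw [mem_singleton_iff.1 h6]
        obtain ⟨z, hz⟩ := h5
        refine ⟨z, ?_⟩
        simp only
        rw [hz]

/-- a compact set has finitely many components in finitely many regular levels -/
theorem finite_cmp [CompactSpace X] {F : X → ℝ} (hF : Continuous F) {T₀ : Set ℝ}
    (hT₀f : T₀.Finite) (hT₀ : ∀ t ∈ T₀, SphLev m F t) :
    {S : Set X | ∃ x, F x ∈ T₀ ∧ S = cmp F x}.Finite := by
  have hcomp : IsCompact (F ⁻¹' T₀) := (hT₀f.isClosed.preimage hF).isCompact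
  have hO : ∀ x ∈ F ⁻¹' T₀, {y | F y ∈ T₀ → y ∈ cmp F x} ∈ 𝓝 x := by
    intro x hx
    obtain ⟨h1, h2, -⟩ := hT₀ (F x) hx x rfl
    have h4 : (F ⁻¹' (T₀ \ {F x})ᶜ) ∈ 𝓝 x :=
      ((hT₀f.subset sdiff_subset).isClosed.isOpen_compl.preimage hF).mem_nhds
        fun h => h.2 rfl
    filter_upwards [(regular_point h1 h2).1, h4] with y h5 h6 h7
    refine h5 ?_
    by_contra hcon
    exact h6 ⟨h7, hcon⟩
  obtain ⟨t, htK⟩ := hcomp.elim_nhds_subcover' (fun x _ =>
    {y | F y ∈ T₀ → y ∈ cmp F x}) hO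
  refine (t.finite_toSet.image fun x => cmp F x.1).subset ?_
  rintro S ⟨x, hx, rfl⟩
  obtain ⟨i, hi, hxi⟩ := mem_iUnion₂.1 (htK hx)
  exact ⟨i, hi, (cmp_eq (hxi hx)).symm⟩

/-- **The complement of a nonseparating sphere.** -/
theorem emb_compl [CompactSpace X] [ConnectedSpace X] (hm : 1 ≤ m) (hr : RankOne X) {F : X → ℝ}
    (hF : Continuous F) (hfib : ∀ x, Emb (m + 1) (cmp F x)) (hT : Dense {t | SphLev m F t})
    {x₀ : X} (hx₀ : SphLev m F (F x₀)) (hpre : IsPreconnected (cmp F x₀)ᶜ) :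
    ∀ K : Set X, IsCompact K → K ⊆ (cmp F x₀)ᶜ → Emb (m + 1) K := by
  classical
  obtain ⟨ε₀, hε₀, hε₀S, -⟩ := exists_levcol hx₀ isOpen_univ (subset_univ _)
  change ε₀ '' sphere 0 1 = cmp F x₀ at hε₀S
  have hS₀c : IsClosed (cmp F x₀) := by
    rw [← hε₀S]
    exact sphere_closed hε₀.nk
  let V : TopologicalSpace.Opens X := ⟨(cmp F x₀)ᶜ, hS₀c.isOpen_compl⟩
  have hVmem : ∀ x, x ∈ V ↔ x ∉ cmp F x₀ := fun x => Iff.rfl
  obtain ⟨xV, -⟩ : ∃ xV : V, True := by
    have h2 : ‖(2 : ℝ) • qq (0 : Fin (m + 1))‖ = 2 := by rw [norm_smul, norm_qq]; norm_num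
    have h20 : (2 : ℝ) • qq (0 : Fin (m + 1)) ≠ 0 := by
      rw [← norm_pos_iff, h2]
      norm_num
    refine ⟨⟨ε₀ ((2 : ℝ) • qq 0), ?_⟩, trivial⟩
    intro hc
    rw [← hε₀S] at hc
    obtain ⟨v, hv, hv'⟩ := hc
    have h3 := hε₀.nk.inj _ _ (sphere_ne hv) h20 hv'
    rw [h3, mem_sphere_zero_iff_norm, h2] at hv
    norm_num at hv
  have hVc : IsConnected (V : Set X) := ⟨⟨xV.1, xV.2⟩, hpre⟩
  have hVcon : ConnectedSpace V := isConnected_iff_connectedSpace.1 hVc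
  have hVn : NoncompactSpace V := by
    refine ⟨fun hcon => ?_⟩
    have h1 : IsCompact (V : Set X) := isCompact_iff_isCompact_univ.2 hcon
    have h2 := IsClopen.eq_univ ⟨h1.isClosed, V.isOpen⟩ ⟨xV.1, xV.2⟩
    have h3 : x₀ ∈ (V : Set X) := h2 ▸ mem_univ x₀
    exact h3 (mem_cmp F x₀)
  -- thin slabs
  have hlev : ∀ s, Emb (m + 1) (F ⁻¹' {s}) := fun s =>
    emb_of_components (isClosed_singleton.preimage hF).isCompact fun x hx => by
      have hx' : F x = s := hx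
      rw [← hx']
      exact hfib x
  have hslab : ∀ s : ℝ, ∃ δ > 0, Emb (m + 1) (F ⁻¹' ball s δ) := by
    intro s
    obtain ⟨U, k, hU, hKU, hk, hkl⟩ := hlev s
    have h1 : IsCompact (F '' Uᶜ) := (hU.isClosed_compl.isCompact).image hF
    have h2 : s ∉ F '' Uᶜ := by
      rintro ⟨x, hx, hxs⟩
      exact hx (hKU hxs)
    obtain ⟨δ, hδ, hball⟩ := Metric.isOpen_iff.1 h1.isClosed.isOpen_compl s h2
    refine ⟨δ, hδ, U, k, hU, ?_, hk, hkl⟩
    intro x hx
    by_contra hcon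
    exact hball hx ⟨x, hcon, rfl⟩
  choose δ hδ hslab using hslab
  have hlo : ∀ s : ℝ, ∃ a ∈ {t | SphLev m F t}, s - δ s < a ∧ a < s := fun s =>
    hT.exists_between (by linarith [hδ s])
  have hhi : ∀ s : ℝ, ∃ a ∈ {t | SphLev m F t}, s < a ∧ a < s + δ s := fun s =>
    hT.exists_between (by linarith [hδ s])
  choose lo hloT hlo1 hlo2 using hlo
  choose hi hhiT hhi1 hhi2 using hhi
  obtain ⟨P, hP⟩ := isCompact_univ.elim_finite_subcover (fun s : ℝ => F ⁻¹' Ioo (lo s) (hi s))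
    (fun s => isOpen_Ioo.preimage hF) (fun x _ => mem_iUnion.2 ⟨F x, hlo2 _, hhi1 _⟩)
  set T₀ : Set ℝ := ⋃ s ∈ P, {lo s, hi s} with hT₀
  have hT₀f : T₀.Finite := P.finite_toSet.biUnion fun s _ => (Set.toFinite _)
  have hT₀T : ∀ t ∈ T₀, SphLev m F t := by
    intro t ht
    obtain ⟨s, hs, hs'⟩ := mem_iUnion₂.1 ht
    rcases hs' with rfl | rfl
    · exact hloT s
    · exact hhiT s
  -- the cut functions
  have hcut : ∀ x : V, SphLev m F (F x) → ∃ φ : V → ℝ, Cut m (fun y : V => F y) φ ∧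
      {y | φ y = 0} = Subtype.val ⁻¹' cmp F x.1 := by
    intro x hx
    have hsub : cmp F x.1 ⊆ V := by
      intro y hy
      exact fun h => Set.disjoint_left.1 (cmp_disj x.2) h hy
    obtain ⟨ε₁, hε₁, hε₁S, hε₁V⟩ := exists_levcol hx V.isOpen hsub
    change ε₁ '' sphere 0 1 = cmp F x.1 at hε₁S
    have hL := levcol_sub hε₁ V xV hε₁V
    have himg : (fun u => iv V xV (ε₁ u)) '' sphere 0 1 = Subtype.val ⁻¹' cmp F x.1 := by
      rw [← hε₁S]
      ext y
      constructor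
      · rintro ⟨u, hu, rfl⟩
        exact ⟨u, hu, (iv_coe V xV (hε₁V u (sphere_ne hu))).symm⟩
      · rintro ⟨u, hu, huy⟩
        refine ⟨u, hu, Subtype.ext ?_⟩
        simp only
        rw [iv_coe V xV (hε₁V u (sphere_ne hu)), huy]
    obtain ⟨φ, h1, h2⟩ := sep_cut hm (hF.comp continuous_subtype_val) hL (by
      intro hp
      rw [himg] at hp
      refine two_spheres hr hε₀.nk hε₁.nk ?_ ?_
      · rw [hε₀S, hε₁S]
        exact cmp_disj x.2
      · rw [hε₀S, hε₁S]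
        have h3 := hp.image (Subtype.val : V → X) continuous_subtype_val.continuousOn
        have h4 : (Subtype.val : V → X) '' (Subtype.val ⁻¹' cmp F x.1)ᶜ =
            (cmp F x₀ ∪ cmp F x.1)ᶜ := by
          ext y
          constructor
          · rintro ⟨z, hz, rfl⟩ (h5 | h5)
            · exact z.2 h5
            · exact hz h5
          · intro hy
            exact ⟨⟨y, fun h => hy (Or.inl h)⟩, fun h => hy (Or.inr h), rfl⟩
        rwa [h4] at h3)
    exact ⟨φ, h1, h2.trans himg⟩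
  -- the family
  set 𝒮 : Set (Set X) := {S | ∃ x : V, F x ∈ T₀ ∧ S = cmp F x.1} with h𝒮
  have h𝒮f : 𝒮.Finite := by
    refine (finite_cmp hF hT₀f hT₀T).subset ?_
    rintro S ⟨x, hx, rfl⟩
    exact ⟨x, hx, rfl⟩
  have hfin : Finite 𝒮 := h𝒮f
  have hψ : ∀ S : 𝒮, ∃ ψ : V → ℝ, Cut m (fun y : V => F y) ψ ∧
      {y | ψ y = 0} = Subtype.val ⁻¹' S.1 ∧ ∃ x : V, F x ∈ T₀ ∧ S.1 = cmp F x.1 := by
    rintro ⟨S, x, hx, rfl⟩
    obtain ⟨φ, h1, h2⟩ := hcut x (hT₀T _ hx)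
    exact ⟨φ, h1, h2, x, hx, rfl⟩
  choose ψ hψ1 hψ2 hψ3 using hψ
  have hψz : ∀ (S : 𝒮) (y : V), ψ S y = 0 ↔ y.1 ∈ S.1 := by
    intro S y
    have : y ∈ {y | ψ S y = 0} ↔ y ∈ (Subtype.val ⁻¹' S.1 : Set V) := by rw [hψ2 S]
    exact this
  have hS : ∀ (S : 𝒮) (y : X), y ∈ S.1 → S.1 = cmp F y := by
    intro S y hy
    obtain ⟨x, hx, hxS⟩ := hψ3 S
    rw [hxS] at hy ⊢
    exact (cmp_eq hy).symm
  have hnd : ∀ (i j : 𝒮) (x : V), ψ i x = 0 → ψ j x = 0 → i = j := by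
    intro i j x hi hj
    rw [hψz] at hi hj
    exact Subtype.ext ((hS i x hi).trans (hS j x hj).symm)
  have hlevel : ∀ t ∈ T₀, ∀ x : V, F x = t → ∃ i, ψ i x = 0 := by
    intro t ht x hx
    refine ⟨⟨cmp F x.1, x, by rw [hx]; exact ht, rfl⟩, ?_⟩
    rw [hψz]
    exact mem_cmp F x.1
  have hcpt : ∀ i, IsCompact {x | ψ i x = 0} := by
    intro i
    rw [hψ2 i, Subtype.isCompact_iff]
    obtain ⟨x, hx, hxS⟩ := hψ3 i
    have h1 : (Subtype.val : V → X) '' (Subtype.val ⁻¹' i.1) = cmp F x.1 := by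
      rw [hxS]
      refine image_preimage_eq_of_subset fun y hy => ?_
      exact ⟨⟨y, fun h => Set.disjoint_left.1 (cmp_disj x.2) h hy⟩, rfl⟩
    rw [h1]
    obtain ⟨ε₁, hε₁, hε₁S, -⟩ := exists_levcol (hT₀T _ hx) isOpen_univ (subset_univ _)
    change ε₁ '' sphere 0 1 = cmp F x.1 at hε₁S
    rw [← hε₁S]
    exact (sphere_closed hε₁.nk).isCompact
  have hFV : Continuous fun y : V => F y := hF.comp continuous_subtype_val
  have hbase : ∀ ε : 𝒮 → ℝ, (∀ i, ε i = 1 ∨ ε i = -1) → ∀ K : Set V, IsCompact K →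
      (∀ x ∈ K, ∀ i, 0 ≤ ε i * ψ i x) → Emb (m + 1) K := by
    intro ε hε K hK hKr
    refine emb_of_components hK fun x hx => ?_
    obtain ⟨s, hs, hxs⟩ := mem_iUnion₂.1 (hP (mem_univ x.1))
    refine emb_opens V (Emb.mono (hslab s) ?_)
    have hCR : ∀ y ∈ connectedComponentIn K x, ∀ i, 0 ≤ ε i * ψ i y :=
      fun y hy => hKr y (connectedComponentIn_subset _ _ hy)
    have h1 := (one_side hFV ψ hψ1 hnd (hlevel (lo s) (mem_iUnion₂.2 ⟨s, hs, Or.inl rfl⟩)) hε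
      isPreconnected_connectedComponentIn hCR (mem_connectedComponentIn hx)).2 hxs.1
    have h2 := (one_side hFV ψ hψ1 hnd (hlevel (hi s) (mem_iUnion₂.2 ⟨s, hs, Or.inr rfl⟩)) hε
      isPreconnected_connectedComponentIn hCR (mem_connectedComponentIn hx)).1 hxs.2
    rintro _ ⟨y, hy, rfl⟩
    have h3 := h1 y hy
    have h4 := h2 y hy
    rw [mem_preimage, mem_ball, Real.dist_eq, abs_lt]
    exact ⟨by linarith [hlo1 s], by linarith [hhi2 s]⟩
  have hmain := uncutK ψ hψ1 hcpt hbase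
  intro K hK hKV
  have h1 : (Subtype.val : V → X) '' (Subtype.val ⁻¹' K) = K :=
    image_preimage_eq_of_subset fun y hy => ⟨⟨y, hKV hy⟩, rfl⟩
  rw [← h1]
  refine emb_val V xV (hmain _ ?_)
  rw [Subtype.isCompact_iff, h1]
  exact hK

end open_

end Pool.Agent.H827.HS
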