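import Pool.Agent.H827.HS.Back

/-!
# Flattening, and the function
-/

set_option autoImplicit false
set_option linter.unusedSectionVars false

open Set Filter Topology Metric Function MeasureTheory
open scoped Manifold ContDiff NNReal

noncomputable section

namespace Pool.Agent.H827.HS

open Pool.Agent.Y522 Pool.Agent.X175.SH Pool.Agent.N550.KH Pool.Agent.H829.AZ Pool.Agent.H827.LV

section back

variable {ρ : E (3 + 1) ≃ₗᵢ[ℝ] E (3 + 1)} {M : Type} [TopologicalSpace M] [T2Space M]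
  [ChartedSpace (E (3 + 1)) M] [IsManifold (𝓡 (3 + 1)) ∞ M] {π : E (3 + 1) → M} {p : M}

/-- the flattening homeomorphism -/
theorem Std.exists_H (h : Std ρ π p) {w₀ : E (3 + 1)} (hw₀ : w₀ ≠ 0) (hwp : π w₀ = p) :
    ∃ H : M ≃ₜ M, (∀ x, x ≠ p → LD (3 + 1) H x) ∧ H p = p ∧
      ∀ (f : E (3 + 1) → ℝ) (F₀ : M → ℝ), (∀ z, z ≠ 0 → ContDiffAt ℝ ∞ f z) →
        (∀ z, z ≠ 0 → F₀ (π z) = f z) →
        ContMDiffAt (𝓡 (3 + 1)) 𝓘(ℝ, ℝ) ∞ (fun x => F₀ (H x)) p := by
  classical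
  have hT := h.top
  have hr0 : 0 < ‖w₀‖ := norm_pos_iff.2 hw₀
  let c₀ : E (3 + 1) → E (3 + 1) := bt w₀ (‖w₀‖ / 4)
  have hc₀ : IsCell (3 + 1) c₀ := bt_cell w₀ (by positivity)
  have hc₀0 : c₀ 0 = w₀ := by
    show bt w₀ (‖w₀‖ / 4) 0 = w₀
    rw [bt, OpenPartialHomeomorph.univUnitBall_apply, smul_zero, smul_zero, add_zero]
  have hc₀n : ∀ y, 3 / 4 * ‖w₀‖ < ‖c₀ y‖ ∧ ‖c₀ y‖ < 5 / 4 * ‖w₀‖ := by
    intro y
    have h1 := bt_range w₀ (show 0 < ‖w₀‖ / 4 by positivity) y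
    rw [mem_ball, dist_eq_norm] at h1
    have h2 := norm_sub_norm_le (c₀ y) w₀
    have h3 := norm_sub_norm_le w₀ (c₀ y)
    rw [norm_sub_rev] at h3
    have h4 : ‖c₀ y - w₀‖ < ‖w₀‖ / 4 := h1
    constructor <;> linarith
  have hc₀ne : ∀ y, c₀ y ≠ 0 := by
    intro y
    rw [← norm_pos_iff]
    linarith [(hc₀n y).1]
  let κ : E (3 + 1) → M := fun y => π (c₀ y)
  have hκi : Injective κ := by
    intro y y' hyy
    have h1 := hT.level (hc₀ne y) (hc₀ne y') hyy (by linarith [(hc₀n y).1, (hc₀n y').2])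
      (by linarith [(hc₀n y).2, (hc₀n y').1])
    exact hc₀.1 h1.symm
  have hκ0 : κ 0 = p := by
    show π (c₀ 0) = p
    rw [hc₀0, hwp]
  have hκc : Continuous κ := by
    rw [continuous_iff_continuousAt]
    intro y
    exact ContinuousAt.comp (g := π) (f := c₀) (h.cont _ (hc₀ne y)) (hc₀.2 y).continuousAt
  have hκL : ∀ y, y ≠ 0 → LD (3 + 1) κ y := by
    intro y hy
    refine LD.comp_fun (g := π) (f := c₀) (h.ld _ (hc₀ne y) fun hc => hy ?_) (hc₀.2 y)
    exact hκi (hc.trans hκ0.symm)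
  have hκo : IsOpenMap κ := by
    intro s hs
    have h1 : κ '' s = π '' (c₀ '' s) := by rw [image_image]
    rw [h1]
    refine hT.isOpen_image (isOpen_image_of_LD hs fun y _ => hc₀.2 y) ?_
    rintro _ ⟨y, -, rfl⟩
    exact hc₀ne y
  have hκe : IsOpenEmbedding κ := .of_continuous_injective_isOpenMap hκc hκi hκo
  let O : TopologicalSpace.Opens M := ⟨range κ, hκe.isOpen_range⟩
  let e₀ : E (3 + 1) → O := fun y => ⟨κ y, mem_range_self y⟩
  have he₀b : Bijective e₀ := by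
    constructor
    · intro y y' hyy
      exact hκi (congrArg Subtype.val hyy)
    · rintro ⟨_, y, rfl⟩
      exact ⟨y, rfl⟩
  have he₀c : Continuous e₀ := hκc.subtype_mk _
  have he₀o : IsOpenMap e₀ := by
    intro s hs
    have h1 : e₀ '' s = Subtype.val ⁻¹' (κ '' s) := by
      ext x
      constructor
      · rintro ⟨y, hy, rfl⟩
        exact ⟨y, hy, rfl⟩
      · rintro ⟨y, hy, hyx⟩
        exact ⟨y, hy, Subtype.ext hyx⟩
    rw [h1]
    exact (hκo s hs).preimage continuous_subtype_val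
  let e : E (3 + 1) ≃ₜ O := (Equiv.ofBijective e₀ he₀b).toHomeomorphOfContinuousOpen he₀c he₀o
  have hev : ∀ y, (e y : M) = κ y := fun y => rfl
  have heL : ∀ y, y ≠ 0 → LD (3 + 1) e y := fun y hy => LD_cod O (g := κ) (g' := e) hev (hκL y hy)
  have hGL : ∀ x : O, x ≠ e 0 → LD (3 + 1) e.symm x := by
    intro x hx
    obtain ⟨y, rfl⟩ := e.surjective x
    exact LD.inverse (k := e) (U := {0}ᶜ) isOpen_compl_singleton (fun z hz => heL z hz)
      (fun z _ => e.symm_apply_apply z) (fun hc => hx (by rw [mem_singleton_iff.1 hc]))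
  obtain ⟨G', g1, g2, g3, g4⟩ := flatten e.symm (e 0) (fun y : E (3 + 1) => y) injective_id
    (fun y => LD.id y) (e.symm_apply_apply 0).symm (fun x hx _ => hGL x hx)
  rw [e.symm_apply_apply] at g1
  obtain ⟨Ψ, hΨ1, hΨ2⟩ := cell_homeo κ hκe (e.trans G') (by
    intro y hy
    show G' (e y) = y
    rw [g2 (e y) (by
      rw [e.symm_apply_apply, image_id']
      intro hc
      rw [mem_ball_zero_iff] at hc
      linarith), e.symm_apply_apply])
  have hΨO : ∀ x ∈ O, Ψ x = κ (G' (iv O (e 0) x)) := by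
    rintro _ ⟨y, rfl⟩
    rw [hΨ1]
    have h1 : iv O (e 0) (κ y) = e y := iv_val O (e 0) (e y)
    rw [h1]
    rfl
  have hpO : p ∈ O := ⟨0, hκ0⟩
  have hivp : iv O (e 0) p = e 0 := by
    have h1 : iv O (e 0) (e 0 : M) = e 0 := iv_val O (e 0) (e 0)
    rwa [hev, hκ0] at h1
  have hΨp : Ψ p = p := by rw [hΨO p hpO, hivp, g1, hκ0]
  refine ⟨Ψ, fun x hx => ?_, hΨp, fun f F₀ hf hF₀ => ?_⟩
  · by_cases hxO : x ∈ O
    · have h1 : LD (3 + 1) (fun x => κ (G' (iv O (e 0) x))) x := by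
        have hne : iv O (e 0) x ≠ e 0 := by
          intro hc
          have h2 := congrArg (Subtype.val : O → M) hc
          rw [iv_coe O (e 0) hxO, hev, hκ0] at h2
          exact hx h2
        refine LD.comp_fun (g := κ) (f := fun x => G' (iv O (e 0) x)) (hκL _ ?_) ?_
        · intro hc
          exact hne (G'.injective (hc.trans g1.symm))
        · exact LD.comp_fun (g := G') (f := iv O (e 0)) (g3 _ hne (hGL _ hne))
            (iv_LD O (e 0) hxO)
      refine h1.congr ?_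
      filter_upwards [O.isOpen.mem_nhds hxO] with y hy
      exact hΨO y hy
    · refine (LD.id x).congr ?_
      have h2 : IsClosed (κ '' closedBall 0 1) := ((isCompact_closedBall _ _).image hκc).isClosed
      filter_upwards [h2.isOpen_compl.mem_nhds fun hc => hxO (image_subset_range _ _ hc)] with y hy
      exact hΨ2 y fun hc => hy (image_mono ball_subset_closedBall hc)
  · have h1 : ContMDiffAt (𝓡 (3 + 1)) 𝓘(ℝ, ℝ) ∞ (fun x => f (c₀ (G' (iv O (e 0) x)))) p := by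
      have h2 : ContDiffAt ℝ ∞ (fun y => f (c₀ y)) (G' (iv O (e 0) p)) :=
        (hf _ (hc₀ne _)).comp _ (hc₀.2 _).contDiffAt
      have h3 : ContMDiffAt (𝓡 (3 + 1)) (𝓡 (3 + 1)) ∞ (fun x => G' (iv O (e 0) x)) p := by
        refine ContMDiffAt.comp (g := G') (f := iv O (e 0)) p ?_ (iv_LD O (e 0) hpO).contMDiffAt
        rw [hivp]
        exact g4
      exact ContMDiffAt.comp (g := fun y => f (c₀ y)) (f := fun x => G' (iv O (e 0) x)) p
        h2.contMDiffAt h3
    refine h1.congr_of_eventuallyEq ?_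
    filter_upwards [O.isOpen.mem_nhds hpO] with y hy
    rw [hΨO y hy]
    exact hF₀ _ (hc₀ne _)

/-- **The function.** -/
theorem Std.exists_fn [CompactSpace M] (h : Std ρ π p) : ∃ F : M → ℝ,
    ContMDiff (𝓡 (3 + 1)) 𝓘(ℝ, ℝ) ∞ F ∧
      (∀ t, (∀ x, F x = t → mfderiv (𝓡 (3 + 1)) 𝓘(ℝ, ℝ) F x ≠ 0) → SphLev 3 F t) ∧
      ∀ x, Emb (3 + 1) (cmp F x) := by
  classical
  have hT := h.top
  have hfact := factS 3
  obtain ⟨w₀, hw₀, hwp⟩ := h.surj p
  have hr0 : 0 < ‖w₀‖ := norm_pos_iff.2 hw₀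
  obtain ⟨H, hHL, hHp, hHs⟩ := h.exists_H hw₀ hwp
  -- the phase
  have hph : ∀ k : ℤ, ((k : ℝ) : AddCircle (1 : ℝ)) = 0 := fun k => by
    rw [AddCircle.coe_eq_zero_iff]
    exact ⟨k, by simp⟩
  obtain ⟨θ, hθc, hθ⟩ := hT.desc (f := fun z => ((lg z - lg w₀ : ℝ) : AddCircle (1 : ℝ)))
    ((AddCircle.continuous_mk' (1 : ℝ)).comp_continuousOn (lg_cont.sub continuousOn_const))
    (fun z hz => by
      show ((lg (dk ρ 1 z) - lg w₀ : ℝ) : AddCircle (1 : ℝ)) = ((lg z - lg w₀ : ℝ) : AddCircle (1 : ℝ))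
      rw [lg_dk ρ 1 hz, show lg z + ((1 : ℤ) : ℝ) - lg w₀ = (lg z - lg w₀) + ((1 : ℤ) : ℝ) by ring,
        AddCircle.coe_add, hph, add_zero])
  obtain ⟨F₀, hF₀c, hF₀⟩ := hT.desc (f := fun z => Real.cos (2 * Real.pi * (lg z - lg w₀)))
    (Real.continuous_cos.comp_continuousOn (continuousOn_const.mul
      (lg_cont.sub continuousOn_const))) (fun z hz => by
      show Real.cos (2 * Real.pi * (lg (dk ρ 1 z) - lg w₀)) = Real.cos (2 * Real.pi * (lg z - lg w₀))
      rw [lg_dk ρ 1 hz, show 2 * Real.pi * (lg z + ((1 : ℤ) : ℝ) - lg w₀) =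
        2 * Real.pi * (lg z - lg w₀) + 2 * Real.pi by push_cast; ring, Real.cos_add_two_pi])
  have hfs : ∀ z : E (3 + 1), z ≠ 0 →
      ContDiffAt ℝ ∞ (fun z => Real.cos (2 * Real.pi * (lg z - lg w₀))) z := by
    intro z hz
    have h1 : ContDiffAt ℝ ∞ (fun z : E (3 + 1) => lg z) z := by
      unfold lg Real.logb
      exact ((contDiffAt_norm ℝ hz).log (norm_pos_iff.2 hz).ne').div_const _
    exact (contDiffAt_const.mul (h1.sub contDiffAt_const)).cos
  obtain ⟨F, hF⟩ : ∃ F : M → ℝ, F = fun x => F₀ (H x) := ⟨_, rfl⟩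
  have hFa : ∀ x, F x = F₀ (H x) := fun x => by rw [hF]
  -- the values
  have hFθ : ∀ x (s : ℝ), ((s : ℝ) : AddCircle (1 : ℝ)) = θ (H x) →
      F x = Real.cos (2 * Real.pi * s) := by
    intro x s hs
    obtain ⟨z, hz, hzx⟩ := hT.surj (H x)
    rw [hFa, ← hzx, hF₀ z hz]
    rw [← hzx, hθ z hz] at hs
    obtain ⟨k, hk⟩ := AddCircle.coe_eq_zero_iff (1 : ℝ) |>.1 (show
      ((s - (lg z - lg w₀) : ℝ) : AddCircle (1 : ℝ)) = 0 by rw [AddCircle.coe_sub, hs, sub_self])
    rw [zsmul_one] at hk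
    have h1 : 2 * Real.pi * s = 2 * Real.pi * (lg z - lg w₀) + k * (2 * Real.pi) := by
      rw [hk]
      ring
    rw [h1, Real.cos_add_int_mul_two_pi]
  have hFs : ContMDiff (𝓡 (3 + 1)) 𝓘(ℝ, ℝ) ∞ F := by
    intro x
    by_cases hx : x = p
    · rw [hx, hF]
      exact hHs _ F₀ hfs hF₀
    · obtain ⟨z, hz, hzx⟩ := hT.surj (H x)
      have hzp : π z ≠ p := by
        rw [hzx]
        intro hc
        rw [← hHp] at hc
        exact hx (H.injective hc)
      obtain ⟨j, hj, hjz, -, hj2⟩ := (h.ld z hz hzp).exists_inverse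
      rw [hzx] at hj hjz hj2
      have h1 : ContMDiffAt (𝓡 (3 + 1)) 𝓘(ℝ, ℝ) ∞
          (fun y => Real.cos (2 * Real.pi * (lg (j (H y)) - lg w₀))) x := by
        have h2 : ContMDiffAt (𝓡 (3 + 1)) (𝓡 (3 + 1)) ∞ (fun y => j (H y)) x :=
          ContMDiffAt.comp (g := j) (f := H) x hj.contMDiffAt (hHL x hx).contMDiffAt
        refine ContMDiffAt.comp (g := fun z => Real.cos (2 * Real.pi * (lg z - lg w₀)))
          (f := fun y => j (H y)) x ?_ h2
        rw [hjz]
        exact (hfs z hz).contMDiffAt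
      refine h1.congr_of_eventuallyEq ?_
      have h3 : ∀ᶠ y in 𝓝 x, π (j (H y)) = H y := H.continuous.continuousAt.eventually hj2
      have h4 : ∀ᶠ y in 𝓝 x, j (H y) ≠ 0 := by
        have h5 : ContinuousAt (fun y => j (H y)) x :=
          ContinuousAt.comp (g := j) (f := H) hj.continuousAt H.continuous.continuousAt
        refine h5.eventually_ne ?_
        rw [hjz]
        exact hz
      filter_upwards [h3, h4] with y h6 h7
      rw [hFa, ← h6, hF₀ _ h7, h6]
  -- the parametrization of the level sets of the phase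
  obtain ⟨σ, hσ⟩ : ∃ σ : ℝ → Sp 3 → M, ∀ s y, σ s y =
    H.symm (π ((‖w₀‖ * (2 : ℝ) ^ s) • (y : E (3 + 1)))) := ⟨_, fun _ _ => rfl⟩
  have hsp : ∀ s : ℝ, 0 < ‖w₀‖ * (2 : ℝ) ^ s := fun s => by positivity
  have hyn : ∀ (s : ℝ) (y : Sp 3), ‖(‖w₀‖ * (2 : ℝ) ^ s) • (y : E (3 + 1))‖ = ‖w₀‖ * (2 : ℝ) ^ s := by
    intro s y
    have h2 : ‖(y : E (3 + 1))‖ = 1 := by simp
    rw [norm_smul, h2, mul_one, Real.norm_of_nonneg (hsp s).le]
  have hy0 : ∀ (s : ℝ) (y : Sp 3), (‖w₀‖ * (2 : ℝ) ^ s) • (y : E (3 + 1)) ≠ 0 := by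
    intro s y
    rw [← norm_pos_iff, hyn]
    exact hsp s
  have hlgn : ∀ (s : ℝ) (z : E (3 + 1)), ‖z‖ = ‖w₀‖ * (2 : ℝ) ^ s → lg z - lg w₀ = s := by
    intro s z hz
    unfold lg
    rw [hz, Real.logb_mul hr0.ne' (by positivity), Real.logb_rpow (by norm_num) (by norm_num)]
    ring
  have hlgn' : ∀ (s : ℝ) (z : E (3 + 1)), z ≠ 0 → lg z - lg w₀ = s →
      ‖z‖ = ‖w₀‖ * (2 : ℝ) ^ s := by
    intro s z hz hs
    have hz' := norm_pos_iff.2 hz
    have h1 : Real.logb 2 ‖z‖ = Real.logb 2 (‖w₀‖ * (2 : ℝ) ^ s) := by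
      rw [Real.logb_mul hr0.ne' (by positivity), Real.logb_rpow (by norm_num) (by norm_num)]
      unfold lg at hs
      linarith
    exact Real.logb_injOn_pos (by norm_num) (mem_Ioi.2 hz') (mem_Ioi.2 (hsp s)) h1
  have hσr : ∀ s : ℝ, range (σ s) = {y | θ (H y) = ((s : ℝ) : AddCircle (1 : ℝ))} := by
    intro s
    ext x
    constructor
    · rintro ⟨y, rfl⟩
      show θ (H (σ s y)) = _
      rw [hσ, H.apply_symm_apply, hθ _ (hy0 s y), hlgn s _ (hyn s y)]
    · intro hx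
      have hx' : θ (H x) = ((s : ℝ) : AddCircle (1 : ℝ)) := hx
      obtain ⟨z, hz, hzx⟩ := hT.surj (H x)
      rw [← hzx, hθ z hz] at hx'
      obtain ⟨k, hk⟩ := AddCircle.coe_eq_zero_iff (1 : ℝ) |>.1 (show
        ((lg z - lg w₀ - s : ℝ) : AddCircle (1 : ℝ)) = 0 by rw [AddCircle.coe_sub, hx', sub_self])
      rw [zsmul_one] at hk
      have hz1 : dk ρ (-k) z ≠ 0 := dk_ne ρ _ hz
      have h1 : lg (dk ρ (-k) z) - lg w₀ = s := by
        rw [lg_dk ρ _ hz]
        push_cast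
        linarith
      have h2 := hlgn' s _ hz1 h1
      refine ⟨⟨(‖w₀‖ * (2 : ℝ) ^ s)⁻¹ • dk ρ (-k) z, ?_⟩, ?_⟩
      · rw [mem_sphere_zero_iff_norm, norm_smul, Real.norm_of_nonneg (inv_nonneg.2 (hsp s).le), h2,
          inv_mul_cancel₀ (hsp s).ne']
      · rw [hσ]
        show H.symm (π ((‖w₀‖ * (2 : ℝ) ^ s) • (‖w₀‖ * (2 : ℝ) ^ s)⁻¹ • dk ρ (-k) z)) = x
        rw [smul_smul, mul_inv_cancel₀ (hsp s).ne', one_smul, hT.inv hz, hzx, H.symm_apply_apply]
  have hσc : ∀ s : ℝ, Continuous (σ s) := by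
    intro s
    have h1 : σ s = fun y : Sp 3 => H.symm (π ((‖w₀‖ * (2 : ℝ) ^ s) • (y : E (3 + 1)))) :=
      funext (hσ s)
    rw [h1, continuous_iff_continuousAt]
    intro y
    refine H.symm.continuous.continuousAt.comp ?_
    have hsm : Continuous fun y : Sp 3 => (‖w₀‖ * (2 : ℝ) ^ s) • (y : E (3 + 1)) := by
      fun_prop
    exact ContinuousAt.comp (g := π) (f := fun y : Sp 3 => (‖w₀‖ * (2 : ℝ) ^ s) • (y : E (3 + 1)))
      (h.cont _ (hy0 s y)) hsm.continuousAt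
  have hpre : ∀ s : ℝ, IsPreconnected {y | θ (H y) = ((s : ℝ) : AddCircle (1 : ℝ))} := by
    intro s
    have h1 : 1 < Module.rank ℝ (EuclideanSpace ℝ (Fin (3 + 1))) := by
      rw [← Module.finrank_eq_rank, finrank_euclideanSpace_fin]
      norm_num
    have : ConnectedSpace (Sp 3) :=
      isConnected_iff_connectedSpace.1 (isConnected_sphere h1 0 zero_le_one)
    rw [← hσr s]
    exact isPreconnected_range (hσc s)
  -- the components
  have hcmp : ∀ (x : M) (s : ℝ), ((s : ℝ) : AddCircle (1 : ℝ)) = θ (H x) →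
      cmp F x = {y | θ (H y) = ((s : ℝ) : AddCircle (1 : ℝ))} := by
    intro x s hs
    refine Subset.antisymm ?_ ?_
    · have hfin : ({((s : ℝ) : AddCircle (1 : ℝ)), ((-s : ℝ) : AddCircle (1 : ℝ))} :
          Set (AddCircle (1 : ℝ))).Finite := Set.toFinite _
      have hsub : (fun y => θ (H y)) '' cmp F x ⊆
          {((s : ℝ) : AddCircle (1 : ℝ)), ((-s : ℝ) : AddCircle (1 : ℝ))} := by
        rintro _ ⟨y, hy, rfl⟩
        obtain ⟨s', hs'⟩ : ∃ s' : ℝ, ((s' : ℝ) : AddCircle (1 : ℝ)) = θ (H y) :=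
          QuotientAddGroup.mk_surjective _
        have h1 := cmp_F hy
        rw [hFθ y s' hs', hFθ x s hs, Real.cos_eq_cos_iff] at h1
        obtain ⟨k, hk | hk⟩ := h1
        · left
          have h2 : s = k + s' := by
            have : 2 * Real.pi * s = 2 * Real.pi * (k + s') := by rw [hk]; ring
            exact mul_left_cancel₀ (by positivity) this
          show θ (H y) = _
          rw [← hs', h2, AddCircle.coe_add, hph, zero_add]
        · right
          have h2 : s = k - s' := by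
            have : 2 * Real.pi * s = 2 * Real.pi * (k - s') := by rw [hk]; ring
            exact mul_left_cancel₀ (by positivity) this
          show θ (H y) = _
          rw [← hs', h2, show -(k - s' : ℝ) = s' - k by ring, AddCircle.coe_sub, hph, sub_zero]
      have hpc : IsPreconnected ((fun y => θ (H y)) '' cmp F x) :=
        isPreconnected_connectedComponentIn.image _ (hθc.comp H.continuous).continuousOn
      have h3 := hfin.countable.isTotallyDisconnected _ hsub hpc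
      intro y hy
      show θ (H y) = _
      rw [hs]
      exact h3 ⟨y, hy, rfl⟩ ⟨x, mem_cmp F x, rfl⟩
    · refine (hpre s).subset_connectedComponentIn hs.symm ?_
      intro y hy
      show F y = F x
      have hy' : θ (H y) = ((s : ℝ) : AddCircle (1 : ℝ)) := hy
      rw [hFθ y s hy'.symm, hFθ x s hs]
  refine ⟨F, hFs, fun t ht x hx => ?_, fun x => ?_⟩
  · -- the level is not extremal
    have hreg := regular_point (Eventually.of_forall fun z => hFs z) (ht x hx)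
    obtain ⟨s, hs⟩ : ∃ s : ℝ, ((s : ℝ) : AddCircle (1 : ℝ)) = θ (H x) :=
      QuotientAddGroup.mk_surjective _
    have hFle : ∀ y, F y ≤ 1 := by
      intro y
      obtain ⟨s', hs'⟩ : ∃ s' : ℝ, ((s' : ℝ) : AddCircle (1 : ℝ)) = θ (H y) :=
        QuotientAddGroup.mk_surjective _
      rw [hFθ y s' hs']
      exact Real.cos_le_one _
    have hsk : ((s : ℝ) : AddCircle (1 : ℝ)) ≠ 0 := by
      intro hc
      have h1 : F x = 1 := by
        have h2 : (((0 : ℝ) : ℝ) : AddCircle (1 : ℝ)) = θ (H x) := by rw [← hs, hc]; simp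
        rw [hFθ x 0 h2, mul_zero, Real.cos_zero]
      obtain ⟨z, hz⟩ := hreg.2.2.exists
      rw [h1] at hz
      exact absurd (hFle z) (not_le.2 hz)
    have hne : ∀ y : Sp 3, π ((‖w₀‖ * (2 : ℝ) ^ s) • (y : E (3 + 1))) ≠ p := by
      intro y hc
      apply hsk
      rw [← hlgn s _ (hyn s y), ← hθ _ (hy0 s y), hc, ← hwp, hθ w₀ hw₀, sub_self]
      simp
    -- the local diffeomorphism
    have hLL : ∀ y : Sp 3, LD (3 + 1)
        (fun z : E (3 + 1) => H.symm (π ((‖w₀‖ * (2 : ℝ) ^ s) • z))) (y : E (3 + 1)) := by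
      intro y
      have h1 : LD (3 + 1) H.symm (π ((‖w₀‖ * (2 : ℝ) ^ s) • (y : E (3 + 1)))) := by
        have h2 : LD (3 + 1) H.symm (H (H.symm (π ((‖w₀‖ * (2 : ℝ) ^ s) • (y : E (3 + 1)))))) := by
          refine LD.inverse (k := H) (U := {p}ᶜ) isOpen_compl_singleton (fun x hx => hHL x hx)
            (fun x _ => H.symm_apply_apply x) ?_
          intro hc
          have h3 := congrArg H (mem_singleton_iff.1 hc)
          rw [H.apply_symm_apply, hHp] at h3
          exact hne y h3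
        rwa [H.apply_symm_apply] at h2
      let L : E (3 + 1) ≃L[ℝ] E (3 + 1) := ContinuousLinearEquiv.smulLeft
        (Units.mk0 (‖w₀‖ * (2 : ℝ) ^ s) (hsp s).ne')
      refine LD.comp_fun (g := H.symm) (f := fun z => π ((‖w₀‖ * (2 : ℝ) ^ s) • z)) h1 ?_
      exact LD.comp_fun (g := π) (f := fun z => L z) (h.ld _ (hy0 s y) (hne y)) (LD_linear L _)
    have hσs : ContMDiff (𝓡 3) (𝓡 (3 + 1)) ∞ (σ s) := by
      have h1 : σ s = fun y : Sp 3 => H.symm (π ((‖w₀‖ * (2 : ℝ) ^ s) • (y : E (3 + 1)))) :=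
        funext (hσ s)
      rw [h1]
      intro y
      have h2 : ContMDiff (𝓡 3) 𝓘(ℝ, E (3 + 1)) ∞ (fun y : Sp 3 => (y : E (3 + 1))) :=
        contMDiff_coe_sphere
      exact ContMDiffAt.comp (g := fun z : E (3 + 1) => H.symm (π ((‖w₀‖ * (2 : ℝ) ^ s) • z)))
        (f := fun y : Sp 3 => (y : E (3 + 1))) y (hLL y).contMDiffAt h2.contMDiffAt
    refine ⟨Eventually.of_forall fun z => hFs z, ht x hx, σ s, hσs, ?_, ?_, ?_⟩
    · intro y y' hyy
      rw [hσ, hσ] at hyy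
      have h1 := H.symm.injective hyy
      have h2 := hT.level (hy0 s y) (hy0 s y') h1 (by rw [hyn, hyn]; linarith [hsp s])
        (by rw [hyn, hyn]; linarith [hsp s])
      exact Subtype.ext (smul_right_injective _ (hsp s).ne' h2).symm
    · intro y
      have h1 : σ s = fun y : Sp 3 => H.symm (π ((‖w₀‖ * (2 : ℝ) ^ s) • (y : E (3 + 1)))) :=
        funext (hσ s)
      have h2 : mfderiv (𝓡 3) (𝓡 (3 + 1)) (σ s) y =
          (mfderiv (𝓡 (3 + 1)) (𝓡 (3 + 1))
            (fun z : E (3 + 1) => H.symm (π ((‖w₀‖ * (2 : ℝ) ^ s) • z))) (y : E (3 + 1))).comp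
          (mfderiv (𝓡 3) 𝓘(ℝ, E (3 + 1)) (fun y : Sp 3 => (y : E (3 + 1))) y) := by
        rw [h1]
        exact mfderiv_comp (g := fun z : E (3 + 1) => H.symm (π ((‖w₀‖ * (2 : ℝ) ^ s) • z))) y
          (hLL y).mdifferentiableAt
          ((contMDiff_coe_sphere (n := 3) (m := (∞ : WithTop ℕ∞)) (E := E 4)).mdifferentiableAt
              (x := y) (by simp))
      rw [h2]
      exact (hLL y).mfderiv_injective.comp (mfderiv_coe_sphere_injective (n := 3) y)
    · rw [← hx]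
      exact (hσr s).trans (hcmp x s hs).symm
  · obtain ⟨s, hs⟩ : ∃ s : ℝ, ((s : ℝ) : AddCircle (1 : ℝ)) = θ (H x) :=
      QuotientAddGroup.mk_surjective _
    rw [hcmp x s hs]
    refine h.emb_shell hHL hHp (hsp s) ?_ ?_
    · exact (isClosed_singleton.preimage (hθc.comp H.continuous)).isCompact
    · rw [← hσr s]
      rintro _ ⟨y, rfl⟩
      refine ⟨(‖w₀‖ * (2 : ℝ) ^ s) • (y : E (3 + 1)), ?_, by rw [hσ, H.apply_symm_apply]⟩
      constructor
      · rw [hyn]
        linarith [hsp s]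
      · rw [hyn]
        linarith [hsp s]

end back

end Pool.Agent.H827.HS
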