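import Pool.Agent.H827.HS.Fam

/-!
# Manifolds of rank one with a function whose regular levels consist of spheres
-/

set_option autoImplicit false
set_option linter.unusedSectionVars false

open Set Filter Topology Metric Function MeasureTheory
open scoped Manifold ContDiff NNReal

noncomputable section

namespace Pool.Agent.H827.HS

open Pool.Agent.Y522 Pool.Agent.X175.SH Pool.Agent.N550.KH Pool.Agent.H829.AZ Pool.Agent.H827.LV

/-- the circle map lifts -/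
def Lifts {X : Type} [TopologicalSpace X] (θ : X → AddCircle (1 : ℝ)) : Prop :=
  ∃ r : X → ℝ, Continuous r ∧ ∀ x, ((r x : ℝ) : AddCircle (1 : ℝ)) = θ x

/-- lifts on two open sets -/
theorem lift_union {X : Type} [TopologicalSpace X] {U₁ U₂ : Set X} (h1 : IsOpen U₁)
    (h2 : IsOpen U₂) (hU : ∀ x, x ∈ U₁ ∨ x ∈ U₂) (hp : IsPreconnected (U₁ ∩ U₂))
    {θ : X → AddCircle (1 : ℝ)} {g₁ g₂ : X → ℝ} (hg₁ : ContinuousOn g₁ U₁)
    (hg₂ : ContinuousOn g₂ U₂) (hg₁' : ∀ x ∈ U₁, ((g₁ x : ℝ) : AddCircle (1 : ℝ)) = θ x)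
    (hg₂' : ∀ x ∈ U₂, ((g₂ x : ℝ) : AddCircle (1 : ℝ)) = θ x) : Lifts θ := by
  classical
  have hconst := int_const hp (d := fun z => g₁ z - g₂ z)
    ((hg₁.mono inter_subset_left).sub (hg₂.mono inter_subset_right)) (fun z hz => by
      rw [AddCircle.coe_sub, hg₁' z hz.1, hg₂' z hz.2, sub_self])
  obtain ⟨c, hc, hc0⟩ : ∃ c : ℝ, (∀ x ∈ U₁ ∩ U₂, g₁ x - g₂ x = c) ∧
      ((c : ℝ) : AddCircle (1 : ℝ)) = 0 := by
    by_cases hne : (U₁ ∩ U₂).Nonempty
    · obtain ⟨y, hy⟩ := hne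
      refine ⟨g₁ y - g₂ y, fun x hx => hconst x hx y hy, ?_⟩
      rw [AddCircle.coe_sub, hg₁' y hy.1, hg₂' y hy.2, sub_self]
    · exact ⟨0, fun x hx => absurd ⟨x, hx⟩ hne, by simp⟩
  let g : X → ℝ := fun z => if z ∈ U₁ then g₁ z else g₂ z + c
  have e1 : ∀ z ∈ U₁, g z = g₁ z := fun z hz => if_pos hz
  have e2 : ∀ z ∈ U₂, g z = g₂ z + c := by
    intro z hz
    by_cases h : z ∈ U₁
    · rw [e1 z h]
      have := hc z ⟨h, hz⟩
      linarith
    · exact if_neg h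
  refine ⟨g, ?_, ?_⟩
  · rw [continuous_iff_continuousAt]
    intro z
    rcases hU z with h | h
    · refine ((hg₁ z h).continuousAt (h1.mem_nhds h)).congr ?_
      filter_upwards [h1.mem_nhds h] with w hw
      exact (e1 w hw).symm
    · have h3 : ContinuousAt (fun z => g₂ z + c) z :=
        ((hg₂ z h).continuousAt (h2.mem_nhds h)).add continuousAt_const
      refine h3.congr ?_
      filter_upwards [h2.mem_nhds h] with w hw
      exact (e2 w hw).symm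
  · intro z
    rcases hU z with h | h
    · rw [e1 z h, hg₁' z h]
    · rw [e2 z h, AddCircle.coe_add, hc0, add_zero, hg₂' z h]

/-- circle maps of spheres lift -/
theorem sphere_lift {N : Type} [TopologicalSpace N] [T2Space N] [ChartedSpace (E 4) N]
    [IsManifold (𝓡 4) ∞ N] (G : N ≃ₜ S4) (x₀ : N) (hG : ∀ x, x ≠ x₀ → LD 4 G x)
    {θ : N → AddCircle (1 : ℝ)} (hθ : Continuous θ) : Lifts θ := by
  -- lifts off a point
  have hloc : ∀ p : N, ∃ (κ : E 4 → N) (k : N → E 4) (g : N → ℝ), Continuous κ ∧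
      (∀ x, x ≠ p → κ (k x) = x) ∧ (∀ z, κ z ≠ p) ∧ (∀ z, k (κ z) = z) ∧ ContinuousOn g {p}ᶜ ∧
      ∀ x ∈ ({p}ᶜ : Set N), ((g x : ℝ) : AddCircle (1 : ℝ)) = θ x := by
    intro p
    obtain ⟨k, hk1, hk2, hk3⟩ := of_sphere G x₀ hG p
    choose κ hκp hκ using hk3
    have hκk : ∀ x, x ≠ p → κ (k x) = x := fun x hx => hk1 (hκp _) hx (hκ _)
    have hκc : Continuous κ := by
      rw [continuous_iff_continuousAt]
      intro z
      have h1 : LD 4 κ (k (κ z)) := LD.inverse (k := k) (U := {p}ᶜ) isOpen_compl_singleton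
        (fun x hx => hk2 x hx) (fun x hx => hκk x hx) (hκp z)
      rw [hκ] at h1
      exact h1.continuousAt
    obtain ⟨g, hg, hgθ⟩ := LV.lift_of_simplyConnected (n := 4) (X := E 4) (fun z => θ (κ z))
      (hθ.comp hκc)
    refine ⟨κ, k, fun x => g (k x), hκc, hκk, hκp, hκ, fun x hx => ?_, fun x hx => ?_⟩
    · exact (hg.continuousAt.comp (hk2 x hx).continuousAt).continuousWithinAt
    · rw [hgθ, hκk x hx]
  obtain ⟨κ, k, g₁, hκ, hκk, hκp, hkκ, hg₁, hg₁'⟩ := hloc x₀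
  obtain ⟨-, -, g₂, -, -, -, -, hg₂, hg₂'⟩ := hloc (κ 0)
  refine lift_union (isOpen_compl_singleton (x := x₀)) (isOpen_compl_singleton (x := κ 0))
    (fun x => ?_) ?_ hg₁ hg₂ hg₁' hg₂'
  · by_cases h : x = x₀
    · right
      rw [h]
      exact fun h' => hκp 0 (mem_singleton_iff.1 h').symm
    · exact Or.inl h
  · have h1 : ({x₀}ᶜ : Set N) ∩ {κ 0}ᶜ = κ '' {0}ᶜ := by
      ext x
      constructor
      · rintro ⟨h2, h3⟩
        refine ⟨k x, fun h4 => h3 ?_, hκk x h2⟩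
        have h5 : k x = 0 := h4
        rw [mem_singleton_iff, ← h5, hκk x h2]
      · rintro ⟨z, hz, rfl⟩
        refine ⟨hκp z, fun h4 => hz ?_⟩
        rw [mem_singleton_iff, ← hkκ z, mem_singleton_iff.1 h4, hkκ]
    rw [h1]
    exact (punct_preconnected (n := 4) (by norm_num)).image κ hκ.continuousOn

/-- **Theorem.** -/
theorem std_of_fn {M : Type} [TopologicalSpace M] [T2Space M] [CompactSpace M] [ConnectedSpace M]
    [ChartedSpace (E (3 + 1)) M] [IsManifold (𝓡 (3 + 1)) ∞ M] (hr : RankOne M)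
    (hnl : ∃ θ : M → AddCircle (1 : ℝ), Continuous θ ∧ ¬ Lifts θ) {F : M → ℝ}
    (hF : Continuous F) (hfib : ∀ x, Emb (3 + 1) (cmp F x)) (hT : Dense {t | SphLev 3 F t}) :
    ∃ (S : Finset (Fin (3 + 1))) (π : E (3 + 1) → M) (p : M), (S = ∅ ∨ S = {0}) ∧
      Std (ri S) π p := by
  classical
  by_cases hx : ∃ x, SphLev 3 F (F x) ∧ IsPreconnected (cmp F x)ᶜ
  · obtain ⟨x, hx, hpre⟩ := hx
    have hemb := emb_compl (m := 3) (by norm_num) hr hF hfib hT hx hpre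
    obtain ⟨ε₀, hε₀, hε₀S, -⟩ := exists_levcol hx isOpen_univ (subset_univ _)
    change ε₀ '' sphere 0 1 = cmp F x at hε₀S
    let V : TopologicalSpace.Opens M := ⟨(ε₀ '' sphere 0 1)ᶜ, (sphere_closed hε₀.nk).isOpen_compl⟩
    have hVne : (V : Set M).Nonempty := by
      have h2 : ‖(2 : ℝ) • qq (0 : Fin (3 + 1))‖ = 2 := by rw [norm_smul, norm_qq]; norm_num
      have h20 : (2 : ℝ) • qq (0 : Fin (3 + 1)) ≠ 0 := by
        rw [← norm_pos_iff, h2]
        norm_num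
      refine ⟨ε₀ ((2 : ℝ) • qq 0), ?_⟩
      rintro ⟨v, hv, hv'⟩
      have h3 := hε₀.nk.inj _ _ (sphere_ne hv) h20 hv'
      rw [h3, mem_sphere_zero_iff_norm, h2] at hv
      norm_num at hv
    have hVc : IsConnected (V : Set M) := ⟨hVne, by
      show IsPreconnected (ε₀ '' sphere 0 1)ᶜ
      rw [hε₀S]
      exact hpre⟩
    have : ConnectedSpace V := isConnected_iff_connectedSpace.1 hVc
    obtain ⟨x₀⟩ : Nonempty V := inferInstance
    exact exists_pi (m := 3) (V := V) hε₀.nk rfl x₀ (fun K hK hKV => hemb K hK (by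
      rw [← hε₀S]
      exact hKV)) (i := 0) (j := 3) (by decide)
  · exfalso
    push Not at hx
    obtain ⟨c, hc, hce⟩ := LV.main hF (fun s x hxs => by
      rw [← hxs]
      exact hfib x) {t | SphLev 3 F t} hT (fun x hxT => by
      obtain ⟨ε₁, hε₁, hε₁S, -⟩ := exists_levcol (x := x) hxT isOpen_univ (subset_univ _)
      obtain ⟨φ, h1, h2⟩ := sep_cut (by norm_num) hF hε₁ (by
        rw [hε₁S]
        exact hx x hxT)
      exact ⟨φ, h1, by rw [h2, hε₁S]⟩)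
    obtain ⟨U, k, hU, hcU, hk, hkl⟩ := hce
    obtain ⟨G, x₀, h1, h2⟩ := to_sphere (N := M) (c := c) ⟨hc.inj, hc.ld⟩ hU hcU hk hkl
    obtain ⟨θ, hθ, hθl⟩ := hnl
    exact hθl (sphere_lift G x₀ h1 hθ)

/-- standard manifolds have rank one -/
theorem TStd.rankOne {n : ℕ} (hn : 3 ≤ n) {ρ : E n ≃ₗᵢ[ℝ] E n} {M : Type} [TopologicalSpace M]
    [T2Space M] {π : E n → M} (h : TStd ρ π) : RankOne M := by
  obtain ⟨θ₀, hθ₀c, hθ₀⟩ := h.th0
  intro θ₁ θ₂ h1 h2
  obtain ⟨r₁, a₁, hr₁, e1⟩ := h.rank hn hθ₀ h1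
  obtain ⟨r₂, a₂, hr₂, e2⟩ := h.rank hn hθ₀ h2
  by_cases ha : a₁ = 0
  · refine ⟨1, 0, Or.inl one_ne_zero, r₁, hr₁, fun x => ?_⟩
    rw [one_smul, zero_smul, add_zero, e1 x, ha, zero_smul, add_zero]
  · refine ⟨a₂, -a₁, Or.inr (neg_ne_zero.2 ha), fun x => a₂ * r₁ x - a₁ * r₂ x,
      (continuous_const.mul hr₁).sub (continuous_const.mul hr₂), fun x => ?_⟩
    rw [e1 x, e2 x, AddCircle.coe_sub]
    have h3 : ((a₂ * r₁ x : ℝ) : AddCircle (1 : ℝ)) = a₂ • ((r₁ x : ℝ) : AddCircle (1 : ℝ)) := by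
      rw [← AddCircle.coe_zsmul, zsmul_eq_mul]
    have h4 : ((a₁ * r₂ x : ℝ) : AddCircle (1 : ℝ)) = a₁ • ((r₂ x : ℝ) : AddCircle (1 : ℝ)) := by
      rw [← AddCircle.coe_zsmul, zsmul_eq_mul]
    rw [h3, h4, smul_add, smul_add, neg_smul, neg_smul, smul_smul, smul_smul, mul_comm a₂ a₁]
    abel

/-- the basic circle map does not lift -/
theorem TStd.not_lift {n : ℕ} (hn : 1 ≤ n) {ρ : E n ≃ₗᵢ[ℝ] E n} {M : Type}
    [TopologicalSpace M] [T2Space M] {π : E n → M} (h : TStd ρ π) (hn2 : 2 ≤ n) :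
    ∃ θ : M → AddCircle (1 : ℝ), Continuous θ ∧ ¬ Lifts θ := by
  obtain ⟨θ₀, hθ₀c, hθ₀⟩ := h.th0
  refine ⟨θ₀, hθ₀c, ?_⟩
  rintro ⟨r, hr, hrθ⟩
  have hconst := int_const (punct_preconnected hn2) (d := fun z => r (π z) - lg z)
    (ContinuousOn.sub (fun z hz => (hr.continuousAt.comp (h.cont z hz)).continuousWithinAt)
      lg_cont) (fun z hz => by
      rw [AddCircle.coe_sub, hrθ, hθ₀ z hz, sub_self])
  let j : Fin n := ⟨0, by omega⟩
  have hj : qq j ≠ 0 := sphere_ne (mem_sphere_zero_iff_norm.2 (norm_qq j))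
  have h1 := hconst _ (dk_ne ρ 1 hj) _ hj
  rw [h.inv hj, lg_dk ρ 1 hj, Int.cast_one] at h1
  linarith

end Pool.Agent.H827.HS
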