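import Pool.Agent.H829.AZ.Sph
import Pool.Graph.R_seed8.Y248.SH.Germ
import Mathlib.Analysis.CStarAlgebra.Matrix

/-!
# Germs of diffeomorphisms extend, up to a reflection
-/

set_option autoImplicit false
set_option linter.unusedSectionVars false

open Set Filter Topology Metric Function
open scoped Manifold ContDiff NNReal

noncomputable section

namespace Pool.Agent.H827.HS

open Pool.Agent.Y522 Pool.Agent.X175.SH Pool.Agent.N550.KH Pool.Agent.H829.AZ

variable {n : ℕ}

/-- near the origin `L` is a diffeomorphism supported in the unit ball -/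
def Ex (n : ℕ) (L : E n → E n) : Prop :=
  ∃ Φ : E n → E n, IsDf n Φ ∧ (∀ᶠ y in 𝓝 (0 : E n), Φ y = L y) ∧ ∀ y, 1 ≤ ‖y‖ → Φ y = y

theorem ex_comp {L L' : E n → E n} (h : Ex n L) (h' : Ex n L') (hc : ContinuousAt L' 0)
    (h0 : L' 0 = 0) : Ex n (fun y => L (L' y)) := by
  obtain ⟨Φ, h1, h2, h3⟩ := h
  obtain ⟨Φ', h1', h2', h3'⟩ := h'
  refine ⟨fun y => Φ (Φ' y), IsDf.comp h1 h1', ?_, fun y hy => ?_⟩
  · have h4 : Tendsto L' (𝓝 0) (𝓝 0) := by
      have := hc.tendsto
      rwa [h0] at this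
    filter_upwards [h2', h4.eventually h2] with y h5 h6
    rw [h5, h6]
  · show Φ (Φ' y) = y
    rw [h3' y hy, h3 y hy]

theorem ex_near (n : ℕ) : ∃ δ : ℝ, 0 < δ ∧ ∀ u : E n →L[ℝ] E n, ‖u‖ < δ →
    Ex n (fun y => y + u y) := by
  let b : ContDiffBump (0 : E n) := ⟨1 / 4, 1 / 2, by norm_num, by norm_num⟩
  have hv : ContDiff ℝ ∞ (fun y : E n => b y • y) := b.contDiff.smul contDiff_id
  have hcs : HasCompactSupport (fun y : E n => b y • y) := b.hasCompactSupport.smul_right
  obtain ⟨K, hK⟩ := hv.lipschitzWith_of_hasCompactSupport hcs (by simp)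
  have hK0 : (0 : ℝ) ≤ K := K.2
  refine ⟨1 / (K + 1), by positivity, fun u hu => ?_⟩
  have hw : ContDiff ℝ ∞ (fun y : E n => u (b y • y)) := u.contDiff.comp hv
  have hl : LipschitzWith (‖u‖₊ * K) (fun y : E n => u (b y • y)) := u.lipschitz.comp hK
  have hlt : ‖u‖₊ * K < 1 := by
    rw [← NNReal.coe_lt_coe]
    push_cast
    rw [lt_div_iff₀ (by positivity)] at hu
    nlinarith [norm_nonneg u]
  have hD := Pool.Agent.Y784.SH.dif_of_lip hw hlt hl
  refine ⟨fun y => y + u (b y • y), ⟨hD.1, hD.2⟩, ?_, fun y hy => ?_⟩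
  · filter_upwards [closedBall_mem_nhds (0 : E n) (by norm_num : (0 : ℝ) < 1 / 4)] with y hy
    have h1 : b y = 1 := b.one_of_mem_closedBall hy
    rw [h1, one_smul]
  · have h1 : b y = 0 := b.zero_of_le_dist (by
      rw [dist_zero_right]
      show (1 / 2 : ℝ) ≤ ‖y‖
      linarith)
    show y + u (b y • y) = y
    rw [h1, zero_smul, map_zero, add_zero]

/-- the linear map of a matrix -/
abbrev T (n : ℕ) (A : Matrix (Fin n) (Fin n) ℝ) : E n →L[ℝ] E n :=
  Matrix.toEuclideanCLM (n := Fin n) (𝕜 := ℝ) A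

theorem T_mul (A B : Matrix (Fin n) (Fin n) ℝ) (y : E n) : T n (A * B) y = T n A (T n B y) := by
  show Matrix.toEuclideanCLM (n := Fin n) (𝕜 := ℝ) (A * B) y = _
  rw [map_mul]
  rfl

theorem T_one (y : E n) : T n 1 y = y := by
  show Matrix.toEuclideanCLM (n := Fin n) (𝕜 := ℝ) 1 y = _
  rw [map_one]
  rfl

/-- the matrix extends to a diffeomorphism supported in the unit ball -/
def HM (A : Matrix (Fin n) (Fin n) ℝ) : Prop := Ex n (fun y => T n A y)

theorem HM.mul {A B : Matrix (Fin n) (Fin n) ℝ} (hA : HM A) (hB : HM B) : HM (A * B) := by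
  have h := ex_comp hA hB (T n B).continuous.continuousAt (map_zero _)
  have h1 : (fun y => T n (A * B) y) = fun y => T n A (T n B y) := by
    funext y
    rw [T_mul]
  unfold HM
  rw [h1]
  exact h

theorem HM_one : HM (1 : Matrix (Fin n) (Fin n) ℝ) :=
  ⟨fun y => y, isDf_id, Eventually.of_forall fun y => (T_one y).symm, fun _ _ => rfl⟩

theorem HM_near (n : ℕ) : ∀ᶠ A in 𝓝 (1 : Matrix (Fin n) (Fin n) ℝ), HM A := by
  obtain ⟨δ, hδ, h⟩ := ex_near n
  have hc : Continuous (fun A : Matrix (Fin n) (Fin n) ℝ => T n A - T n 1) := by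
    have : Continuous (fun A : Matrix (Fin n) (Fin n) ℝ => T n A) :=
      ((Matrix.toEuclideanCLM (n := Fin n) (𝕜 := ℝ)).toAlgEquiv.toLinearMap
        : Matrix (Fin n) (Fin n) ℝ →ₗ[ℝ] (E n →L[ℝ] E n)).continuous_of_finiteDimensional
    exact this.sub continuous_const
  have h1 : ∀ᶠ A in 𝓝 (1 : Matrix (Fin n) (Fin n) ℝ), ‖T n A - T n 1‖ < δ := by
    have := hc.continuousAt (x := (1 : Matrix (Fin n) (Fin n) ℝ))
    have h2 := this.norm.tendsto
    simp only [sub_self, norm_zero] at h2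
    exact h2.eventually (gt_mem_nhds hδ)
  filter_upwards [h1] with A hA
  have h2 := h _ hA
  unfold HM
  convert h2 using 2 with y
  rw [_root_.sub_apply, T_one]
  abel

theorem HM_path {A B : ℝ → Matrix (Fin n) (Fin n) ℝ} (hA : Continuous A) (hB : Continuous B)
    (hBA : ∀ t, B t * A t = 1) (h0 : A 0 = 1) : HM (A 1) := by
  have hAB : ∀ t, A t * B t = 1 := fun t => mul_eq_one_comm.1 (hBA t)
  have h1 : HM (B 0 * A 1) := by
    refine PreconnectedSpace.induction₂' (α := ℝ) (fun x y => HM (B x * A y)) (fun x => ?_)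
      ⟨fun x y z hxy hyz => ?_⟩ 0 1
    · have h2 : Tendsto (fun y => B x * A y) (𝓝 x) (𝓝 1) :=
        (continuous_const.matrix_mul hA).tendsto' x 1 (hBA x)
      have h3 : Tendsto (fun y => B y * A x) (𝓝 x) (𝓝 1) :=
        (hB.matrix_mul continuous_const).tendsto' x 1 (hBA x)
      exact (h2.eventually (HM_near n)).and (h3.eventually (HM_near n))
    · have h2 := hxy.mul hyz
      rwa [Matrix.mul_assoc, ← Matrix.mul_assoc (A y), hAB, Matrix.one_mul] at h2
  have h2 : B 0 = 1 := by
    have := hBA 0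
    rwa [h0, Matrix.mul_one] at this
  rwa [h2, Matrix.one_mul] at h1

theorem HM_transvection (t : Matrix.TransvectionStruct (Fin n) ℝ) : HM t.toMatrix := by
  obtain ⟨i, j, hij, c⟩ := t
  have h1 : ∀ s : ℝ, Matrix.transvection i j s = 1 + s • Matrix.single i j (1 : ℝ) := by
    intro s
    rw [Matrix.transvection, Matrix.smul_single, smul_eq_mul, mul_one]
  have hcont : ∀ c : ℝ, Continuous fun s : ℝ => Matrix.transvection i j (s * c) := by
    intro c
    have h2 : (fun s : ℝ => Matrix.transvection i j (s * c)) =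
        fun s => 1 + (s * c) • Matrix.single i j (1 : ℝ) := by
      funext s
      rw [h1]
    rw [h2]
    fun_prop
  have h := HM_path (A := fun s => Matrix.transvection i j (s * c))
    (B := fun s => Matrix.transvection i j (s * -c)) (hcont c) (hcont (-c)) (fun s => by
      rw [Matrix.transvection_mul_transvection_same _ _ hij]
      rw [← mul_add, neg_add_cancel, mul_zero, Matrix.transvection_zero]) (by
      rw [zero_mul, Matrix.transvection_zero])
  simpa using h

theorem HM_pos {D : Fin n → ℝ} (hD : ∀ i, 0 < D i) : HM (Matrix.diagonal D) := by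
  have h := HM_path (A := fun s => Matrix.diagonal fun i => D i ^ s)
    (B := fun s => Matrix.diagonal fun i => D i ^ (-s))
    (Continuous.matrix_diagonal (continuous_pi fun i =>
      Real.continuous_const_rpow (hD i).ne'))
    (Continuous.matrix_diagonal (continuous_pi fun i =>
      (Real.continuous_const_rpow (hD i).ne').comp continuous_neg)) (fun s => by
      rw [Matrix.diagonal_mul_diagonal, ← Matrix.diagonal_one]
      congr 1
      funext i
      rw [← Real.rpow_add (hD i), neg_add_cancel, Real.rpow_zero]) (by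
      rw [← Matrix.diagonal_one]
      congr 1
      funext i
      exact Real.rpow_zero _)
  simpa using h

/-- the reflection in the coordinate hyperplanes with indices in `S` -/
def RS (S : Finset (Fin n)) : Matrix (Fin n) (Fin n) ℝ :=
  Matrix.diagonal fun i => if i ∈ S then -1 else 1

theorem RS_mul_self (S : Finset (Fin n)) : RS S * RS S = 1 := by
  rw [RS, Matrix.diagonal_mul_diagonal, ← Matrix.diagonal_one]
  congr 1
  funext i
  by_cases h : i ∈ S
  · simp [h]
  · simp [h]

theorem RS_insert {S : Finset (Fin n)} {a : Fin n} (ha : a ∉ S) :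
    RS (insert a S) = RS {a} * RS S := by
  rw [RS, RS, RS, Matrix.diagonal_mul_diagonal]
  congr 1
  funext i
  by_cases h : i = a
  · subst h
    simp [ha]
  · simp [h]

/-- half turns -/
theorem HM_half {a b : Fin n} (hab : a ≠ b) : HM (RS {a} * RS {b}) := by
  have hba : b ≠ a := hab.symm
  obtain ⟨P, hP⟩ : ∃ P : Matrix (Fin n) (Fin n) ℝ, P = Matrix.single a a 1 + Matrix.single b b 1 :=
    ⟨_, rfl⟩
  obtain ⟨J, hJ⟩ : ∃ J : Matrix (Fin n) (Fin n) ℝ, J = Matrix.single a b 1 - Matrix.single b a 1 :=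
    ⟨_, rfl⟩
  have hPP : P * P = P := by
    rw [hP]
    simp [Matrix.add_mul, Matrix.mul_add, hab, hba]
  have hJJ : J * J = -P := by
    rw [hP, hJ]
    simp [Matrix.sub_mul, Matrix.mul_sub, hab, hba]
    abel
  have hPJ : P * J = J := by
    rw [hP, hJ]
    simp [Matrix.add_mul, Matrix.mul_sub, hab, hba]
  have hJP : J * P = J := by
    rw [hP, hJ]
    simp [Matrix.sub_mul, Matrix.mul_add, hab, hba]
    abel
  have hmul : ∀ θ : ℝ, (1 + (Real.cos θ - 1) • P + (-Real.sin θ) • J) *
      (1 + (Real.cos θ - 1) • P + Real.sin θ • J) = 1 := by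
    intro θ
    have h1 : (1 + (Real.cos θ - 1) • P + (-Real.sin θ) • J) *
      (1 + (Real.cos θ - 1) • P + Real.sin θ • J) =
      1 + (2 * (Real.cos θ - 1) + (Real.cos θ - 1) ^ 2 + Real.sin θ ^ 2) • P := by
      simp only [Matrix.add_mul, Matrix.mul_add, Matrix.one_mul, Matrix.mul_one,
        Matrix.smul_mul, Matrix.mul_smul, hPP, hJJ, hPJ, hJP]
      module
    rw [h1]
    have h2 : 2 * (Real.cos θ - 1) + (Real.cos θ - 1) ^ 2 + Real.sin θ ^ 2 = 0 := by
      have := Real.sin_sq_add_cos_sq θ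
      nlinarith
    rw [h2, zero_smul, add_zero]
  have h := HM_path (A := fun s => 1 + (Real.cos (Real.pi * s) - 1) • P +
      Real.sin (Real.pi * s) • J)
    (B := fun s => 1 + (Real.cos (Real.pi * s) - 1) • P + (-Real.sin (Real.pi * s)) • J)
    (by fun_prop) (by fun_prop) (fun s => hmul _) (by simp)
  have h1 : (fun s => 1 + (Real.cos (Real.pi * s) - 1) • P +
      Real.sin (Real.pi * s) • J) 1 = RS {a} * RS {b} := by
    simp only [mul_one, Real.cos_pi, Real.sin_pi, zero_smul, add_zero]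
    rw [RS, RS, Matrix.diagonal_mul_diagonal, hP]
    ext i j
    by_cases hij : i = j
    · subst hij
      by_cases hia : i = a
      · subst hia
        simp [Matrix.single, hab, hba]
      · by_cases hib : i = b
        · subst hib
          simp [Matrix.single, hab, hba]
        · simp [Matrix.single, Ne.symm hia, Ne.symm hib, eq_comm]
    · have h3 : ∀ (c : Fin n) (x : ℝ), Matrix.single c c x i j = 0 := by
        intro c x
        rw [Matrix.single_apply_of_ne]
        rintro ⟨rfl, rfl⟩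
        exact hij rfl
      simp [hij, h3]
  rw [← h1]
  exact h

theorem RS_apply (S : Finset (Fin n)) (y : E n) (i : Fin n) :
    (T n (RS S) y) i = if i ∈ S then -(y i) else y i := by
  show (RS S).mulVec y.ofLp i = _
  rw [RS, Matrix.mulVec_diagonal]
  split_ifs <;> simp

theorem RS_norm (S : Finset (Fin n)) (y : E n) : ‖T n (RS S) y‖ = ‖y‖ := by
  have h1 : ‖T n (RS S) y‖ ^ 2 = ‖y‖ ^ 2 := by
    rw [EuclideanSpace.real_norm_sq_eq, EuclideanSpace.real_norm_sq_eq]
    refine Finset.sum_congr rfl fun i _ => ?_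
    rw [RS_apply]
    split_ifs <;> ring
  exact (sq_eq_sq₀ (norm_nonneg _) (norm_nonneg _)).1 h1

theorem RS_RS (S : Finset (Fin n)) (y : E n) : T n (RS S) (T n (RS S) y) = y := by
  rw [← T_mul, RS_mul_self, T_one]

/-- the reflections as continuous linear equivalences -/
def re (S : Finset (Fin n)) : E n ≃L[ℝ] E n where
  toFun := T n (RS S)
  map_add' := map_add _
  map_smul' := map_smul _
  invFun := T n (RS S)
  left_inv := RS_RS S
  right_inv := RS_RS S
  continuous_toFun := (T n (RS S)).continuous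
  continuous_invFun := (T n (RS S)).continuous

theorem re_df (S : Finset (Fin n)) : IsDf n (fun y => T n (RS S) y) :=
  ⟨(re S).bijective, fun x => LD_linear (re S) x⟩

/-- conjugation by a reflection -/
theorem HM.conj {A : Matrix (Fin n) (Fin n) ℝ} (hA : HM A) (S : Finset (Fin n)) :
    HM (RS S * A * RS S) := by
  obtain ⟨Φ, h1, h2, h3⟩ := hA
  refine ⟨fun y => T n (RS S) (Φ (T n (RS S) y)),
    IsDf.comp (re_df S) (IsDf.comp h1 (re_df S)), ?_, fun y hy => ?_⟩
  · have h4 : Tendsto (fun y => T n (RS S) y) (𝓝 0) (𝓝 0) :=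
      (T n (RS S)).continuous.tendsto' 0 0 (map_zero _)
    filter_upwards [h4.eventually h2] with y hy
    rw [hy, T_mul, T_mul]
  · show T n (RS S) (Φ (T n (RS S) y)) = y
    rw [h3 _ (by rw [RS_norm]; exact hy), RS_RS]

/-- up to the reflection the matrix extends -/
def QM (i₀ : Fin n) (A : Matrix (Fin n) (Fin n) ℝ) : Prop := HM A ∨ HM (A * RS {i₀})

theorem QM.mul {i₀ : Fin n} {A B : Matrix (Fin n) (Fin n) ℝ} (hA : QM i₀ A) (hB : QM i₀ B) :
    QM i₀ (A * B) := by
  rcases hA with hA | hA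
  · rcases hB with hB | hB
    · exact Or.inl (hA.mul hB)
    · refine Or.inr ?_
      rw [Matrix.mul_assoc]
      exact hA.mul hB
  · rcases hB with hB | hB
    · refine Or.inr ?_
      have h := hA.mul (hB.conj {i₀})
      have h1 : A * RS {i₀} * (RS {i₀} * B * RS {i₀}) = A * (RS {i₀} * RS {i₀}) * B * RS {i₀} := by
        simp only [Matrix.mul_assoc]
      rwa [h1, RS_mul_self, Matrix.mul_one] at h
    · refine Or.inl ?_
      have h := hA.mul (hB.conj {i₀})
      have h1 : A * RS {i₀} * (RS {i₀} * (B * RS {i₀}) * RS {i₀}) =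
          A * (RS {i₀} * RS {i₀}) * B * (RS {i₀} * RS {i₀}) := by
        simp only [Matrix.mul_assoc]
      rwa [h1, RS_mul_self, Matrix.mul_one, Matrix.mul_one] at h

theorem QM_single (i₀ a : Fin n) : QM i₀ (RS {a}) := by
  by_cases h : a = i₀
  · subst h
    refine Or.inr ?_
    rw [RS_mul_self]
    exact HM_one
  · exact Or.inr (HM_half h)

theorem QM_RS (i₀ : Fin n) (S : Finset (Fin n)) : QM i₀ (RS S) := by
  induction S using Finset.induction_on with
  | empty =>
    refine Or.inl ?_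
    have : (RS ∅ : Matrix (Fin n) (Fin n) ℝ) = 1 := by
      rw [RS, ← Matrix.diagonal_one]
      congr 1
    rw [this]
    exact HM_one
  | insert a S ha ih =>
    rw [RS_insert ha]
    exact (QM_single i₀ a).mul ih

theorem QM_all (i₀ : Fin n) {A : Matrix (Fin n) (Fin n) ℝ} (hA : A.det ≠ 0) : QM i₀ A := by
  refine Matrix.diagonal_transvection_induction_of_det_ne_zero (QM i₀) A hA (fun D hD => ?_)
    (fun t => Or.inl (HM_transvection t)) fun A B _ _ h1 h2 => h1.mul h2
  rw [Matrix.det_diagonal] at hD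
  have hD' : ∀ i, D i ≠ 0 := fun i => (Finset.prod_ne_zero_iff.1 hD) i (Finset.mem_univ i)
  have h1 : Matrix.diagonal D = Matrix.diagonal (fun i => |D i|) *
      RS (Finset.univ.filter fun i => D i < 0) := by
    rw [RS, Matrix.diagonal_mul_diagonal]
    congr 1
    funext i
    by_cases h : D i < 0
    · simp [h, abs_of_neg h]
    · have h2 : 0 ≤ D i := not_lt.1 h
      simp [h, abs_of_nonneg h2]
  rw [h1]
  exact QM.mul (Or.inl (HM_pos fun i => abs_pos.2 (hD' i))) (QM_RS i₀ _)

/-- germs extend, up to a reflection -/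
theorem exists_germ (i₀ : Fin n) {p : E n → E n} (hp : LD n p 0) (hp0 : p 0 = 0) {ε : ℝ}
    (hε : 0 < ε) : ∃ (S : Finset (Fin n)) (Φ : E n → E n), (S = ∅ ∨ S = {i₀}) ∧ IsDf n Φ ∧
      (∀ᶠ y in 𝓝 (0 : E n), Φ y = p (T n (RS S) y)) ∧ ∀ y, ε ≤ ‖y‖ → Φ y = y := by
  obtain ⟨A, hA⟩ := hp.exists_equiv
  obtain ⟨M, hM⟩ : ∃ M : Matrix (Fin n) (Fin n) ℝ, T n M = (A : E n →L[ℝ] E n) :=
    (Matrix.toEuclideanCLM (n := Fin n) (𝕜 := ℝ)).surjective _
  obtain ⟨M', hM'⟩ : ∃ M : Matrix (Fin n) (Fin n) ℝ, T n M = (A.symm : E n →L[ℝ] E n) :=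
    (Matrix.toEuclideanCLM (n := Fin n) (𝕜 := ℝ)).surjective _
  have hMM' : M * M' = 1 := by
    apply (Matrix.toEuclideanCLM (n := Fin n) (𝕜 := ℝ)).injective
    ext1 y
    show T n (M * M') y = T n 1 y
    rw [T_mul, T_one, hM, hM']
    exact A.apply_symm_apply y
  have hdet : M.det ≠ 0 := Matrix.det_ne_zero_of_right_inverse hMM'
  obtain ⟨S, hS, hMS⟩ : ∃ S : Finset (Fin n), (S = ∅ ∨ S = {i₀}) ∧ HM (M * RS S) := by
    rcases QM_all i₀ hdet with h | h
    · refine ⟨∅, Or.inl rfl, ?_⟩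
      have : (RS ∅ : Matrix (Fin n) (Fin n) ℝ) = 1 := by
        rw [RS, ← Matrix.diagonal_one]
        congr 1
      rwa [this, Matrix.mul_one]
    · exact ⟨{i₀}, Or.inr rfl, h⟩
  obtain ⟨Φ₁, h1, h2, h3⟩ := hMS
  let e : E n ≃L[ℝ] E n := ContinuousLinearEquiv.smulLeft (Units.mk0 ε hε.ne')
  have he : ∀ x, e x = ε • x := fun x => rfl
  have hes : ∀ x, e.symm x = ε⁻¹ • x := fun x => by
    rw [e.symm_apply_eq, he, smul_smul, mul_inv_cancel₀ hε.ne', one_smul]
  have heD : IsDf n (fun y => e y) := ⟨e.bijective, fun x => LD_linear e x⟩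
  have hesD : IsDf n (fun y => e.symm y) := ⟨e.symm.bijective, fun x => LD_linear e.symm x⟩
  let q : E n → E n := fun y => T n (RS S) (A.symm (p (T n (RS S) y)))
  have hq0 : q 0 = 0 := by
    show T n (RS S) (A.symm (p (T n (RS S) 0))) = 0
    rw [map_zero, hp0, map_zero, map_zero]
  have hr : Tendsto (fun y => T n (RS S) y) (𝓝 0) (𝓝 0) :=
      (T n (RS S)).continuous.tendsto' 0 0 (map_zero _)
  have hqL : LD n q 0 := by
    refine LD.comp_fun (g := fun y => T n (RS S) y) (f := fun y => A.symm (p (T n (RS S) y)))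
      ((re_df S).2 _) ?_
    refine LD.comp_fun (g := fun y => A.symm y) (f := fun y => p (T n (RS S) y))
      (LD_linear A.symm _) ?_
    refine LD.comp_fun (g := p) (f := fun y => T n (RS S) y) ?_ ((re_df S).2 _)
    rw [map_zero]
    exact hp
  have hqd : HasFDerivAt q (ContinuousLinearMap.id ℝ (E n)) 0 := by
    have a1 : HasFDerivAt (fun y => T n (RS S) y) (T n (RS S)) 0 := (T n (RS S)).hasFDerivAt
    have a2 : HasFDerivAt p (A : E n →L[ℝ] E n) (T n (RS S) 0) := by
      rw [map_zero]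
      exact hA
    have a3 := ((T n (RS S)).hasFDerivAt (x := A.symm (p (T n (RS S) 0)))).comp 0
      ((A.symm.hasFDerivAt (x := p (T n (RS S) 0))).comp 0 (a2.comp 0 a1))
    refine HasFDerivAt.congr_fderiv a3 ?_
    ext1 y
    show T n (RS S) (A.symm (A (T n (RS S) y))) = y
    rw [A.symm_apply_apply, RS_RS]
  obtain ⟨G, χ, hG1, hG2, hG3, hG4, -, hG6⟩ := Pool.Agent.Y248.SH.germ n q
    (hqL.eventually.mono fun y hy => hy.contDiffAt) hq0 hqd ε hε
  refine ⟨S, fun y => e (Φ₁ (e.symm (G y))), hS,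
    IsDf.comp heD (IsDf.comp h1 (IsDf.comp hesD ⟨hG1, hG2⟩)), ?_, fun y hy => ?_⟩
  · have h4 : Tendsto (fun y => e.symm (q y)) (𝓝 0) (𝓝 0) := by
      have h5 : ContinuousAt (fun y => e.symm (q y)) 0 :=
        e.symm.continuous.continuousAt.comp hqL.continuousAt
      have h6 := h5.tendsto
      simp only [hq0, map_zero] at h6
      exact h6
    filter_upwards [hG3, h4.eventually h2] with y h5 h6
    rw [h5, h6, hes, map_smul, he, smul_smul, mul_inv_cancel₀ hε.ne', one_smul, T_mul, hM]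
    show A (T n (RS S) (T n (RS S) (A.symm (p (T n (RS S) y))))) = _
    rw [RS_RS, A.apply_symm_apply]
  · have h7 : G y = y := by
      rw [hG6, hG4 y hy, zero_smul, add_zero]
    show e (Φ₁ (e.symm (G y))) = y
    rw [h7, h3, e.apply_symm_apply]
    rw [hes, norm_smul, Real.norm_of_nonneg (inv_pos.2 hε).le, ← div_eq_inv_mul, one_le_div hε]
    exact hy

end Pool.Agent.H827.HS
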