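import Pool.Agent.H827.HS.Drill

/-!
# A Moebius map from the annulus to Euclidean space
-/

set_option autoImplicit false
set_option linter.unusedSectionVars false

open Set Filter Topology Metric Function
open scoped Manifold ContDiff NNReal

noncomputable section

namespace Pool.Agent.H827.HS

open Pool.Agent.Y522 Pool.Agent.X175.SH Pool.Agent.N550.KH Pool.Agent.H829.AZ

variable {n : ℕ}

/-- inversion -/
def iv0 (y : E n) : E n := (‖y‖ ^ 2)⁻¹ • y

theorem iv0_ne {y : E n} (hy : y ≠ 0) : iv0 y ≠ 0 := by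
  have := norm_pos_iff.2 hy
  exact smul_ne_zero (by positivity) hy

theorem norm_iv0 (y : E n) : ‖iv0 y‖ = ‖y‖⁻¹ := by
  by_cases hy : y = 0
  · subst hy
    simp [iv0]
  · have := norm_pos_iff.2 hy
    rw [iv0, norm_smul, Real.norm_of_nonneg (by positivity)]
    field_simp

theorem iv0_iv0 (y : E n) : iv0 (iv0 y) = y := by
  by_cases hy : y = 0
  · subst hy
    simp [iv0]
  · have := norm_pos_iff.2 hy
    rw [iv0, norm_iv0, iv0, smul_smul]
    have h1 : (‖y‖⁻¹ ^ 2)⁻¹ * (‖y‖ ^ 2)⁻¹ = 1 := by field_simp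
    rw [h1, one_smul]

theorem iv0_LD {y : E n} (hy : y ≠ 0) : LD n (iv0 : E n → E n) y := by
  have hs : ContMDiffOn (𝓡 n) (𝓡 n) ∞ (iv0 : E n → E n) {0}ᶜ := by
    intro z hz
    have hz' : z ≠ 0 := hz
    have h1 : ContDiffAt ℝ ∞ (iv0 : E n → E n) z := by
      have h2 : ContDiffAt ℝ ∞ (fun z : E n => ‖z‖ ^ 2) z := (contDiff_norm_sq ℝ).contDiffAt
      have h3 := norm_pos_iff.2 hz'
      exact (h2.inv (by positivity)).smul contDiffAt_id
    exact h1.contMDiffAt.contMDiffWithinAt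
  exact ⟨{ toFun := iv0
           invFun := iv0
           source := {0}ᶜ
           target := {0}ᶜ
           map_source' := fun z hz => iv0_ne hz
           map_target' := fun z hz => iv0_ne hz
           left_inv' := fun z _ => iv0_iv0 z
           right_inv' := fun z _ => iv0_iv0 z
           open_source := isOpen_compl_singleton
           open_target := isOpen_compl_singleton
           contMDiffOn_toFun := hs
           contMDiffOn_invFun := hs }, hy, fun _ _ => rfl⟩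

variable (j : Fin n)

/-- the unit vector -/
def qq : E n := EuclideanSpace.single j (1 : ℝ)

theorem norm_qq : ‖qq j‖ = 1 := by simp [qq]

theorem inner_qq (w : E n) : inner ℝ w (qq j) = w j := by
  rw [real_inner_comm, qq, EuclideanSpace.inner_single_left]
  simp

/-- the Moebius map -/
def th (w : E n) : E n := iv0 (w - qq j) + (1 / 2 : ℝ) • qq j

/-- its inverse -/
def thi (x : E n) : E n := iv0 (x - (1 / 2 : ℝ) • qq j) + qq j

theorem thi_th (w : E n) : thi j (th j w) = w := by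
  unfold thi th
  rw [add_sub_cancel_right, iv0_iv0, sub_add_cancel]

theorem th_thi (x : E n) : th j (thi j x) = x := by
  unfold thi th
  rw [add_sub_cancel_right, iv0_iv0, sub_add_cancel]

theorem th_LD {w : E n} (hw : w ≠ qq j) : LD n (th j) w := by
  have h1 : LD n (fun z : E n => iv0 (z + -qq j)) w :=
    LD.comp_fun (g := iv0) (f := fun z : E n => z + -qq j)
      (iv0_LD (by rw [← sub_eq_add_neg]; exact sub_ne_zero.2 hw)) (LD_add_const _ _)
  have h2 : LD n (fun z : E n => iv0 (z + -qq j) + (1 / 2 : ℝ) • qq j) w :=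
    LD.comp_fun (g := fun y : E n => y + (1 / 2 : ℝ) • qq j) (f := fun z : E n => iv0 (z + -qq j))
      (LD_add_const _ _) h1
  exact h2.congr (Eventually.of_forall fun z => by
    show iv0 (z - qq j) + (1 / 2 : ℝ) • qq j = iv0 (z + -qq j) + (1 / 2 : ℝ) • qq j
    rw [sub_eq_add_neg])

theorem thi_LD {x : E n} (hx : x ≠ (1 / 2 : ℝ) • qq j) : LD n (thi j) x := by
  have h1 : LD n (fun z : E n => iv0 (z + -((1 / 2 : ℝ) • qq j))) x :=
    LD.comp_fun (g := iv0) (f := fun z : E n => z + -((1 / 2 : ℝ) • qq j))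
      (iv0_LD (by rw [← sub_eq_add_neg]; exact sub_ne_zero.2 hx)) (LD_add_const _ _)
  have h2 : LD n (fun z : E n => iv0 (z + -((1 / 2 : ℝ) • qq j)) + qq j) x :=
    LD.comp_fun (g := fun y : E n => y + qq j)
      (f := fun z : E n => iv0 (z + -((1 / 2 : ℝ) • qq j))) (LD_add_const _ _) h1
  exact h2.congr (Eventually.of_forall fun z => by
    show iv0 (z - (1 / 2 : ℝ) • qq j) + qq j = iv0 (z + -((1 / 2 : ℝ) • qq j)) + qq j
    rw [sub_eq_add_neg])

theorem thi_ne {x : E n} (hx : x ≠ (1 / 2 : ℝ) • qq j) : thi j x ≠ qq j := by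
  unfold thi
  intro h
  have h1 : iv0 (x - (1 / 2 : ℝ) • qq j) = 0 := by
    have := congrArg (fun z => z - qq j) h
    simpa using this
  exact iv0_ne (sub_ne_zero.2 hx) h1

theorem norm_sub_qq (w : E n) : ‖w - qq j‖ ^ 2 = ‖w‖ ^ 2 - 2 * w j + 1 := by
  rw [norm_sub_sq_real, inner_qq, norm_qq]
  ring

theorem th_coord (w : E n) (hw : w ≠ qq j) :
    (th j w) j = (‖w‖ ^ 2 - 1) / (2 * ‖w - qq j‖ ^ 2) := by
  have h0 : 0 < ‖w - qq j‖ := norm_pos_iff.2 (sub_ne_zero.2 hw)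
  have h1 := norm_sub_qq j w
  have h2 : (th j w) j = (‖w - qq j‖ ^ 2)⁻¹ * (w j - 1) + 1 / 2 := by
    unfold th iv0
    simp [qq]
  rw [h2]
  field_simp
  rw [h1]
  ring

/-- reflection of vectors -/
theorem RS_single (w : E n) : T n (RS {j}) w = w - (2 * w j) • qq j := by
  ext i
  rw [RS_apply]
  by_cases h : i = j
  · subst h
    simp [qq]
    ring
  · simp [qq, h]

theorem th_inv {w : E n} (hw0 : w ≠ 0) (hw : w ≠ qq j) :
    th j (iv0 w) = T n (RS {j}) (th j w) := by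
  have h0 : 0 < ‖w - qq j‖ := norm_pos_iff.2 (sub_ne_zero.2 hw)
  have h1 := norm_sub_qq j w
  have hw1 : 0 < ‖w‖ := norm_pos_iff.2 hw0
  have h2 : ‖iv0 w - qq j‖ ^ 2 = ‖w - qq j‖ ^ 2 / ‖w‖ ^ 2 := by
    rw [norm_sub_qq, norm_iv0, h1]
    have h3 : (iv0 w) j = (‖w‖ ^ 2)⁻¹ * w j := by
      unfold iv0
      simp
    rw [h3]
    field_simp
    ring
  rw [RS_single, th_coord j w hw]
  show (‖iv0 w - qq j‖ ^ 2)⁻¹ • (iv0 w - qq j) + (1 / 2 : ℝ) • qq j =
    (‖w - qq j‖ ^ 2)⁻¹ • (w - qq j) + (1 / 2 : ℝ) • qq j -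
      (2 * ((‖w‖ ^ 2 - 1) / (2 * ‖w - qq j‖ ^ 2))) • qq j
  rw [h2]
  have h4 : (‖w - qq j‖ ^ 2 / ‖w‖ ^ 2)⁻¹ • (iv0 w - qq j) =
      (‖w - qq j‖ ^ 2)⁻¹ • (w - (‖w‖ ^ 2) • qq j) := by
    rw [iv0, inv_div, smul_sub, smul_sub, smul_smul, smul_smul]
    congr 2
    · field_simp
    · field_simp
  rw [h4]
  have h5 : 2 * ((‖w‖ ^ 2 - 1) / (2 * ‖w - qq j‖ ^ 2)) =
      (‖w - qq j‖ ^ 2)⁻¹ * (‖w‖ ^ 2 - 1) := by
    field_simp
  rw [h5]
  module

theorem RS_qq {i : Fin n} (hij : i ≠ j) : T n (RS {i}) (qq j) = qq j := by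
  rw [RS_single]
  have : (qq j) i = 0 := by simp [qq, hij]
  rw [this]
  simp

theorem RS_iv0 (S : Finset (Fin n)) (y : E n) : T n (RS S) (iv0 y) = iv0 (T n (RS S) y) := by
  unfold iv0
  rw [map_smul, RS_norm]

theorem RS_th {S : Finset (Fin n)} (hS : T n (RS S) (qq j) = qq j) (w : E n) :
    T n (RS S) (th j w) = th j (T n (RS S) w) := by
  unfold th
  rw [map_add, map_smul, hS, RS_iv0, map_sub, hS]

theorem RS_thi {S : Finset (Fin n)} (hS : T n (RS S) (qq j) = qq j) (w : E n) :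
    T n (RS S) (thi j w) = thi j (T n (RS S) w) := by
  unfold thi
  rw [map_add, RS_iv0, map_sub, map_smul, hS]

theorem RS_comm (S S' : Finset (Fin n)) (y : E n) :
    T n (RS S) (T n (RS S') y) = T n (RS S') (T n (RS S) y) := by
  ext i
  rw [RS_apply, RS_apply, RS_apply, RS_apply]
  split_ifs <;> rfl

theorem thi_tendsto : Tendsto (thi j) (cocompact (E n)) (𝓝 (qq j)) := by
  rw [tendsto_iff_norm_sub_tendsto_zero]
  have h1 : (fun x : E n => ‖thi j x - qq j‖) = fun x => ‖x - (1 / 2 : ℝ) • qq j‖⁻¹ := by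
    funext x
    unfold thi
    rw [add_sub_cancel_right, norm_iv0]
  rw [h1]
  have h2 : Tendsto (fun x : E n => ‖x - (1 / 2 : ℝ) • qq j‖) (cocompact (E n)) atTop := by
    refine tendsto_atTop_mono (f := fun x : E n => ‖x‖ - 1) (fun x => ?_)
      (tendsto_atTop_add_const_right _ (-1) (tendsto_norm_cocompact_atTop))
    have h4 : ‖x‖ ≤ ‖x - (1 / 2 : ℝ) • qq j‖ + ‖(1 / 2 : ℝ) • qq j‖ := by
      have := norm_add_le (x - (1 / 2 : ℝ) • qq j) ((1 / 2 : ℝ) • qq j)
      rwa [sub_add_cancel] at this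
    rw [norm_smul, norm_qq, Real.norm_of_nonneg (by norm_num : (0 : ℝ) ≤ 1 / 2)] at h4
    linarith
  exact tendsto_inv_atTop_zero.comp h2

end Pool.Agent.H827.HS
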