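import Pool.Agent.H827.HS.Sep

/-!
# Removing the cuts in open manifolds
-/

set_option autoImplicit false
set_option linter.unusedSectionVars false

open Set Filter Topology Metric Function MeasureTheory
open scoped Manifold ContDiff NNReal

noncomputable section

namespace Pool.Agent.H827.HS

open Pool.Agent.Y522 Pool.Agent.X175.SH Pool.Agent.N550.KH Pool.Agent.H829.AZ Pool.Agent.H827.LV

section nc

variable {m : ℕ} {X : Type} [TopologicalSpace X] [T2Space X] [ChartedSpace (E (m + 1)) X]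
  [IsManifold (𝓡 (m + 1)) ∞ X]

/-- **Gluing two parts of a compact set along a sphere.** -/
theorem glueK [ConnectedSpace X] {φ : X → ℝ} (hφ : SphereZero m φ) {R : Set X}
    (hRc : IsCompact R) (hSR : ∀ x, φ x = 0 → x ∈ R) (hne : R ≠ univ)
    (hneg : Emb (m + 1) (R ∩ {x | φ x ≤ 0})) (hpos : Emb (m + 1) (R ∩ {x | 0 ≤ φ x})) :
    Emb (m + 1) R := by
  have hR : IsClosed R := hRc.isClosed
  obtain ⟨U₁, k₁, hU₁, hK₁, hi₁, hl₁⟩ := hneg
  obtain ⟨U₂, k₂, hU₂, hK₂, hi₂, hl₂⟩ := hpos
  have hφc : Continuous φ := hφ.smooth.continuous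
  set V : Set X := (U₁ ∪ {x | 0 < φ x}) ∩ (U₂ ∪ {x | φ x < 0}) with hV
  have hVo : IsOpen V := (hU₁.union (isOpen_lt continuous_const hφc)).inter
    (hU₂.union (isOpen_lt hφc continuous_const))
  have hRV : R ⊆ V := by
    intro x hx
    constructor
    · by_cases h : φ x ≤ 0
      · exact Or.inl (hK₁ ⟨hx, h⟩)
      · exact Or.inr (not_le.1 h)
    · by_cases h : 0 ≤ φ x
      · exact Or.inl (hK₂ ⟨hx, h⟩)
      · exact Or.inr (not_le.1 h)
  have hn : ∀ K : Set X, IsCompact K → K ⊆ V → (∀ x ∈ K, φ x ≤ 0) → Emb (m + 1) K := by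
    intro K _ hKV hK0
    refine ⟨U₁, k₁, hU₁, fun x hx => ?_, hi₁, hl₁⟩
    rcases (hKV hx).1 with h | h
    · exact h
    · exact absurd (hK0 x hx) (not_le.2 h)
  have hp : ∀ K : Set X, IsCompact K → K ⊆ V → (∀ x ∈ K, 0 ≤ φ x) → Emb (m + 1) K := by
    intro K _ hKV hK0
    refine ⟨U₂, k₂, hU₂, fun x hx => ?_, hi₂, hl₂⟩
    rcases (hKV hx).2 with h | h
    · exact h
    · exact absurd (hK0 x hx) (not_le.2 h)
  obtain ⟨s₀, hs₀⟩ := hφ.nonempty
  have hs₀V : s₀ ∈ V := hRV (hSR _ hs₀)
  obtain ⟨q, hq, hqR⟩ : ∃ q ∈ connectedComponentIn V s₀, q ∉ R := by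
    by_contra hcon
    push Not at hcon
    have : LocallyConnectedSpace X := ChartedSpace.locallyConnectedSpace (E (m + 1)) X
    have h1 : IsOpen (connectedComponentIn V s₀) := hVo.connectedComponentIn
    have h2 : IsClosed (connectedComponentIn V s₀) := by
      rw [← closure_subset_iff_isClosed]
      have h3 : closure (connectedComponentIn V s₀) ⊆ V :=
        (closure_minimal hcon hR).trans hRV
      have h4 : IsPreconnected (closure (connectedComponentIn V s₀)) :=
        isPreconnected_connectedComponentIn.closure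
      exact h4.subset_connectedComponentIn (subset_closure (mem_connectedComponentIn hs₀V)) h3
    have h5 := IsClopen.eq_univ ⟨h2, h1⟩ ⟨s₀, mem_connectedComponentIn hs₀V⟩
    exact hne (eq_univ_of_univ_subset (h5 ▸ hcon))
  have hqV : q ∈ V := connectedComponentIn_subset V s₀ hq
  have hs₀q : s₀ ∈ connectedComponentIn V q := by
    rw [← connectedComponentIn_eq hq]
    exact mem_connectedComponentIn hs₀V
  obtain ⟨κ, hκ, hκq, hκo⟩ := move_in (n := m + 1) hVo hqV hs₀q
  have hκV : ∀ x ∈ V, κ x ∈ V := by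
    intro x hx
    by_contra hcon
    have h1 := hκ.1.1 (hκo _ hcon)
    rw [h1] at hcon
    exact hcon hx
  have hκc : Continuous κ := continuous_iff_continuousAt.2 fun x => (hκ.2 x).continuousAt
  refine emb_of_image hκ (glue_punct hφ (fun x hx => hRV (hSR x hx)) hn hp hs₀
    (hRc.image hκc) ?_ ?_)
  · rintro _ ⟨x, hx, rfl⟩
    exact hκV x (hRV hx)
  · rintro ⟨x, hx, hxs⟩
    rw [← hκq] at hxs
    exact hqR (hκ.1.1 hxs ▸ hx)

/-- **Removing the cuts one by one in an open manifold.** -/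
theorem uncutK [ConnectedSpace X] [NoncompactSpace X] {F : X → ℝ} {ι : Type} [Finite ι]
    (φ : ι → X → ℝ) (hφ : ∀ i, Cut m F (φ i)) (hcpt : ∀ i, IsCompact {x | φ i x = 0})
    (base : ∀ ε : ι → ℝ, (∀ i, ε i = 1 ∨ ε i = -1) → ∀ K : Set X, IsCompact K →
      (∀ x ∈ K, ∀ i, 0 ≤ ε i * φ i x) → Emb (m + 1) K) :
    ∀ K : Set X, IsCompact K → Emb (m + 1) K := by
  classical
  have := Fintype.ofFinite ι
  have hc : ∀ i, Continuous (φ i) := fun i => (hφ i).smooth.continuous
  have hP : ∀ D : Finset ι, ∀ ε : ι → ℝ, (∀ i, ε i = 1 ∨ ε i = -1) →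
      ∀ K : Set X, IsCompact K → K ⊆ reg φ (Finset.univ \ D) ε → Emb (m + 1) K := by
    intro D
    induction D using Finset.induction_on with
    | empty =>
      intro ε hε K hK hKr
      exact base ε hε K hK fun x hx i => hKr hx i (by simp)
    | insert a D ha ih =>
      intro ε hε K hK hKr
      set J := Finset.univ \ insert a D with hJd
      have hins : Finset.univ \ D = insert a J := by
        ext i
        simp only [hJd, Finset.mem_sdiff, Finset.mem_univ, true_and, Finset.mem_insert, not_or]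
        constructor
        · intro h
          by_cases h' : i = a
          · exact Or.inl h'
          · exact Or.inr ⟨h', h⟩
        · rintro (rfl | h)
          · exact ha
          · exact h.2
      rw [hins] at ih
      have hupd : ∀ s : ℝ, (s = 1 ∨ s = -1) → ∀ L : Set X, IsCompact L → L ⊆ reg φ J ε →
          Emb (m + 1) (L ∩ {x | 0 ≤ s * φ a x}) := by
        intro s hs L hL hLr
        refine ih (update ε a s) (fun i => by
          by_cases h : i = a
          · subst h
            rw [update_self]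
            exact hs
          · rw [update_of_ne h]
            exact hε i) _ (hL.inter_right (isClosed_le continuous_const
              (continuous_const.mul (hc a)))) ?_
        rintro x ⟨hx1, hx2⟩ i hi
        by_cases h : i = a
        · subst h
          rw [update_self]
          exact hx2
        · rw [update_of_ne h]
          exact hLr hx1 i ((Finset.mem_insert.1 hi).resolve_left h)
      have hpos : ∀ L : Set X, IsCompact L → L ⊆ reg φ J ε →
          Emb (m + 1) (L ∩ {x | 0 ≤ φ a x}) := by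
        intro L hL hLr
        refine Emb.mono (hupd 1 (Or.inl rfl) L hL hLr) ?_
        rintro x ⟨hx1, hx2⟩
        exact ⟨hx1, by show 0 ≤ 1 * φ a x; rw [one_mul]; exact hx2⟩
      have hneg : ∀ L : Set X, IsCompact L → L ⊆ reg φ J ε →
          Emb (m + 1) (L ∩ {x | φ a x ≤ 0}) := by
        intro L hL hLr
        refine Emb.mono (hupd (-1) (Or.inr rfl) L hL hLr) ?_
        rintro x ⟨hx1, hx2⟩
        refine ⟨hx1, ?_⟩
        show 0 ≤ -1 * φ a x
        have : φ a x ≤ 0 := hx2
        linarith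
      by_cases hS : ∀ x, φ a x = 0 → x ∈ reg φ J ε
      · have hL : IsCompact (K ∪ {x | φ a x = 0}) := hK.union (hcpt a)
        have hLr : K ∪ {x | φ a x = 0} ⊆ reg φ J ε := union_subset hKr hS
        refine Emb.mono (glueK (hφ a).toSphereZero hL (fun x hx => Or.inr hx) ?_ (hneg _ hL hLr)
          (hpos _ hL hLr)) subset_union_left
        intro h
        rw [h] at hL
        exact noncompact_univ X hL
      · push Not at hS
        obtain ⟨x, hx, hxR⟩ := hS
        have h1 : ∃ i ∈ J, ε i * φ i x < 0 := by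
          by_contra hcon
          push Not at hcon
          exact hxR hcon
        obtain ⟨i, hi, hix⟩ := h1
        have h2 := sign_const (hφ a) (hφ i) (hε i) hx hix
        have h3 : K = (K ∩ {x | 0 ≤ φ a x}) ∪ (K ∩ {x | φ a x ≤ 0}) := by
          rw [← inter_union_distrib_left]
          ext y
          constructor
          · intro hy
            exact ⟨hy, le_total (0 : ℝ) (φ a y)⟩
          · exact fun hy => hy.1
        rw [h3]
        refine emb_union (hK.inter_right (isClosed_le continuous_const (hc a)))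
          (hK.inter_right (isClosed_le (hc a) continuous_const)) ?_ (hpos K hK hKr) (hneg K hK hKr)
        rw [Set.disjoint_left]
        rintro y ⟨hy1, hy2⟩ ⟨-, hy3⟩
        have h4 := h2 y (le_antisymm hy3 hy2)
        exact absurd (hKr hy1 i hi) (not_le.2 h4)
  intro K hK
  refine hP Finset.univ (fun _ => 1) (fun _ => Or.inl rfl) K hK ?_
  intro x _ i hi
  simp at hi

/-- neighbourhoods in open subsets -/
theorem emb_val (V : TopologicalSpace.Opens X) (x₀ : V) {K : Set V} (h : Emb (m + 1) K) :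
    Emb (m + 1) ((Subtype.val : V → X) '' K) := by
  obtain ⟨U, k, hU, hKU, hk, hkl⟩ := h
  refine ⟨Subtype.val '' U, fun x => k (iv V x₀ x), V.isOpen.isOpenMap_subtype_val U hU,
    image_mono hKU, ?_, ?_⟩
  · rintro _ ⟨x, hx, rfl⟩ _ ⟨y, hy, rfl⟩ hxy
    simp only [iv_val] at hxy
    rw [hk hx hy hxy]
  · rintro _ ⟨x, hx, rfl⟩
    refine LD.comp_fun (g := k) (f := iv V x₀) ?_ ?_
    · rw [iv_val]
      exact hkl x hx
    · exact LD.inverse (k := (Subtype.val : V → X)) (x := x) isOpen_univ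
        (fun z _ => LD_val V z) (fun z _ => iv_val V x₀ z) (mem_univ _)

/-- collars of the components of spherical levels -/
theorem exists_levcol [SigmaCompactSpace X] {F : X → ℝ} {x : X} (h : SphLev m F (F x))
    {O : Set X} (hO : IsOpen O) (hxO : connectedComponentIn (F ⁻¹' {F x}) x ⊆ O) :
    ∃ ε : E (m + 1) → X, LevCol m F (F x) ε ∧
      ε '' sphere 0 1 = connectedComponentIn (F ⁻¹' {F x}) x ∧ ∀ u, u ≠ 0 → ε u ∈ O := by
  obtain ⟨-, -, σ, h1, h2, h3, h4⟩ := h x rfl
  have hσ : ∀ p, σ p ∈ connectedComponentIn (F ⁻¹' {F x}) x := fun p => by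
    rw [← h4]
    exact mem_range_self p
  have hσF : ∀ p, F (σ p) = F x := fun p =>
    connectedComponentIn_subset (F ⁻¹' {F x}) x (hσ p)
  obtain ⟨ε, e1, e2, e3, e4, e5, e6⟩ := exists_collar h1 h2 h3 hσF (fun p => (h _ (hσF p)).1)
    (fun p => (h _ (hσF p)).2.1) hO fun p => hxO (hσ p)
  have hmem : ∀ u, ‖u‖ = 1 → ∃ p, ε u = σ p := by
    intro u hu
    have : ε u ∈ range σ := by
      rw [← e2]
      exact ⟨u, mem_sphere_zero_iff_norm.2 hu, rfl⟩
    obtain ⟨p, hp⟩ := this
    exact ⟨p, hp.symm⟩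
  refine ⟨ε, ⟨e1, e4, e5, e6, fun u hu => ?_, fun u hu => ?_, fun s₀ hs₀ => ?_⟩, by rw [e2, h4], e3⟩
  · obtain ⟨p, hp⟩ := hmem u hu
    rw [hp, hσF]
  · obtain ⟨p, hp⟩ := hmem u hu
    rw [hp]
    exact (h _ (hσF p)).2.1
  · obtain ⟨f, f1, f2, f3, f4⟩ := par_of_sphere σ h1 h2 h3 s₀ (by rw [← e2]; exact hs₀)
    exact ⟨f, f1, f2, f3, by rw [f4, e2]⟩

/-- two circle maps are dependent up to maps which lift -/
def RankOne (M : Type) [TopologicalSpace M] : Prop :=
  ∀ θ₁ θ₂ : M → AddCircle (1 : ℝ), Continuous θ₁ → Continuous θ₂ →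
    ∃ a b : ℤ, (a ≠ 0 ∨ b ≠ 0) ∧ ∃ r : M → ℝ, Continuous r ∧
      ∀ x, ((r x : ℝ) : AddCircle (1 : ℝ)) = a • θ₁ x + b • θ₂ x

/-- **Two spheres separate.** -/
theorem two_spheres (hr : RankOne X) {ε₀ ε₁ : E (m + 1) → X} (h0 : Nk ε₀) (h1 : Nk ε₁)
    (hd : Disjoint (ε₀ '' sphere 0 1) (ε₁ '' sphere 0 1))
    (hp : IsPreconnected ((ε₀ '' sphere 0 1) ∪ (ε₁ '' sphere 0 1))ᶜ) : False := by
  classical
  obtain ⟨t₀, ht₀⟩ := exists_dual h0
  obtain ⟨t₁, ht₁⟩ := exists_dual h1
  obtain ⟨a, b, hab, r, hrc, hr⟩ := hr _ _ ht₀.circ ht₁.circ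
  have hc0 := sphere_closed h0
  have hc1 := sphere_closed h1
  have hconst := int_const hp (d := fun x => a * t₀ x + b * t₁ x - r x) (by
    refine ContinuousOn.sub (ContinuousOn.add (continuousOn_const.mul ?_)
      (continuousOn_const.mul ?_)) hrc.continuousOn
    · exact ht₀.cont.mono (compl_subset_compl.2 subset_union_left)
    · exact ht₁.cont.mono (compl_subset_compl.2 subset_union_right)) (by
    intro x _
    rw [AddCircle.coe_sub, hr, AddCircle.coe_add, ← AddCircle.coe_zsmul, ← AddCircle.coe_zsmul,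
      zsmul_eq_mul, zsmul_eq_mul, sub_self])
  obtain ⟨e, he⟩ : ∃ e : ℝ, ∀ x, x ∉ ε₀ '' sphere 0 1 → x ∉ ε₁ '' sphere 0 1 →
      a * t₀ x + b * t₁ x - r x = e := by
    by_cases hne : ∃ y, y ∈ ((ε₀ '' sphere 0 1) ∪ (ε₁ '' sphere 0 1))ᶜ
    · obtain ⟨y, hy⟩ := hne
      refine ⟨a * t₀ y + b * t₁ y - r y, fun x hx hx' => hconst x ?_ y hy⟩
      exact fun h => h.elim hx hx'
    · push Not at hne
      exact ⟨0, fun x hx hx' => absurd (fun h : x ∈ (ε₀ '' sphere 0 1) ∪ (ε₁ '' sphere 0 1) =>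
        h.elim hx hx') (hne x)⟩
  have hq : qq (0 : Fin (m + 1)) ∈ sphere (0 : E (m + 1)) 1 :=
    mem_sphere_zero_iff_norm.2 (norm_qq 0)
  have ha : (a : ℝ) = 0 := by
    have hx : ε₀ (qq 0) ∉ ε₁ '' sphere 0 1 := fun h => Set.disjoint_left.1 hd ⟨_, hq, rfl⟩ h
    refine ht₀.jump h0 (norm_qq 0) (r := fun x => r x - b * t₁ x) (e := e) ?_ ?_
    · refine hrc.continuousAt.sub (continuousAt_const.mul ?_)
      exact ht₁.cont.continuousAt (hc1.isOpen_compl.mem_nhds hx)
    · filter_upwards [hc1.isOpen_compl.mem_nhds hx] with x h2 h3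
      have := he x h3 h2
      linarith
  have hb : (b : ℝ) = 0 := by
    have hx : ε₁ (qq 0) ∉ ε₀ '' sphere 0 1 := fun h => Set.disjoint_left.1 hd h ⟨_, hq, rfl⟩
    refine ht₁.jump h1 (norm_qq 0) (r := fun x => r x - a * t₀ x) (e := e) ?_ ?_
    · refine hrc.continuousAt.sub (continuousAt_const.mul ?_)
      exact ht₀.cont.continuousAt (hc0.isOpen_compl.mem_nhds hx)
    · filter_upwards [hc0.isOpen_compl.mem_nhds hx] with x h2 h3
      have := he x h2 h3
      linarith
  rcases hab with h | h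
  · exact h (by exact_mod_cast ha)
  · exact h (by exact_mod_cast hb)

end nc

end Pool.Agent.H827.HS
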