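import Pool.Agent.H827.HS.Col

/-!
# The complement of the sphere is an annulus, off one point
-/

set_option autoImplicit false
set_option linter.unusedSectionVars false

open Set Filter Topology Metric Function MeasureTheory
open scoped Manifold ContDiff NNReal

noncomputable section

namespace Pool.Agent.H827.HS

open Pool.Agent.Y522 Pool.Agent.X175.SH Pool.Agent.N550.KH Pool.Agent.H829.AZ

/-- the open annulus -/
def An (n : ℕ) (lam : ℝ) : TopologicalSpace.Opens (E n) :=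
  ⟨{y | lam⁻¹ < ‖y‖ ∧ ‖y‖ < lam}, (isOpen_lt continuous_const continuous_norm).inter
      (isOpen_lt continuous_norm continuous_const)⟩

/-- neighbourhoods of compact subsets of an open subset -/
theorem emb_opens {n : ℕ} {M : Type} [TopologicalSpace M] [T2Space M] [ChartedSpace (E n) M]
    [IsManifold (𝓡 n) ∞ M] (V : TopologicalSpace.Opens M) {K : Set V}
    (h : Emb n ((Subtype.val : V → M) '' K)) : Emb n K := by
  obtain ⟨U, k, hU, hKU, hk, hkl⟩ := h
  refine ⟨Subtype.val ⁻¹' U, fun x => k x.1, hU.preimage continuous_subtype_val,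
    fun x hx => hKU ⟨x, hx, rfl⟩, ?_, fun x hx => ?_⟩
  · intro x hx y hy hxy
    exact Subtype.ext (hk hx hy hxy)
  · exact LD.comp_fun (g := k) (f := (Subtype.val : V → M)) (hkl _ hx) (LD_val V x)

/-- maps into an open subset -/
theorem LD_cod {n : ℕ} {M N : Type} [TopologicalSpace M] [ChartedSpace (E n) M]
    [TopologicalSpace N] [ChartedSpace (E n) N] [IsManifold (𝓡 n) ∞ N] [T2Space N]
    (A : TopologicalSpace.Opens N)
    {g : M → N} {g' : M → A} (hg : ∀ x, (g' x : N) = g x) {x : M} (h : LD n g x) : LD n g' x := by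
  have h1 : LD n (fun y => iv A (g' x) (g y)) x := by
    refine LD.comp_fun (g := iv A (g' x)) (f := g) ?_ h
    rw [← hg]
    exact LD.inverse (k := (Subtype.val : A → N)) (x := g' x) isOpen_univ
      (fun z _ => LD_val A z) (fun z _ => iv_val A (g' x) z) (mem_univ _)
  refine h1.congr (Eventually.of_forall fun y => ?_)
  simp only
  rw [← hg, iv_val]

variable {m : ℕ} {M : Type} [TopologicalSpace M] [T2Space M] [ChartedSpace (E (m + 1)) M]
  [IsManifold (𝓡 (m + 1)) ∞ M]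

/-- **The complement of the sphere.** -/
theorem cut_open [CompactSpace M] {V : TopologicalSpace.Opens M} [ConnectedSpace V]
    {ε : E (m + 1) → M} (hε : Nk ε) (hV : (V : Set M) = (ε '' sphere 0 1)ᶜ) (x₀ : V)
    (hemb : ∀ K : Set M, IsCompact K → K ⊆ V → Emb (m + 1) K) {i j : Fin (m + 1)} (hij : i ≠ j)
    {lam : ℝ} (hlam : 1 < lam) :
    ∃ (S : Finset (Fin (m + 1))) (G : V ≃ₜ An (m + 1) lam) (p : V) (η : ℝ), (S = ∅ ∨ S = {i}) ∧
      0 < η ∧ (∀ x, x ≠ p → LD (m + 1) G x) ∧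
      (∀ x, ContMDiffAt (𝓡 (m + 1)) (𝓡 (m + 1)) ∞ G x) ∧
      (∀ u, 1 < ‖u‖ → ‖u‖ < 1 + η → (G (iv V x₀ (ε u)) : E (m + 1)) = lam⁻¹ • u) ∧
      ∀ u, 1 < ‖u‖ → ‖u‖ < 1 + η →
        (G (iv V x₀ (ε (iv0 (T (m + 1) (RS S) u)))) : E (m + 1)) = lam • iv0 u := by
  have hl0 : 0 < lam := one_pos.trans hlam
  have hli : 0 < lam⁻¹ := inv_pos.2 hl0
  obtain ⟨S, g, η, hS, hη, hb, hgc, hgs, hgi, hgL, hg1, hg2⟩ := collapse hε hV x₀ hij hlam
  let g' : V → An (m + 1) lam := fun x => ⟨g x, hb x⟩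
  have hg'v : ∀ x, (g' x : E (m + 1)) = g x := fun x => rfl
  have hg'c : Continuous g' := hgc.subtype_mk _
  have hg's : Surjective g' := by
    rintro ⟨y, hy⟩
    obtain ⟨x, hx⟩ := hgs y hy.1 hy.2
    exact ⟨x, Subtype.ext hx⟩
  have hproper : IsProperMap g' := by
    rw [isProperMap_iff_isCompact_preimage]
    refine ⟨hg'c, fun K hK => ?_⟩
    rcases K.eq_empty_or_nonempty with rfl | hKn
    · simp
    · have hnc : Continuous fun y : An (m + 1) lam => ‖(y : E (m + 1))‖ :=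
        continuous_norm.comp continuous_subtype_val
      obtain ⟨a, ha, ha'⟩ := hK.exists_isMinOn hKn hnc.continuousOn
      obtain ⟨b, hb, hb'⟩ := hK.exists_isMaxOn hKn hnc.continuousOn
      have ha1 : lam⁻¹ < ‖(a : E (m + 1))‖ := a.2.1
      have hb1 : ‖(b : E (m + 1))‖ < lam := b.2.2
      have hb0 : 0 < ‖(b : E (m + 1))‖ := hli.trans b.2.1
      obtain ⟨δ, hδ0, hδη, hδa, hδb⟩ : ∃ δ : ℝ, 0 < δ ∧ δ ≤ η ∧
          lam⁻¹ * (1 + δ) ≤ ‖(a : E (m + 1))‖ ∧ ‖(b : E (m + 1))‖ * (1 + δ) ≤ lam := by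
        have h1 : 1 < lam * ‖(a : E (m + 1))‖ := by
          rwa [← div_lt_iff₀' hl0, one_div]
        have h2 : 1 < lam / ‖(b : E (m + 1))‖ := (one_lt_div hb0).2 hb1
        refine ⟨min η (min (lam * ‖(a : E (m + 1))‖ - 1) (lam / ‖(b : E (m + 1))‖ - 1)),
          lt_min hη (lt_min (by linarith) (by linarith)), min_le_left _ _, ?_, ?_⟩
        · rw [inv_mul_le_iff₀ hl0]
          have := (min_le_right η (min (lam * ‖(a : E (m + 1))‖ - 1)
            (lam / ‖(b : E (m + 1))‖ - 1))).trans (min_le_left _ _)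
          linarith
        · rw [← le_div_iff₀' hb0]
          have := (min_le_right η (min (lam * ‖(a : E (m + 1))‖ - 1)
            (lam / ‖(b : E (m + 1))‖ - 1))).trans (min_le_right _ _)
          linarith
      have hKc : IsClosed K := hK.isClosed
      have hcl : IsClosed (g' ⁻¹' K) := hKc.preimage hg'c
      have hcc := core_compact hε hV x₀ S hδ0
      refine hcc.of_isClosed_subset hcl ?_
      intro x hx
      have hxK : g' x ∈ K := hx
      have hx1 : ‖(a : E (m + 1))‖ ≤ ‖g x‖ := isMinOn_iff.1 ha' (g' x) hxK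
      have hx2 : ‖g x‖ ≤ ‖(b : E (m + 1))‖ := isMaxOn_iff.1 hb' (g' x) hxK
      constructor
      · rintro ⟨u, ⟨hu1, hu2⟩, hux⟩
        simp only at hux
        rw [← hux, hg1 u hu1 (by linarith), norm_smul, Real.norm_of_nonneg hli.le] at hx1
        have := mul_lt_mul_of_pos_left hu2 hli
        linarith
      · rintro ⟨u, ⟨hu1, hu2⟩, hux⟩
        simp only at hux
        have hu0 : 0 < ‖u‖ := by linarith
        rw [← hux, hg2 u hu1 (by linarith), norm_smul, Real.norm_of_nonneg hl0.le, norm_iv0,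
          ← div_eq_mul_inv, div_le_iff₀ hu0] at hx2
        have := mul_lt_mul_of_pos_left hu2 hb0
        linarith
  -- the cell
  obtain ⟨l₁, hl₁, hl₁'⟩ : ∃ l₁ : ℝ, 1 < l₁ ∧ l₁ < lam := exists_between hlam
  have hl₁0 : 0 < l₁ := by linarith
  obtain ⟨z, hz⟩ : ∃ z : An (m + 1) lam, (z : E (m + 1)) = qq j :=
    ⟨⟨qq j, by
      show lam⁻¹ < ‖qq j‖ ∧ ‖qq j‖ < lam
      rw [norm_qq]
      exact ⟨inv_lt_one_of_one_lt₀ hlam, hlam⟩⟩, rfl⟩
  have hW : {y : An (m + 1) lam | l₁⁻¹ < ‖(y : E (m + 1))‖ ∧ ‖(y : E (m + 1))‖ < l₁} ∈ 𝓝 z := by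
    refine IsOpen.mem_nhds ?_ ?_
    · have hnc : Continuous fun y : An (m + 1) lam => ‖(y : E (m + 1))‖ :=
        continuous_norm.comp continuous_subtype_val
      exact (isOpen_lt continuous_const hnc).inter (isOpen_lt hnc continuous_const)
    · show l₁⁻¹ < ‖(z : E (m + 1))‖ ∧ ‖(z : E (m + 1))‖ < l₁
      rw [hz, norm_qq]
      exact ⟨inv_lt_one_of_one_lt₀ hl₁, hl₁⟩
  obtain ⟨c, hc, hc0, hcW⟩ := exists_cell (n := m + 1) z hW
  have hc00 : c '' {0} = {z} := by rw [image_singleton, hc0]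
  have hnull : μH[1] ({0} : Set (E (m + 1))) = 0 := by
    have : NullSingletonClass (μH[1] : Measure (E (m + 1))) :=
      Measure.nullSingletonClass_hausdorff _ one_pos
    exact (Set.finite_singleton (0 : E (m + 1))).measure_zero _
  have hzg : ∀ x, g' x ≠ z → g x ≠ qq j := by
    intro x hx h
    exact hx (Subtype.ext (h.trans hz.symm))
  have hg'L : ∀ x, g' x ≠ z → LD (m + 1) g' x := fun x hx =>
    LD_cod (An (m + 1) lam) hg'v (hgL x (hzg x hx))
  obtain ⟨G, p, hG1, hG2, hG3⟩ := cell_final g' hproper hg's hc {0} isClosed_singleton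
    (by
      rintro _ rfl
      exact mem_ball_self one_pos)
    (thin_of_null hnull)
    (fun x y hx hxy => hgi x y (hzg x (by rw [hc00] at hx; exact hx)) (congrArg Subtype.val hxy))
    (fun x _ hx => (hg'L x (by rw [hc00] at hx; exact hx)).contMDiffAt)
    (by
      rintro _ rfl
      refine emb_opens V (hemb _ ?_ ?_)
      · exact (hproper.isCompact_preimage isCompact_singleton).image continuous_subtype_val
      · rintro _ ⟨x, -, rfl⟩
        exact x.2)
    (fun x hx => hg'L x fun h => hx ⟨0, mem_ball_self one_pos, by rw [hc0, h]⟩)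
  have hcW' : ∀ x, ¬ (l₁⁻¹ < ‖g x‖ ∧ ‖g x‖ < l₁) → (G x : E (m + 1)) = g x := by
    intro x hx
    rw [hG1 x]
    rintro ⟨y, -, hy⟩
    have h1 := hcW ⟨y, rfl⟩
    rw [hy] at h1
    exact hx h1
  obtain ⟨η', hη', hηη', hη1⟩ : ∃ η' : ℝ, 0 < η' ∧ η' ≤ η ∧ l₁ * (1 + η') ≤ lam := by
    have h2 : 1 < lam / l₁ := (one_lt_div hl₁0).2 hl₁'
    refine ⟨min η (lam / l₁ - 1), lt_min hη (by linarith), min_le_left _ _, ?_⟩
    rw [← le_div_iff₀' hl₁0]
    have := min_le_right η (lam / l₁ - 1)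
    linarith
  refine ⟨S, G, p, η', hS, hη', hG2, hG3, fun u hu1 hu2 => ?_, fun u hu1 hu2 => ?_⟩
  · rw [hcW', hg1 u hu1 (by linarith)]
    rw [hg1 u hu1 (by linarith), norm_smul, Real.norm_of_nonneg hli.le]
    rintro ⟨h1, -⟩
    have h2 : lam⁻¹ * ‖u‖ < l₁⁻¹ := by
      rw [inv_mul_lt_iff₀ hl0, ← div_eq_mul_inv, lt_div_iff₀ hl₁0]
      nlinarith
    linarith
  · rw [hcW', hg2 u hu1 (by linarith)]
    rw [hg2 u hu1 (by linarith), norm_smul, Real.norm_of_nonneg hl0.le, norm_iv0]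
    rintro ⟨-, h1⟩
    have hu0 : 0 < ‖u‖ := by linarith
    rw [← div_eq_mul_inv, div_lt_iff₀ hu0] at h1
    nlinarith

end Pool.Agent.H827.HS
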