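import Pool.Agent.H827.HS.Open

/-!
# The covering by the punctured space
-/

set_option autoImplicit false
set_option linter.unusedSectionVars false

open Set Filter Topology Metric Function MeasureTheory
open scoped Manifold ContDiff NNReal

noncomputable section

namespace Pool.Agent.H827.HS

open Pool.Agent.Y522 Pool.Agent.X175.SH Pool.Agent.N550.KH Pool.Agent.H829.AZ

variable {n : ℕ}

/-- the reflections as isometries -/
def ri (S : Finset (Fin n)) : E n ≃ₗᵢ[ℝ] E n where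
  toFun := T n (RS S)
  map_add' := map_add _
  map_smul' := map_smul _
  invFun := T n (RS S)
  left_inv := RS_RS S
  right_inv := RS_RS S
  norm_map' := RS_norm S

theorem ri_apply (S : Finset (Fin n)) (y : E n) : ri S y = T n (RS S) y := rfl

theorem ri_empty : ri (∅ : Finset (Fin n)) = 1 := by
  ext1 y
  exact RS_empty y

/-- the iterates of `z ↦ 2 ρ z` -/
def dk (ρ : E n ≃ₗᵢ[ℝ] E n) (k : ℤ) (z : E n) : E n := (2 : ℝ) ^ k • (ρ ^ k) z

theorem dk_add (ρ : E n ≃ₗᵢ[ℝ] E n) (k l : ℤ) (z : E n) : dk ρ k (dk ρ l z) = dk ρ (k + l) z := by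
  unfold dk
  rw [map_smul, smul_smul, ← zpow_add₀ (by norm_num : (2 : ℝ) ≠ 0), zpow_add ρ k l]
  rfl

theorem dk_zero (ρ : E n ≃ₗᵢ[ℝ] E n) (z : E n) : dk ρ 0 z = z := by
  unfold dk
  rw [zpow_zero, zpow_zero, one_smul]
  rfl

theorem dk_neg (ρ : E n ≃ₗᵢ[ℝ] E n) (k : ℤ) (z : E n) : dk ρ (-k) (dk ρ k z) = z := by
  rw [dk_add, neg_add_cancel, dk_zero]

theorem dk_neg' (ρ : E n ≃ₗᵢ[ℝ] E n) (k : ℤ) (z : E n) : dk ρ k (dk ρ (-k) z) = z := by
  rw [dk_add, add_neg_cancel, dk_zero]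

theorem dk_norm (ρ : E n ≃ₗᵢ[ℝ] E n) (k : ℤ) (z : E n) : ‖dk ρ k z‖ = (2 : ℝ) ^ k * ‖z‖ := by
  unfold dk
  rw [norm_smul, Real.norm_of_nonneg (by positivity), LinearIsometryEquiv.norm_map]

theorem dk_ne (ρ : E n ≃ₗᵢ[ℝ] E n) (k : ℤ) {z : E n} (hz : z ≠ 0) : dk ρ k z ≠ 0 := by
  rw [← norm_pos_iff, dk_norm]
  have := norm_pos_iff.2 hz
  positivity

theorem dk_LD (ρ : E n ≃ₗᵢ[ℝ] E n) (k : ℤ) (z : E n) : LD n (dk ρ k) z := by
  let L : E n ≃L[ℝ] E n := ContinuousLinearEquiv.smulLeft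
    (Units.mk0 ((2 : ℝ) ^ k) (by positivity))
  exact LD.comp_fun (g := fun y => L y) (f := fun z => (ρ ^ k : E n ≃ₗᵢ[ℝ] E n) z)
    (LD_linear L _) (LD_linear (ρ ^ k : E n ≃ₗᵢ[ℝ] E n).toContinuousLinearEquiv z)

theorem dk_one (ρ : E n ≃ₗᵢ[ℝ] E n) (z : E n) : dk ρ 1 z = (2 : ℝ) • ρ z := by
  unfold dk
  rw [zpow_one, zpow_one]

/-- `M` is, off one point, the quotient of the punctured space by `z ↦ 2 ρ z` -/
structure Std (ρ : E n ≃ₗᵢ[ℝ] E n) {M : Type} [TopologicalSpace M] [ChartedSpace (E n) M]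
    (π : E n → M) (p : M) : Prop where
  surj : ∀ x, ∃ z, z ≠ 0 ∧ π z = x
  fib : ∀ z w, z ≠ 0 → w ≠ 0 → (π z = π w ↔ ∃ k : ℤ, w = dk ρ k z)
  cont : ∀ z, z ≠ 0 → ContinuousAt π z
  ld : ∀ z, z ≠ 0 → π z ≠ p → LD n π z

section build

variable {m : ℕ} {M : Type} [TopologicalSpace M] [T2Space M] [ChartedSpace (E (m + 1)) M]
  [IsManifold (𝓡 (m + 1)) ∞ M]

/-- **The covering.** -/
theorem exists_pi [CompactSpace M] {V : TopologicalSpace.Opens M} [ConnectedSpace V]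
    {ε : E (m + 1) → M} (hε : Nk ε) (hV : (V : Set M) = (ε '' sphere 0 1)ᶜ) (x₀ : V)
    (hemb : ∀ K : Set M, IsCompact K → K ⊆ V → Emb (m + 1) K) {i j : Fin (m + 1)} (hij : i ≠ j) :
    ∃ (S : Finset (Fin (m + 1))) (π : E (m + 1) → M) (p : M), (S = ∅ ∨ S = {i}) ∧
      Std (ri S) π p := by
  classical
  obtain ⟨lam, hlam, hlam2⟩ : ∃ lam : ℝ, 1 < lam ∧ lam * lam = 2 :=
    ⟨Real.sqrt 2, by
      rw [show (1 : ℝ) = Real.sqrt 1 by simp]
      exact Real.sqrt_lt_sqrt (by norm_num) (by norm_num), Real.mul_self_sqrt (by norm_num)⟩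
  have hl0 : 0 < lam := one_pos.trans hlam
  have hli : 0 < lam⁻¹ := inv_pos.2 hl0
  have hll : lam⁻¹ * lam = 1 := inv_mul_cancel₀ hl0.ne'
  have h2li : 2 * lam⁻¹ = lam := by
    rw [← hlam2]
    field_simp
  obtain ⟨S, G, p, η₀, hS, hη₀, hG1, -, hG3', hG4'⟩ := cut_open hε hV x₀ hemb hij hlam
  obtain ⟨η, hη, hηη₀, hη2⟩ : ∃ η : ℝ, 0 < η ∧ η ≤ η₀ ∧ η ≤ 1 / 2 :=
    ⟨min η₀ (1 / 2), lt_min hη₀ (by norm_num), min_le_left _ _, min_le_right _ _⟩
  have hG3 : ∀ u, 1 < ‖u‖ → ‖u‖ < 1 + η → (G (iv V x₀ (ε u)) : E (m + 1)) = lam⁻¹ • u :=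
    fun u h1 h2 => hG3' u h1 (by linarith)
  have hG4 : ∀ u, 1 < ‖u‖ → ‖u‖ < 1 + η →
      (G (iv V x₀ (ε (iv0 (T (m + 1) (RS S) u)))) : E (m + 1)) = lam • iv0 u :=
    fun u h1 h2 => hG4' u h1 (by linarith)
  obtain ⟨ρ, hρ⟩ : ∃ ρ : E (m + 1) ≃ₗᵢ[ℝ] E (m + 1), ρ = ri S := ⟨_, rfl⟩
  have hρa : ∀ y, ρ y = T (m + 1) (RS S) y := fun y => by rw [hρ]; rfl
  obtain ⟨z₁, hz₁⟩ : ∃ z₁ : An (m + 1) lam, z₁ = G x₀ := ⟨_, rfl⟩
  -- the inverse of `G`
  let Gi : E (m + 1) → M := fun y => (G.symm (iv (An (m + 1) lam) z₁ y) : V)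
  have hGiV : ∀ y, Gi y ∈ V := fun y => (G.symm (iv (An (m + 1) lam) z₁ y)).2
  have hGi : ∀ x : V, Gi (G x : E (m + 1)) = x := fun x => by
    show ((G.symm (iv (An (m + 1) lam) z₁ (G x : E (m + 1))) : V) : M) = x
    rw [iv_val, G.symm_apply_apply]
  have hAn : ∀ y : E (m + 1), lam⁻¹ < ‖y‖ → ‖y‖ < lam →
      ((iv (An (m + 1) lam) z₁ y : An (m + 1) lam) : E (m + 1)) = y := fun y h1 h2 =>
    congrArg Subtype.val (iv_val (An (m + 1) lam) z₁ ⟨y, h1, h2⟩)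
  have hGii : ∀ y y' : E (m + 1), lam⁻¹ < ‖y‖ → ‖y‖ < lam → lam⁻¹ < ‖y'‖ → ‖y'‖ < lam →
      Gi y = Gi y' → y = y' := by
    intro y y' h1 h2 h3 h4 h
    have h5 := congrArg Subtype.val (G.symm.injective (Subtype.ext h))
    rwa [hAn y h1 h2, hAn y' h3 h4] at h5
  have hGic : ∀ y : E (m + 1), lam⁻¹ < ‖y‖ → ‖y‖ < lam → ContinuousAt Gi y := by
    intro y h1 h2
    have h3 : LD (m + 1) (iv (An (m + 1) lam) z₁) y :=
      LD.inverse (k := (Subtype.val : An (m + 1) lam → E (m + 1)))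
        (x := (⟨y, h1, h2⟩ : An (m + 1) lam)) isOpen_univ
        (fun z _ => LD_val (An (m + 1) lam) z) (fun z _ => iv_val (An (m + 1) lam) z₁ z)
        (mem_univ _)
    exact (continuous_subtype_val.comp G.symm.continuous).continuousAt.comp h3.continuousAt
  have hGiL : ∀ y : E (m + 1), lam⁻¹ < ‖y‖ → ‖y‖ < lam → Gi y ≠ p → LD (m + 1) Gi y := by
    intro y h1 h2 hp
    have h3 : LD (m + 1) (iv (An (m + 1) lam) z₁) y :=
      LD.inverse (k := (Subtype.val : An (m + 1) lam → E (m + 1)))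
        (x := (⟨y, h1, h2⟩ : An (m + 1) lam)) isOpen_univ
        (fun z _ => LD_val (An (m + 1) lam) z) (fun z _ => iv_val (An (m + 1) lam) z₁ z)
        (mem_univ _)
    have h4 : G.symm (iv (An (m + 1) lam) z₁ y) ≠ p := fun h => hp (congrArg Subtype.val h)
    have h5 : LD (m + 1) G.symm (iv (An (m + 1) lam) z₁ y) := by
      have h6 : LD (m + 1) G.symm (G (G.symm (iv (An (m + 1) lam) z₁ y))) :=
        LD.inverse (k := G) (U := {p}ᶜ) isOpen_compl_singleton (fun x hx => hG1 x hx)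
          (fun x _ => G.symm_apply_apply x) h4
      rwa [G.apply_symm_apply] at h6
    exact LD.comp_fun (g := (Subtype.val : V → M))
      (f := fun y => G.symm (iv (An (m + 1) lam) z₁ y)) (LD_val V _)
      (LD.comp_fun (g := G.symm) (f := iv (An (m + 1) lam) z₁) h5 h3)
  -- the relation with the collar
  have hcol1 : ∀ y : E (m + 1), lam⁻¹ < ‖y‖ → ‖y‖ < lam⁻¹ * (1 + η) → Gi y = ε (lam • y) := by
    intro y h1 h2
    have h3 : ‖lam • y‖ = lam * ‖y‖ := by rw [norm_smul, Real.norm_of_nonneg hl0.le]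
    have h4 : 1 < ‖lam • y‖ := by rw [h3]; nlinarith
    have h5 : ‖lam • y‖ < 1 + η := by
      rw [h3]
      rwa [← div_eq_inv_mul, lt_div_iff₀' hl0] at h2
    have h6 : lam • y ≠ 0 := by
      intro h
      rw [h, norm_zero] at h4
      linarith
    have h7 := hG3 (lam • y) h4 h5
    rw [smul_smul, hll, one_smul] at h7
    have h8 := hGi (iv V x₀ (ε (lam • y)))
    rw [h7] at h8
    rw [h8, end_val hε hV x₀ h6 h4.ne']
  have hcol2 : ∀ y : E (m + 1), lam⁻¹ * (1 + η)⁻¹ < ‖y‖ → ‖y‖ < lam⁻¹ →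
      Gi (dk ρ 1 y) = ε (lam • y) := by
    intro y h1 h2
    have hy0 : 0 < ‖y‖ := by
      have : 0 < lam⁻¹ * (1 + η)⁻¹ := by positivity
      linarith
    have hy : lam • y ≠ 0 := smul_ne_zero hl0.ne' (norm_pos_iff.1 hy0)
    have h3 : ‖lam • y‖ = lam * ‖y‖ := by rw [norm_smul, Real.norm_of_nonneg hl0.le]
    obtain ⟨u, hu⟩ : ∃ u : E (m + 1), u = T (m + 1) (RS S) (iv0 (lam • y)) := ⟨_, rfl⟩
    have hun : ‖u‖ = (lam * ‖y‖)⁻¹ := by rw [hu, RS_norm, norm_iv0, h3]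
    have hp0 : 0 < lam * ‖y‖ := by positivity
    have hu1 : 1 < ‖u‖ := by
      rw [hun]
      refine (one_lt_inv₀ hp0).2 ?_
      nlinarith
    have hu2 : ‖u‖ < 1 + η := by
      rw [hun, inv_lt_comm₀ hp0 (by linarith)]
      have h5 := mul_lt_mul_of_pos_left h1 hl0
      rwa [← mul_assoc, mul_inv_cancel₀ hl0.ne', one_mul] at h5
    have h7 := hG4 u hu1 hu2
    have h8 : iv0 (T (m + 1) (RS S) u) = lam • y := by rw [hu, RS_RS, iv0_iv0]
    have h9 : lam • iv0 u = dk ρ 1 y := by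
      rw [hu, ← RS_iv0, iv0_iv0, dk_one, hρa, map_smul, smul_smul, hlam2]
    rw [h8, h9] at h7
    have h10 := hGi (iv V x₀ (ε (lam • y)))
    rw [h7] at h10
    rw [h10, end_val hε hV x₀ hy (by rw [h3]; nlinarith)]
  -- the fundamental domain
  have hlev : ∀ z : E (m + 1), z ≠ 0 → ∃ k : ℤ, lam⁻¹ ≤ ‖dk ρ (-k) z‖ ∧ ‖dk ρ (-k) z‖ < lam := by
    intro z hz
    have hz' := norm_pos_iff.2 hz
    obtain ⟨k, hk1, hk2⟩ := exists_mem_Ico_zpow (x := lam * ‖z‖) (y := (2 : ℝ)) (by positivity)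
      (by norm_num)
    refine ⟨k, ?_, ?_⟩
    · rw [dk_norm, zpow_neg, ← div_eq_inv_mul, le_div_iff₀ (by positivity), inv_mul_le_iff₀ hl0]
      exact hk1
    · rw [dk_norm, zpow_neg, ← div_eq_inv_mul, div_lt_iff₀ (by positivity)]
      rw [zpow_add_one₀ (by norm_num)] at hk2
      by_contra hcon
      have h3 := mul_le_mul_of_nonneg_left (not_lt.1 hcon) hl0.le
      have h4 : lam * (lam * (2 : ℝ) ^ k) = (2 : ℝ) ^ k * 2 := by
        rw [← mul_assoc, hlam2]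
        ring
      linarith
  have hlevu : ∀ y y' : E (m + 1), ∀ k : ℤ, lam⁻¹ ≤ ‖y‖ → ‖y‖ < lam → lam⁻¹ ≤ ‖y'‖ → ‖y'‖ < lam →
      y' = dk ρ k y → k = 0 := by
    intro y y' k h1 h2 h3 h4 h
    have h5 := congrArg norm h
    rw [dk_norm] at h5
    by_contra hk
    rcases lt_or_gt_of_ne hk with h6 | h6
    · have h7 : (2 : ℝ) ^ k ≤ 2 ^ (-1 : ℤ) := zpow_le_zpow_right₀ (by norm_num) (by omega)
      rw [zpow_neg_one] at h7
      have h8 : (2 : ℝ) ^ k * ‖y‖ ≤ 2⁻¹ * ‖y‖ := mul_le_mul_of_nonneg_right h7 (norm_nonneg _)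
      linarith
    · have h7 : (2 : ℝ) ^ (1 : ℤ) ≤ 2 ^ k := zpow_le_zpow_right₀ (by norm_num) (by omega)
      rw [zpow_one] at h7
      have h8 : 2 * ‖y‖ ≤ (2 : ℝ) ^ k * ‖y‖ := mul_le_mul_of_nonneg_right h7 (norm_nonneg _)
      linarith
  choose! κ hκ1 hκ2 using hlev
  let h : E (m + 1) → M := fun y => if lam⁻¹ < ‖y‖ then Gi y else ε (lam • y)
  have hh1 : ∀ y, lam⁻¹ < ‖y‖ → h y = Gi y := fun y hy => if_pos hy
  have hh2 : ∀ y, ‖y‖ = lam⁻¹ → h y = ε (lam • y) := fun y hy => if_neg (by rw [hy]; exact lt_irrefl _)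
  let π : E (m + 1) → M := fun z => h (dk ρ (-κ z) z)
  -- the values of the projection
  have hπ : ∀ y, lam⁻¹ ≤ ‖y‖ → ‖y‖ < lam → ∀ k, π (dk ρ k y) = h y := by
    intro y h1 h2 k
    have hy : y ≠ 0 := by
      rintro rfl
      rw [norm_zero] at h1
      linarith
    have h3 := hκ1 (dk ρ k y) (dk_ne ρ k hy)
    have h4 := hκ2 (dk ρ k y) (dk_ne ρ k hy)
    have h5 : dk ρ (-κ (dk ρ k y)) (dk ρ k y) = dk ρ (-κ (dk ρ k y) + k) y := dk_add _ _ _ _
    have h6 := hlevu y _ _ h1 h2 h3 h4 h5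
    show h (dk ρ (-κ (dk ρ k y)) (dk ρ k y)) = h y
    rw [h5, h6, dk_zero]
  have hdec : ∀ z : E (m + 1), z ≠ 0 → z = dk ρ (κ z) (dk ρ (-κ z) z) := fun z hz => by
    rw [dk_neg']
  have hsph : ∀ y : E (m + 1), ‖y‖ = lam⁻¹ → ‖lam • y‖ = 1 := by
    intro y hy
    rw [norm_smul, Real.norm_of_nonneg hl0.le, hy, mul_inv_cancel₀ hl0.ne']
  have hhi : ∀ y y', lam⁻¹ ≤ ‖y‖ → ‖y‖ < lam → lam⁻¹ ≤ ‖y'‖ → ‖y'‖ < lam → h y = h y' →
      y = y' := by
    intro y y' h1 h2 h3 h4 hyy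
    have hnot : ∀ y y' : E (m + 1), ‖y‖ = lam⁻¹ → ε (lam • y) ≠ Gi y' := by
      intro y y' hy hc
      have h5 : Gi y' ∈ (V : Set M) := hGiV y'
      rw [← hc, hV] at h5
      exact h5 ⟨lam • y, mem_sphere_zero_iff_norm.2 (hsph y hy), rfl⟩
    rcases h1.lt_or_eq with h1 | h1
    · rw [hh1 y h1] at hyy
      rcases h3.lt_or_eq with h3 | h3
      · rw [hh1 y' h3] at hyy
        exact hGii y y' h1 h2 h3 h4 hyy
      · rw [hh2 y' h3.symm] at hyy
        exact absurd hyy.symm (hnot y' y h3.symm)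
    · rw [hh2 y h1.symm] at hyy
      rcases h3.lt_or_eq with h3 | h3
      · rw [hh1 y' h3] at hyy
        exact absurd hyy (hnot y y' h1.symm)
      · rw [hh2 y' h3.symm] at hyy
        have h5 : ∀ y : E (m + 1), ‖y‖ = lam⁻¹ → lam • y ≠ 0 := by
          intro y hy hc
          have := hsph y hy
          rw [hc, norm_zero] at this
          exact zero_ne_one this
        have h6 := hε.inj _ _ (h5 y h1.symm) (h5 y' h3.symm) hyy
        exact smul_right_injective _ hl0.ne' h6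
  -- the projection near a point
  have hloc : ∀ z : E (m + 1), z ≠ 0 → (lam⁻¹ < ‖dk ρ (-κ z) z‖ ∧
      π =ᶠ[𝓝 z] fun z' => Gi (dk ρ (-κ z) z')) ∨ (‖dk ρ (-κ z) z‖ = lam⁻¹ ∧
      π =ᶠ[𝓝 z] fun z' => ε (lam • dk ρ (-κ z) z')) := by
    intro z hz
    have hc : Continuous fun z' : E (m + 1) => ‖dk ρ (-κ z) z'‖ := by
      have : Continuous (dk ρ (-κ z)) := continuous_iff_continuousAt.2 fun x =>
        (dk_LD ρ (-κ z) x).continuousAt
      exact this.norm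
    have h2 := hκ2 z hz
    have hlt : ∀ᶠ z' in 𝓝 z, ‖dk ρ (-κ z) z'‖ < lam :=
      hc.continuousAt.eventually (gt_mem_nhds h2)
    have hrec : ∀ z', z' = dk ρ (κ z) (dk ρ (-κ z) z') := fun z' => (dk_neg' ρ _ _).symm
    rcases (hκ1 z hz).lt_or_eq with h1 | h1
    · left
      refine ⟨h1, ?_⟩
      filter_upwards [hlt, hc.continuousAt.eventually (lt_mem_nhds h1)] with z' a1 a2
      rw [← hh1 _ a2]
      conv_lhs => rw [hrec z']
      exact hπ _ a2.le a1 _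
    · right
      refine ⟨h1.symm, ?_⟩
      have h3 : lam⁻¹ * (1 + η)⁻¹ < lam⁻¹ := by
        have h5 : (1 + η)⁻¹ < 1 := inv_lt_one_of_one_lt₀ (by linarith)
        nlinarith
      have h4 : lam⁻¹ < lam⁻¹ * (1 + η) := by nlinarith
      have e1 : lam⁻¹ * (1 + η)⁻¹ < ‖dk ρ (-κ z) z‖ := by rw [← h1]; exact h3
      have e2 : ‖dk ρ (-κ z) z‖ < lam⁻¹ * (1 + η) := by rw [← h1]; exact h4
      filter_upwards [hlt, hc.continuousAt.eventually (lt_mem_nhds e1),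
        hc.continuousAt.eventually (gt_mem_nhds e2)] with z' a1 a2 a3
      rcases lt_trichotomy lam⁻¹ ‖dk ρ (-κ z) z'‖ with a4 | a4 | a4
      · rw [← hcol1 _ a4 a3, ← hh1 _ a4]
        conv_lhs => rw [hrec z']
        exact hπ _ a4.le a1 _
      · rw [← hh2 _ a4.symm]
        conv_lhs => rw [hrec z']
        exact hπ _ a4.le a1 _
      · rw [← hcol2 _ a2 a4]
        have a5 : ‖dk ρ 1 (dk ρ (-κ z) z')‖ = 2 * ‖dk ρ (-κ z) z'‖ := by
          rw [dk_norm, zpow_one]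
        have a6 : lam⁻¹ < ‖dk ρ 1 (dk ρ (-κ z) z')‖ := by
          rw [a5]
          have e3 : (2 / 3 : ℝ) ≤ (1 + η)⁻¹ := by
            rw [le_inv_comm₀ (by norm_num) (by linarith)]
            norm_num
            linarith
          nlinarith
        have a7 : ‖dk ρ 1 (dk ρ (-κ z) z')‖ < lam := by
          rw [a5]
          linarith
        rw [← hh1 _ a6]
        have a8 : z' = dk ρ (κ z - 1) (dk ρ 1 (dk ρ (-κ z) z')) := by
          rw [dk_add, sub_add_cancel]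
          exact hrec z'
        conv_lhs => rw [a8]
        exact hπ _ a6.le a7 _
  refine ⟨S, π, p, hS, ?_, ?_, ?_, ?_⟩
  · intro x
    by_cases hx : x ∈ V
    · have h1 := (G ⟨x, hx⟩).2
      have h2 : lam⁻¹ < ‖(G ⟨x, hx⟩ : E (m + 1))‖ := h1.1
      have h3 : ‖(G ⟨x, hx⟩ : E (m + 1))‖ < lam := h1.2
      have h4 := hπ _ h2.le h3 0
      rw [dk_zero, hh1 _ h2, hGi ⟨x, hx⟩] at h4
      refine ⟨_, ?_, h4⟩
      rintro h
      rw [h, norm_zero] at h2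
      linarith
    · have hx' : x ∈ ε '' sphere 0 1 := by
        by_contra hcon
        have : x ∈ (V : Set M) := by
          rw [hV]
          exact hcon
        exact hx this
      obtain ⟨u, hu, rfl⟩ := hx'
      rw [mem_sphere_zero_iff_norm] at hu
      have h1 : ‖lam⁻¹ • u‖ = lam⁻¹ := by
        rw [norm_smul, hu, mul_one, Real.norm_of_nonneg hli.le]
      have h4 := hπ (lam⁻¹ • u) h1.ge (by rw [h1]; nlinarith) 0
      rw [dk_zero, hh2 _ h1, smul_smul, mul_inv_cancel₀ hl0.ne', one_smul] at h4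
      refine ⟨_, ?_, h4⟩
      intro h
      rw [h, norm_zero] at h1
      linarith
  · intro z w hz hw
    rw [← hρ]
    constructor
    · intro hzw
      have h1 := hhi _ _ (hκ1 z hz) (hκ2 z hz) (hκ1 w hw) (hκ2 w hw) hzw
      refine ⟨κ w - κ z, ?_⟩
      rw [sub_eq_add_neg, ← dk_add, h1, dk_neg']
    · rintro ⟨k, rfl⟩
      have h1 := hπ _ (hκ1 z hz) (hκ2 z hz)
      have h2 : dk ρ k z = dk ρ (k + κ z) (dk ρ (-κ z) z) := by
        rw [dk_add, add_neg_cancel_right]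
      rw [h2, h1]
  · intro z hz
    rcases hloc z hz with ⟨h1, h2⟩ | ⟨h1, h2⟩
    · refine ContinuousAt.congr ?_ h2.symm
      exact ContinuousAt.comp (g := Gi) (f := dk ρ (-κ z)) (hGic _ h1 (hκ2 z hz))
        (dk_LD ρ (-κ z) z).continuousAt
    · refine ContinuousAt.congr ?_ h2.symm
      have h3 : lam • dk ρ (-κ z) z ≠ 0 := smul_ne_zero hl0.ne' (dk_ne ρ _ hz)
      exact ContinuousAt.comp (g := ε) (f := fun z' => lam • dk ρ (-κ z) z')
        (hε.ld _ h3).continuousAt ((dk_LD ρ (-κ z) z).continuousAt.const_smul lam)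
  · intro z hz hp
    rcases hloc z hz with ⟨h1, h2⟩ | ⟨h1, h2⟩
    · refine LD.congr ?_ h2
      refine LD.comp_fun (g := Gi) (f := dk ρ (-κ z)) (hGiL _ h1 (hκ2 z hz) ?_) (dk_LD ρ (-κ z) z)
      rw [h2.self_of_nhds] at hp
      exact hp
    · refine LD.congr ?_ h2
      have h3 : lam • dk ρ (-κ z) z ≠ 0 := smul_ne_zero hl0.ne' (dk_ne ρ _ hz)
      let L : E (m + 1) ≃L[ℝ] E (m + 1) := ContinuousLinearEquiv.smulLeft
        (Units.mk0 lam hl0.ne')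
      exact LD.comp_fun (g := ε) (f := fun z' => L (dk ρ (-κ z) z')) (hε.ld _ h3)
        (LD.comp_fun (g := fun y => L y) (f := dk ρ (-κ z)) (LD_linear L _) (dk_LD ρ (-κ z) z))

end build

end Pool.Agent.H827.HS
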