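import Pool.Agent.H827.HS.Dual

/-!
# Sections of the covering off a sphere
-/

set_option autoImplicit false
set_option linter.unusedSectionVars false

open Set Filter Topology Metric Function MeasureTheory
open scoped Manifold ContDiff NNReal

noncomputable section

namespace Pool.Agent.H827.HS

open Pool.Agent.Y522 Pool.Agent.X175.SH Pool.Agent.N550.KH Pool.Agent.H829.AZ

variable {n : ℕ} {ρ : E n ≃ₗᵢ[ℝ] E n}

section top

variable {M : Type} [TopologicalSpace M] [T2Space M] {π : E n → M} (h : TStd ρ π)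

include h

/-- the basic circle map -/
theorem TStd.th0 : ∃ θ₀ : M → AddCircle (1 : ℝ), Continuous θ₀ ∧
    ∀ z, z ≠ 0 → θ₀ (π z) = ((lg z : ℝ) : AddCircle (1 : ℝ)) := by
  refine h.desc (f := fun z => ((lg z : ℝ) : AddCircle (1 : ℝ))) ?_ ?_
  · exact (AddCircle.continuous_mk' (1 : ℝ)).comp_continuousOn lg_cont
  · intro z hz
    show ((lg (dk ρ 1 z) : ℝ) : AddCircle (1 : ℝ)) = _
    have h3 : ((1 : ℝ) : AddCircle (1 : ℝ)) = 0 := AddCircle.coe_period 1
    rw [lg_dk ρ 1 hz, Int.cast_one, AddCircle.coe_add, h3, add_zero]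

/-- the rank is one -/
theorem TStd.rank (hn : 3 ≤ n) {θ₀ : M → AddCircle (1 : ℝ)}
    (hθ₀ : ∀ z, z ≠ 0 → θ₀ (π z) = ((lg z : ℝ) : AddCircle (1 : ℝ)))
    {θ : M → AddCircle (1 : ℝ)} (hθ : Continuous θ) :
    ∃ (r : M → ℝ) (a : ℤ), Continuous r ∧ ∀ x, θ x = ((r x : ℝ) : AddCircle (1 : ℝ)) + a • θ₀ x := by
  obtain ⟨g, a, hg, hgθ, hga⟩ := h.deg hn hθ
  obtain ⟨r, hr, hrf⟩ := h.desc (f := fun z => g z - a * lg z)
    (hg.sub (continuousOn_const.mul lg_cont)) (fun z hz => by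
      show g (dk ρ 1 z) - a * lg (dk ρ 1 z) = g z - a * lg z
      rw [hga z hz, lg_dk ρ 1 hz, Int.cast_one]
      ring)
  refine ⟨r, a, hr, fun x => ?_⟩
  obtain ⟨z, hz, rfl⟩ := h.surj x
  rw [hrf z hz, hθ₀ z hz, ← hgθ z hz, ← AddCircle.coe_zsmul, ← AddCircle.coe_add]
  congr 1
  rw [zsmul_eq_mul]
  ring

end top

/-- torsion -/
theorem tors {X : Type} [TopologicalSpace X] {A : Set X} (hA : IsPreconnected A)
    {D : X → AddCircle (1 : ℝ)} (hD : ContinuousOn D A) {a : ℤ} (ha : a ≠ 0)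
    (h : ∀ x ∈ A, a • D x = 0) : ∀ x ∈ A, ∀ y ∈ A, D x = D y := by
  have : Fact ((0 : ℝ) < 1) := ⟨one_pos⟩
  have hfin : {u : AddCircle (1 : ℝ) | a.natAbs • u = 0}.Finite :=
    AddCircle.finite_torsion (1 : ℝ) (Int.natAbs_pos.2 ha)
  have hsub : D '' A ⊆ {u : AddCircle (1 : ℝ) | a.natAbs • u = 0} := by
    rintro _ ⟨x, hx, rfl⟩
    have h1 := h x hx
    show a.natAbs • D x = 0
    rcases Int.natAbs_eq a with h2 | h2
    · rw [h2] at h1
      rwa [natCast_zsmul] at h1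
    · rw [h2, neg_smul, neg_eq_zero] at h1
      rwa [natCast_zsmul] at h1
  have htd : IsTotallyDisconnected {u : AddCircle (1 : ℝ) | a.natAbs • u = 0} :=
    hfin.countable.isTotallyDisconnected
  have h3 := htd _ hsub (hA.image D hD)
  intro x hx y hy
  exact h3 ⟨x, hx, rfl⟩ ⟨y, hy, rfl⟩

section lift

variable {M : Type} [TopologicalSpace M] [T2Space M] [ChartedSpace (E n) M]
  [IsManifold (𝓡 n) ∞ M] {π : E n → M}

/-- **The circle map lifts off a nonseparating sphere.** -/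
theorem TStd.lift (h : TStd ρ π) (hn : 3 ≤ n) {ε : E n → M} (hε : Nk ε)
    (hV : IsPreconnected (ε '' sphere 0 1)ᶜ) {θ₀ : M → AddCircle (1 : ℝ)}
    (hθ₀c : Continuous θ₀) (hθ₀ : ∀ z, z ≠ 0 → θ₀ (π z) = ((lg z : ℝ) : AddCircle (1 : ℝ))) :
    ∃ t : M → ℝ, ContinuousOn t (ε '' sphere 0 1)ᶜ ∧
      ∀ x, x ∉ ε '' sphere 0 1 → ((t x : ℝ) : AddCircle (1 : ℝ)) = θ₀ x := by
  obtain ⟨t, ht⟩ := exists_dual hε
  obtain ⟨r, a, hr, hra⟩ := h.rank hn hθ₀ ht.circ
  let j : Fin n := ⟨0, by omega⟩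
  have ha : a ≠ 0 := by
    intro ha
    subst ha
    have h1 : ∀ x, ((t x : ℝ) : AddCircle (1 : ℝ)) = ((r x : ℝ) : AddCircle (1 : ℝ)) := by
      intro x
      have := hra x
      rwa [zero_smul, add_zero] at this
    have h2 := int_const hV (d := fun x => t x - r x) (ht.cont.sub hr.continuousOn)
      (fun x _ => by rw [AddCircle.coe_sub, h1, sub_self])
    have h3 : (ε ((2 : ℝ) • qq j)) ∉ ε '' sphere 0 1 := by
      rintro ⟨v, hv, hv'⟩
      rw [mem_sphere_zero_iff_norm] at hv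
      have hv0 : v ≠ 0 := by
        rintro rfl
        rw [norm_zero] at hv
        exact zero_ne_one hv
      have hn2 : ‖(2 : ℝ) • qq j‖ = 2 := by rw [norm_smul, norm_qq]; norm_num
      have h20 : (2 : ℝ) • qq j ≠ 0 := by
        intro hc
        rw [hc, norm_zero] at hn2
        norm_num at hn2
      have := hε.inj _ _ hv0 h20 hv'
      rw [this, hn2] at hv
      norm_num at hv
    have h4 := ht.jump hε (norm_qq j) hr.continuousAt (a := 1)
      (e := t (ε ((2 : ℝ) • qq j)) - r (ε ((2 : ℝ) • qq j))) (by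
        filter_upwards with x hx
        have := h2 x hx _ h3
        linarith)
    exact one_ne_zero h4
  have haR : (a : ℝ) ≠ 0 := by exact_mod_cast ha
  let D : M → AddCircle (1 : ℝ) := fun x =>
    θ₀ x - (((t x - r x) / a : ℝ) : AddCircle (1 : ℝ))
  have hDc : ContinuousOn D (ε '' sphere 0 1)ᶜ := by
    refine hθ₀c.continuousOn.sub ((AddCircle.continuous_mk' (1 : ℝ)).comp_continuousOn ?_)
    exact (ht.cont.sub hr.continuousOn).div_const _
  have hDa : ∀ x ∈ (ε '' sphere 0 1)ᶜ, a • D x = 0 := by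
    intro x _
    have h1 := hra x
    show a • (θ₀ x - (((t x - r x) / a : ℝ) : AddCircle (1 : ℝ))) = 0
    rw [smul_sub, ← AddCircle.coe_zsmul, zsmul_eq_mul, mul_div_cancel₀ _ haR, AddCircle.coe_sub, h1]
    abel
  have hDD := tors hV hDc ha hDa
  by_cases hne : ∃ x₀ : M, x₀ ∈ (ε '' sphere 0 1)ᶜ
  · obtain ⟨x₀, hx₀⟩ := hne
    obtain ⟨d₀, hd₀⟩ : ∃ d₀ : ℝ, ((d₀ : ℝ) : AddCircle (1 : ℝ)) = D x₀ :=
      QuotientAddGroup.mk_surjective _
    refine ⟨fun x => (t x - r x) / a + d₀,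
      ((ht.cont.sub hr.continuousOn).div_const _).add continuousOn_const, fun x hx => ?_⟩
    rw [AddCircle.coe_add, hd₀, ← hDD x hx x₀ hx₀]
    show _ + (θ₀ x - (((t x - r x) / a : ℝ) : AddCircle (1 : ℝ))) = θ₀ x
    abel
  · push Not at hne
    exact ⟨fun _ => 0, continuousOn_const, fun x hx => absurd hx (hne x)⟩

/-- **The section.** -/
theorem Std.emb {p : M} (h : Std ρ π p) (hn : 3 ≤ n) {ε : E n → M} (hε : Nk ε)
    (hV : IsPreconnected (ε '' sphere 0 1)ᶜ) : Emb n ((ε '' sphere 0 1)ᶜ \ {p}) := by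
  have hT : TStd ρ π := h.top
  obtain ⟨θ₀, hθ₀c, hθ₀⟩ := hT.th0
  obtain ⟨t, htc, ht⟩ := hT.lift hn hε hV hθ₀c hθ₀
  have hsec : ∀ x, ∃ z, z ≠ 0 ∧ π z = x ∧ (x ∉ ε '' sphere 0 1 → lg z = t x) := by
    intro x
    obtain ⟨z, hz, rfl⟩ := hT.surj x
    by_cases hx : π z ∈ ε '' sphere 0 1
    · exact ⟨z, hz, rfl, fun h => absurd hx h⟩
    · have h1 : ((lg z - t (π z) : ℝ) : AddCircle (1 : ℝ)) = 0 := by
        rw [AddCircle.coe_sub, ht _ hx, hθ₀ z hz, sub_self]
      obtain ⟨k, hk⟩ := (AddCircle.coe_eq_zero_iff (1 : ℝ)).1 h1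
      refine ⟨dk ρ (-k) z, dk_ne ρ _ hz, hT.inv hz _, fun _ => ?_⟩
      rw [lg_dk ρ _ hz]
      rw [zsmul_one] at hk
      push_cast
      linarith
  choose s hs0 hs hst using hsec
  have hopen : IsOpen ((ε '' sphere 0 1)ᶜ \ {p}) := by
    have h1 : IsCompact (ε '' sphere (0 : E n) 1) := (isCompact_sphere _ _).image_of_continuousOn
      (hε.cont fun u hu => by
        rintro rfl
        rw [mem_sphere_zero_iff_norm, norm_zero] at hu
        exact zero_ne_one hu)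
    exact h1.isClosed.isOpen_compl.sdiff isClosed_singleton
  refine ⟨(ε '' sphere 0 1)ᶜ \ {p}, s, hopen, subset_rfl, ?_, ?_⟩
  · intro x _ y _ hxy
    rw [← hs x, ← hs y, hxy]
  · rintro x ⟨hxV, hxp⟩
    have hxp' : π (s x) ≠ p := by rw [hs x]; exact hxp
    obtain ⟨j, hj, hju, hj1, hj2⟩ := (h.ld (s x) (hs0 x) hxp').exists_inverse
    rw [hs x] at hj hju hj2
    refine hj.congr ?_
    have hSo : IsOpen (ε '' sphere (0 : E n) 1)ᶜ := by
      have h1 : IsCompact (ε '' sphere (0 : E n) 1) := (isCompact_sphere _ _).image_of_continuousOn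
        (hε.cont fun u hu => by
          rintro rfl
          rw [mem_sphere_zero_iff_norm, norm_zero] at hu
          exact zero_ne_one hu)
      exact h1.isClosed.isOpen_compl
    have hjne : ∀ᶠ x' in 𝓝 x, j x' ≠ 0 := by
      refine hj.continuousAt.eventually_ne ?_
      rw [hju]
      exact hs0 x
    have hc1 : ContinuousAt (fun x' => lg (j x') - t x') x := by
      refine ContinuousAt.sub ?_ (htc.continuousAt (hSo.mem_nhds hxV))
      refine ContinuousAt.comp (g := lg) (f := j) ?_ hj.continuousAt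
      rw [hju]
      exact lg_cont.continuousAt (isOpen_compl_singleton.mem_nhds (hs0 x))
    have hv0 : lg (j x) - t x = 0 := by rw [hju, hst x hxV, sub_self]
    have hlt : ∀ᶠ x' in 𝓝 x, |lg (j x') - t x'| < 1 := by
      refine (continuous_abs.continuousAt.comp hc1).eventually (gt_mem_nhds ?_)
      show |lg (j x) - t x| < 1
      rw [hv0, abs_zero]
      exact one_pos
    filter_upwards [hjne, hlt, hj2, hSo.mem_nhds hxV] with x' h1 h2 h3 h4
    have h5 : ((lg (j x') - t x' : ℝ) : AddCircle (1 : ℝ)) = 0 := by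
      rw [AddCircle.coe_sub, ht _ h4, ← hθ₀ _ h1, h3, sub_self]
    obtain ⟨k, hk⟩ := (AddCircle.coe_eq_zero_iff (1 : ℝ)).1 h5
    rw [zsmul_one] at hk
    rw [← hk] at h2
    have hk0 : k = 0 := by
      have : |k| < 1 := by exact_mod_cast h2
      exact Int.abs_lt_one_iff.1 this
    rw [hk0, Int.cast_zero] at hk
    -- uniqueness
    obtain ⟨l, hl⟩ := (hT.fib (s x') (j x') (hs0 x') h1).1 (by rw [hs x', h3])
    have h6 := lg_dk ρ l (hs0 x')
    rw [← hl, hst x' h4] at h6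
    have hl0 : (l : ℝ) = 0 := by linarith
    have hl0' : l = 0 := by exact_mod_cast hl0
    rw [hl, hl0', dk_zero]

end lift

end Pool.Agent.H827.HS
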