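import Pool.Agent.H827.HS.Coll

/-!
# Separating spheres and functions
-/

set_option autoImplicit false
set_option linter.unusedSectionVars false

open Set Filter Topology Metric Function MeasureTheory
open scoped Manifold ContDiff NNReal

noncomputable section

namespace Pool.Agent.H827.HS

open Pool.Agent.Y522 Pool.Agent.X175.SH Pool.Agent.N550.KH Pool.Agent.H829.AZ Pool.Agent.H827.LV

theorem inner_pre {n : ℕ} (hn : 2 ≤ n) : IsPreconnected {u : E n | u ≠ 0 ∧ ‖u‖ < 1} := by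
  have h1 : {u : E n | u ≠ 0 ∧ ‖u‖ < 1} = (fun z : E n => (1 + ‖z‖)⁻¹ • z) '' {0}ᶜ := by
    ext u
    constructor
    · rintro ⟨hu, hu1⟩
      have h0 := norm_pos_iff.2 hu
      have h2 : 0 < 1 - ‖u‖ := by linarith
      refine ⟨(1 - ‖u‖)⁻¹ • u, smul_ne_zero (by positivity) hu, ?_⟩
      simp only
      rw [norm_smul, Real.norm_of_nonneg (by positivity), smul_smul]
      have h3 : (1 + (1 - ‖u‖)⁻¹ * ‖u‖)⁻¹ * (1 - ‖u‖)⁻¹ = 1 := by
        have h4 : 1 + (1 - ‖u‖)⁻¹ * ‖u‖ = (1 - ‖u‖)⁻¹ := by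
          field_simp
          ring
        rw [h4, inv_inv, mul_inv_cancel₀ h2.ne']
      rw [h3, one_smul]
    · rintro ⟨z, hz, rfl⟩
      have h0 := norm_pos_iff.2 hz
      refine ⟨smul_ne_zero (by positivity) hz, ?_⟩
      rw [norm_smul, Real.norm_of_nonneg (by positivity), inv_mul_lt_iff₀ (by positivity)]
      linarith
  rw [h1]
  have h2 : Continuous fun z : E n => (1 + ‖z‖)⁻¹ :=
    (continuous_const.add continuous_norm).inv₀ fun z => by
      have : (0 : ℝ) < 1 + ‖z‖ := by positivity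
      exact this.ne'
  exact (punct_preconnected hn).image _ (h2.smul continuous_id).continuousOn

theorem outer_pre {n : ℕ} (hn : 2 ≤ n) : IsPreconnected {u : E n | 1 < ‖u‖} := by
  have h1 : {u : E n | 1 < ‖u‖} = (iv0 : E n → E n) '' {u : E n | u ≠ 0 ∧ ‖u‖ < 1} := by
    ext u
    constructor
    · intro hu
      have hu' : 1 < ‖u‖ := hu
      have h0 : u ≠ 0 := by
        rintro rfl
        rw [norm_zero] at hu'
        linarith
      exact ⟨iv0 u, ⟨iv0_ne h0, by rw [norm_iv0]; exact inv_lt_one_of_one_lt₀ hu'⟩, iv0_iv0 u⟩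
    · rintro ⟨z, ⟨hz, hz1⟩, rfl⟩
      show 1 < ‖iv0 z‖
      rw [norm_iv0]
      exact (one_lt_inv₀ (norm_pos_iff.2 hz)).2 hz1
  rw [h1]
  exact (inner_pre hn).image _ fun z hz => (iv0_LD hz.1).continuousAt.continuousWithinAt

section sep

variable {m : ℕ} {X : Type} [TopologicalSpace X] [T2Space X] [ChartedSpace (E (m + 1)) X]
  [IsManifold (𝓡 (m + 1)) ∞ X]

/-- the two sides of a separating sphere -/
theorem split [ConnectedSpace X] (hm : 1 ≤ m) {ε : E (m + 1) → X} (hε : Nk ε)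
    (hS : ¬ IsPreconnected (ε '' sphere 0 1)ᶜ) :
    ∃ A B : Set X, IsOpen A ∧ IsOpen B ∧ Disjoint A B ∧ A ∪ B = (ε '' sphere 0 1)ᶜ ∧
      (∀ u, u ≠ 0 → ‖u‖ < 1 → ε u ∈ A) ∧ ∀ u, 1 < ‖u‖ → ε u ∈ B := by
  have hSc := sphere_closed hε
  obtain ⟨u, v, hu, hv, huv, ⟨x, hx, hxu⟩, ⟨y, hy, hyv⟩, hne⟩ : ∃ u v : Set X, IsOpen u ∧
      IsOpen v ∧ (ε '' sphere 0 1)ᶜ ⊆ u ∪ v ∧ ((ε '' sphere 0 1)ᶜ ∩ u).Nonempty ∧
      ((ε '' sphere 0 1)ᶜ ∩ v).Nonempty ∧ ¬ ((ε '' sphere 0 1)ᶜ ∩ (u ∩ v)).Nonempty := by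
    unfold IsPreconnected at hS
    push Not at hS
    obtain ⟨u, v, h1, h2, h3, h4, h5, h6⟩ := hS
    exact ⟨u, v, h1, h2, h3, h4, h5, not_nonempty_iff_eq_empty.2 h6⟩
  obtain ⟨A, hA⟩ : ∃ A : Set X, A = (ε '' sphere 0 1)ᶜ ∩ u := ⟨_, rfl⟩
  obtain ⟨B, hB⟩ : ∃ B : Set X, B = (ε '' sphere 0 1)ᶜ ∩ v := ⟨_, rfl⟩
  have hAo : IsOpen A := by rw [hA]; exact hSc.isOpen_compl.inter hu
  have hBo : IsOpen B := by rw [hB]; exact hSc.isOpen_compl.inter hv
  have hAB : A ∪ B = (ε '' sphere 0 1)ᶜ := by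
    rw [hA, hB, ← inter_union_distrib_left]
    exact inter_eq_left.2 huv
  have hd : Disjoint A B := by
    rw [Set.disjoint_left]
    intro z hz hz'
    rw [hA] at hz
    rw [hB] at hz'
    exact hne ⟨z, hz.1, hz.2, hz'.2⟩
  have hAne : A.Nonempty := by rw [hA]; exact ⟨x, hx, hxu⟩
  have hBne : B.Nonempty := by rw [hB]; exact ⟨y, hy, hyv⟩
  -- the sides
  have hoff : ∀ w : E (m + 1), w ≠ 0 → ‖w‖ ≠ 1 → ε w ∈ A ∪ B := by
    intro w hw hw1
    rw [hAB]
    rintro ⟨w', hw', hww⟩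
    have h1 := hε.inj _ _ (sphere_ne hw') hw hww
    rw [← h1, mem_sphere_zero_iff_norm.1 hw'] at hw1
    exact hw1 rfl
  have hside : ∀ T : Set (E (m + 1)), IsPreconnected T → (∀ w ∈ T, w ≠ 0 ∧ ‖w‖ ≠ 1) →
      (∀ w ∈ T, ε w ∈ A) ∨ ∀ w ∈ T, ε w ∈ B := by
    intro T hT hT1
    have h1 : IsPreconnected (ε '' T) := hT.image _ (hε.cont fun w hw => (hT1 w hw).1)
    have h2 : ε '' T ⊆ A ∪ B := by
      rintro _ ⟨w, hw, rfl⟩
      exact hoff w (hT1 w hw).1 (hT1 w hw).2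
    rcases h1.subset_or_subset hAo hBo hd h2 with h3 | h3
    · exact Or.inl fun w hw => h3 ⟨w, hw, rfl⟩
    · exact Or.inr fun w hw => h3 ⟨w, hw, rfl⟩
  have hin := hside _ (inner_pre (n := m + 1) (by omega)) (fun w hw => ⟨hw.1, hw.2.ne⟩)
  have hout := hside _ (outer_pre (n := m + 1) (by omega)) (fun w hw => ⟨by
    rintro rfl
    have : (1 : ℝ) < ‖(0 : E (m + 1))‖ := hw
    rw [norm_zero] at this
    linarith, (show 1 < ‖w‖ from hw).ne'⟩)
  -- both sides in the same part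
  have hrange : IsOpen (ε '' {0}ᶜ) :=
    isOpen_image_of_LD isOpen_compl_singleton fun u hu => hε.ld u hu
  have hsame : ∀ A B : Set X, IsOpen A → IsOpen B → Disjoint A B → A ∪ B = (ε '' sphere 0 1)ᶜ →
      A.Nonempty → B.Nonempty → (∀ w ∈ {w : E (m + 1) | w ≠ 0 ∧ ‖w‖ < 1}, ε w ∈ A) →
      (∀ w ∈ {w : E (m + 1) | 1 < ‖w‖}, ε w ∈ A) → False := by
    intro A B hAo hBo hd hAB hAne hBne h1 h2
    have h3 : Bᶜ = A ∪ ε '' {0}ᶜ := by
      ext z
      constructor
      · intro hz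
        by_cases hzS : z ∈ ε '' sphere 0 1
        · obtain ⟨w, hw, rfl⟩ := hzS
          exact Or.inr ⟨w, sphere_ne hw, rfl⟩
        · have h4 : z ∈ A ∪ B := by rw [hAB]; exact hzS
          exact Or.inl (h4.resolve_right hz)
      · rintro (hz | ⟨w, hw, rfl⟩) hzB
        · exact Set.disjoint_left.1 hd hz hzB
        · rcases lt_trichotomy ‖w‖ 1 with h4 | h4 | h4
          · exact Set.disjoint_left.1 hd (h1 w ⟨hw, h4⟩) hzB
          · have h5 : ε w ∈ (ε '' sphere 0 1)ᶜ := by rw [← hAB]; exact Or.inr hzB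
            exact h5 ⟨w, mem_sphere_zero_iff_norm.2 h4, rfl⟩
          · exact Set.disjoint_left.1 hd (h2 w h4) hzB
    have h6 : IsClosed B := by
      rw [← isOpen_compl_iff, h3]
      exact hAo.union hrange
    have h7 := IsClopen.eq_univ ⟨h6, hBo⟩ hBne
    obtain ⟨z, hz⟩ := hAne
    exact Set.disjoint_left.1 hd hz (h7 ▸ mem_univ z)
  rcases hin with hin | hin
  · rcases hout with hout | hout
    · exact (hsame A B hAo hBo hd hAB hAne hBne hin hout).elim
    · exact ⟨A, B, hAo, hBo, hd, hAB, fun u h1 h2 => hin u ⟨h1, h2⟩, fun u h1 => hout u h1⟩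
  · rcases hout with hout | hout
    · exact ⟨B, A, hBo, hAo, hd.symm, by rw [union_comm]; exact hAB,
        fun u h1 h2 => hin u ⟨h1, h2⟩, fun u h1 => hout u h1⟩
    · exact (hsame B A hBo hAo hd.symm (by rw [union_comm]; exact hAB) hBne hAne hin hout).elim

/-- a collared component of a regular level -/
structure LevCol (m : ℕ) {X : Type} [TopologicalSpace X] [ChartedSpace (E (m + 1)) X] (F : X → ℝ)
    (t : ℝ) (ε : E (m + 1) → X) : Prop where
  nk : Nk ε
  smooth : ∀ u, u ≠ 0 → ContMDiffAt (𝓡 (m + 1)) 𝓘(ℝ, ℝ) ∞ F (ε u)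
  lo : ∀ u, u ≠ 0 → ‖u‖ < 1 → F (ε u) < t
  hi : ∀ u, 1 < ‖u‖ → t < F (ε u)
  eq : ∀ u, ‖u‖ = 1 → F (ε u) = t
  reg : ∀ u, ‖u‖ = 1 → mfderiv (𝓡 (m + 1)) 𝓘(ℝ, ℝ) F (ε u) ≠ 0
  par : ∀ s₀ ∈ ε '' sphere 0 1, ∃ f : E m → X, Injective f ∧
      ContMDiff (𝓡 m) (𝓡 (m + 1)) ∞ f ∧ (∀ x, Injective (mfderiv (𝓡 m) (𝓡 (m + 1)) f x)) ∧
      range f = ε '' sphere 0 1 \ {s₀}

/-- **The function of a separating sphere.** -/
theorem sep_cut [ConnectedSpace X] (hm : 1 ≤ m) {F : X → ℝ} (hF : Continuous F) {t : ℝ}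
    {ε : E (m + 1) → X} (hε : LevCol m F t ε) (hS : ¬ IsPreconnected (ε '' sphere 0 1)ᶜ) :
    ∃ φ : X → ℝ, Cut m F φ ∧ {y | φ y = 0} = ε '' sphere 0 1 := by
  classical
  obtain ⟨A, B, hA, hB, hAB, hABu, hin, hout⟩ := split hm hε.nk hS
  have hSF : ∀ x ∈ ε '' sphere (0 : E (m + 1)) 1, F x = t := by
    rintro _ ⟨u, hu, rfl⟩
    exact hε.eq u (mem_sphere_zero_iff_norm.1 hu)
  -- the closed collar
  obtain ⟨W, hW⟩ : ∃ W : Set X, W = ε '' {u | 1 / 2 < ‖u‖ ∧ ‖u‖ < 2} := ⟨_, rfl⟩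
  have hWo : IsOpen W := by
    rw [hW]
    refine isOpen_image_of_LD (n := m + 1) ((isOpen_lt continuous_const continuous_norm).inter
      (isOpen_lt continuous_norm continuous_const)) ?_
    rintro u ⟨hu, -⟩
    refine hε.nk.ld u ?_
    rintro rfl
    have : (1 / 2 : ℝ) < ‖(0 : E (m + 1))‖ := hu
    rw [norm_zero] at this
    linarith
  have hcpt : ∀ a b : ℝ, 0 < a → IsCompact (ε '' {u | a ≤ ‖u‖ ∧ ‖u‖ ≤ b}) := by
    intro a b ha
    have h1 : {u : E (m + 1) | a ≤ ‖u‖ ∧ ‖u‖ ≤ b} = closedBall 0 b ∩ {u | a ≤ ‖u‖} := by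
      ext u
      simp [and_comm]
    refine IsCompact.image_of_continuousOn ?_ (hε.nk.cont ?_)
    · rw [h1]
      exact (isCompact_closedBall _ _).inter_right (isClosed_le continuous_const continuous_norm)
    · rintro u ⟨hu, -⟩ rfl
      rw [norm_zero] at hu
      linarith
  have hWcl : closure W ⊆ ε '' {u | 1 / 2 ≤ ‖u‖ ∧ ‖u‖ ≤ 2} := by
    refine closure_minimal ?_ (hcpt (1 / 2) 2 (by norm_num)).isClosed
    rw [hW]
    exact image_mono fun u hu => ⟨hu.1.le, hu.2.le⟩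
  have hSW : ε '' sphere 0 1 ⊆ W := by
    rw [hW]
    refine image_mono fun u hu => ?_
    rw [mem_sphere_zero_iff_norm] at hu
    refine ⟨?_, ?_⟩ <;> rw [hu] <;> norm_num
  -- the gap
  have hgap : ∀ b : ℝ, 0 < b → b ≠ 1 → ∃ δ > 0, ∀ u : E (m + 1), ‖u‖ = b → δ < |F (ε u) - t| := by
    intro b hb hb1
    have h1 := (hcpt b b hb).image hF
    have h2 : t ∉ F '' (ε '' {u | b ≤ ‖u‖ ∧ ‖u‖ ≤ b}) := by
      rintro ⟨_, ⟨u, hu, rfl⟩, hut⟩
      have hub : ‖u‖ = b := le_antisymm hu.2 hu.1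
      have hu0 : u ≠ 0 := by
        rintro rfl
        rw [norm_zero] at hub
        exact hb.ne hub
      rcases lt_or_gt_of_ne hb1 with h3 | h3
      · exact absurd hut (hε.lo u hu0 (by rw [hub]; exact h3)).ne
      · exact absurd hut (hε.hi u (by rw [hub]; exact h3)).ne'
    obtain ⟨r, hr, hball⟩ := Metric.isOpen_iff.1 h1.isClosed.isOpen_compl t h2
    refine ⟨r / 2, by positivity, fun u hu => ?_⟩
    by_contra hcon
    push Not at hcon
    have h3 : F (ε u) ∈ ball t r := by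
      rw [mem_ball, Real.dist_eq]
      linarith
    exact hball h3 ⟨_, ⟨u, ⟨hu.ge, hu.le⟩, rfl⟩, rfl⟩
  obtain ⟨δ₁, hδ₁, hg1⟩ := hgap (1 / 2) (by norm_num) (by norm_num)
  obtain ⟨δ₂, hδ₂, hg2⟩ := hgap 2 (by norm_num) (by norm_num)
  obtain ⟨δ, hδ, hδa, hδb, hδc⟩ : ∃ δ : ℝ, 0 < δ ∧ δ ≤ δ₁ ∧ δ ≤ δ₂ ∧ δ ≤ 1 / 2 :=
    ⟨min (min δ₁ δ₂) (1 / 2), by positivity, (min_le_left _ _).trans (min_le_left _ _),
      (min_le_left _ _).trans (min_le_right _ _), min_le_right _ _⟩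
  obtain ⟨h, hh, hh1, hh2, hh3⟩ := exists_step δ hδ hδc
  have hh0 : h 0 = 0 := hh1 0 (by rw [abs_zero]; positivity)
  -- the signs of the step function
  have hpos : ∀ s, δ ≤ s → h s = 1 / 2 := by
    intro s hs
    rcases hh2 s (hs.trans (le_abs_self s)) with h1 | h1
    · exact h1
    · exfalso
      obtain ⟨z, hz, hz0⟩ := intermediate_value_Icc' (a := δ / 2) (b := s) (by linarith)
        hh.continuous.continuousOn (show (0 : ℝ) ∈ Icc (h s) (h (δ / 2)) by
          rw [h1, hh1 (δ / 2) (by rw [abs_of_pos (by positivity)])]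
          constructor
          · norm_num
          · positivity)
      have h2 := hh3 z ⟨0, by rw [hz0]; simp⟩
      rw [h2] at hz
      linarith [hz.1]
  have hneg : ∀ s, s ≤ -δ → h s = -(1 / 2) := by
    intro s hs
    rcases hh2 s (by
      have := neg_le_abs s
      linarith) with h1 | h1
    · exfalso
      obtain ⟨z, hz, hz0⟩ := intermediate_value_Icc' (a := s) (b := -(δ / 2)) (by linarith)
        hh.continuous.continuousOn (show (0 : ℝ) ∈ Icc (h (-(δ / 2))) (h s) by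
          rw [h1, hh1 (-(δ / 2)) (by rw [abs_neg, abs_of_pos (by positivity)])]
          constructor
          · linarith
          · norm_num)
      have h2 := hh3 z ⟨0, by rw [hz0]; simp⟩
      rw [h2] at hz
      linarith [hz.2]
    · exact h1
  let φ : X → ℝ := fun x => if x ∈ W then h (F x - t) else if x ∈ B then 1 / 2 else -(1 / 2)
  have hφW : ∀ x ∈ W, φ x = h (F x - t) := fun x hx => if_pos hx
  have hφB : ∀ x, x ∉ W → x ∈ B → φ x = 1 / 2 := fun x h1 h2 => by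
    show (if x ∈ W then h (F x - t) else if x ∈ B then 1 / 2 else -(1 / 2)) = 1 / 2
    rw [if_neg h1, if_pos h2]
  have hφA : ∀ x, x ∉ W → x ∈ A → φ x = -(1 / 2) := fun x h1 h2 => by
    show (if x ∈ W then h (F x - t) else if x ∈ B then 1 / 2 else -(1 / 2)) = -(1 / 2)
    rw [if_neg h1, if_neg fun h3 => Set.disjoint_left.1 hAB h2 h3]
  have hoff : ∀ x, x ∉ W → x ∈ A ∪ B := by
    intro x hx
    rw [hABu]
    exact fun h => hx (hSW h)
  -- off `W` the function is locally constant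
  have hB' : ∀ x, x ∉ W → x ∈ B → ∀ᶠ y in 𝓝 x, φ y = 1 / 2 := by
    intro x hx hxB
    by_cases hxc : x ∈ closure W
    · obtain ⟨u, ⟨hu1, hu2⟩, rfl⟩ := hWcl hxc
      have hu : ‖u‖ = 1 / 2 ∨ ‖u‖ = 2 := by
        by_contra hcon
        push Not at hcon
        refine hx ?_
        rw [hW]
        exact ⟨u, ⟨lt_of_le_of_ne hu1 (Ne.symm hcon.1), lt_of_le_of_ne hu2 hcon.2⟩, rfl⟩
      rcases hu with hu | hu
      · exfalso
        have hu0 : u ≠ 0 := by
          rintro rfl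
          rw [norm_zero] at hu
          norm_num at hu
        exact Set.disjoint_left.1 hAB (hin u hu0 (by rw [hu]; norm_num)) hxB
      · have h1 := hg2 u hu
        have h2 := hε.hi u (by rw [hu]; norm_num)
        rw [abs_of_pos (by linarith)] at h1
        have h3 : δ < F (ε u) - t := by linarith
        filter_upwards [(hF.sub continuous_const).continuousAt.eventually (lt_mem_nhds h3),
          hB.mem_nhds hxB] with y h4 h5
        by_cases hy : y ∈ W
        · rw [hφW y hy]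
          exact hpos _ (le_of_lt h4)
        · exact hφB y hy h5
    · filter_upwards [isClosed_closure.isOpen_compl.mem_nhds hxc, hB.mem_nhds hxB] with y h4 h5
      exact hφB y (fun h => h4 (subset_closure h)) h5
  have hA' : ∀ x, x ∉ W → x ∈ A → ∀ᶠ y in 𝓝 x, φ y = -(1 / 2) := by
    intro x hx hxA
    by_cases hxc : x ∈ closure W
    · obtain ⟨u, ⟨hu1, hu2⟩, rfl⟩ := hWcl hxc
      have hu : ‖u‖ = 1 / 2 ∨ ‖u‖ = 2 := by
        by_contra hcon
        push Not at hcon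
        refine hx ?_
        rw [hW]
        exact ⟨u, ⟨lt_of_le_of_ne hu1 (Ne.symm hcon.1), lt_of_le_of_ne hu2 hcon.2⟩, rfl⟩
      rcases hu with hu | hu
      · have hu0 : u ≠ 0 := by
          rintro rfl
          rw [norm_zero] at hu
          norm_num at hu
        have h1 := hg1 u hu
        have h2 := hε.lo u hu0 (by rw [hu]; norm_num)
        rw [abs_of_neg (by linarith)] at h1
        have h3 : F (ε u) - t < -δ := by linarith
        filter_upwards [(hF.sub continuous_const).continuousAt.eventually (gt_mem_nhds h3),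
          hA.mem_nhds hxA] with y h4 h5
        by_cases hy : y ∈ W
        · rw [hφW y hy]
          exact hneg _ (le_of_lt h4)
        · exact hφA y hy h5
      · exfalso
        exact Set.disjoint_left.1 hAB hxA (hout u (by rw [hu]; norm_num))
    · filter_upwards [isClosed_closure.isOpen_compl.mem_nhds hxc, hA.mem_nhds hxA] with y h4 h5
      exact hφA y (fun h => h4 (subset_closure h)) h5
  have hWsm : ∀ x ∈ W, ContMDiffAt (𝓡 (m + 1)) 𝓘(ℝ, ℝ) ∞ F x := by
    intro x hx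
    rw [hW] at hx
    obtain ⟨u, hu, rfl⟩ := hx
    refine hε.smooth u ?_
    rintro rfl
    have := hu.1
    rw [norm_zero] at this
    linarith
  have hφs : ContMDiff (𝓡 (m + 1)) 𝓘(ℝ, ℝ) ∞ φ := by
    intro x
    by_cases hx : x ∈ W
    · have h2 : ContDiff ℝ ∞ fun r : ℝ => h (r - t) := hh.comp (contDiff_id.sub contDiff_const)
      refine (h2.contMDiff.contMDiffAt.comp x (hWsm x hx)).congr_of_eventuallyEq ?_
      filter_upwards [hWo.mem_nhds hx] with y hy
      exact hφW y hy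
    · rcases hoff x hx with h1 | h1
      · exact (contMDiffAt_const (c := -(1 / 2 : ℝ))).congr_of_eventuallyEq (hA' x hx h1)
      · exact (contMDiffAt_const (c := (1 / 2 : ℝ))).congr_of_eventuallyEq (hB' x hx h1)
  have hzero : {y | φ y = 0} = ε '' sphere 0 1 := by
    ext x
    constructor
    · intro hx
      have hx' : φ x = 0 := hx
      by_cases hxW : x ∈ W
      · rw [hφW x hxW] at hx'
        have h1 := hh3 _ ⟨0, by rw [hx']; simp⟩
        rw [hW] at hxW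
        obtain ⟨u, hu, rfl⟩ := hxW
        refine ⟨u, ?_, rfl⟩
        rw [mem_sphere_zero_iff_norm]
        have hu0 : u ≠ 0 := by
          rintro rfl
          have := hu.1
          rw [norm_zero] at this
          linarith
        by_contra hcon
        rcases lt_or_gt_of_ne hcon with h2 | h2
        · have := hε.lo u hu0 h2
          linarith
        · have := hε.hi u h2
          linarith
      · exfalso
        rcases hoff x hxW with h1 | h1
        · rw [hφA x hxW h1] at hx'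
          norm_num at hx'
        · rw [hφB x hxW h1] at hx'
          norm_num at hx'
    · intro hx
      show φ x = 0
      rw [hφW x (hSW hx), hSF x hx, sub_self, hh0]
  have hlocS : ∀ x ∈ ε '' sphere 0 1, ∀ᶠ y in 𝓝 x, φ y = F y - t := by
    intro x hx
    have h2 : Continuous fun z => |F z - t| := (hF.sub continuous_const).abs
    filter_upwards [hWo.mem_nhds (hSW hx), (isOpen_lt h2 continuous_const).mem_nhds
      (show |F x - t| < δ / 2 by rw [hSF x hx, sub_self, abs_zero]; positivity)] with z hz hz'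
    have hz'' : |F z - t| < δ / 2 := hz'
    rw [hφW z hz, hh1 _ hz''.le]
  have hSmem : ∀ x, φ x = 0 → x ∈ ε '' sphere 0 1 := fun x hx => hzero ▸ hx
  have hderiv : ∀ x ∈ ε '' sphere (0 : E (m + 1)) 1,
      mfderiv (𝓡 (m + 1)) 𝓘(ℝ, ℝ) φ x ≠ 0 := by
    intro x hx
    have h1 : mfderiv (𝓡 (m + 1)) 𝓘(ℝ, ℝ) φ x =
        mfderiv (𝓡 (m + 1)) 𝓘(ℝ, ℝ) (fun y => F y - t) x :=
      Filter.EventuallyEq.mfderiv_eq (hlocS x hx)
    have h3 : HasMFDerivAt (𝓡 (m + 1)) 𝓘(ℝ, ℝ) (fun y => F y - t) x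
        (mfderiv (𝓡 (m + 1)) 𝓘(ℝ, ℝ) F x) := by
      have h4 : HasMFDerivAt 𝓘(ℝ, ℝ) 𝓘(ℝ, ℝ) (fun r : ℝ => r - t) (F x)
          (ContinuousLinearMap.id ℝ ℝ) :=
        (((hasFDerivAt_id (F x)).sub_const t)).hasMFDerivAt
      exact h4.comp x (((hWsm x (hSW hx)).mdifferentiableAt (by simp)).hasMFDerivAt)
    rw [h1, h3.mfderiv]
    obtain ⟨u, hu, rfl⟩ := hx
    exact hε.reg u (mem_sphere_zero_iff_norm.1 hu)
  have hq : qq (0 : Fin (m + 1)) ∈ sphere (0 : E (m + 1)) 1 := mem_sphere_zero_iff_norm.2 (norm_qq 0)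
  have hn2 : ∀ c : ℝ, 0 < c → ‖c • qq (0 : Fin (m + 1))‖ = c := fun c hc => by
    rw [norm_smul, norm_qq, mul_one, Real.norm_of_nonneg hc.le]
  refine ⟨φ, ⟨⟨hφs, ⟨ε (qq 0), ?_⟩, ?_, ?_, ?_, ?_⟩, ?_⟩, hzero⟩
  · have : ε (qq 0) ∈ {y | φ y = 0} := hzero ▸ ⟨_, hq, rfl⟩
    exact this
  · show IsPreconnected {y | φ y = 0}
    rw [hzero]
    have h1 : 1 < Module.rank ℝ (E (m + 1)) := by
      rw [← Module.finrank_eq_rank, finrank_euclideanSpace_fin]
      exact_mod_cast (show 1 < m + 1 by omega)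
    exact (isConnected_sphere h1 0 zero_le_one).isPreconnected.image _
      (hε.nk.cont fun u hu => sphere_ne hu)
  · refine ⟨ε ((1 / 2 : ℝ) • qq 0), ?_⟩
    have h1 := hn2 (1 / 2) (by norm_num)
    have h0 : (1 / 2 : ℝ) • qq (0 : Fin (m + 1)) ≠ 0 := by
      rw [← norm_pos_iff, h1]
      norm_num
    have h2 := hin _ h0 (by rw [h1]; norm_num)
    have h3 : ε ((1 / 2 : ℝ) • qq 0) ∉ W := by
      rw [hW]
      rintro ⟨u, hu, huv⟩
      have hu0 : u ≠ 0 := by
        rintro rfl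
        have := hu.1
        rw [norm_zero] at this
        linarith
      have h4 := hε.nk.inj _ _ hu0 h0 huv
      rw [h4] at hu
      have h5 : (1 / 2 : ℝ) < ‖(1 / 2 : ℝ) • qq (0 : Fin (m + 1))‖ := hu.1
      rw [h1] at h5
      exact lt_irrefl _ h5
    rw [hφA _ h3 h2]
    norm_num
  · refine ⟨ε ((2 : ℝ) • qq 0), ?_⟩
    have h1 := hn2 2 (by norm_num)
    have h0 : (2 : ℝ) • qq (0 : Fin (m + 1)) ≠ 0 := by
      rw [← norm_pos_iff, h1]
      norm_num
    have h2 := hout ((2 : ℝ) • qq 0) (by rw [h1]; norm_num)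
    have h3 : ε ((2 : ℝ) • qq 0) ∉ W := by
      rw [hW]
      rintro ⟨u, hu, huv⟩
      have hu0 : u ≠ 0 := by
        rintro rfl
        have := hu.1
        rw [norm_zero] at this
        linarith
      have h4 := hε.nk.inj _ _ hu0 h0 huv
      rw [h4] at hu
      have h5 : ‖(2 : ℝ) • qq (0 : Fin (m + 1))‖ < 2 := hu.2
      rw [h1] at h5
      exact lt_irrefl _ h5
    rw [hφB _ h3 h2]
    norm_num
  · intro s₀ hs₀
    obtain ⟨f, f1, f2, f3, f4⟩ := hε.par s₀ (hSmem s₀ hs₀)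
    refine ⟨f, f1, f2, f3, fun x => hderiv _ ?_, ?_⟩
    · have : f x ∈ range f := mem_range_self x
      rw [f4] at this
      exact this.1
    · rw [f4, ← hzero]
      rfl
  · intro x hx
    have := hlocS x (hSmem x hx)
    rw [← hSF x (hSmem x hx)] at this
    exact this

end sep

end Pool.Agent.H827.HS
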