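import Pool.Agent.H827.HS.Lin
import Mathlib.Analysis.LocallyConvex.SeparatingDual

/-!
# Cells which are prescribed near two points
-/

set_option autoImplicit false
set_option linter.unusedSectionVars false

open Set Filter Topology Metric Function
open scoped Manifold ContDiff NNReal

noncomputable section

namespace Pool.Agent.H827.HS

open Pool.Agent.Y522 Pool.Agent.X175.SH Pool.Agent.N550.KH Pool.Agent.H829.AZ

variable {n : ℕ}

theorem RS_empty (y : E n) : T n (RS ∅) y = y := by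
  have : (RS ∅ : Matrix (Fin n) (Fin n) ℝ) = 1 := by
    rw [RS, ← Matrix.diagonal_one]
    congr 1
  rw [this, T_one]

/-- the germ of the identity of a manifold in another parametrization -/
theorem germ_at {V : Type} [TopologicalSpace V] [ChartedSpace (E n) V] [IsManifold (𝓡 n) ∞ V]
    (i₀ : Fin n) {x : E n} (hx : T n (RS {i₀}) x = x) {c e : E n → V} (hc : LD n c x)
    (he : LD n e x) (hce : c x = e x) {ε : ℝ} (hε : 0 < ε) :
    ∃ (S : Finset (Fin n)) (Ψ : E n → E n), (S = ∅ ∨ S = {i₀}) ∧ IsDf n Ψ ∧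
      (∀ᶠ y in 𝓝 x, c (Ψ (T n (RS S) y)) = e y) ∧ Ψ x = x ∧
      ∀ y, ε ≤ ‖y - x‖ → Ψ y = y := by
  obtain ⟨q, hq1, hq2, -, hq4⟩ := hc.exists_inverse
  rw [hce] at hq1 hq2 hq4
  have hSx : ∀ S : Finset (Fin n), (S = ∅ ∨ S = {i₀}) → T n (RS S) x = x := by
    rintro S (rfl | rfl)
    · exact RS_empty x
    · exact hx
  let P : E n → E n := fun y => q (e (y + x)) + -x
  have hP0 : P 0 = 0 := by
    show q (e (0 + x)) + -x = 0
    rw [zero_add, hq2, add_neg_cancel]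
  have hPL : LD n P 0 := by
    refine LD.comp_fun (g := fun y => y + -x) (f := fun y => q (e (y + x))) (LD_add_const _ _) ?_
    refine LD.comp_fun (g := q) (f := fun y => e (y + x)) ?_ ?_
    · rw [zero_add]
      exact hq1
    · refine LD.comp_fun (g := e) (f := fun y => y + x) ?_ (LD_add_const _ _)
      rw [zero_add]
      exact he
  obtain ⟨S, Φ, hS, hΦ, hΦ0, hΦ1⟩ := exists_germ i₀ hPL hP0 hε
  have htr : ∀ v : E n, IsDf n (fun y : E n => y + v) := fun v =>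
    ⟨(Equiv.addRight v).bijective, fun y => LD_add_const v y⟩
  have hΦ00 : Φ 0 = 0 := by
    rw [hΦ0.self_of_nhds, map_zero, hP0]
  have hΦs : IsDf n (fun y => Φ (y + -x)) := IsDf.comp hΦ (htr (-x))
  have hΦt : IsDf n (fun y => Φ (y + -x) + x) :=
    ⟨(htr x).1.comp hΦs.1, fun y => LD.comp_fun (g := fun z => z + x)
      (f := fun y => Φ (y + -x)) ((htr x).2 _) (hΦs.2 y)⟩
  refine ⟨S, fun y => Φ (y + -x) + x, hS, hΦt, ?_, ?_, ?_⟩
  · have h1 : Tendsto (fun y => T n (RS S) y + -x) (𝓝 x) (𝓝 0) := by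
      refine Continuous.tendsto' (by fun_prop) _ _ ?_
      rw [hSx S hS, add_neg_cancel]
    have h2 : Tendsto e (𝓝 x) (𝓝 (e x)) := he.continuousAt.tendsto
    filter_upwards [h1.eventually hΦ0, h2.eventually hq4] with y h3 h4
    show c (Φ (T n (RS S) y + -x) + x) = e y
    rw [h3]
    show c (q (e (T n (RS S) (T n (RS S) y + -x) + x)) + -x + x) = e y
    rw [map_add, map_neg, RS_RS, hSx S hS, neg_add_cancel_right, neg_add_cancel_right]
    exact h4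
  · show Φ (x + -x) + x = x
    rw [add_neg_cancel, hΦ00, zero_add]
  · intro y hy
    show Φ (y + -x) + x = y
    rw [hΦ1 _ (by rwa [← sub_eq_add_neg]), neg_add_cancel_right]

/-- **Cells which are prescribed near two points.** -/
theorem two_points {V : Type} [TopologicalSpace V] [T2Space V] [ConnectedSpace V]
    [ChartedSpace (E n) V] [IsManifold (𝓡 n) ∞ V]
    (i₀ : Fin n) {x₁ x₂ : E n} (hx : x₁ ≠ x₂) (hx₁ : T n (RS {i₀}) x₁ = x₁)
    (hx₂ : T n (RS {i₀}) x₂ = x₂) {e₁ e₂ : E n → V} (he₁ : LD n e₁ x₁) (he₂ : LD n e₂ x₂)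
    (hne : e₁ x₁ ≠ e₂ x₂) :
    ∃ (c : E n → V) (S : Finset (Fin n)), Cell n c ∧ (S = ∅ ∨ S = {i₀}) ∧
      (∀ᶠ y in 𝓝 x₁, c y = e₁ y) ∧ ∀ᶠ y in 𝓝 x₂, c y = e₂ (T n (RS S) y) := by
  obtain ⟨c₀, hc₀, hfin⟩ := exists_cell_finite (n := n) (Set.toFinite {e₁ x₁, e₂ x₂})
  obtain ⟨a₁, ha₁⟩ := hfin (Or.inl rfl)
  obtain ⟨a₂, ha₂⟩ := hfin (Or.inr rfl)
  have ha : a₁ ≠ a₂ := by
    rintro rfl
    exact hne (ha₁.symm.trans ha₂)
  obtain ⟨B, hB⟩ := SeparatingDual.exists_continuousLinearEquiv_apply_eq (R := ℝ)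
    (sub_ne_zero.2 hx.symm) (sub_ne_zero.2 ha.symm)
  have hBD : IsDf n (fun y => B y) := ⟨B.bijective, fun y => LD_linear B y⟩
  have htr : ∀ v : E n, IsDf n (fun y : E n => y + v) := fun v =>
    ⟨(Equiv.addRight v).bijective, fun y => LD_add_const v y⟩
  have hBs : IsDf n (fun y => B (y + -x₁)) := IsDf.comp hBD (htr (-x₁))
  have hA : IsDf n (fun y => B (y + -x₁) + a₁) :=
    ⟨(htr a₁).1.comp hBs.1, fun y => LD.comp_fun (g := fun z => z + a₁)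
      (f := fun y => B (y + -x₁)) ((htr a₁).2 _) (hBs.2 y)⟩
  obtain ⟨A, hAdef⟩ : ∃ A : E n → E n, A = fun y => B (y + -x₁) + a₁ := ⟨_, rfl⟩
  rw [← hAdef] at hA
  have hA1 : A x₁ = a₁ := by
    rw [hAdef]
    show B (x₁ + -x₁) + a₁ = a₁
    rw [add_neg_cancel, map_zero, zero_add]
  have hA2 : A x₂ = a₂ := by
    rw [hAdef]
    show B (x₂ + -x₁) + a₁ = a₂
    rw [← sub_eq_add_neg, hB, sub_add_cancel]
  have hc : Cell n (fun y => c₀ (A y)) := hc₀.comp hA.1.1 hA.2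
  have hd : 0 < ‖x₁ - x₂‖ := norm_sub_pos_iff.2 hx
  obtain ⟨S₁, Ψ₁, hS₁, hΨ₁, h11, h12, h13⟩ := germ_at i₀ hx₁ (hc.ld x₁) he₁
    (by show c₀ (A x₁) = e₁ x₁; rw [hA1, ha₁]) (half_pos hd)
  obtain ⟨S₂, Ψ₂, hS₂, hΨ₂, h21, h22, h23⟩ := germ_at i₀ hx₂ (hc.ld x₂) he₂
    (by show c₀ (A x₂) = e₂ x₂; rw [hA2, ha₂]) (half_pos hd)
  have hSx₁ : ∀ S : Finset (Fin n), (S = ∅ ∨ S = {i₀}) → T n (RS S) x₁ = x₁ := by
    rintro S (rfl | rfl)
    · exact RS_empty _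
    · exact hx₁
  have hSx₂ : ∀ S : Finset (Fin n), (S = ∅ ∨ S = {i₀}) → T n (RS S) x₂ = x₂ := by
    rintro S (rfl | rfl)
    · exact RS_empty _
    · exact hx₂
  -- near the points the other map is the identity
  have hn1 : ∀ᶠ y in 𝓝 x₁, Ψ₂ y = y := by
    have h1 : ∀ᶠ y in 𝓝 x₁, ‖x₁ - x₂‖ / 2 < ‖y - x₂‖ := by
      have h2 : Continuous fun y : E n => ‖y - x₂‖ := by fun_prop
      exact h2.continuousAt.eventually (lt_mem_nhds (by linarith))
    filter_upwards [h1] with y hy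
    exact h23 y hy.le
  have hn2 : ∀ᶠ y in 𝓝 x₂, Ψ₁ y = y := by
    have h1 : ∀ᶠ y in 𝓝 x₂, ‖x₁ - x₂‖ / 2 < ‖y - x₁‖ := by
      have h2 : Continuous fun y : E n => ‖y - x₁‖ := by fun_prop
      refine h2.continuousAt.eventually (lt_mem_nhds ?_)
      show ‖x₁ - x₂‖ / 2 < ‖x₂ - x₁‖
      rw [norm_sub_rev x₂ x₁]
      linarith
    filter_upwards [h1] with y hy
    exact h13 y hy.le
  obtain ⟨S, hS, hSS⟩ : ∃ S : Finset (Fin n), (S = ∅ ∨ S = {i₀}) ∧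
      ∀ y, T n (RS S₂) (T n (RS S) y) = T n (RS S₁) y := by
    rcases hS₁ with rfl | rfl
    · exact ⟨S₂, hS₂, fun y => by rw [RS_RS, RS_empty]⟩
    · rcases hS₂ with rfl | rfl
      · exact ⟨{i₀}, Or.inr rfl, fun y => by rw [RS_empty]⟩
      · exact ⟨∅, Or.inl rfl, fun y => by rw [RS_empty]⟩
  refine ⟨fun y => c₀ (A (Ψ₁ (Ψ₂ (T n (RS S₁) y)))), S, ?_, hS, ?_, ?_⟩
  · exact hc.comp (IsDf.comp hΨ₁ (IsDf.comp hΨ₂ (re_df S₁))).1.1
      (IsDf.comp hΨ₁ (IsDf.comp hΨ₂ (re_df S₁))).2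
  · have h1 : Tendsto (fun y => T n (RS S₁) y) (𝓝 x₁) (𝓝 x₁) :=
      (T n (RS S₁)).continuous.tendsto' _ _ (hSx₁ S₁ hS₁)
    filter_upwards [h1.eventually hn1, h11] with y h2 h3
    rw [h2]
    exact h3
  · have h1 : Tendsto (fun y => T n (RS S₁) y) (𝓝 x₂) (𝓝 x₂) :=
      (T n (RS S₁)).continuous.tendsto' _ _ (hSx₂ S₁ hS₁)
    have h1' : Tendsto (fun y => T n (RS S) y) (𝓝 x₂) (𝓝 x₂) :=
      (T n (RS S)).continuous.tendsto' _ _ (hSx₂ S hS)
    have h2 : Tendsto Ψ₂ (𝓝 x₂) (𝓝 x₂) := by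
      have := (hΨ₂.2 x₂).continuousAt.tendsto
      rwa [h22] at this
    filter_upwards [h1.eventually (h2.eventually hn2), h1'.eventually h21] with y h3 h4
    rw [h3, ← hSS]
    exact h4

end Pool.Agent.H827.HS
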